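import Pool.Agent.CW.MOM

/-!
# Growth of the Cauchy random walk
-/

set_option autoImplicit false

namespace Pool.Agent.CW

open MeasureTheory ProbabilityTheory Set Filter Topology

theorem grow_sum_rpow {q : ℝ} (hq0 : 0 < q) (hq1 : q ≤ 1) (a : ℕ → ℝ) (n : ℕ) :
    |∑ i ∈ Finset.range n, a i| ^ q ≤ ∑ i ∈ Finset.range n, |a i| ^ q := by
  induction n with
  | zero => simp [Real.zero_rpow hq0.ne']
  | succ n ih =>
    rw [Finset.sum_range_succ, Finset.sum_range_succ]
    calc |∑ i ∈ Finset.range n, a i + a n| ^ q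
        ≤ (|∑ i ∈ Finset.range n, a i| + |a n|) ^ q :=
          Real.rpow_le_rpow (abs_nonneg _) (abs_add_le _ _) hq0.le
      _ ≤ |∑ i ∈ Finset.range n, a i| ^ q + |a n| ^ q :=
          Real.rpow_add_le_add_rpow (abs_nonneg _) (abs_nonneg _) hq0.le hq1
      _ ≤ _ := by linarith

theorem p_GROW : P_GROW := by
  intro Ω _ P _ X hX η hη
  set q : ℝ := (1 + η / 2)⁻¹ with hq
  have hq0 : 0 < q := by positivity
  have hq1 : q < 1 := inv_lt_one_of_one_lt₀ (by linarith)
  set s : ℝ := (1 + η) * q with hs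
  have hs1 : 1 < s := by
    rw [hs, hq, ← div_eq_mul_inv, lt_div_iff₀ (by positivity)]
    linarith
  -- the `q`-th moment of a step
  have hmom : Integrable (fun x : ℝ => (1 + |x|) ^ q) (cauchyMeasure 0 1) := by
    obtain ⟨C, -, h⟩ := p_MOM q (by linarith) hq1
    simpa using (h 1 le_rfl).1
  have hmeasq : Measurable (fun x : ℝ => |x| ^ q) := by
    have hm : Measurable (fun x : ℝ => |x|) := by fun_prop
    exact hm.pow_const q
  have hmom2 : Integrable (fun x : ℝ => |x| ^ q) (cauchyMeasure 0 1) := by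
    refine hmom.mono' hmeasq.aestronglyMeasurable (Eventually.of_forall fun x => ?_)
    rw [Real.norm_of_nonneg (by positivity)]
    exact Real.rpow_le_rpow (abs_nonneg _) (by linarith) hq0.le
  set c : ENNReal := ∫⁻ x, ENNReal.ofReal (|x| ^ q) ∂(cauchyMeasure 0 1) with hc
  have hctop : c ≠ ⊤ := by
    have h1 := hmom2.lintegral_lt_top
    exact h1.ne
  have hstep : ∀ i, ∫⁻ ω, ENNReal.ofReal (|X i ω| ^ q) ∂P = c := by
    intro i
    rw [hc, ← hX.law i, lintegral_map (by fun_prop) (hX.measurable i)]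
  -- the weighted sum
  set w : ℕ → ENNReal := fun i => ENNReal.ofReal (((i : ℝ) + 1) ^ s)⁻¹ with hw
  have hwsum : ∑' i, w i ≠ ⊤ := by
    have h1 : Summable (fun i : ℕ => (((i : ℝ) + 1) ^ s)⁻¹) := by
      have h2 := (Real.summable_one_div_nat_add_rpow 1 s).2 hs1
      refine h2.congr fun i => ?_
      rw [abs_of_pos (by positivity), one_div]
    rw [← ENNReal.ofReal_tsum_of_nonneg (fun i => by positivity) h1]
    exact ENNReal.ofReal_ne_top
  have hmeasX : ∀ i, Measurable (fun ω => w i * ENNReal.ofReal (|X i ω| ^ q)) := by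
    intro i
    exact ((hmeasq.comp (hX.measurable i)).ennreal_ofReal).const_mul _
  have hlint : ∫⁻ ω, ∑' i, w i * ENNReal.ofReal (|X i ω| ^ q) ∂P ≠ ⊤ := by
    rw [lintegral_tsum (fun i => (hmeasX i).aemeasurable)]
    have h1 : ∀ i, ∫⁻ ω, w i * ENNReal.ofReal (|X i ω| ^ q) ∂P = w i * c := by
      intro i
      have h2 : Measurable (fun ω => ENNReal.ofReal (|X i ω| ^ q)) :=
        (hmeasq.comp (hX.measurable i)).ennreal_ofReal
      rw [lintegral_const_mul _ h2, hstep i]
    simp only [h1]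
    rw [ENNReal.tsum_mul_right]
    exact ENNReal.mul_ne_top hwsum hctop
  have hae := ae_lt_top (Measurable.ennreal_tsum hmeasX) hlint
  filter_upwards [hae] with ω hω
  set W : ℝ := (∑' i, w i * ENNReal.ofReal (|X i ω| ^ q)).toReal with hW
  refine ⟨W ^ (1 / q), fun n hn => ?_⟩
  have hn0 : (0 : ℝ) < n := by exact_mod_cast hn
  have hW0 : 0 ≤ W := ENNReal.toReal_nonneg
  have hpart : ∑ i ∈ Finset.range n, (((i : ℝ) + 1) ^ s)⁻¹ * |X i ω| ^ q ≤ W := by
    have h1 : ∑ i ∈ Finset.range n, w i * ENNReal.ofReal (|X i ω| ^ q) ≤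
        ∑' i, w i * ENNReal.ofReal (|X i ω| ^ q) := ENNReal.sum_le_tsum _
    have h2 := ENNReal.toReal_mono hω.ne h1
    rw [ENNReal.toReal_sum (fun i _ => by
      simp only [hw]
      exact ENNReal.mul_ne_top ENNReal.ofReal_ne_top ENNReal.ofReal_ne_top)] at h2
    refine le_trans (le_of_eq ?_) h2
    refine Finset.sum_congr rfl fun i _ => ?_
    simp only [hw]
    rw [ENNReal.toReal_mul, ENNReal.toReal_ofReal (by positivity),
      ENNReal.toReal_ofReal (by positivity)]
  have h1 : |walk X n ω| ^ q ≤ (n : ℝ) ^ s * W := by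
    calc |walk X n ω| ^ q ≤ ∑ i ∈ Finset.range n, |X i ω| ^ q :=
          grow_sum_rpow hq0 hq1.le (fun i => X i ω) n
      _ ≤ ∑ i ∈ Finset.range n, (n : ℝ) ^ s * ((((i : ℝ) + 1) ^ s)⁻¹ * |X i ω| ^ q) := by
          refine Finset.sum_le_sum fun i hi => ?_
          rw [← mul_assoc]
          have hi' : (i : ℝ) + 1 ≤ n := by
            have := Finset.mem_range.1 hi
            exact_mod_cast this
          have h2 : (1 : ℝ) ≤ (n : ℝ) ^ s * (((i : ℝ) + 1) ^ s)⁻¹ := by
            rw [← div_eq_mul_inv, one_le_div (by positivity)]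
            exact Real.rpow_le_rpow (by positivity) hi' (by linarith)
          exact le_mul_of_one_le_left (by positivity) h2
      _ = (n : ℝ) ^ s * ∑ i ∈ Finset.range n, (((i : ℝ) + 1) ^ s)⁻¹ * |X i ω| ^ q := by
          rw [Finset.mul_sum]
      _ ≤ (n : ℝ) ^ s * W := mul_le_mul_of_nonneg_left hpart (by positivity)
  have h2 : |walk X n ω| = (|walk X n ω| ^ q) ^ (1 / q) := by
    rw [← Real.rpow_mul (abs_nonneg _), mul_one_div_cancel hq0.ne', Real.rpow_one]
  rw [h2]
  calc (|walk X n ω| ^ q) ^ (1 / q) ≤ ((n : ℝ) ^ s * W) ^ (1 / q) :=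
        Real.rpow_le_rpow (by positivity) h1 (by positivity)
    _ = W ^ (1 / q) * (n : ℝ) ^ (1 + η) := by
        rw [Real.mul_rpow (by positivity) hW0, ← Real.rpow_mul hn0.le, hs]
        rw [show (1 + η) * q * (1 / q) = 1 + η by field_simp]
        ring

end Pool.Agent.CW
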