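import Pool.Agent.CW.Defs

/-!
# The Cauchy random walk: the hitting lemma (second moment method)
-/

set_option autoImplicit false

namespace Pool.Agent.CW

open MeasureTheory ProbabilityTheory Set Filter Topology

namespace HIT_

/-- upper bound for the Cauchy measure of a set -/
lemma meas_up {r : ℕ} (hr : 1 ≤ r) {S : Set ℝ} (hS : MeasurableSet S) :
    cauchyMeasure 0 (r : NNReal) S ≤ ENNReal.ofReal (1 / (Real.pi * r)) * volume S := by
  have hr0 : (r : NNReal) ≠ 0 := by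
    have : r ≠ 0 := by omega
    exact_mod_cast this
  have hr1 : (0 : ℝ) < r := by exact_mod_cast hr
  rw [cauchyMeasure_of_scale_ne_zero _ hr0, withDensity_apply _ hS, ← setLIntegral_const]
  refine lintegral_mono fun x => ?_
  rw [cauchyPDF_def]
  apply ENNReal.ofReal_le_ofReal
  rw [cauchyPDFReal_def]
  have h1 : (((x - 0) ^ 2 + (((r : NNReal) : ℝ)) ^ 2))⁻¹ ≤ ((r : ℝ) ^ 2)⁻¹ := by
    apply inv_anti₀ (by positivity)
    have : 0 ≤ (x - 0) ^ 2 := sq_nonneg _
    simp only [NNReal.coe_natCast]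
    linarith
  calc Real.pi⁻¹ * ((r : NNReal) : ℝ) * (((x - 0) ^ 2 + (((r : NNReal) : ℝ)) ^ 2))⁻¹ ≤
      Real.pi⁻¹ * (r : ℝ) * ((r : ℝ) ^ 2)⁻¹ := by
        simp only [NNReal.coe_natCast] at h1 ⊢
        exact mul_le_mul_of_nonneg_left h1 (by positivity)
    _ = 1 / (Real.pi * r) := by
        field_simp

/-- lower bound for the Cauchy measure of a set -/
lemma meas_low {r : ℕ} (hr : 1 ≤ r) {S : Set ℝ} (hS : MeasurableSet S)
    (hSr : ∀ x ∈ S, |x| ≤ 2 * r) :
    ENNReal.ofReal (1 / (5 * Real.pi * r)) * volume S ≤ cauchyMeasure 0 (r : NNReal) S := by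
  have hr0 : (r : NNReal) ≠ 0 := by
    have : r ≠ 0 := by omega
    exact_mod_cast this
  have hr1 : (0 : ℝ) < r := by exact_mod_cast hr
  rw [cauchyMeasure_of_scale_ne_zero _ hr0, withDensity_apply _ hS, ← setLIntegral_const]
  refine setLIntegral_mono' hS fun x hx => ?_
  rw [cauchyPDF_def]
  apply ENNReal.ofReal_le_ofReal
  rw [cauchyPDFReal_def]
  have h0 : x ^ 2 ≤ (2 * (r : ℝ)) ^ 2 := by
    rw [← sq_abs x]
    exact pow_le_pow_left₀ (abs_nonneg x) (hSr x hx) 2
  have h1 : (5 * (r : ℝ) ^ 2)⁻¹ ≤ ((x - 0) ^ 2 + (r : ℝ) ^ 2)⁻¹ := by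
    apply inv_anti₀ (by positivity)
    rw [sub_zero]
    nlinarith
  calc 1 / (5 * Real.pi * r) = Real.pi⁻¹ * (r : ℝ) * (5 * (r : ℝ) ^ 2)⁻¹ := by
        field_simp
    _ ≤ Real.pi⁻¹ * ((r : NNReal) : ℝ) * (((x - 0) ^ 2 + (((r : NNReal) : ℝ)) ^ 2))⁻¹ := by
        simp only [NNReal.coe_natCast]
        exact mul_le_mul_of_nonneg_left h1 (by positivity)

variable {Ω : Type} [MeasurableSpace Ω] {P : Measure Ω} [IsProbabilityMeasure P]
  {X : ℕ → Ω → ℝ}

lemma walk_meas (hX : IsCauchySeq P X) (n : ℕ) : Measurable (walk X n) := by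
  unfold walk
  exact Finset.measurable_sum _ fun i _ => hX.measurable i

lemma pair_meas (hX : IsCauchySeq P X) (m n : ℕ) :
    Measurable fun ω => (walk X m ω, walk X n ω - walk X m ω) :=
  (walk_meas hX m).prodMk ((walk_meas hX n).sub (walk_meas hX m))

/-- the law of the position at time `n` -/
lemma law (h : P_PAIR) (hX : IsCauchySeq P X) (n : ℕ) {S : Set ℝ} (hS : MeasurableSet S) :
    P {ω | walk X n ω ∈ S} = cauchyMeasure 0 (n : NNReal) S := by
  have h1 := h P X hX n n le_rfl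
  have h2 : P.map (fun ω => (walk X n ω, walk X n ω - walk X n ω)) (S ×ˢ univ) =
      P {ω | walk X n ω ∈ S} := by
    rw [Measure.map_apply (pair_meas hX n n) (hS.prod MeasurableSet.univ)]
    congr 1
    ext ω
    simp
  rw [← h2, h1, Measure.prod_prod]
  simp

/-- the law of two positions in a set -/
lemma law2 (h : P_PAIR) (hX : IsCauchySeq P X) {m n : ℕ} (hmn : m < n) {S : Set ℝ}
    (hS : MeasurableSet S) :
    P {ω | walk X m ω ∈ S ∧ walk X n ω ∈ S} ≤
      P {ω | walk X m ω ∈ S} * (ENNReal.ofReal (1 / (Real.pi * ((n - m : ℕ) : ℝ))) * volume S) := by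
  have h1 := h P X hX m n hmn.le
  have hQ : MeasurableSet {q : ℝ × ℝ | q.1 ∈ S ∧ q.1 + q.2 ∈ S} :=
    (measurable_fst hS).inter ((measurable_fst.add measurable_snd) hS)
  have h2 : P.map (fun ω => (walk X m ω, walk X n ω - walk X m ω))
      {q : ℝ × ℝ | q.1 ∈ S ∧ q.1 + q.2 ∈ S} = P {ω | walk X m ω ∈ S ∧ walk X n ω ∈ S} := by
    rw [Measure.map_apply (pair_meas hX m n) hQ]
    congr 1
    ext ω
    simp
  rw [← h2, h1, Measure.prod_apply hQ, law h hX m hS]
  calc ∫⁻ x, cauchyMeasure 0 ((n - m : ℕ) : NNReal)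
        (Prod.mk x ⁻¹' {q : ℝ × ℝ | q.1 ∈ S ∧ q.1 + q.2 ∈ S}) ∂(cauchyMeasure 0 (m : NNReal)) ≤
      ∫⁻ x, S.indicator
        (fun _ => ENNReal.ofReal (1 / (Real.pi * ((n - m : ℕ) : ℝ))) * volume S) x
          ∂(cauchyMeasure 0 (m : NNReal)) := by
        refine lintegral_mono fun x => ?_
        by_cases hx : x ∈ S
        · rw [indicator_of_mem hx]
          have h3 : Prod.mk x ⁻¹' {q : ℝ × ℝ | q.1 ∈ S ∧ q.1 + q.2 ∈ S} =
              (fun y => x + y) ⁻¹' S := by
            ext y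
            simp [hx]
          have h4 : volume ((fun y => x + y) ⁻¹' S) = volume S := measure_preimage_add volume x S
          rw [h3, ← h4]
          exact meas_up (by omega) ((measurable_const_add x) hS)
        · rw [indicator_of_notMem hx]
          have h3 : Prod.mk x ⁻¹' {q : ℝ × ℝ | q.1 ∈ S ∧ q.1 + q.2 ∈ S} = ∅ := by
            ext y
            simp [hx]
          rw [h3, measure_empty]
    _ = cauchyMeasure 0 (m : NNReal) S *
        (ENNReal.ofReal (1 / (Real.pi * ((n - m : ℕ) : ℝ))) * volume S) := by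
        rw [lintegral_indicator_const hS, mul_comm]

/-- the second moment method -/
lemma second_moment (E : ℕ → Set Ω) (hE : ∀ n, MeasurableSet (E n)) (I : Finset ℕ) (M : ℝ)
    (hM : 0 < M)
    (h : ∑ m ∈ I, ∑ n ∈ I, P.real (E m ∩ E n) ≤ (∑ n ∈ I, P.real (E n)) * M) :
    ∑ n ∈ I, P.real (E n) ≤ M * P.real (⋃ n ∈ I, E n) := by
  classical
  set G : Set Ω := ⋃ n ∈ I, E n with hG
  have hGm : MeasurableSet G := Finset.measurableSet_biUnion I fun n _ => hE n
  set f : ℕ → Ω → ℝ := fun n => (E n).indicator 1 with hf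
  have hfi : ∀ n, Integrable (f n) P := fun n =>
    (integrable_const (1 : ℝ)).indicator (hE n)
  have hfI : ∀ n, ∫ ω, f n ω ∂P = P.real (E n) := fun n => integral_indicator_one (hE n)
  have hff : ∀ m n ω, f m ω * f n ω = (E m ∩ E n).indicator (1 : Ω → ℝ) ω := by
    intro m n ω
    rw [inter_indicator_one]
    rfl
  have hffi : ∀ m n, Integrable (fun ω => f m ω * f n ω) P := by
    intro m n
    simp only [hff]
    exact (integrable_const (1 : ℝ)).indicator ((hE m).inter (hE n))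
  have hffI : ∀ m n, ∫ ω, f m ω * f n ω ∂P = P.real (E m ∩ E n) := by
    intro m n
    simp only [hff]
    exact integral_indicator_one ((hE m).inter (hE n))
  have hpt : ∀ ω, ∑ n ∈ I, f n ω ≤
      (1 / (2 * M)) * (∑ m ∈ I, ∑ n ∈ I, f m ω * f n ω) + (M / 2) * G.indicator 1 ω := by
    intro ω
    have h1 : ∑ m ∈ I, ∑ n ∈ I, f m ω * f n ω = (∑ n ∈ I, f n ω) ^ 2 := by
      rw [sq, Finset.sum_mul_sum]
    rw [h1]
    by_cases hω : ω ∈ G
    · rw [indicator_of_mem hω]
      have h2 : 0 ≤ (1 / (2 * M)) * ((∑ n ∈ I, f n ω) - M) ^ 2 := by positivity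
      have h3 : (1 / (2 * M)) * ((∑ n ∈ I, f n ω) - M) ^ 2 =
          (1 / (2 * M)) * (∑ n ∈ I, f n ω) ^ 2 - (∑ n ∈ I, f n ω) + M / 2 := by
        field_simp
        ring
      simp only [Pi.one_apply, mul_one]
      linarith
    · have h2 : ∑ n ∈ I, f n ω = 0 := by
        refine Finset.sum_eq_zero fun n hn => ?_
        apply indicator_of_notMem
        intro h3
        exact hω (mem_biUnion hn h3)
      rw [h2, indicator_of_notMem hω]
      simp
  have hGi : Integrable (fun ω => G.indicator (1 : Ω → ℝ) ω) P :=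
    (integrable_const (1 : ℝ)).indicator hGm
  have hGI : ∫ ω, G.indicator (1 : Ω → ℝ) ω ∂P = P.real G := integral_indicator_one hGm
  have hS1 : Integrable (fun ω => ∑ n ∈ I, f n ω) P := integrable_finsetSum _ fun n _ => hfi n
  have hS2 : ∀ m, Integrable (fun ω => ∑ n ∈ I, f m ω * f n ω) P := fun m =>
    integrable_finsetSum _ fun n _ => hffi m n
  have hS3 : Integrable (fun ω => ∑ m ∈ I, ∑ n ∈ I, f m ω * f n ω) P :=
    integrable_finsetSum _ fun m _ => hS2 m
  have hint : ∫ ω, ∑ n ∈ I, f n ω ∂P ≤ (1 / (2 * M)) *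
      ∫ ω, ∑ m ∈ I, ∑ n ∈ I, f m ω * f n ω ∂P + (M / 2) * P.real G := by
    rw [← hGI, ← integral_const_mul, ← integral_const_mul,
      ← integral_add (hS3.const_mul _) (hGi.const_mul _)]
    exact integral_mono hS1 ((hS3.const_mul _).add (hGi.const_mul _)) hpt
  rw [integral_finsetSum _ fun n _ => hfi n, integral_finsetSum _ fun m _ => hS2 m] at hint
  have h4 : ∑ m ∈ I, ∫ ω, ∑ n ∈ I, f m ω * f n ω ∂P = ∑ m ∈ I, ∑ n ∈ I, P.real (E m ∩ E n) := by
    refine Finset.sum_congr rfl fun m _ => ?_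
    rw [integral_finsetSum _ fun n _ => hffi m n]
    exact Finset.sum_congr rfl fun n _ => hffI m n
  rw [h4, Finset.sum_congr rfl fun n _ => hfI n] at hint
  have h5 : (1 / (2 * M)) * ∑ m ∈ I, ∑ n ∈ I, P.real (E m ∩ E n) ≤
      (∑ n ∈ I, P.real (E n)) / 2 := by
    calc (1 / (2 * M)) * ∑ m ∈ I, ∑ n ∈ I, P.real (E m ∩ E n) ≤
        (1 / (2 * M)) * ((∑ n ∈ I, P.real (E n)) * M) :=
          mul_le_mul_of_nonneg_left h (by positivity)
      _ = _ := by field_simp
  linarith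

/-- sums of reciprocals -/
lemma log_le_sum (a : ℕ) (ha : 1 ≤ a) (N : ℕ) (hN : a ≤ N + 1) :
    Real.log ((N : ℝ) + 1) - Real.log a ≤ ∑ n ∈ Finset.Icc a N, 1 / (n : ℝ) := by
  induction N with
  | zero =>
    have : a = 1 := by omega
    subst this
    simp
  | succ N ih =>
    rcases Nat.lt_or_ge (N + 1) a with h | h
    · have h2 : a = N + 2 := by omega
      subst h2
      rw [Finset.Icc_eq_empty (by omega), Finset.sum_empty]
      push_cast
      rw [show (N : ℝ) + 1 + 1 = N + 2 by ring]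
      simp
    · rw [Finset.sum_Icc_succ_top h]
      have h1 := ih h
      have h2 : Real.log ((N : ℝ) + 1 + 1) - Real.log ((N : ℝ) + 1) ≤ 1 / ((N : ℝ) + 1) := by
        rw [← Real.log_div (by positivity) (by positivity)]
        have h3 : ((N : ℝ) + 1 + 1) / ((N : ℝ) + 1) = 1 + 1 / ((N : ℝ) + 1) := by
          field_simp
        rw [h3]
        have h4 := Real.log_le_sub_one_of_pos (x := 1 + 1 / ((N : ℝ) + 1)) (by positivity)
        linarith
      push_cast
      linarith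

/-- harmonic sums -/
lemma sum_le_log (N : ℕ) : ∑ n ∈ Finset.Icc 1 N, 1 / (n : ℝ) ≤ 1 + Real.log N := by
  have h := harmonic_le_one_add_log N
  have h2 : ((harmonic N : ℚ) : ℝ) = ∑ n ∈ Finset.Icc 1 N, 1 / (n : ℝ) := by
    rw [harmonic_eq_sum_Icc]
    push_cast
    exact Finset.sum_congr rfl fun n _ => by rw [one_div]
  rw [← h2]
  exact h

/-- the double sum -/
lemma double_sum (a : ℕ → ℝ) (ha : ∀ n, 0 ≤ a n) (c : ℝ) (hc : 0 ≤ c) (n₀ N : ℕ)
    (b : ℕ → ℕ → ℝ) (hb : ∀ m n, m < n → b m n ≤ a m * (c * (1 / ((n - m : ℕ) : ℝ))))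
    (hs : ∀ m n, b m n = b n m) (hd : ∀ n, b n n = a n) :
    ∑ m ∈ Finset.Icc n₀ N, ∑ n ∈ Finset.Icc n₀ N, b m n ≤
      (∑ n ∈ Finset.Icc n₀ N, a n) * (1 + 2 * c * ∑ r ∈ Finset.Icc 1 N, 1 / (r : ℝ)) := by
  classical
  set I := Finset.Icc n₀ N with hI
  set H := ∑ r ∈ Finset.Icc 1 N, 1 / (r : ℝ) with hH
  obtain ⟨g, hg⟩ : ∃ g : ℕ → ℕ → ℝ, ∀ m n, g m n =
    if m < n then a m * (c * (1 / ((n - m : ℕ) : ℝ))) else 0 := ⟨_, fun _ _ => rfl⟩
  have hg0 : ∀ m n, 0 ≤ g m n := by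
    intro m n
    rw [hg]
    split_ifs
    · have := ha m
      positivity
    · exact le_rfl
  have h1 : ∀ m n, b m n ≤ g m n + g n m + (if m = n then a m else 0) := by
    intro m n
    have e1 := hg0 m n
    have e2 := hg0 n m
    rcases lt_trichotomy m n with h | h | h
    · rw [if_neg (by omega), hg m n, if_pos h]
      have := hb m n h
      linarith
    · subst h
      rw [if_pos rfl, hd]
      linarith
    · rw [if_neg (by omega), hg n m, if_pos h, hs m n]
      have := hb n m h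
      linarith
  have h2 : ∀ m, ∑ n ∈ I, g m n ≤ a m * (c * H) := by
    intro m
    have e1 : ∑ n ∈ I, g m n =
        ∑ n ∈ I.filter (fun n => m < n), a m * (c * (1 / ((n - m : ℕ) : ℝ))) := by
      rw [Finset.sum_filter]
      exact Finset.sum_congr rfl fun n _ => hg m n
    rw [e1, ← Finset.mul_sum, ← Finset.mul_sum]
    refine mul_le_mul_of_nonneg_left (mul_le_mul_of_nonneg_left ?_ hc) (ha m)
    have e2 : ∑ n ∈ I.filter (fun n => m < n), 1 / ((n - m : ℕ) : ℝ) =
        ∑ r ∈ (I.filter (fun n => m < n)).image (fun n => n - m), 1 / (r : ℝ) := by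
      rw [Finset.sum_image]
      intro x hx y hy hxy
      simp only [Finset.coe_filter, mem_ofPred_eq] at hx hy
      have e3 := hx.2
      have e4 := hy.2
      simp only at hxy
      omega
    rw [e2, hH]
    refine Finset.sum_le_sum_of_subset_of_nonneg ?_ fun r _ _ => by positivity
    intro r hr
    obtain ⟨n, hn, rfl⟩ := Finset.mem_image.1 hr
    rw [Finset.mem_filter, hI, Finset.mem_Icc] at hn
    rw [Finset.mem_Icc]
    omega
  calc ∑ m ∈ I, ∑ n ∈ I, b m n ≤
      ∑ m ∈ I, ∑ n ∈ I, (g m n + g n m + (if m = n then a m else 0)) :=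
        Finset.sum_le_sum fun m _ => Finset.sum_le_sum fun n _ => h1 m n
    _ = ∑ m ∈ I, ∑ n ∈ I, g m n + ∑ m ∈ I, ∑ n ∈ I, g n m + ∑ m ∈ I, a m := by
        simp only [Finset.sum_add_distrib, Finset.sum_ite_eq]
        congr 1
        refine Finset.sum_congr rfl fun m hm => ?_
        rw [if_pos hm]
    _ = 2 * ∑ m ∈ I, ∑ n ∈ I, g m n + ∑ m ∈ I, a m := by
        rw [Finset.sum_comm (f := fun m n => g n m)]
        ring
    _ ≤ 2 * ∑ m ∈ I, a m * (c * H) + ∑ m ∈ I, a m := by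
        have := Finset.sum_le_sum fun m (_ : m ∈ I) => h2 m
        linarith
    _ = _ := by
        rw [← Finset.sum_mul]
        ring

end HIT_

theorem p_HIT (hP : P_PAIR) : P_HIT := by
  intro δ hδ η hη
  have hpi : 0 < Real.pi := Real.pi_pos
  obtain ⟨c1, hc1⟩ : ∃ c1 : ℝ, c1 = δ * η / (20 * Real.pi) := ⟨_, rfl⟩
  obtain ⟨c2, hc2⟩ : ∃ c2 : ℝ, c2 = 1 + 2 * (δ / Real.pi) * (2 + η) := ⟨_, rfl⟩
  have hc1p : 0 < c1 := by rw [hc1]; positivity
  have hc2p : 0 < c2 := by rw [hc2]; positivity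
  refine ⟨c1 / c2, by positivity, max (Real.exp 1) (Real.exp (2 * Real.log 2 / η)),
    le_max_of_le_left (Real.one_le_exp zero_le_one), ?_⟩
  intro T hT D hD hDT hDl hDu Ω _ P _ X hX
  have hT1 : Real.exp 1 ≤ T := (le_max_left _ _).trans hT
  have hT2 : Real.exp (2 * Real.log 2 / η) ≤ T := (le_max_right _ _).trans hT
  have hTpos : 0 < T := (Real.exp_pos 1).trans_le hT1
  obtain ⟨l, hl⟩ : ∃ l : ℝ, l = Real.log T := ⟨_, rfl⟩
  have hl1 : 1 ≤ l := by
    rw [hl, Real.le_log_iff_exp_le hTpos]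
    exact hT1
  have hl2 : Real.log 2 ≤ η / 2 * l := by
    have h1 : 2 * Real.log 2 / η ≤ l := by
      rw [hl, Real.le_log_iff_exp_le hTpos]
      exact hT2
    rw [div_le_iff₀ hη] at h1
    linarith
  have hTone : 1 ≤ T := (Real.one_le_exp zero_le_one).trans hT1
  have hTpow : T ≤ T ^ (1 + η) := by
    nth_rewrite 1 [← Real.rpow_one T]
    exact Real.rpow_le_rpow_of_exponent_le hTone (by linarith)
  obtain ⟨n₀, hn₀⟩ : ∃ n₀ : ℕ, n₀ = ⌈T⌉₊ := ⟨_, rfl⟩
  obtain ⟨N, hN⟩ : ∃ N : ℕ, N = ⌊T ^ (1 + η)⌋₊ := ⟨_, rfl⟩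
  have hn1 : T ≤ n₀ := by rw [hn₀]; exact Nat.le_ceil T
  have hn2 : (n₀ : ℝ) < T + 1 := by rw [hn₀]; exact Nat.ceil_lt_add_one hTpos.le
  have hN1 : (N : ℝ) ≤ T ^ (1 + η) := by
    rw [hN]
    exact Nat.floor_le (by positivity)
  have hN2 : T ^ (1 + η) < N + 1 := by rw [hN]; exact Nat.lt_floor_add_one _
  have hn₀1 : 1 ≤ n₀ := by
    have : (0 : ℝ) < n₀ := hTpos.trans_le hn1
    exact_mod_cast this
  have hn₀N : n₀ ≤ N + 1 := by
    rw [hn₀]
    refine Nat.ceil_le.2 ?_
    push_cast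
    linarith
  -- the events
  obtain ⟨E, hE⟩ : ∃ E : ℕ → Set Ω, ∀ n, E n = {ω | walk X n ω ∈ D} := ⟨_, fun _ => rfl⟩
  have hEm : ∀ n, MeasurableSet (E n) := by
    intro n
    rw [hE]
    exact HIT_.walk_meas hX n hD
  have hvol : volume D ≠ ⊤ := by
    refine ne_top_of_le_ne_top ?_ (measure_mono hDT)
    rw [Real.volume_Icc]
    exact ENNReal.ofReal_ne_top
  have hvolD : (volume D).toReal = volume.real D := rfl
  -- lower bound for the probabilities
  have hlow : ∀ n ∈ Finset.Icc n₀ N, δ / (10 * Real.pi) * (1 / (n : ℝ)) ≤ P.real (E n) := by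
    intro n hn
    rw [Finset.mem_Icc] at hn
    have hn3 : 1 ≤ n := hn₀1.trans hn.1
    have hn4 : (n₀ : ℝ) ≤ n := by exact_mod_cast hn.1
    have hn5 : (0 : ℝ) < n := by exact_mod_cast hn3
    have h1 := HIT_.meas_low hn3 hD (fun x hx => by
      have h2 := hDT hx
      rw [abs_of_nonneg (by linarith [h2.1])]
      linarith [h2.2])
    rw [← HIT_.law hP hX n hD, ← hE n] at h1
    have h2 := ENNReal.toReal_mono (measure_ne_top P (E n)) h1
    rw [ENNReal.toReal_mul, ENNReal.toReal_ofReal (by positivity), hvolD] at h2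
    refine le_trans ?_ h2
    calc δ / (10 * Real.pi) * (1 / (n : ℝ)) = 1 / (5 * Real.pi * n) * (δ / 2) := by
          field_simp
          norm_num
      _ ≤ _ := mul_le_mul_of_nonneg_left hDl (by positivity)
  -- upper bound for pairs
  have hpair : ∀ m n, m < n → P.real (E m ∩ E n) ≤
      P.real (E m) * (δ / Real.pi * (1 / ((n - m : ℕ) : ℝ))) := by
    intro m n hmn
    have h1 := HIT_.law2 hP hX hmn hD
    have hset : E m ∩ E n = {ω | walk X m ω ∈ D ∧ walk X n ω ∈ D} := by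
      rw [hE, hE]
      rfl
    rw [← hset, ← hE m] at h1
    have hr : (0 : ℝ) < ((n - m : ℕ) : ℝ) := by
      have : 0 < n - m := by omega
      exact_mod_cast this
    have h2 := ENNReal.toReal_mono (by
      exact ENNReal.mul_ne_top (measure_ne_top P (E m))
        (ENNReal.mul_ne_top ENNReal.ofReal_ne_top hvol)) h1
    rw [ENNReal.toReal_mul, ENNReal.toReal_mul, ENNReal.toReal_ofReal (by positivity),
      hvolD] at h2
    refine h2.trans ?_
    refine mul_le_mul_of_nonneg_left ?_ ENNReal.toReal_nonneg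
    calc 1 / (Real.pi * ((n - m : ℕ) : ℝ)) * volume.real D ≤
        1 / (Real.pi * ((n - m : ℕ) : ℝ)) * δ := mul_le_mul_of_nonneg_left hDu (by positivity)
      _ = _ := by field_simp
  -- the second moment
  obtain ⟨H, hH⟩ : ∃ H : ℝ, H = ∑ r ∈ Finset.Icc 1 N, 1 / (r : ℝ) := ⟨_, rfl⟩
  have hH0 : 0 ≤ H := by
    rw [hH]
    exact Finset.sum_nonneg fun r _ => by positivity
  have hH1 : H ≤ 1 + (1 + η) * l := by
    rw [hH]
    refine (HIT_.sum_le_log N).trans ?_
    have h1 : Real.log N ≤ (1 + η) * l := by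
      rcases Nat.eq_zero_or_pos N with h0 | h0
      · rw [h0]
        simp only [Nat.cast_zero, Real.log_zero]
        positivity
      · rw [hl, ← Real.log_rpow hTpos]
        exact Real.log_le_log (by exact_mod_cast h0) hN1
    linarith
  obtain ⟨M, hM⟩ : ∃ M : ℝ, M = 1 + 2 * (δ / Real.pi) * H := ⟨_, rfl⟩
  have hMp : 0 < M := by
    rw [hM]
    positivity
  have hM2 : M ≤ c2 * l := by
    have h1 : 0 < δ / Real.pi := by positivity
    have h2 : 1 + 2 * (δ / Real.pi) * H ≤ 1 + 2 * (δ / Real.pi) * (1 + (1 + η) * l) := by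
      have := mul_le_mul_of_nonneg_left hH1 (by positivity : (0 : ℝ) ≤ 2 * (δ / Real.pi))
      linarith
    have h3 : 1 + 2 * (δ / Real.pi) * (1 + (1 + η) * l) ≤ c2 * l := by
      rw [hc2]
      have h4 : 2 * (δ / Real.pi) * (1 + (1 + η) * l) ≤ 2 * (δ / Real.pi) * ((2 + η) * l) := by
        refine mul_le_mul_of_nonneg_left ?_ (by positivity)
        nlinarith
      nlinarith
    rw [hM]
    exact h2.trans h3
  have hds := HIT_.double_sum (fun n => P.real (E n)) (fun n => measureReal_nonneg)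
    (δ / Real.pi) (by positivity) n₀ N (fun m n => P.real (E m ∩ E n)) hpair
    (fun m n => by rw [inter_comm]) (fun n => by rw [inter_self])
  rw [← hH, ← hM] at hds
  have hsm := HIT_.second_moment E hEm (Finset.Icc n₀ N) M hMp hds
  -- the first moment
  have hA : c1 * l ≤ ∑ n ∈ Finset.Icc n₀ N, P.real (E n) := by
    refine le_trans ?_ (Finset.sum_le_sum hlow)
    rw [← Finset.mul_sum]
    have h1 := HIT_.log_le_sum n₀ hn₀1 N hn₀N
    have h2 : (1 + η) * l ≤ Real.log ((N : ℝ) + 1) := by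
      rw [hl, ← Real.log_rpow hTpos]
      exact Real.log_le_log (by positivity) hN2.le
    have h3 : Real.log n₀ ≤ Real.log 2 + l := by
      rw [hl, ← Real.log_mul (by norm_num) hTpos.ne']
      refine Real.log_le_log (by exact_mod_cast hn₀1) ?_
      linarith
    have h4 : η / 2 * l ≤ ∑ n ∈ Finset.Icc n₀ N, 1 / (n : ℝ) := by
      nlinarith
    calc c1 * l = δ / (10 * Real.pi) * (η / 2 * l) := by
          rw [hc1]
          field_simp
          norm_num
      _ ≤ _ := mul_le_mul_of_nonneg_left h4 (by positivity)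
  have hG : P.real (⋃ n ∈ Finset.Icc n₀ N, E n) ≤
      P.real {ω | ∃ n : ℕ, 1 ≤ n ∧ (n : ℝ) ≤ T ^ (1 + η) ∧ walk X n ω ∈ D} := by
    refine measureReal_mono ?_
    intro ω hω
    simp only [mem_iUnion, Finset.mem_Icc] at hω
    obtain ⟨n, hn, hω⟩ := hω
    rw [hE] at hω
    refine ⟨n, hn₀1.trans hn.1, ?_, hω⟩
    have : (n : ℝ) ≤ N := by exact_mod_cast hn.2
    exact this.trans hN1
  refine le_trans ?_ hG
  rw [div_le_iff₀ hc2p]
  have h1 : c1 * l ≤ (c2 * l) * P.real (⋃ n ∈ Finset.Icc n₀ N, E n) :=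
    (hA.trans hsm).trans (mul_le_mul_of_nonneg_right hM2 measureReal_nonneg)
  have hlp : 0 < l := by linarith
  have h2 : c1 * l ≤ (P.real (⋃ n ∈ Finset.Icc n₀ N, E n) * c2) * l := by
    linarith
  exact le_of_mul_le_mul_right h2 hlp

end Pool.Agent.CW
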