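import Mathlib

/-!
# The Cauchy random walk and the Riemann zeta function: definitions and block statements
-/

namespace Pool.Agent.CW

open MeasureTheory ProbabilityTheory Set Filter Topology Complex

/-- `X 0, X 1, ...` are independent standard Cauchy variables on the probability space `(Ω, P)` -/
structure IsCauchySeq {Ω : Type} [MeasurableSpace Ω] (P : Measure Ω) (X : ℕ → Ω → ℝ) : Prop where
  measurable : ∀ i, Measurable (X i)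
  indep : iIndepFun X P
  law : ∀ i, P.map (X i) = cauchyMeasure 0 1

/-- the random walk `walk X n = X 0 + ... + X (n - 1)` -/
noncomputable def walk {Ω : Type} (X : ℕ → Ω → ℝ) (n : ℕ) (ω : Ω) : ℝ :=
  ∑ i ∈ Finset.range n, X i ω

/-- zeta on the critical line -/
noncomputable def zl (t : ℝ) : ℂ := riemannZeta (1 / 2 + t * I)

/-- `ζ(1/2 + it) = O(t ^ (A + ε))` for every `ε > 0` -/
def LineBound (A : ℝ) : Prop :=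
  ∀ ε : ℝ, 0 < ε → ∃ C : ℝ, ∀ t : ℝ, ‖zl t‖ ≤ C * (1 + |t|) ^ (A + ε)

/-- the path `s` of heights satisfies `ζ(1/2 + i s n) = O(n ^ (A + ε))` for every `ε > 0` -/
def PathBound (A : ℝ) (s : ℕ → ℝ) : Prop :=
  ∀ ε : ℝ, 0 < ε → ∃ C : ℝ, ∀ n : ℕ, 1 ≤ n → ‖zl (s n)‖ ≤ C * (n : ℝ) ^ (A + ε)

/-- the sum of the `k`-th powers of zeta over the first `N` points of the path, minus `N` -/
noncomputable def dev (k : ℕ) (s : ℕ → ℝ) (N : ℕ) : ℂ :=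
  ∑ n ∈ Finset.Icc 1 N, (zl (s n) ^ k - 1)

/-! ## Block statements -/

/-- Poisson formula in a half plane (growth exponent one half) -/
def P_POISSON : Prop := ∀ (F : ℂ → ℂ) (a : ℝ),
    DifferentiableOn ℂ F {s : ℂ | a < s.re} → ContinuousOn F {s : ℂ | a ≤ s.re} →
    (∃ C : ℝ, ∀ s : ℂ, a ≤ s.re → ‖F s‖ ≤ C * (1 + ‖s‖) ^ ((1 : ℝ) / 2)) →
    ∀ r : ℝ, 0 < r → ∀ x : ℝ,
      Integrable (fun u : ℝ => F (a + (x + u) * I) * ((Real.pi⁻¹ * r * (u ^ 2 + r ^ 2)⁻¹ : ℝ) : ℂ)) ∧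
      ∫ u : ℝ, F (a + (x + u) * I) * ((Real.pi⁻¹ * r * (u ^ 2 + r ^ 2)⁻¹ : ℝ) : ℂ) =
        F (a + r + x * I)

/-- the law of the pair (position at time `m`, increment from time `m` to time `n`) -/
def P_PAIR : Prop := ∀ {Ω : Type} [MeasurableSpace Ω] (P : Measure Ω) [IsProbabilityMeasure P]
    (X : ℕ → Ω → ℝ), IsCauchySeq P X → ∀ m n : ℕ, m ≤ n →
      P.map (fun ω => (walk X m ω, walk X n ω - walk X m ω)) =
        (cauchyMeasure 0 m).prod (cauchyMeasure 0 ((n - m : ℕ) : NNReal))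

/-- growth of the walk -/
def P_GROW : Prop := ∀ {Ω : Type} [MeasurableSpace Ω] (P : Measure Ω) [IsProbabilityMeasure P]
    (X : ℕ → Ω → ℝ), IsCauchySeq P X → ∀ η : ℝ, 0 < η →
      ∀ᵐ ω ∂P, ∃ C : ℝ, ∀ n : ℕ, 1 ≤ n → |walk X n ω| ≤ C * (n : ℝ) ^ (1 + η)

/-- the hitting lemma (second moment method) -/
def P_HIT : Prop := ∀ δ : ℝ, 0 < δ → ∀ η : ℝ, 0 < η → ∃ p : ℝ, 0 < p ∧ ∃ T₀ : ℝ, 1 ≤ T₀ ∧
    ∀ T : ℝ, T₀ ≤ T → ∀ D : Set ℝ, MeasurableSet D → D ⊆ Icc (T / 2) (2 * T) →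
      δ / 2 ≤ volume.real D → volume.real D ≤ δ →
    ∀ {Ω : Type} [MeasurableSpace Ω] (P : Measure Ω) [IsProbabilityMeasure P]
      (X : ℕ → Ω → ℝ), IsCauchySeq P X →
      p ≤ P.real {ω | ∃ n : ℕ, 1 ≤ n ∧ (n : ℝ) ≤ T ^ (1 + η) ∧ walk X n ω ∈ D}

/-- zero-one lemma for hitting infinitely many far sets (general steps: only independence,
measurability and equal laws of the steps are used) -/
def P_ZEROONE : Prop := ∀ {Ω : Type} [MeasurableSpace Ω] (P : Measure Ω) [IsProbabilityMeasure P]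
    (X : ℕ → Ω → ℝ), IsCauchySeq P X →
    ∀ (p : ℝ), 0 < p → ∀ (D : ℕ → Set ℝ) (N : ℕ → ℕ), (∀ j, MeasurableSet (D j)) →
    (∀ (M : ℕ) (K : ℝ), ∀ᶠ j in atTop, ∀ x : ℝ, |x| ≤ K →
      p ≤ P.real {ω | ∃ n : ℕ, 1 ≤ n ∧ n + M ≤ N j ∧ x + walk X n ω ∈ D j}) →
    ∀ᵐ ω ∂P, ∃ᶠ j in atTop, ∃ n : ℕ, 1 ≤ n ∧ n ≤ N j ∧ walk X n ω ∈ D j

/-- moments of the walk of order `c`, `|c| < 1` -/
def P_MOM : Prop := ∀ c : ℝ, -1 < c → c < 1 → ∃ C : ℝ, 0 < C ∧ ∀ n : ℕ, 1 ≤ n →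
    Integrable (fun x : ℝ => (1 + |x|) ^ c) (cauchyMeasure 0 n) ∧
    ∫ x, (1 + |x|) ^ c ∂(cauchyMeasure 0 n) ≤ C * (n : ℝ) ^ c

/-- Rademacher-Menshov form: square root size of partial sums from second moments of blocks -/
def P_RM : Prop := ∀ {Ω : Type} [MeasurableSpace Ω] (P : Measure Ω) [IsProbabilityMeasure P]
    (ξ : ℕ → Ω → ℂ), (∀ n, Measurable (ξ n)) → (∀ n, MemLp (ξ n) 2 P) →
    (∀ κ : ℝ, 0 < κ → ∃ C : ℝ, ∀ a b : ℕ, a < b →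
      ∫ ω, ‖∑ n ∈ Finset.Ioc a b, ξ n ω‖ ^ 2 ∂P ≤ C * ((b : ℝ) - a) * (b : ℝ) ^ κ) →
    ∀ᵐ ω ∂P, ∀ ε : ℝ, 0 < ε → ∃ C : ℝ, ∀ N : ℕ, 1 ≤ N →
      ‖∑ n ∈ Finset.Icc 1 N, ξ n ω‖ ≤ C * (N : ℝ) ^ (1 / 2 + ε)

/-- under the Lindelöf hypothesis: Poisson means of the powers of zeta on the critical line -/
def P_MEAN : Prop := LineBound 0 → ∀ (k : ℕ) (ε : ℝ), 0 < ε → ε < 1 / 8 → ∃ C : ℝ, 0 < C ∧
    ∀ (r : ℕ), 1 ≤ r → ∀ x : ℝ,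
      Integrable (fun u : ℝ => zl (x + u) ^ k) (cauchyMeasure 0 r) ∧
      ‖∫ u, (zl (x + u) ^ k - 1) ∂(cauchyMeasure 0 r)‖ ≤
        C * ((1 / 2 : ℝ) ^ r + (r : ℝ) ^ (-(2 * ε)) * (1 + |x|) ^ (-(1 - 2 * ε)) +
          ∫ u, (1 + |x + u|) ^ (-(1 - 2 * ε)) ∂(cauchyMeasure 0 r))

/-- under the Lindelöf hypothesis: second moments of blocks -/
def P_BLOCK : Prop := LineBound 0 →
    ∀ {Ω : Type} [MeasurableSpace Ω] (P : Measure Ω) [IsProbabilityMeasure P]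
    (X : ℕ → Ω → ℝ), IsCauchySeq P X → ∀ k : ℕ,
    (∀ n, MemLp (fun ω => zl (walk X n ω) ^ k - 1) 2 P) ∧
    ∀ κ : ℝ, 0 < κ → ∃ C : ℝ, ∀ a b : ℕ, a < b →
      ∫ ω, ‖∑ n ∈ Finset.Ioc a b, (zl (walk X n ω) ^ k - 1)‖ ^ 2 ∂P ≤
        C * ((b : ℝ) - a) * (b : ℝ) ^ κ

/-- part (A): the walk samples the Lindelöf exponent -/
def P_A : Prop := ∀ {Ω : Type} [MeasurableSpace Ω] (P : Measure Ω) [IsProbabilityMeasure P]
    (X : ℕ → Ω → ℝ), IsCauchySeq P X → ∀ A : ℝ, 0 ≤ A →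
    (LineBound A → ∀ᵐ ω ∂P, PathBound A (fun n => walk X n ω)) ∧
    (¬ LineBound A → ∃ B : ℝ, A < B ∧ ∀ᵐ ω ∂P, ∀ C : ℝ, ∃ n : ℕ, 1 ≤ n ∧
      C * (n : ℝ) ^ B < ‖zl (walk X n ω)‖)

end Pool.Agent.CW
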