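import Mathlib
import Pool.Agent.CW.Defs

/-!
# Poisson formula in a half plane
-/

namespace Pool.Agent.CW

open MeasureTheory ProbabilityTheory Set Filter Topology Complex

/-- the Poisson kernel of the half plane -/
noncomputable def rho (r u : ℝ) : ℝ := Real.pi⁻¹ * r * (u ^ 2 + r ^ 2)⁻¹

lemma rho_eq_pdf {r : ℝ} (hr : 0 < r) (u : ℝ) : rho r u = cauchyPDFReal 0 r.toNNReal u := by
  rw [cauchyPDFReal_def, rho, Real.coe_toNNReal r hr.le, sub_zero]

lemma integral_rho {r : ℝ} (hr : 0 < r) : ∫ u, rho r u = 1 := by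
  have h : r.toNNReal ≠ 0 := (Real.toNNReal_pos.mpr hr).ne'
  rw [← integral_cauchyPDFReal_eq_one 0 h]
  exact integral_congr_ae (ae_of_all _ fun u => rho_eq_pdf hr u)

lemma integrable_rho {r : ℝ} (hr : 0 < r) : Integrable (rho r) := by
  have := integrable_cauchyPDFReal 0 (γ := r.toNNReal)
  exact this.congr (ae_of_all _ fun u => (rho_eq_pdf hr u).symm)

lemma rho_nonneg {r : ℝ} (hr : 0 < r) (u : ℝ) : 0 ≤ rho r u := by
  unfold rho
  positivity

lemma continuous_rho {r : ℝ} (hr : 0 < r) : Continuous (rho r) := by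
  unfold rho
  have h : ∀ u : ℝ, u ^ 2 + r ^ 2 ≠ 0 := fun u => by positivity
  exact continuous_const.mul ((by fun_prop : Continuous fun u : ℝ => u ^ 2 + r ^ 2).inv₀ h)

lemma rho_le {r : ℝ} (hr : 0 < r) (u : ℝ) :
    rho r u ≤ (2 * (1 + r ^ 2) / r) * (1 + |u|) ^ (-(2 : ℝ)) := by
  have h1 : (1 + |u|) ^ (-(2 : ℝ)) = ((1 + |u|) ^ 2)⁻¹ := by
    rw [Real.rpow_neg (by positivity)]
    norm_num
  rw [h1, rho]
  have hpi : Real.pi⁻¹ ≤ 1 := inv_le_one_of_one_le₀ (by linarith [Real.pi_gt_three])
  have h2 : Real.pi⁻¹ * r * (u ^ 2 + r ^ 2)⁻¹ ≤ r * (u ^ 2 + r ^ 2)⁻¹ := by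
    have : 0 ≤ r * (u ^ 2 + r ^ 2)⁻¹ := by positivity
    nlinarith
  refine h2.trans ?_
  rw [← div_eq_mul_inv, ← div_eq_mul_inv, div_div, div_le_div_iff₀ (by positivity) (by positivity)]
  have h3 : (1 + |u|) ^ 2 ≤ 2 * (1 + u ^ 2) := by
    have : u ^ 2 = |u| ^ 2 := (sq_abs u).symm
    nlinarith [sq_nonneg (1 - |u|)]
  have h4 : r * (r * (1 + |u|) ^ 2) ≤ r ^ 2 * (2 * (1 + u ^ 2)) := by
    have : 0 ≤ r ^ 2 := sq_nonneg r
    nlinarith
  nlinarith [sq_nonneg u, sq_nonneg r, mul_nonneg (sq_nonneg u) (sq_nonneg r)]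

theorem p_POISSON : P_POISSON := by
  intro F a hF hFc hFb r hr x
  obtain ⟨C, hC⟩ := hFb
  set p : ℂ := a + r + x * I with hp
  have hpre : p.re = a + r := by simp [hp]
  have hpim : p.im = x := by simp [hp]
  have hopen : IsOpen {s : ℂ | a < s.re} := isOpen_lt continuous_const continuous_re
  have hpmem : {s : ℂ | a < s.re} ∈ 𝓝 p := hopen.mem_nhds (by
    change a < p.re
    rw [hpre]; linarith)
  have hpmem' : {s : ℂ | a ≤ s.re} ∈ 𝓝 p := mem_of_superset hpmem fun s (hs : a < s.re) => (le_of_lt hs : a ≤ s.re)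
  have hC0 : 0 ≤ C := by
    have h := hC p (by rw [hpre]; linarith)
    by_contra hneg
    push Not at hneg
    have : C * (1 + ‖p‖) ^ ((1 : ℝ) / 2) < 0 := mul_neg_of_neg_of_pos hneg (by positivity)
    linarith [norm_nonneg (F p)]
  -- the boundary function
  have hline : Continuous fun u : ℝ => F (a + (x + u) * I) := by
    have h1 : Continuous fun u : ℝ => ((a : ℂ) + (x + u) * I) := by fun_prop
    rw [← continuousOn_univ] at h1 ⊢
    exact hFc.comp h1 fun u _ => by simp
  have hgrow : ∀ u : ℝ, ‖F (a + (x + u) * I)‖ ≤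
      C * (1 + |a| + |x|) ^ ((1 : ℝ) / 2) * (1 + |u|) ^ ((1 : ℝ) / 2) := by
    intro u
    have h1 := hC (a + (x + u) * I) (by simp)
    have h2 : 1 + ‖(a : ℂ) + (x + u) * I‖ ≤ (1 + |a| + |x|) * (1 + |u|) := by
      have h3 : ‖(a : ℂ) + (x + u) * I‖ ≤ |a| + (|x| + |u|) := by
        refine (norm_add_le _ _).trans ?_
        rw [norm_mul, norm_I, mul_one, norm_real, Real.norm_eq_abs]
        have : ‖(x : ℂ) + u‖ ≤ |x| + |u| := by
          refine (norm_add_le _ _).trans ?_
          rw [norm_real, norm_real, Real.norm_eq_abs, Real.norm_eq_abs]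
        linarith
      nlinarith [abs_nonneg a, abs_nonneg x, abs_nonneg u, mul_nonneg (abs_nonneg a) (abs_nonneg u),
        mul_nonneg (abs_nonneg x) (abs_nonneg u)]
    refine h1.trans ?_
    rw [mul_assoc, ← Real.mul_rpow (by positivity) (by positivity)]
    exact mul_le_mul_of_nonneg_left (Real.rpow_le_rpow (by positivity) h2 (by norm_num)) hC0
  set C₁ : ℝ := C * (1 + |a| + |x|) ^ ((1 : ℝ) / 2) with hC₁
  have hC₁0 : 0 ≤ C₁ := by positivity
  have hint : Integrable (fun u : ℝ => F (a + (x + u) * I) * ((rho r u : ℝ) : ℂ)) := by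
    have hdom : Integrable (fun u : ℝ => C₁ * (2 * (1 + r ^ 2) / r) * (1 + ‖u‖) ^ (-(3 / 2 : ℝ))) := by
      apply Integrable.const_mul
      exact integrable_one_add_norm (by norm_num)
    refine hdom.mono ?_ (ae_of_all _ fun u => ?_)
    · exact (hline.mul (continuous_ofReal.comp (continuous_rho hr))).aestronglyMeasurable
    · rw [norm_mul, norm_real, Real.norm_of_nonneg (rho_nonneg hr u)]
      have h1 := hgrow u
      have h2 := rho_le hr u
      have h3 : ‖F (a + (x + u) * I)‖ * rho r u ≤ C₁ * (1 + |u|) ^ ((1 : ℝ) / 2) *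
          ((2 * (1 + r ^ 2) / r) * (1 + |u|) ^ (-(2 : ℝ))) :=
        mul_le_mul h1 h2 (rho_nonneg hr u) (by positivity)
      have h4 : (1 + |u|) ^ ((1 : ℝ) / 2) * (1 + |u|) ^ (-(2 : ℝ)) = (1 + |u|) ^ (-(3 / 2 : ℝ)) := by
        rw [← Real.rpow_add (by positivity)]
        norm_num
      rw [Real.norm_of_nonneg (by positivity), Real.norm_eq_abs]
      calc _ ≤ _ := h3
        _ = C₁ * (2 * (1 + r ^ 2) / r) * ((1 + |u|) ^ ((1 : ℝ) / 2) * (1 + |u|) ^ (-(2 : ℝ))) := by
          ring
        _ = _ := by rw [h4]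
  refine ⟨hint, ?_⟩
  -- the analytic function
  let Φ : ℂ → ℂ := fun s => -(2 * r) * dslope F p s / (r + (s - (a + x * I)))
  have hden : ∀ s : ℂ, a ≤ s.re → (r : ℂ) + (s - (a + x * I)) ≠ 0 := by
    intro s hs h
    have := congrArg Complex.re h
    simp at this
    linarith
  have hΦc : ContinuousOn Φ {s : ℂ | a ≤ s.re} := by
    apply ContinuousOn.div
    · apply continuousOn_const.mul
      rw [continuousOn_dslope hpmem']
      exact ⟨hFc, hF.differentiableAt hpmem⟩
    · fun_prop
    · exact hden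
  have hΦd : DifferentiableOn ℂ Φ {s : ℂ | a < s.re} := by
    apply DifferentiableOn.div
    · apply (differentiableOn_const _).mul
      rw [Complex.differentiableOn_dslope hpmem]
      exact hF
    · fun_prop
    · exact fun s hs => hden s (le_of_lt hs)
  have hΦline : ∀ u : ℝ, Φ (a + (x + u) * I) =
      2 * Real.pi * ((F (a + (x + u) * I) - F p) * ((rho r u : ℝ) : ℂ)) := by
    intro u
    have hne : (a : ℂ) + (x + u) * I ≠ p := by
      intro h
      have := congrArg Complex.re h
      rw [hpre] at this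
      simp at this
      linarith
    have h1 : (a : ℂ) + (x + u) * I - p = -(r - u * I) := by rw [hp]; ring
    have h2 : (r : ℂ) + (a + (x + u) * I - (a + x * I)) = r + u * I := by ring
    have h3 : (r : ℂ) - u * I ≠ 0 := by
      intro h
      have := congrArg Complex.re h
      simp at this
      linarith
    have h4 : (r : ℂ) + u * I ≠ 0 := by
      intro h
      have := congrArg Complex.re h
      simp at this
      linarith
    have h5 : ((u : ℂ) ^ 2 + (r : ℂ) ^ 2) = (r - u * I) * (r + u * I) := by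
      linear_combination ((u : ℂ) ^ 2) * I_sq
    have h6 : (Real.pi : ℂ) ≠ 0 := by exact_mod_cast Real.pi_ne_zero
    change -(2 * r) * dslope F p _ / _ = _
    rw [dslope_of_ne _ hne, slope_def_module, h1, h2, rho]
    push_cast
    rw [h5, smul_eq_mul]
    field_simp
  -- the estimate on the three other sides
  set M : ℝ → ℝ := fun R => (C * (1 + ‖(a : ℂ) + x * I‖ + 2 * R) ^ ((1 : ℝ) / 2) + ‖F p‖) *
    (2 * r) / (R - r) ^ 2 with hM
  have hbound : ∀ R : ℝ, r < R → ∀ s : ℂ, a ≤ s.re → ‖s - (a + x * I)‖ ≤ 2 * R →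
      R ≤ ‖s - (a + x * I)‖ → ‖Φ s‖ ≤ M R := by
    intro R hR s hs h1 h2
    set v : ℂ := s - (a + x * I) with hv
    have hsv : s = a + x * I + v := by rw [hv]; ring
    have hR0 : 0 < R := hr.trans hR
    have hsp : s - p = v - r := by rw [hsv, hp]; ring
    have h3 : R - r ≤ ‖v - r‖ := by
      have := norm_sub_norm_le v (r : ℂ)
      rw [norm_real, Real.norm_of_nonneg hr.le] at this
      linarith
    have h4 : R - r ≤ ‖(r : ℂ) + v‖ := by
      have := norm_sub_norm_le v (-(r : ℂ))
      rw [norm_neg, norm_real, Real.norm_of_nonneg hr.le, sub_neg_eq_add, add_comm v] at this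
      linarith
    have hne : s ≠ p := by
      intro h
      rw [← sub_eq_zero, hsp] at h
      rw [h, norm_zero] at h3
      linarith
    have hRr : 0 < R - r := by linarith
    have h5 : ‖F s - F p‖ ≤ C * (1 + ‖(a : ℂ) + x * I‖ + 2 * R) ^ ((1 : ℝ) / 2) + ‖F p‖ := by
      refine (norm_sub_le _ _).trans ?_
      have h6 := hC s hs
      have h7 : 1 + ‖s‖ ≤ 1 + ‖(a : ℂ) + x * I‖ + 2 * R := by
        have := norm_add_le ((a : ℂ) + x * I) v
        rw [← hsv] at this
        linarith
      have h8 : (1 + ‖s‖) ^ ((1 : ℝ) / 2) ≤ (1 + ‖(a : ℂ) + x * I‖ + 2 * R) ^ ((1 : ℝ) / 2) :=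
        Real.rpow_le_rpow (by positivity) h7 (by norm_num)
      nlinarith
    change ‖-(2 * r) * dslope F p s / _‖ ≤ _
    rw [dslope_of_ne _ hne, slope_def_module, norm_div, norm_mul, smul_eq_mul, norm_mul, norm_inv,
      hsp, norm_neg, norm_mul, norm_real, Real.norm_of_nonneg hr.le, hM]
    have h9 : (R - r) ^ 2 ≤ ‖v - r‖ * ‖(r : ℂ) + v‖ := by
      rw [sq]
      exact mul_le_mul h3 h4 hRr.le (norm_nonneg _)
    have h10 : 0 < ‖v - r‖ := by linarith
    have h11 : 0 < ‖(r : ℂ) + v‖ := by linarith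
    have h12 : ‖(2 : ℂ)‖ = 2 := by simp
    rw [h12]
    calc 2 * r * (‖v - r‖⁻¹ * ‖F s - F p‖) / ‖(r : ℂ) + v‖
        = (‖F s - F p‖ * (2 * r)) / (‖v - r‖ * ‖(r : ℂ) + v‖) := by
          field_simp
      _ ≤ (C * (1 + ‖(a : ℂ) + x * I‖ + 2 * R) ^ ((1 : ℝ) / 2) + ‖F p‖) * (2 * r) / (R - r) ^ 2 := by
          apply div_le_div₀
          · positivity
          · exact mul_le_mul_of_nonneg_right h5 (by positivity)
          · positivity
          · exact h9
  have hsmall : ∀ R : ℝ, r < R → ‖∫ u in (-R)..R, Φ (a + (x + u) * I)‖ ≤ 4 * R * M R := by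
    intro R hR
    have hR0 : 0 < R := hr.trans hR
    have hrect := Complex.integral_boundary_rect_eq_zero_of_continuousOn_of_differentiableOn Φ
      (a + (x - R) * I) (a + R + (x + R) * I) ?_ ?_
    · have e1 : ((a : ℂ) + (x - R) * I).re = a := by simp
      have e2 : ((a : ℂ) + (x - R) * I).im = x - R := by simp
      have e3 : ((a : ℂ) + R + (x + R) * I).re = a + R := by simp
      have e4 : ((a : ℂ) + R + (x + R) * I).im = x + R := by simp
      rw [e1, e2, e3, e4] at hrect
      have hshift : ∫ y in (x - R)..(x + R), Φ (a + y * I) =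
          ∫ u in (-R)..R, Φ (a + (x + u) * I) := by
        have := intervalIntegral.integral_comp_add_left (a := -R) (b := R)
          (fun y : ℝ => Φ (a + y * I)) x
        rw [sub_eq_add_neg, ← this]
        refine intervalIntegral.integral_congr fun u _ => ?_
        simp
      rw [hshift] at hrect
      have hb1 : ‖∫ t in a..(a + R), Φ (t + ((x - R : ℝ) : ℂ) * I)‖ ≤ M R * |a + R - a| := by
        apply intervalIntegral.norm_integral_le_of_norm_le_const
        intro t ht
        rw [uIoc_of_le (by linarith)] at ht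
        apply hbound R hR
        · simp; linarith [ht.1]
        · have : ((t : ℂ) + ((x - R : ℝ) : ℂ) * I) - (a + x * I) = ((t - a : ℝ) : ℂ) + (-R) * I := by
            push_cast; ring
          rw [this]
          refine (norm_add_le _ _).trans ?_
          rw [norm_mul, norm_I, mul_one, norm_neg, norm_real, norm_real,
            Real.norm_of_nonneg (by linarith [ht.1]), Real.norm_of_nonneg hR0.le]
          linarith [ht.2]
        · have : ((t : ℂ) + ((x - R : ℝ) : ℂ) * I) - (a + x * I) = ((t - a : ℝ) : ℂ) + (-R) * I := by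
            push_cast; ring
          rw [this]
          have h := Complex.abs_im_le_norm (((t - a : ℝ) : ℂ) + (-R) * I)
          simp only [add_im, ofReal_im, mul_im, neg_re, ofReal_re, I_im, mul_one, neg_im, I_re,
            mul_zero, add_zero, zero_add, abs_neg] at h
          rwa [abs_of_pos hR0] at h
      have hb2 : ‖∫ t in a..(a + R), Φ (t + ((x + R : ℝ) : ℂ) * I)‖ ≤ M R * |a + R - a| := by
        apply intervalIntegral.norm_integral_le_of_norm_le_const
        intro t ht
        rw [uIoc_of_le (by linarith)] at ht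
        apply hbound R hR
        · simp; linarith [ht.1]
        · have : ((t : ℂ) + ((x + R : ℝ) : ℂ) * I) - (a + x * I) = ((t - a : ℝ) : ℂ) + R * I := by
            push_cast; ring
          rw [this]
          refine (norm_add_le _ _).trans ?_
          rw [norm_mul, norm_I, mul_one, norm_real, norm_real,
            Real.norm_of_nonneg (by linarith [ht.1]), Real.norm_of_nonneg hR0.le]
          linarith [ht.2]
        · have : ((t : ℂ) + ((x + R : ℝ) : ℂ) * I) - (a + x * I) = ((t - a : ℝ) : ℂ) + R * I := by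
            push_cast; ring
          rw [this]
          have h := Complex.abs_im_le_norm (((t - a : ℝ) : ℂ) + R * I)
          simp only [add_im, ofReal_im, mul_im, ofReal_re, I_im, mul_one, I_re,
            mul_zero, add_zero, zero_add] at h
          rwa [abs_of_pos hR0] at h
      have hb3 : ‖∫ y in (x - R)..(x + R), Φ (((a + R : ℝ) : ℂ) + y * I)‖ ≤
          M R * |x + R - (x - R)| := by
        apply intervalIntegral.norm_integral_le_of_norm_le_const
        intro y hy
        rw [uIoc_of_le (by linarith)] at hy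
        apply hbound R hR
        · simp; linarith
        · have : (((a + R : ℝ) : ℂ) + y * I) - (a + x * I) = R + ((y - x : ℝ) : ℂ) * I := by
            push_cast; ring
          rw [this]
          refine (norm_add_le _ _).trans ?_
          rw [norm_mul, norm_I, mul_one, norm_real, norm_real, Real.norm_of_nonneg hR0.le,
            Real.norm_eq_abs]
          have : |y - x| ≤ R := abs_le.mpr ⟨by linarith [hy.1], by linarith [hy.2]⟩
          linarith
        · have : (((a + R : ℝ) : ℂ) + y * I) - (a + x * I) = R + ((y - x : ℝ) : ℂ) * I := by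
            push_cast; ring
          rw [this]
          have h := Complex.abs_re_le_norm ((R : ℂ) + ((y - x : ℝ) : ℂ) * I)
          simp only [add_re, ofReal_re, mul_re, I_re, mul_zero, ofReal_im, I_im, mul_one,
            sub_self, add_zero] at h
          rwa [abs_of_pos hR0] at h
      have e5 : |a + R - a| = R := by rw [add_sub_cancel_left, abs_of_pos hR0]
      have e6 : |x + R - (x - R)| = 2 * R := by
        rw [show x + R - (x - R) = 2 * R by ring, abs_of_pos (by linarith)]
      rw [e5] at hb1 hb2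
      rw [e6] at hb3
      have hmain : I • ∫ u in (-R)..R, Φ (a + (x + u) * I) =
          ((∫ t in a..(a + R), Φ (t + ((x - R : ℝ) : ℂ) * I)) -
            ∫ t in a..(a + R), Φ (t + ((x + R : ℝ) : ℂ) * I)) +
          I • ∫ y in (x - R)..(x + R), Φ (((a + R : ℝ) : ℂ) + y * I) := by
        rw [sub_eq_zero] at hrect
        exact hrect.symm
      have h1 : ‖I • ∫ u in (-R)..R, Φ (a + (x + u) * I)‖ =
          ‖∫ u in (-R)..R, Φ (a + (x + u) * I)‖ := by
        rw [norm_smul, norm_I, one_mul]
      rw [← h1, hmain]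
      refine (norm_add_le _ _).trans ?_
      rw [norm_smul, norm_I, one_mul]
      have h2 := norm_sub_le (∫ t in a..(a + R), Φ (t + ((x - R : ℝ) : ℂ) * I))
        (∫ t in a..(a + R), Φ (t + ((x + R : ℝ) : ℂ) * I))
      nlinarith
    · apply hΦc.mono
      intro s hs
      have h := (mem_reProdIm.mp hs).1
      simp only [add_re, ofReal_re, mul_re, sub_re, I_re, mul_zero, sub_im, ofReal_im, sub_self,
        I_im, mul_one, add_zero, add_im] at h
      rw [uIcc_of_le (by linarith)] at h
      exact h.1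
    · apply hΦd.mono
      intro s hs
      have h := (mem_reProdIm.mp hs).1
      simp only [add_re, ofReal_re, mul_re, sub_re, I_re, mul_zero, sub_im, ofReal_im, sub_self,
        I_im, mul_one, add_zero, add_im] at h
      rw [min_eq_left (by linarith)] at h
      exact h.1
  -- 4 R M(R) tends to zero
  have hlim : Tendsto (fun R : ℝ => 4 * R * M R) atTop (𝓝 0) := by
    set b : ℝ := 1 + ‖(a : ℂ) + x * I‖ with hb
    have hb1 : 1 ≤ b := by rw [hb]; linarith [norm_nonneg ((a : ℂ) + x * I)]
    have hev : ∀ᶠ R : ℝ in atTop, 4 * R * M R ≤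
        (32 * r * (2 * C + ‖F p‖)) * R ^ (-(1 / 2 : ℝ)) := by
      filter_upwards [eventually_ge_atTop (max (2 * r) b)] with R hR
      have hR1 : 2 * r ≤ R := (le_max_left _ _).trans hR
      have hR2 : b ≤ R := (le_max_right _ _).trans hR
      have hR0 : 0 < R := by linarith
      have h1 : (b + 2 * R) ^ ((1 : ℝ) / 2) ≤ 2 * R ^ ((1 : ℝ) / 2) := by
        have h2 : (b + 2 * R) ^ ((1 : ℝ) / 2) ≤ (4 * R) ^ ((1 : ℝ) / 2) :=
          Real.rpow_le_rpow (by linarith) (by linarith) (by norm_num)
        have h3 : (4 : ℝ) ^ ((1 : ℝ) / 2) = 2 := by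
          rw [← Real.sqrt_eq_rpow, show (4 : ℝ) = 2 ^ 2 by norm_num, Real.sqrt_sq (by norm_num)]
        rwa [Real.mul_rpow (by norm_num) hR0.le, h3] at h2
      have h2 : 1 ≤ R ^ ((1 : ℝ) / 2) := Real.one_le_rpow (by linarith) (by norm_num)
      have h3 : C * (b + 2 * R) ^ ((1 : ℝ) / 2) + ‖F p‖ ≤ (2 * C + ‖F p‖) * R ^ ((1 : ℝ) / 2) := by
        nlinarith [norm_nonneg (F p)]
      have h4 : R ^ 2 / 4 ≤ (R - r) ^ 2 := by nlinarith
      have h5 : M R ≤ ((2 * C + ‖F p‖) * R ^ ((1 : ℝ) / 2)) * (2 * r) / (R ^ 2 / 4) := by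
        rw [hM]
        apply div_le_div₀
        · positivity
        · exact mul_le_mul_of_nonneg_right h3 (by positivity)
        · positivity
        · exact h4
      have h6 : R ^ (-(1 / 2 : ℝ)) = R ^ ((1 : ℝ) / 2) / R := by
        rw [show (-(1 / 2 : ℝ)) = 1 / 2 - 1 by norm_num, Real.rpow_sub hR0, Real.rpow_one]
      rw [h6]
      calc 4 * R * M R ≤ 4 * R * (((2 * C + ‖F p‖) * R ^ ((1 : ℝ) / 2)) * (2 * r) / (R ^ 2 / 4)) := by
            gcongr
        _ = (32 * r * (2 * C + ‖F p‖)) * (R ^ ((1 : ℝ) / 2) / R) := by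
            field_simp
            ring
    have hpos : ∀ᶠ R : ℝ in atTop, 0 ≤ 4 * R * M R := by
      filter_upwards [eventually_ge_atTop 0] with R hR
      have : 0 ≤ M R := by rw [hM]; positivity
      positivity
    have h0 : Tendsto (fun R : ℝ => (32 * r * (2 * C + ‖F p‖)) * R ^ (-(1 / 2 : ℝ))) atTop (𝓝 0) := by
      have := (tendsto_rpow_neg_atTop (y := (1 / 2 : ℝ)) (by norm_num)).const_mul
        (32 * r * (2 * C + ‖F p‖))
      simpa using this
    exact tendsto_of_tendsto_of_tendsto_of_le_of_le' tendsto_const_nhds h0 hpos hev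
  -- conclusion
  have hrhoC : Integrable (fun u : ℝ => ((rho r u : ℝ) : ℂ)) := (integrable_rho hr).ofReal
  have hint0 : Integrable (fun u : ℝ => (F (a + (x + u) * I) - F p) * ((rho r u : ℝ) : ℂ)) := by
    have := hint.sub (hrhoC.const_mul (F p))
    refine this.congr (ae_of_all _ fun u => ?_)
    simp only [Pi.sub_apply]
    ring
  have hintΦ : Integrable (fun u : ℝ => Φ (a + (x + u) * I)) := by
    have := hint0.const_mul (2 * Real.pi : ℂ)
    exact this.congr (ae_of_all _ fun u => (hΦline u).symm)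
  have hzero : ∫ u : ℝ, Φ (a + (x + u) * I) = 0 := by
    have h1 := intervalIntegral_tendsto_integral hintΦ tendsto_neg_atTop_atBot tendsto_id
    have h2 : Tendsto (fun R : ℝ => ∫ u in (-R)..R, Φ (a + (x + u) * I)) atTop (𝓝 0) := by
      apply squeeze_zero_norm' _ hlim
      filter_upwards [eventually_gt_atTop r] with R hR
      exact hsmall R hR
    exact tendsto_nhds_unique h1 h2
  have h1 : ∫ u : ℝ, (F (a + (x + u) * I) - F p) * ((rho r u : ℝ) : ℂ) = 0 := by
    have h2 : ∫ u : ℝ, Φ (a + (x + u) * I) =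
        (2 * Real.pi : ℂ) * ∫ u : ℝ, (F (a + (x + u) * I) - F p) * ((rho r u : ℝ) : ℂ) := by
      rw [← integral_const_mul]
      exact integral_congr_ae (ae_of_all _ fun u => hΦline u)
    rw [hzero] at h2
    have h3 : (2 * Real.pi : ℂ) ≠ 0 := by simp
    exact (mul_eq_zero.mp h2.symm).resolve_left h3
  have h2 : ∫ u : ℝ, (F (a + (x + u) * I) - F p) * ((rho r u : ℝ) : ℂ) =
      (∫ u : ℝ, F (a + (x + u) * I) * ((rho r u : ℝ) : ℂ)) - F p := by
    have h3 : ∫ u : ℝ, ((rho r u : ℝ) : ℂ) = 1 := by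
      rw [integral_complex_ofReal, integral_rho hr]; simp
    have h4 : (fun u : ℝ => (F (a + (x + u) * I) - F p) * ((rho r u : ℝ) : ℂ)) =
        fun u : ℝ => F (a + (x + u) * I) * ((rho r u : ℝ) : ℂ) - F p * ((rho r u : ℝ) : ℂ) := by
      funext u; ring
    rw [h4, integral_sub hint (hrhoC.const_mul (F p)), integral_const_mul, h3, mul_one]
  rw [h1] at h2
  exact (sub_eq_zero.mp h2.symm)

end Pool.Agent.CW
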