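import Mathlib
import Pool.Agent.CW.Defs
import Pool.Agent.CW.POISSON

/-!
# The law of the Cauchy walk
-/

namespace Pool.Agent.CW

open MeasureTheory ProbabilityTheory Set Filter Topology Complex

lemma natCast_toNNReal (n : ℕ) : ((n : ℝ)).toNNReal = (n : NNReal) := by simp

/-- integrals against the Cauchy law with scale `r` -/
lemma integral_cauchy {E : Type*} [NormedAddCommGroup E] [NormedSpace ℝ E] {r : ℝ} (hr : 0 < r)
    (f : ℝ → E) :
    ∫ u, f u ∂(cauchyMeasure 0 r.toNNReal) = ∫ u, rho r u • f u := by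
  have h : r.toNNReal ≠ 0 := (Real.toNNReal_pos.mpr hr).ne'
  rw [cauchyMeasure_of_scale_ne_zero 0 h,
    integral_withDensity_eq_integral_toReal_smul (measurable_cauchyPDF _ _)
      (ae_of_all _ fun u => by rw [cauchyPDF_def]; exact ENNReal.ofReal_lt_top)]
  refine integral_congr_ae (ae_of_all _ fun u => ?_)
  simp only
  rw [cauchyPDF_def, ENNReal.toReal_ofReal (cauchyPDF_pos 0 h u).le, ← rho_eq_pdf hr]

lemma charFun_cauchy (g : NNReal) (t : ℝ) :
    charFun (cauchyMeasure 0 g) t = ((Real.exp (-(g * |t|)) : ℝ) : ℂ) := by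
  by_cases hg : g = 0
  · rw [hg, cauchyMeasure_zero_scale, charFun_dirac]
    simp
  -- nonpositive arguments
  have key : ∀ t : ℝ, t ≤ 0 → charFun (cauchyMeasure 0 g) t = ((Real.exp (-(g * |t|)) : ℝ) : ℂ) := by
    intro t ht
    have hg0 : (0 : ℝ) < g := by exact_mod_cast pos_iff_ne_zero.mpr hg
    have h := (p_POISSON (fun s => Complex.exp (t * s)) 0 (by fun_prop) (by fun_prop)
      ⟨1, fun s hs => ?_⟩ g hg0 0).2
    · have hg' : (g : ℝ).toNNReal = g := by simp
      rw [charFun_apply_real]
      conv_lhs => rw [← hg']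
      rw [integral_cauchy hg0]
      have h1 : ∀ u : ℝ, rho (g : ℝ) u • Complex.exp (t * u * I) =
          (fun s : ℂ => Complex.exp (t * s)) (((0 : ℝ) : ℂ) + (((0 : ℝ) : ℂ) + u) * I) *
            ((Real.pi⁻¹ * g * (u ^ 2 + (g : ℝ) ^ 2)⁻¹ : ℝ) : ℂ) := by
        intro u
        simp only [ofReal_zero, zero_add]
        rw [real_smul, mul_comm, rho]
        congr 2
        ring
      rw [integral_congr_ae (ae_of_all _ h1), h]
      rw [abs_of_nonpos ht]
      push_cast
      congr 1
      ring
    · have h1 : ‖Complex.exp (t * s)‖ ≤ 1 := by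
        rw [Complex.norm_exp]
        apply Real.exp_le_one_iff.mpr
        simp only [mul_re, ofReal_re, ofReal_im, zero_mul, sub_zero]
        exact mul_nonpos_of_nonpos_of_nonneg ht hs
      have h2 : (1 : ℝ) ≤ (1 + ‖s‖) ^ ((1 : ℝ) / 2) :=
        Real.one_le_rpow (by linarith [norm_nonneg s]) (by norm_num)
      linarith
  rcases le_total t 0 with ht | ht
  · exact key t ht
  · have h1 := key (-t) (by linarith)
    rw [charFun_neg, abs_neg] at h1
    have h2 := congrArg (starRingEnd ℂ) h1
    rwa [conj_conj, conj_ofReal] at h2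

section Walk

set_option linter.unusedSectionVars false

variable {Ω : Type} [MeasurableSpace Ω] {P : Measure Ω} [IsProbabilityMeasure P]
  {X : ℕ → Ω → ℝ}

lemma measurable_sum_X (hX : IsCauchySeq P X) (s : Finset ℕ) :
    Measurable (fun ω => ∑ i ∈ s, X i ω) :=
  Finset.measurable_sum s fun i _ => hX.measurable i

lemma measurable_walk (hX : IsCauchySeq P X) (n : ℕ) : Measurable (walk X n) :=
  measurable_sum_X hX _

lemma law_sum (hX : IsCauchySeq P X) (s : Finset ℕ) :
    P.map (fun ω => ∑ i ∈ s, X i ω) = cauchyMeasure 0 (s.card : NNReal) := by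
  classical
  induction s using Finset.induction_on with
  | empty =>
    simp only [Finset.sum_empty, Finset.card_empty, Nat.cast_zero, cauchyMeasure_zero_scale]
    rw [Measure.map_const]
    simp
  | insert a s ha ih =>
    have hind : IndepFun (∑ j ∈ s, X j) (X a) P :=
      hX.indep.indepFun_finsetSum_of_notMem hX.measurable ha
    have hmeas := measurable_sum_X hX s
    have hsum : (fun ω => ∑ i ∈ insert a s, X i ω) = (∑ j ∈ s, X j) + X a := by
      funext ω
      rw [Finset.sum_insert ha, Pi.add_apply, Finset.sum_apply, add_comm]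
    have hs : (∑ j ∈ s, X j) = fun ω => ∑ i ∈ s, X i ω := by
      funext ω
      rw [Finset.sum_apply]
    have hmeas' : Measurable (∑ j ∈ s, X j) := by rw [hs]; exact hmeas
    have hprob : IsProbabilityMeasure (P.map (fun ω => ∑ i ∈ insert a s, X i ω)) :=
      Measure.isProbabilityMeasure_map (measurable_sum_X hX _).aemeasurable
    apply Measure.ext_of_charFun
    rw [hsum, hind.charFun_map_add_eq_mul hmeas'.aemeasurable (hX.measurable a).aemeasurable]
    rw [hs, ih, hX.law a]
    funext t
    rw [Pi.mul_apply, charFun_cauchy, charFun_cauchy, charFun_cauchy,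
      Finset.card_insert_of_notMem ha, ← ofReal_mul, ← Real.exp_add]
    congr 2
    push_cast
    ring

lemma law_walk (hX : IsCauchySeq P X) (n : ℕ) : P.map (walk X n) = cauchyMeasure 0 n := by
  have := law_sum hX (Finset.range n)
  rw [Finset.card_range] at this
  exact this

lemma walk_sub (X : ℕ → Ω → ℝ) {m n : ℕ} (h : m ≤ n) (ω : Ω) :
    walk X n ω - walk X m ω = ∑ i ∈ Finset.Ico m n, X i ω := by
  unfold walk
  rw [Finset.sum_Ico_eq_sub _ h]

lemma indep_walk (hX : IsCauchySeq P X) {m n : ℕ} (h : m ≤ n) :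
    IndepFun (walk X m) (fun ω => walk X n ω - walk X m ω) P := by
  classical
  have hdisj : Disjoint (Finset.range m) (Finset.Ico m n) := by
    rw [Finset.disjoint_left]
    intro i hi hi'
    have h1 := Finset.mem_range.mp hi
    have h2 := (Finset.mem_Ico.mp hi').1
    omega
  have h1 := hX.indep.indepFun_finset (Finset.range m) (Finset.Ico m n) hdisj hX.measurable
  have h2 := h1.comp (φ := fun v : (Finset.range m → ℝ) => ∑ i, v i)
    (ψ := fun v : (Finset.Ico m n → ℝ) => ∑ i, v i) (by fun_prop) (by fun_prop)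
  have e1 : (fun v : (Finset.range m → ℝ) => ∑ i, v i) ∘
      (fun ω => fun i : Finset.range m => X i ω) = walk X m := by
    funext ω
    simp only [Function.comp_apply, walk]
    exact Finset.sum_coe_sort (Finset.range m) (fun i => X i ω)
  have e2 : (fun v : (Finset.Ico m n → ℝ) => ∑ i, v i) ∘
      (fun ω => fun i : Finset.Ico m n => X i ω) = fun ω => walk X n ω - walk X m ω := by
    funext ω
    rw [walk_sub X h]
    simp only [Function.comp_apply]
    exact Finset.sum_coe_sort (Finset.Ico m n) (fun i => X i ω)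
  rw [e1, e2] at h2
  exact h2

end Walk

theorem p_PAIR : P_PAIR := by
  intro Ω _ P _ X hX m n hmn
  have hm := measurable_walk hX m
  have hn := measurable_walk hX n
  have h1 := (indepFun_iff_map_prod_eq_prod_map_map hm.aemeasurable
    (hn.sub hm).aemeasurable).mp (indep_walk hX hmn)
  have h2 : P.map (fun ω => walk X n ω - walk X m ω) = cauchyMeasure 0 ((n - m : ℕ) : NNReal) := by
    have h3 := law_sum hX (Finset.Ico m n)
    rw [Nat.card_Ico] at h3
    rw [← h3]
    congr 1
    funext ω
    exact walk_sub X hmn ω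
  change P.map (fun ω => (walk X m ω, walk X n ω - walk X m ω)) = _
  have h4 : (walk X n - walk X m) = fun ω => walk X n ω - walk X m ω := rfl
  rw [h4] at h1
  rw [h1, law_walk hX m, h2]

end Pool.Agent.CW
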