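import Pool.Agent.CW.Defs

/-!
# A zero-one lemma for hitting infinitely many far sets
-/

set_option autoImplicit false

namespace Pool.Agent.CW

open MeasureTheory ProbabilityTheory Set Filter Topology

namespace ZEROONE_

/-- partial sums of a tuple -/
noncomputable def ps {M : ℕ} (u : Fin M → ℝ) (n : ℕ) : ℝ :=
  ∑ k ∈ Finset.range n, if h : k < M then u ⟨k, h⟩ else 0

lemma measurable_ps (M n : ℕ) : Measurable fun u : Fin M → ℝ => ps u n := by
  unfold ps
  apply Finset.measurable_sum
  intro k _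
  by_cases h : k < M
  · simp only [h, dif_pos]
    exact measurable_pi_apply _
  · simp only [h, dif_neg, not_false_iff]
    exact measurable_const

lemma ps_walk {Ω : Type} (X : ℕ → Ω → ℝ) (ω : Ω) {M n : ℕ} (h : n ≤ M) :
    ps (fun i : Fin M => X i ω) n = walk X n ω := by
  unfold ps walk
  apply Finset.sum_congr rfl
  intro k hk
  have hk' : k < M := (Finset.mem_range.mp hk).trans_le h
  simp only [hk', dif_pos]

lemma ps_shift {Ω : Type} (X : ℕ → Ω → ℝ) (ω : Ω) (M : ℕ) {L n : ℕ} (h : n ≤ L) :
    walk X M ω + ps (fun i : Fin L => X (M + i) ω) n = walk X (M + n) ω := by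
  unfold ps walk
  rw [Finset.sum_range_add]
  congr 1
  apply Finset.sum_congr rfl
  intro k hk
  have hk' : k < L := (Finset.mem_range.mp hk).trans_le h
  simp only [hk', dif_pos]

/-- hitting sets of tuples -/
def hit (L : ℕ) (D : Set ℝ) : Set (ℝ × (Fin L → ℝ)) :=
  {q | ∃ n : ℕ, 1 ≤ n ∧ n ≤ L ∧ q.1 + ps q.2 n ∈ D}

lemma measurableSet_hit (L : ℕ) {D : Set ℝ} (hD : MeasurableSet D) :
    MeasurableSet (hit L D) := by
  have : hit L D = ⋃ n : ℕ, ⋃ _ : 1 ≤ n ∧ n ≤ L,
      (fun q : ℝ × (Fin L → ℝ) => q.1 + ps q.2 n) ⁻¹' D := by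
    ext q
    simp only [hit, mem_ofPred_eq, mem_iUnion, mem_preimage, exists_prop, and_assoc]
  rw [this]
  refine MeasurableSet.iUnion fun n => MeasurableSet.iUnion fun _ => ?_
  exact (measurable_fst.add ((measurable_ps L n).comp measurable_snd)) hD

variable {Ω : Type} [MeasurableSpace Ω] (P : Measure Ω) [IsProbabilityMeasure P]
  (X : ℕ → Ω → ℝ)

lemma law_shift (hX : IsCauchySeq P X) (M L : ℕ) :
    P.map (fun ω (i : Fin L) => X (M + i) ω) = P.map (fun ω (i : Fin L) => X i ω) := by
  have h1 := (iIndepFun_iff_map_fun_eq_pi_map (μ := P) (f := fun (i : Fin L) ω => X (M + i) ω)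
    (fun i => (hX.measurable _).aemeasurable)).mp
    (hX.indep.precomp (g := fun i : Fin L => M + (i : ℕ)) (fun a b h => by
      apply Fin.ext
      simpa using h))
  have h2 := (iIndepFun_iff_map_fun_eq_pi_map (μ := P) (f := fun (i : Fin L) ω => X i ω)
    (fun i => (hX.measurable _).aemeasurable)).mp
    (hX.indep.precomp (g := fun i : Fin L => (i : ℕ)) Fin.val_injective)
  rw [h1, h2]
  congr 1
  funext i
  rw [hX.law, hX.law]

omit [IsProbabilityMeasure P] in
lemma indep_split (hX : IsCauchySeq P X) (M L : ℕ) :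
    IndepFun (fun ω (i : Fin M) => X i ω) (fun ω (i : Fin L) => X (M + i) ω) P := by
  have hd : Disjoint (Finset.range M) (Finset.Ico M (M + L)) := by
    rw [Finset.disjoint_left]
    intro a ha hb
    rw [Finset.mem_range] at ha
    rw [Finset.mem_Ico] at hb
    omega
  have h := hX.indep.indepFun_finset (Finset.range M) (Finset.Ico M (M + L)) hd hX.measurable
  have h1 : Measurable (fun (g : (Finset.range M) → ℝ) (i : Fin M) =>
      g ⟨i, Finset.mem_range.mpr i.isLt⟩) := by
    apply measurable_pi_lambda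
    intro i
    exact measurable_pi_apply _
  have h2 : Measurable (fun (g : (Finset.Ico M (M + L)) → ℝ) (i : Fin L) =>
      g ⟨M + i, Finset.mem_Ico.mpr ⟨by omega, by have := i.isLt; omega⟩⟩) := by
    apply measurable_pi_lambda
    intro i
    exact measurable_pi_apply _
  exact h.comp h1 h2

/-- restarting the walk at the time `M` -/
lemma key (hX : IsCauchySeq P X) {p : ℝ} (hp : 0 < p) (M L : ℕ) (K : ℝ) {D : Set ℝ}
    (hD : MeasurableSet D) (hh : ∀ x : ℝ, |x| ≤ K →
      p ≤ P.real {ω | ∃ n : ℕ, 1 ≤ n ∧ n ≤ L ∧ x + walk X n ω ∈ D})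
    {A : Set (Fin M → ℝ)} (hA : MeasurableSet A) :
    p * P.real {ω | (fun i : Fin M => X i ω) ∈ A ∧ |walk X M ω| ≤ K} ≤
      P.real {ω | (fun i : Fin M => X i ω) ∈ A ∧
        ∃ n : ℕ, 1 ≤ n ∧ n ≤ L ∧ walk X (M + n) ω ∈ D} := by
  set U : Ω → (Fin M → ℝ) := fun ω i => X i ω with hU
  set V : Ω → (Fin L → ℝ) := fun ω i => X (M + i) ω with hV
  set V0 : Ω → (Fin L → ℝ) := fun ω i => X i ω with hV0
  have hUm : Measurable U := measurable_pi_lambda _ fun i => hX.measurable _
  have hVm : Measurable V := measurable_pi_lambda _ fun i => hX.measurable _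
  have hV0m : Measurable V0 := measurable_pi_lambda _ fun i => hX.measurable _
  have hprod : P.map (fun ω => (U ω, V ω)) = (P.map U).prod (P.map V) :=
    (indepFun_iff_map_prod_eq_prod_map_map hUm.aemeasurable hVm.aemeasurable).mp
      (indep_split P X hX M L)
  set A2 : Set (Fin M → ℝ) := {u | u ∈ A ∧ |ps u M| ≤ K} with hA2
  have hA2m : MeasurableSet A2 := by
    have h1 : MeasurableSet {u : Fin M → ℝ | |ps u M| ≤ K} :=
      measurableSet_le ((measurable_ps M M).abs) measurable_const
    exact hA.inter h1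
  set S : Set ((Fin M → ℝ) × (Fin L → ℝ)) := {q | q.1 ∈ A2 ∧ (ps q.1 M, q.2) ∈ hit L D} with hS
  have hSm : MeasurableSet S := by
    have h1 : Measurable fun q : (Fin M → ℝ) × (Fin L → ℝ) => (ps q.1 M, q.2) :=
      ((measurable_ps M M).comp measurable_fst).prodMk measurable_snd
    exact (measurable_fst hA2m).inter (h1 (measurableSet_hit L hD))
  have : IsProbabilityMeasure (P.map U) := Measure.isProbabilityMeasure_map hUm.aemeasurable
  have : IsProbabilityMeasure (P.map V) := Measure.isProbabilityMeasure_map hVm.aemeasurable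
  -- lower bound for the sections
  have hsec : ∀ u ∈ A2, ENNReal.ofReal p ≤ (P.map V) (Prod.mk u ⁻¹' S) := by
    intro u hu
    have hm : MeasurableSet (Prod.mk u ⁻¹' S) := measurable_prodMk_left hSm
    rw [show P.map V = P.map V0 from law_shift P X hX M L, Measure.map_apply hV0m hm]
    have e1 : V0 ⁻¹' (Prod.mk u ⁻¹' S) =
        {ω | ∃ n : ℕ, 1 ≤ n ∧ n ≤ L ∧ ps u M + walk X n ω ∈ D} := by
      ext ω
      simp only [mem_preimage, hS, mem_ofPred_eq, hit, hu, true_and]
      constructor
      · rintro ⟨n, h1, h2, h3⟩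
        rw [hV0, ps_walk X ω h2] at h3
        exact ⟨n, h1, h2, h3⟩
      · rintro ⟨n, h1, h2, h3⟩
        refine ⟨n, h1, h2, ?_⟩
        rw [hV0, ps_walk X ω h2]
        exact h3
    rw [e1]
    have := hh (ps u M) hu.2
    rw [← ENNReal.ofReal_toReal (measure_ne_top P
      {ω | ∃ n : ℕ, 1 ≤ n ∧ n ≤ L ∧ ps u M + walk X n ω ∈ D})]
    exact ENNReal.ofReal_le_ofReal this
  have hmain : ENNReal.ofReal p * P.map U A2 ≤ (P.map fun ω => (U ω, V ω)) S := by
    rw [hprod, Measure.prod_apply hSm]
    calc ENNReal.ofReal p * P.map U A2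
        = ∫⁻ _u in A2, ENNReal.ofReal p ∂(P.map U) := by
          rw [lintegral_const, Measure.restrict_apply_univ]
      _ ≤ ∫⁻ u in A2, (P.map V) (Prod.mk u ⁻¹' S) ∂(P.map U) :=
          setLIntegral_mono' hA2m hsec
      _ ≤ _ := setLIntegral_le_lintegral _ _
  rw [Measure.map_apply hUm hA2m, Measure.map_apply (hUm.prodMk hVm) hSm] at hmain
  have e2 : U ⁻¹' A2 = {ω | (fun i : Fin M => X i ω) ∈ A ∧ |walk X M ω| ≤ K} := by
    ext ω
    simp only [mem_preimage, hA2, mem_ofPred_eq, hU, ps_walk X ω (le_refl M)]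
  have e3 : (fun ω => (U ω, V ω)) ⁻¹' S ⊆ {ω | (fun i : Fin M => X i ω) ∈ A ∧
      ∃ n : ℕ, 1 ≤ n ∧ n ≤ L ∧ walk X (M + n) ω ∈ D} := by
    rintro ω ⟨⟨h1, -⟩, n, h2, h3, h4⟩
    refine ⟨h1, n, h2, h3, ?_⟩
    simp only [hU, hV] at h4
    rwa [ps_walk X ω (le_refl M), ps_shift X ω M h3] at h4
  rw [e2] at hmain
  have h5 := hmain.trans (measure_mono e3)
  have h6 := ENNReal.toReal_mono (measure_ne_top _ _) h5
  rwa [ENNReal.toReal_mul, ENNReal.toReal_ofReal hp.le] at h6

end ZEROONE_

open ZEROONE_ in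
theorem p_ZEROONE : P_ZEROONE := by
  intro Ω _ P _ X hX p hp D N hD hh
  set E : ℕ → Set Ω := fun j => {ω | ∃ n : ℕ, 1 ≤ n ∧ n ≤ N j ∧ walk X n ω ∈ D j} with hE
  have hwm : ∀ n, Measurable (walk X n) := by
    intro n
    unfold walk
    exact Finset.measurable_sum _ fun i _ => hX.measurable i
  have hEm : ∀ j, MeasurableSet (E j) := by
    intro j
    have : E j = ⋃ n : ℕ, ⋃ _ : 1 ≤ n ∧ n ≤ N j, walk X n ⁻¹' D j := by
      ext ω
      simp only [hE, mem_ofPred_eq, mem_iUnion, mem_preimage, exists_prop, and_assoc]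
    rw [this]
    exact MeasurableSet.iUnion fun n => MeasurableSet.iUnion fun _ => hwm n (hD j)
  -- no hits from `J` on
  have hnull : ∀ J : ℕ, P.real (⋂ i ∈ Ici J, (E i)ᶜ) = 0 := by
    intro J
    set Y : Set Ω := ⋂ i ∈ Ici J, (E i)ᶜ with hY
    set B : ℕ → Set Ω := fun r => ⋂ i ∈ Finset.Icc J (J + r), (E i)ᶜ with hB
    have hYB : ∀ r, Y ⊆ B r := by
      intro r ω hω
      simp only [hY, hB, mem_iInter] at hω ⊢
      intro i hi
      exact hω i (Finset.mem_Icc.mp hi).1
    have hBm : ∀ r, MeasurableSet (B r) := fun r =>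
      Finset.measurableSet_biInter _ fun i _ => (hEm i).compl
    have hYm : MeasurableSet Y :=
      MeasurableSet.iInter fun i => MeasurableSet.iInter fun _ => (hEm i).compl
    -- one step
    have hstep : ∀ r : ℕ, P.real Y ≤ (1 - p) * P.real (B r) := by
      intro r
      obtain ⟨M, hM⟩ : ∃ M : ℕ, ∀ i ∈ Finset.Icc J (J + r), N i ≤ M := by
        refine ⟨(Finset.Icc J (J + r)).sup N, fun i hi => Finset.le_sup hi⟩
      set A : Set (Fin M → ℝ) := ⋂ i ∈ Finset.Icc J (J + r),
        ((fun u : Fin M → ℝ => ((0 : ℝ), fun k : Fin (N i) =>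
          if h : (k : ℕ) < M then u ⟨k, h⟩ else 0)) ⁻¹' (hit (N i) (D i)))ᶜ with hAdef
      have hA : MeasurableSet A := by
        refine Finset.measurableSet_biInter _ fun i _ => MeasurableSet.compl ?_
        apply Measurable.comp (g := id) measurable_id _ (measurableSet_hit (N i) (hD i))
        refine measurable_const.prodMk (measurable_pi_lambda _ fun k => ?_)
        by_cases h : (k : ℕ) < M
        · simp only [h, dif_pos]
          exact measurable_pi_apply _
        · simp only [h, dif_neg, not_false_iff]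
          exact measurable_const
      have hAB : ∀ ω, (fun i : Fin M => X i ω) ∈ A ↔ ω ∈ B r := by
        intro ω
        simp only [hAdef, hB, mem_iInter, mem_compl_iff, mem_preimage]
        refine forall_congr' fun i => forall_congr' fun hi => not_congr ?_
        simp only [hit, hE, mem_ofPred_eq, zero_add]
        refine exists_congr fun n => and_congr_right fun _ => and_congr_right fun hn => ?_
        have e1 : (fun k : Fin (N i) => if h : (k : ℕ) < M then
            X ((⟨k, h⟩ : Fin M) : ℕ) ω else 0) = fun k : Fin (N i) => X k ω := by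
          funext k
          have : (k : ℕ) < M := k.isLt.trans_le (hM i hi)
          simp only [this, dif_pos]
        rw [e1, ps_walk X ω hn]
      -- the truncation
      have hlim : Tendsto (fun k : ℕ => P.real {ω | (fun i : Fin M => X i ω) ∈ A ∧
          |walk X M ω| ≤ (k : ℝ)}) atTop (𝓝 (P.real (B r))) := by
        have hun : ⋃ k : ℕ, {ω | (fun i : Fin M => X i ω) ∈ A ∧ |walk X M ω| ≤ (k : ℝ)} =
            B r := by
          ext ω
          simp only [mem_iUnion, mem_ofPred_eq, hAB]
          constructor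
          · rintro ⟨k, h, -⟩
            exact h
          · intro h
            obtain ⟨k, hk⟩ := exists_nat_ge |walk X M ω|
            exact ⟨k, h, hk⟩
        rw [← hun]
        have hmono : Monotone fun k : ℕ => {ω | (fun i : Fin M => X i ω) ∈ A ∧
            |walk X M ω| ≤ (k : ℝ)} := by
          intro k k' hk ω hω
          exact ⟨hω.1, hω.2.trans (by exact_mod_cast hk)⟩
        have := tendsto_measure_iUnion_atTop (μ := P) hmono
        exact (ENNReal.tendsto_toReal (measure_ne_top _ _)).comp this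
      have hbound : ∀ k : ℕ, p * P.real {ω | (fun i : Fin M => X i ω) ∈ A ∧
          |walk X M ω| ≤ (k : ℝ)} ≤ P.real (B r) - P.real Y := by
        intro k
        obtain ⟨j, hj, hjJ⟩ := ((hh M k).and (eventually_ge_atTop J)).exists
        have h1 := key P X hX hp M (N j - M) k (hD j) (by
          intro x hx
          refine (hj x hx).trans (measureReal_mono ?_)
          rintro ω ⟨n, h1, h2, h3⟩
          exact ⟨n, h1, by omega, h3⟩) hA
        refine h1.trans ?_
        have hsub : {ω | (fun i : Fin M => X i ω) ∈ A ∧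
            ∃ n : ℕ, 1 ≤ n ∧ n ≤ N j - M ∧ walk X (M + n) ω ∈ D j} ⊆ B r \ Y := by
          rintro ω ⟨h1, n, h2, h3, h4⟩
          refine ⟨(hAB ω).mp h1, fun hω => ?_⟩
          simp only [hY, mem_iInter] at hω
          exact hω j hjJ ⟨M + n, by omega, by omega, h4⟩
        exact (measureReal_mono hsub).trans_eq (measureReal_sdiff (hYB r) hYm)
      have := le_of_tendsto' (hlim.const_mul p) hbound
      nlinarith
    -- the limit `r → ∞`
    have hlimB : Tendsto (fun r : ℕ => P.real (B r)) atTop (𝓝 (P.real Y)) := by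
      have hin : ⋂ r : ℕ, B r = Y := by
        ext ω
        simp only [hY, hB, mem_iInter]
        constructor
        · intro h i hi
          exact h i i (Finset.mem_Icc.mpr ⟨hi, by omega⟩)
        · intro h r i hi
          exact h i (Finset.mem_Icc.mp hi).1
      rw [← hin]
      have hanti : Antitone B := by
        intro r r' hr ω hω
        simp only [hB, mem_iInter] at hω ⊢
        intro i hi
        have := Finset.mem_Icc.mp hi
        exact hω i (Finset.mem_Icc.mpr ⟨this.1, by omega⟩)
      have := tendsto_measure_iInter_atTop (μ := P)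
        (fun r => (hBm r).nullMeasurableSet) hanti ⟨0, measure_ne_top _ _⟩
      exact (ENNReal.tendsto_toReal (measure_ne_top _ _)).comp this
    have h1 : P.real Y ≤ (1 - p) * P.real Y :=
      ge_of_tendsto' (hlimB.const_mul (1 - p)) hstep
    have h2 : 0 ≤ P.real Y := measureReal_nonneg
    nlinarith
  have hae : ∀ J : ℕ, ∀ᵐ ω ∂P, ω ∉ ⋂ i ∈ Ici J, (E i)ᶜ := by
    intro J
    rw [← measure_eq_zero_iff_ae_notMem]
    exact (measureReal_eq_zero_iff).mp (hnull J)
  rw [← ae_all_iff] at hae
  filter_upwards [hae] with ω hω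
  rw [frequently_atTop]
  intro J
  have := hω J
  simp only [mem_iInter, not_forall] at this
  obtain ⟨i, hi, h⟩ := this
  exact ⟨i, hi, by simpa [hE] using h⟩

end Pool.Agent.CW
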