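import Pool.Agent.CW.Defs
import Pool.Agent.CW.PAIR
import Pool.Agent.CW.GROW
import Pool.Agent.CW.HIT
import Pool.Agent.CW.ZEROONE
import Pool.Agent.Lib.ThickFailure

/-!
# Part (A): the Cauchy walk samples the Lindelöf exponent
-/

set_option autoImplicit false

namespace Pool.Agent.CW

open MeasureTheory ProbabilityTheory Set Filter Topology Complex

namespace A_

theorem first {Ω : Type} [MeasurableSpace Ω] (P : Measure Ω) [IsProbabilityMeasure P]
    (X : ℕ → Ω → ℝ) (hX : IsCauchySeq P X) (A : ℝ) (hA : 0 ≤ A) (hL : LineBound A) :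
    ∀ᵐ ω ∂P, PathBound A (fun n => walk X n ω) := by
  have h1 : ∀ᵐ ω ∂P, ∀ j : ℕ, ∃ C : ℝ, ∀ n : ℕ, 1 ≤ n →
      |walk X n ω| ≤ C * (n : ℝ) ^ (1 + 1 / ((j : ℝ) + 1)) :=
    ae_all_iff.2 fun j => p_GROW P X hX _ (by positivity)
  filter_upwards [h1] with ω hω
  intro ε hε
  obtain ⟨C₁, hC₁⟩ := hL (ε / 2) (by linarith)
  have hC₁0 : 0 ≤ C₁ := by
    have h1 := (norm_nonneg (zl 0)).trans (hC₁ 0)
    have h2 : (0 : ℝ) < (1 + |(0 : ℝ)|) ^ (A + ε / 2) := by positivity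
    exact nonneg_of_mul_nonneg_left h1 h2
  obtain ⟨j, hj⟩ := exists_nat_one_div_lt (show (0 : ℝ) < ε / (2 * (A + ε / 2)) by positivity)
  obtain ⟨C₂, hC₂⟩ := hω j
  obtain ⟨η, hη⟩ : ∃ η : ℝ, η = 1 / ((j : ℝ) + 1) := ⟨_, rfl⟩
  rw [← hη] at hj hC₂
  have hη0 : 0 < η := by rw [hη]; positivity
  have hexp : (1 + η) * (A + ε / 2) ≤ A + ε := by
    have hpos : 0 < 2 * (A + ε / 2) := by linarith
    rw [lt_div_iff₀ hpos] at hj
    nlinarith
  refine ⟨C₁ * (1 + |C₂|) ^ (A + ε / 2), fun n hn => ?_⟩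
  have hn1 : (1 : ℝ) ≤ n := by exact_mod_cast hn
  have hnη : (1 : ℝ) ≤ (n : ℝ) ^ (1 + η) := Real.one_le_rpow hn1 (by linarith)
  have h2 : 1 + |walk X n ω| ≤ (1 + |C₂|) * (n : ℝ) ^ (1 + η) := by
    have h3 := hC₂ n hn
    have h4 : C₂ * (n : ℝ) ^ (1 + η) ≤ |C₂| * (n : ℝ) ^ (1 + η) :=
      mul_le_mul_of_nonneg_right (le_abs_self _) (by linarith)
    linarith
  have hpos : 0 ≤ A + ε / 2 := by linarith
  calc ‖zl (walk X n ω)‖ ≤ C₁ * (1 + |walk X n ω|) ^ (A + ε / 2) := hC₁ _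
    _ ≤ C₁ * ((1 + |C₂|) * (n : ℝ) ^ (1 + η)) ^ (A + ε / 2) := by
        refine mul_le_mul_of_nonneg_left ?_ hC₁0
        exact Real.rpow_le_rpow (by positivity) h2 hpos
    _ = C₁ * (1 + |C₂|) ^ (A + ε / 2) * (n : ℝ) ^ ((1 + η) * (A + ε / 2)) := by
        rw [Real.mul_rpow (by positivity) (by positivity), ← Real.rpow_mul (by positivity)]
        ring
    _ ≤ C₁ * (1 + |C₂|) ^ (A + ε / 2) * (n : ℝ) ^ (A + ε) := by
        refine mul_le_mul_of_nonneg_left ?_ (by positivity)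
        exact Real.rpow_le_rpow_of_exponent_le hn1 hexp

theorem second {Ω : Type} [MeasurableSpace Ω] (P : Measure Ω) [IsProbabilityMeasure P]
    (X : ℕ → Ω → ℝ) (hX : IsCauchySeq P X) (A : ℝ) (hA : 0 ≤ A) (hL : ¬ LineBound A) :
    ∃ B : ℝ, A < B ∧ ∀ᵐ ω ∂P, ∀ C : ℝ, ∃ n : ℕ, 1 ≤ n ∧
      C * (n : ℝ) ^ B < ‖zl (walk X n ω)‖ := by
  have h0 := (not_congr (Pool.Agent.Lib.ThickFailure.result A hA)).1 hL
  push Not at h0
  obtain ⟨B₀, hB₀, h0⟩ := h0
  obtain ⟨δ, hδ, h0⟩ := h0 (1 / 2) (by norm_num)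
  -- the parameters
  obtain ⟨B, hB⟩ : ∃ B : ℝ, B = (A + B₀) / 2 := ⟨_, rfl⟩
  have hAB : A < B := by linarith
  have hBB : B < B₀ := by linarith
  have hBpos : 0 < B := by linarith
  obtain ⟨η, hηd⟩ : ∃ η : ℝ, η = (B₀ - B) / (4 * B) := ⟨_, rfl⟩
  have hη : 0 < η := by
    rw [hηd]
    exact div_pos (by linarith) (by linarith)
  have hηB : (1 + 2 * η) * B < B₀ := by
    have : η * B = (B₀ - B) / 4 := by
      rw [hηd]
      field_simp
    nlinarith
  refine ⟨B, hAB, ?_⟩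
  obtain ⟨p, hp, T₀, hT₀, hhit⟩ := p_HIT p_PAIR δ hδ η hη
  choose T hTj hTv using fun j : ℕ => h0 (j : ℝ)
  have hTtop : Tendsto T atTop atTop :=
    tendsto_atTop_mono hTj tendsto_natCast_atTop_atTop
  obtain ⟨D, hD⟩ : ∃ D : ℕ → Set ℝ, D = fun j => Icc (T j) (T j + δ) \
    Pool.Agent.Lib.ThickFailure.Good B₀ (T j) δ := ⟨_, rfl⟩
  obtain ⟨N, hN⟩ : ∃ N : ℕ → ℕ, N = fun j => ⌊(T j) ^ (1 + 2 * η)⌋₊ := ⟨_, rfl⟩
  have hDm : ∀ j, MeasurableSet (D j) := by
    intro j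
    rw [hD]
    exact measurableSet_Icc.diff (Pool.Agent.Lib.ThickFailure.measurable_Good _ _ _)
  have hDs : ∀ j, D j ⊆ Icc (T j) (T j + δ) := by
    intro j
    rw [hD]
    exact sdiff_subset
  have hDv : ∀ j, δ / 2 ≤ volume.real (D j) ∧ volume.real (D j) ≤ δ := by
    intro j
    have hIcc : volume.real (Icc (T j) (T j + δ)) = δ := by
      rw [Real.volume_real_Icc_of_le (by linarith)]
      ring
    constructor
    · have h1 : volume.real (Icc (T j) (T j + δ)) ≤ volume.real (D j) +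
          volume.real (Pool.Agent.Lib.ThickFailure.Good B₀ (T j) δ) := by
        have hfin : volume (D j ∪ Pool.Agent.Lib.ThickFailure.Good B₀ (T j) δ) ≠ ⊤ := by
          refine ne_top_of_le_ne_top ?_ (measure_mono (union_subset (hDs j) fun t ht => ht.1))
          exact measure_Icc_lt_top.ne
        refine le_trans (measureReal_mono ?_ hfin) (measureReal_union_le _ _)
        intro t ht
        by_cases hg : t ∈ Pool.Agent.Lib.ThickFailure.Good B₀ (T j) δ
        · exact Or.inr hg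
        · left
          rw [hD]
          exact ⟨ht, hg⟩
      have h2 := hTv j
      have h3 : volume.real (Pool.Agent.Lib.ThickFailure.Good B₀ (T j) δ) < 1 / 2 * δ := h2
      rw [hIcc] at h1
      linarith
    · rw [← hIcc]
      exact measureReal_mono (hDs j) measure_Icc_lt_top.ne
  -- the hypothesis of the zero-one lemma
  have hyp : ∀ (M : ℕ) (K : ℝ), ∀ᶠ j in atTop, ∀ x : ℝ, |x| ≤ K →
      p ≤ P.real {ω | ∃ n : ℕ, 1 ≤ n ∧ n + M ≤ N j ∧ x + walk X n ω ∈ D j} := by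
    intro M K
    have hpw : Tendsto (fun t : ℝ => t ^ η) atTop atTop := tendsto_rpow_atTop hη
    filter_upwards [hTtop.eventually_ge_atTop T₀, hTtop.eventually_ge_atTop (2 * |K|),
      hTtop.eventually_ge_atTop (δ + |K|), hTtop.eventually_ge_atTop (M : ℝ),
      (hpw.comp hTtop).eventually_ge_atTop 2, hTtop.eventually_ge_atTop 1]
      with j j1 j2 j3 j4 j5 j6
    intro x hx
    have hxK : |x| ≤ |K| := hx.trans (le_abs_self K)
    obtain ⟨hx1, hx2⟩ := abs_le.1 hxK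
    have hT0 : 0 < T j := by linarith
    have hsub : (fun y => x + y) ⁻¹' (D j) ⊆ Icc (T j / 2) (2 * T j) := by
      intro y hy
      have h1 := hDs j hy
      obtain ⟨h2, h3⟩ := h1
      have h2' : T j ≤ x + y := h2
      have h3' : x + y ≤ T j + δ := h3
      constructor <;> linarith
    have hmeas : MeasurableSet ((fun y => x + y) ⁻¹' (D j)) :=
      (measurable_const.add measurable_id) (hDm j)
    have hvol : volume.real ((fun y => x + y) ⁻¹' (D j)) = volume.real (D j) := by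
      rw [measureReal_def, measureReal_def, measure_preimage_add]
    refine (hhit (T j) j1 _ hmeas hsub (by rw [hvol]; exact (hDv j).1)
      (by rw [hvol]; exact (hDv j).2) P X hX).trans ?_
    refine measureReal_mono ?_ (measure_ne_top _ _)
    rintro ω ⟨n, hn1, hn2, hn3⟩
    refine ⟨n, hn1, ?_, hn3⟩
    rw [hN]
    refine Nat.le_floor ?_
    push_cast
    have h1 : T j ^ (1 + 2 * η) = T j ^ (1 + η) * T j ^ η := by
      rw [← Real.rpow_add hT0]
      congr 1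
      ring
    have h2 : (2 : ℝ) ≤ T j ^ η := j5
    have h3 : (M : ℝ) ≤ T j ^ (1 + η) := by
      calc (M : ℝ) ≤ T j := j4
        _ = T j ^ (1 : ℝ) := (Real.rpow_one _).symm
        _ ≤ T j ^ (1 + η) := Real.rpow_le_rpow_of_exponent_le j6 (by linarith)
    have h4 : 0 ≤ T j ^ (1 + η) := by positivity
    rw [h1]
    nlinarith
  have hz := p_ZEROONE P X hX p hp D N hDm hyp
  filter_upwards [hz] with ω hω
  intro C
  have hpw : Tendsto (fun t : ℝ => t ^ (B₀ - (1 + 2 * η) * B)) atTop atTop :=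
    tendsto_rpow_atTop (by linarith)
  have hev := (hpw.comp hTtop).eventually_ge_atTop |C|
  have hev1 := hTtop.eventually_ge_atTop 1
  obtain ⟨j, ⟨n, hn1, hn2, hn3⟩, hj, hj1⟩ := (hω.and_eventually (hev.and hev1)).exists
  refine ⟨n, hn1, ?_⟩
  have hT0 : 0 < T j := by linarith
  have hbad : T j ^ B₀ < ‖zl (walk X n ω)‖ := by
    rw [hD] at hn3
    obtain ⟨h1, h2⟩ := hn3
    by_contra h3
    exact h2 ⟨h1, not_lt.1 h3⟩
  refine lt_of_le_of_lt ?_ hbad
  have hn0 : (0 : ℝ) ≤ n := Nat.cast_nonneg n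
  have hnT : (n : ℝ) ≤ T j ^ (1 + 2 * η) := by
    have h1 : (n : ℝ) ≤ (N j : ℝ) := by exact_mod_cast hn2
    refine h1.trans ?_
    rw [hN]
    exact Nat.floor_le (by positivity)
  have hnB : (n : ℝ) ^ B ≤ T j ^ ((1 + 2 * η) * B) := by
    rw [Real.rpow_mul hT0.le]
    exact Real.rpow_le_rpow hn0 hnT hBpos.le
  have hj' : |C| ≤ T j ^ (B₀ - (1 + 2 * η) * B) := hj
  calc C * (n : ℝ) ^ B ≤ |C| * (n : ℝ) ^ B :=
        mul_le_mul_of_nonneg_right (le_abs_self C) (by positivity)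
    _ ≤ T j ^ (B₀ - (1 + 2 * η) * B) * T j ^ ((1 + 2 * η) * B) :=
        mul_le_mul hj' hnB (by positivity) (by positivity)
    _ = T j ^ B₀ := by
        rw [← Real.rpow_add hT0]
        congr 1
        ring

end A_

theorem p_A : P_A := by
  intro Ω _ P _ X hX A hA
  exact ⟨A_.first P X hX A hA, A_.second P X hX A hA⟩

end Pool.Agent.CW
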