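import Pool.Agent.CW.Defs2

/-!
# BIG: if the moment bound fails, the sum of squares along the walk is large infinitely often
-/

set_option autoImplicit false

namespace Pool.Agent.CW

open MeasureTheory ProbabilityTheory Set Filter Topology Complex

namespace BIG_

theorem cont_zl : Continuous zl := by
  unfold zl
  refine continuous_iff_continuousAt.2 fun t => ?_
  have h : (1 / 2 + t * I : ℂ) ≠ 1 := by
    intro h
    have := congrArg Complex.re h
    norm_num at this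
  exact ContinuousAt.comp (f := fun t : ℝ => (1 / 2 + t * I : ℂ)) (g := riemannZeta)
    (differentiableAt_riemannZeta h).continuousAt (by fun_prop)

/-- dyadic summation -/
theorem dyadic (f : ℝ → ℝ) (hf : Continuous f) (hf0 : ∀ t, 0 ≤ f t) (a T₀ : ℝ) (ha : 1 ≤ a)
    (hT₀ : 1 ≤ T₀) (h : ∀ T, T₀ ≤ T → ∫ t in T..(2 * T), f t ≤ T ^ a) :
    ∃ B : ℝ, 0 ≤ B ∧ ∀ T : ℝ, 0 ≤ T → ∫ t in (0 : ℝ)..T, f t ≤ B + T ^ a := by
  have hint : ∀ x y : ℝ, IntervalIntegrable f volume x y := fun x y => hf.intervalIntegrable x y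
  refine ⟨∫ t in (0 : ℝ)..(2 * T₀), f t,
    intervalIntegral.integral_nonneg (by linarith) fun t _ => hf0 t, ?_⟩
  have small : ∀ T : ℝ, 0 ≤ T → T ≤ 2 * T₀ →
      ∫ t in (0 : ℝ)..T, f t ≤ (∫ t in (0 : ℝ)..(2 * T₀), f t) + T ^ a := by
    intro T hT hT2
    have h1 : ∫ t in (0 : ℝ)..T, f t ≤ ∫ t in (0 : ℝ)..(2 * T₀), f t :=
      intervalIntegral.integral_mono_interval le_rfl hT hT2 (Eventually.of_forall hf0) (hint _ _)
    have h2 : 0 ≤ T ^ a := by positivity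
    linarith
  have key : ∀ n : ℕ, ∀ T : ℝ, 0 ≤ T → T ≤ 2 ^ n * (2 * T₀) →
      ∫ t in (0 : ℝ)..T, f t ≤ (∫ t in (0 : ℝ)..(2 * T₀), f t) + T ^ a := by
    intro n
    induction n with
    | zero =>
      intro T hT hT2
      exact small T hT (by simpa using hT2)
    | succ n ih =>
      intro T hT hT2
      by_cases hc : T ≤ 2 * T₀
      · exact small T hT hc
      · push Not at hc
        have h3 := ih (T / 2) (by linarith) (by rw [pow_succ] at hT2; linarith)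
        have h4 := h (T / 2) (by linarith)
        rw [show 2 * (T / 2) = T by ring] at h4
        have h5 : (∫ t in (0 : ℝ)..(T / 2), f t) + ∫ t in (T / 2)..T, f t =
            ∫ t in (0 : ℝ)..T, f t :=
          intervalIntegral.integral_add_adjacent_intervals (hint _ _) (hint _ _)
        have h6 : 2 * (T / 2) ^ a ≤ T ^ a := by
          rw [Real.div_rpow (by linarith) (by norm_num)]
          have h7 : (2 : ℝ) ≤ 2 ^ a := by
            calc (2 : ℝ) = 2 ^ (1 : ℝ) := (Real.rpow_one 2).symm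
              _ ≤ 2 ^ a := Real.rpow_le_rpow_of_exponent_le (by norm_num) ha
          have h8 : 0 ≤ T ^ a := Real.rpow_nonneg (by linarith) _
          rw [mul_div_assoc', div_le_iff₀ (by positivity)]
          nlinarith
        linarith
  intro T hT
  obtain ⟨n, hn⟩ := pow_unbounded_of_one_lt T (one_lt_two : (1 : ℝ) < 2)
  refine key n T hT ?_
  have h1 : (0 : ℝ) < 2 ^ n := by positivity
  nlinarith

/-- long intervals with a large moment -/
theorem big (k : ℕ) (l : ℝ) (hl : 0 ≤ l) (h : ¬ MomentBound k l) :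
    ∃ κ : ℝ, 0 < κ ∧ κ ≤ 1 ∧ ∀ T₀ : ℝ, ∃ T : ℝ, T₀ ≤ T ∧
      T ^ (1 + 2 * l + κ) ≤ ∫ t in T..(2 * T), ‖zl t‖ ^ (2 * k) := by
  unfold MomentBound at h
  push Not at h
  obtain ⟨ε, hε, h⟩ := h
  have hm : 0 < min ε 1 := lt_min hε one_pos
  refine ⟨min ε 1 / 2, by linarith, by linarith [min_le_right ε 1], ?_⟩
  intro T₀
  by_contra hcon
  push Not at hcon
  have hc := cont_zl
  obtain ⟨B, hB, hB2⟩ := dyadic (fun t => ‖zl t‖ ^ (2 * k)) (by fun_prop)
    (fun t => by positivity) (1 + 2 * l + min ε 1 / 2) (max T₀ 1) (by linarith)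
    (le_max_right _ _) (fun T hT => (hcon T ((le_max_left _ _).trans hT)).le)
  obtain ⟨T, hT1, hT2⟩ := h (B + 1)
  have h3 := hB2 T (by linarith)
  have h4 : T ^ (1 + 2 * l + min ε 1 / 2) ≤ T ^ (1 + 2 * l + ε) :=
    Real.rpow_le_rpow_of_exponent_le hT1 (by linarith [min_le_left ε 1])
  have h5 : 1 ≤ T ^ (1 + 2 * l + ε) := Real.one_le_rpow hT1 (by linarith)
  nlinarith

theorem sq_le (z : ℂ) (k : ℕ) : ‖z ^ k - 1‖ ^ 2 ≤ 2 * ‖z‖ ^ (2 * k) + 2 := by
  have h3 : ‖z ^ k - 1‖ ≤ ‖z‖ ^ k + 1 := by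
    refine (norm_sub_le _ _).trans ?_
    rw [norm_pow, norm_one]
  have h4 : ‖z‖ ^ (2 * k) = (‖z‖ ^ k) ^ 2 := by rw [← pow_mul, mul_comm]
  rw [h4]
  calc ‖z ^ k - 1‖ ^ 2 ≤ (‖z‖ ^ k + 1) ^ 2 := pow_le_pow_left₀ (norm_nonneg _) h3 2
    _ ≤ _ := by nlinarith [sq_nonneg (‖z‖ ^ k - 1)]

theorem le_sq (z : ℂ) (k : ℕ) : ‖z‖ ^ (2 * k) ≤ 2 * ‖z ^ k - 1‖ ^ 2 + 2 := by
  have h3 : ‖z‖ ^ k ≤ ‖z ^ k - 1‖ + 1 := by
    rw [← norm_pow]
    calc ‖z ^ k‖ = ‖(z ^ k - 1) + 1‖ := by rw [sub_add_cancel]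
      _ ≤ ‖z ^ k - 1‖ + ‖(1 : ℂ)‖ := norm_add_le _ _
      _ = _ := by rw [norm_one]
  have h4 : ‖z‖ ^ (2 * k) = (‖z‖ ^ k) ^ 2 := by rw [← pow_mul, mul_comm]
  rw [h4]
  calc (‖z‖ ^ k) ^ 2 ≤ (‖z ^ k - 1‖ + 1) ^ 2 := pow_le_pow_left₀ (by positivity) h3 2
    _ ≤ _ := by nlinarith [sq_nonneg (‖z ^ k - 1‖ - 1)]

theorem point (k : ℕ) (hk : 1 ≤ k) (l : ℝ) (hl : 0 ≤ l) (hL : LineBound ((1 / 2 + l) / k))
    (κ : ℝ) (hκ : 0 < κ) :
    ∃ C : ℝ, 0 < C ∧ ∀ t : ℝ, ‖zl t ^ k - 1‖ ^ 2 ≤ C * (1 + |t|) ^ (1 + 2 * l + κ) := by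
  have hk0 : (0 : ℝ) < k := by exact_mod_cast hk
  obtain ⟨C, hC⟩ := hL (κ / (2 * k)) (by positivity)
  have hC0 : 0 ≤ C := by
    have h1 := (norm_nonneg (zl 0)).trans (hC 0)
    have h2 : (0 : ℝ) < (1 + |(0 : ℝ)|) ^ ((1 / 2 + l) / k + κ / (2 * k)) := by positivity
    exact nonneg_of_mul_nonneg_left h1 h2
  refine ⟨2 * C ^ (2 * k) + 2, by positivity, fun t => ?_⟩
  have h1 : ‖zl t‖ ^ (2 * k) ≤ C ^ (2 * k) * (1 + |t|) ^ (1 + 2 * l + κ) := by
    calc ‖zl t‖ ^ (2 * k) ≤ (C * (1 + |t|) ^ ((1 / 2 + l) / k + κ / (2 * k))) ^ (2 * k) :=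
          pow_le_pow_left₀ (norm_nonneg _) (hC t) _
      _ = C ^ (2 * k) * (1 + |t|) ^ (1 + 2 * l + κ) := by
        rw [mul_pow, ← Real.rpow_natCast ((1 + |t|) ^ _) (2 * k), ← Real.rpow_mul (by positivity)]
        congr 2
        push_cast
        field_simp
  have h2 := sq_le (zl t) k
  have h3 : (1 : ℝ) ≤ (1 + |t|) ^ (1 + 2 * l + κ) :=
    Real.one_le_rpow (by linarith [abs_nonneg t]) (by linarith)
  nlinarith

end BIG_

open BIG_ in
theorem p_BIG (hH : P_HITW) (hZ : P_ZOW) : P_BIG := by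
  intro k l hk hl hl2 hL hM
  obtain ⟨κ, hκ, hκ1, hbig⟩ := big k l hl hM
  obtain ⟨C₀, hC₀, hpt⟩ := point k hk l hl hL (κ / 4) (by linarith)
  have hc := cont_zl
  obtain ⟨g, hg⟩ : ∃ g : ℝ → ℝ, g = fun t => ‖zl t ^ k - 1‖ ^ 2 := ⟨_, rfl⟩
  have hgc : Continuous g := by
    rw [hg]
    fun_prop
  have hg0 : ∀ t, 0 ≤ g t := by
    intro t
    rw [hg]
    positivity
  refine ⟨κ / 8, by linarith, ?_⟩
  obtain ⟨η, hη⟩ : ∃ η : ℝ, η = κ / 16 := ⟨_, rfl⟩
  have hη0 : 0 < η := by rw [hη]; linarith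
  obtain ⟨p, hp, q, hq, T₀, hT₀, hhit⟩ := hH η hη0
  intro Ω _ P _ X hX
  -- large heights
  have ev : ∀ᶠ T : ℝ in atTop, 1 ≤ T ∧ 4 ≤ T ^ (κ / 2) ∧
      C₀ * 3 ^ (1 + 2 * l + κ / 4) ≤ T ^ (κ / 4) :=
    (eventually_ge_atTop 1).and
      (((tendsto_rpow_atTop (by linarith : 0 < κ / 2)).eventually_ge_atTop 4).and
        ((tendsto_rpow_atTop (by linarith : 0 < κ / 4)).eventually_ge_atTop _))
  obtain ⟨T₁, hT₁⟩ := eventually_atTop.1 ev
  choose T hTj hTi using fun j : ℕ => hbig (max (j : ℝ) T₁)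
  have hTtop : Tendsto T atTop atTop :=
    tendsto_atTop_mono (fun j => (le_max_left _ _).trans (hTj j)) tendsto_natCast_atTop_atTop
  have hT1 : ∀ j, 1 ≤ T j := fun j => (hT₁ (T j) ((le_max_right _ _).trans (hTj j))).1
  have hT4 : ∀ j, 4 ≤ (T j) ^ (κ / 2) :=
    fun j => (hT₁ (T j) ((le_max_right _ _).trans (hTj j))).2.1
  have hTC : ∀ j, C₀ * 3 ^ (1 + 2 * l + κ / 4) ≤ (T j) ^ (κ / 4) :=
    fun j => (hT₁ (T j) ((le_max_right _ _).trans (hTj j))).2.2
  obtain ⟨w, hw⟩ : ∃ w : ℕ → ℝ → ℝ, w = fun j => (Icc (T j) (2 * T j)).indicator g := ⟨_, rfl⟩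
  obtain ⟨M, hMd⟩ : ∃ M : ℕ → ℝ, M = fun j => ∫ t in (T j)..(2 * T j), g t := ⟨_, rfl⟩
  obtain ⟨N, hN⟩ : ∃ N : ℕ → ℕ, N = fun j => ⌊(T j) ^ (1 + 2 * η)⌋₊ := ⟨_, rfl⟩
  have hwm : ∀ j, Measurable (w j) := by
    intro j
    rw [hw]
    exact hgc.measurable.indicator measurableSet_Icc
  have hw0 : ∀ j t, 0 ≤ w j t := by
    intro j t
    rw [hw]
    exact indicator_nonneg (fun t _ => hg0 t) t
  have hwg : ∀ j t, w j t ≤ g t := by
    intro j t
    rw [hw]
    exact indicator_le_self' (fun _ _ => hg0 _) t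
  have hwi : ∀ j, ∫ t, w j t = M j := by
    intro j
    rw [hw, hMd]
    simp only
    rw [integral_indicator measurableSet_Icc, integral_Icc_eq_integral_Ioc,
      intervalIntegral.integral_of_le (by linarith [hT1 j])]
  have hM1 : ∀ j, (T j) ^ (1 + 2 * l + κ / 2) ≤ M j := by
    intro j
    have hTp : 0 < T j := by linarith [hT1 j]
    have h1 := hTi j
    have h2 : ∫ t in (T j)..(2 * T j), ‖zl t‖ ^ (2 * k) ≤
        ∫ t in (T j)..(2 * T j), (2 * g t + 2) := by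
      refine intervalIntegral.integral_mono_on (by linarith)
        (Continuous.intervalIntegrable (by fun_prop) _ _)
        (Continuous.intervalIntegrable (by fun_prop) _ _) fun t _ => ?_
      rw [hg]
      exact le_sq (zl t) k
    have h3 : ∫ t in (T j)..(2 * T j), (2 * g t + 2) = 2 * M j + 2 * T j := by
      rw [intervalIntegral.integral_add (Continuous.intervalIntegrable (by fun_prop) _ _)
        (Continuous.intervalIntegrable (by fun_prop) _ _), intervalIntegral.integral_const_mul,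
        intervalIntegral.integral_const, hMd]
      simp only [smul_eq_mul]
      ring
    have h4 : (T j) ^ (1 + 2 * l + κ) = (T j) ^ (1 + 2 * l + κ / 2) * (T j) ^ (κ / 2) := by
      rw [← Real.rpow_add hTp]
      congr 1
      ring
    have h5 : T j ≤ (T j) ^ (1 + 2 * l + κ / 2) := by
      calc T j = (T j) ^ (1 : ℝ) := (Real.rpow_one _).symm
        _ ≤ _ := Real.rpow_le_rpow_of_exponent_le (hT1 j) (by linarith)
    have h6 := hT4 j
    have h7 : 0 < (T j) ^ (1 + 2 * l + κ / 2) := by positivity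
    have h8 : (T j) ^ (1 + 2 * l + κ / 2) * 4 ≤
        (T j) ^ (1 + 2 * l + κ / 2) * (T j) ^ (κ / 2) := mul_le_mul_of_nonneg_left h6 h7.le
    linarith
  have hMp : ∀ j, 0 < M j := by
    intro j
    have : 0 < T j := by linarith [hT1 j]
    exact lt_of_lt_of_le (by positivity) (hM1 j)
  have hwM : ∀ j t, w j t ≤ M j := by
    intro j t
    have hTp : 0 < T j := by linarith [hT1 j]
    by_cases ht : t ∈ Icc (T j) (2 * T j)
    · have h1 : w j t = ‖zl t ^ k - 1‖ ^ 2 := by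
        rw [hw]
        simp only
        rw [indicator_of_mem ht, hg]
      rw [h1]
      refine (hpt t).trans (le_trans ?_ (hM1 j))
      have h2 : 1 + |t| ≤ 3 * T j := by
        rw [abs_of_nonneg (by linarith [ht.1])]
        linarith [ht.2, hT1 j]
      have h3 : (1 + |t|) ^ (1 + 2 * l + κ / 4) ≤ (3 * T j) ^ (1 + 2 * l + κ / 4) :=
        Real.rpow_le_rpow (by positivity) h2 (by linarith)
      have h4 : (3 * T j) ^ (1 + 2 * l + κ / 4) =
          3 ^ (1 + 2 * l + κ / 4) * (T j) ^ (1 + 2 * l + κ / 4) :=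
        Real.mul_rpow (by norm_num) hTp.le
      calc C₀ * (1 + |t|) ^ (1 + 2 * l + κ / 4)
          ≤ C₀ * (3 ^ (1 + 2 * l + κ / 4) * (T j) ^ (1 + 2 * l + κ / 4)) := by
            rw [← h4]
            exact mul_le_mul_of_nonneg_left h3 hC₀.le
        _ = (C₀ * 3 ^ (1 + 2 * l + κ / 4)) * (T j) ^ (1 + 2 * l + κ / 4) := by ring
        _ ≤ (T j) ^ (κ / 4) * (T j) ^ (1 + 2 * l + κ / 4) :=
            mul_le_mul_of_nonneg_right (hTC j) (by positivity)
        _ = (T j) ^ (1 + 2 * l + κ / 2) := by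
            rw [← Real.rpow_add hTp]
            congr 1
            ring
    · have h1 : w j t = 0 := by
        rw [hw]
        exact indicator_of_notMem ht _
      rw [h1]
      exact (hMp j).le
  -- the hypothesis of the zero-one lemma
  have hyp : ∀ (m : ℕ) (K : ℝ), ∀ᶠ j in atTop, ∀ x : ℝ, |x| ≤ K →
      p ≤ P.real {ω | q * M j ≤ ∑ n ∈ Finset.Icc 1 (N j - m), w j (x + walk X n ω)} := by
    intro m K
    have hpw : Tendsto (fun t : ℝ => t ^ η) atTop atTop := tendsto_rpow_atTop hη0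
    filter_upwards [hTtop.eventually_ge_atTop T₀, hTtop.eventually_ge_atTop (2 * |K|),
      hTtop.eventually_ge_atTop (m : ℝ), (hpw.comp hTtop).eventually_ge_atTop 2]
      with j j1 j2 j4 j5
    intro x hx
    have hxK : |x| ≤ |K| := hx.trans (le_abs_self K)
    obtain ⟨hx1, hx2⟩ := abs_le.1 hxK
    have hTp : 0 < T j := by linarith [hT1 j]
    have hsupp : ∀ t, t ∉ Icc (T j / 2) (4 * T j) → w j (x + t) = 0 := by
      intro t ht
      rw [hw]
      refine indicator_of_notMem ?_ _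
      rintro ⟨h1, h2⟩
      exact ht ⟨by linarith, by linarith⟩
    have hint : ∫ t, w j (x + t) = M j := by
      rw [integral_add_left_eq_self (fun t => w j t) x]
      exact hwi j
    refine (hhit (T j) j1 (fun t => w j (x + t)) (M j) ((hwm j).comp (by fun_prop)) (hMp j)
      (fun t => hw0 j _) (fun t => hwM j _) hsupp hint P X hX).trans ?_
    refine measureReal_mono ?_ (measure_ne_top _ _)
    intro ω hω
    have hω' : q * M j ≤ ∑ n ∈ Finset.Icc 1 ⌊T j ^ (1 + η)⌋₊, w j (x + walk X n ω) := hω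
    refine hω'.trans ?_
    refine Finset.sum_le_sum_of_subset_of_nonneg ?_ fun n _ _ => hw0 j _
    apply Finset.Icc_subset_Icc_right
    have h0 : ⌊T j ^ (1 + η)⌋₊ + m ≤ N j := by
      rw [hN]
      refine Nat.le_floor ?_
      push_cast
      have h1 : T j ^ (1 + 2 * η) = T j ^ (1 + η) * T j ^ η := by
        rw [← Real.rpow_add hTp]
        congr 1
        ring
      have h2 : (2 : ℝ) ≤ T j ^ η := j5
      have h3 : (m : ℝ) ≤ T j ^ (1 + η) := by
        calc (m : ℝ) ≤ T j := j4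
          _ = T j ^ (1 : ℝ) := (Real.rpow_one _).symm
          _ ≤ T j ^ (1 + η) := Real.rpow_le_rpow_of_exponent_le (hT1 j) (by linarith)
      have h4 : 0 ≤ T j ^ (1 + η) := by positivity
      have h5 : (⌊T j ^ (1 + η)⌋₊ : ℝ) ≤ T j ^ (1 + η) := Nat.floor_le h4
      rw [h1]
      nlinarith
    omega
  have hz := hZ P X hX p hp w (fun j => q * M j) N hwm hw0 hyp
  filter_upwards [hz] with ω hω
  intro C
  obtain ⟨δ, hδ⟩ : ∃ δ : ℝ, δ = (1 + 2 * l + κ / 2) - (1 + 2 * η) * (1 + 2 * l + κ / 8) :=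
    ⟨_, rfl⟩
  have hδ0 : 0 < δ := by
    rw [hδ, hη]
    nlinarith
  have hpw : Tendsto (fun t : ℝ => t ^ δ) atTop atTop := tendsto_rpow_atTop hδ0
  have hev := (hpw.comp hTtop).eventually_gt_atTop (|C| / q)
  obtain ⟨j, hj1, hj2⟩ := (hω.and_eventually hev).exists
  have hTp : 0 < T j := by linarith [hT1 j]
  refine ⟨N j, ?_, ?_⟩
  · rw [hN]
    refine Nat.le_floor ?_
    push_cast
    exact Real.one_le_rpow (hT1 j) (by linarith)
  · have hj2' : |C| / q < (T j) ^ δ := hj2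
    rw [div_lt_iff₀ hq] at hj2'
    have h1 : (N j : ℝ) ≤ (T j) ^ (1 + 2 * η) := by
      rw [hN]
      exact Nat.floor_le (by positivity)
    have h2 : (N j : ℝ) ^ (1 + 2 * l + κ / 8) ≤ (T j) ^ ((1 + 2 * η) * (1 + 2 * l + κ / 8)) := by
      rw [Real.rpow_mul hTp.le]
      exact Real.rpow_le_rpow (Nat.cast_nonneg _) h1 (by linarith)
    have h3 : 0 < (T j) ^ ((1 + 2 * η) * (1 + 2 * l + κ / 8)) := by positivity
    calc C * (N j : ℝ) ^ (1 + 2 * l + κ / 8)
        ≤ |C| * (N j : ℝ) ^ (1 + 2 * l + κ / 8) :=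
          mul_le_mul_of_nonneg_right (le_abs_self C) (by positivity)
      _ ≤ |C| * (T j) ^ ((1 + 2 * η) * (1 + 2 * l + κ / 8)) :=
          mul_le_mul_of_nonneg_left h2 (abs_nonneg C)
      _ < (T j) ^ δ * q * (T j) ^ ((1 + 2 * η) * (1 + 2 * l + κ / 8)) :=
          mul_lt_mul_of_pos_right hj2' h3
      _ = q * (T j) ^ (1 + 2 * l + κ / 2) := by
          have : (T j) ^ δ * (T j) ^ ((1 + 2 * η) * (1 + 2 * l + κ / 8)) =
              (T j) ^ (1 + 2 * l + κ / 2) := by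
            rw [← Real.rpow_add hTp, hδ]
            congr 1
            ring
          rw [← this]
          ring
      _ ≤ q * M j := mul_le_mul_of_nonneg_left (hM1 j) hq.le
      _ ≤ ∑ n ∈ Finset.Icc 1 (N j), w j (walk X n ω) := hj1
      _ ≤ ∑ n ∈ Finset.Icc 1 (N j), ‖zl (walk X n ω) ^ k - 1‖ ^ 2 := by
          refine Finset.sum_le_sum fun n _ => ?_
          have := hwg j (walk X n ω)
          rw [hg] at this
          exact this

end Pool.Agent.CW
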