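import Pool.Agent.CW.Defs
import Pool.Agent.HolMom.Zeta

/-!
# MEAN: Poisson means of the powers of zeta under the Lindelöf hypothesis
-/

set_option autoImplicit false

namespace Pool.Agent.CW

open MeasureTheory ProbabilityTheory Set Filter Topology Complex

namespace MEAN_

/-- zeta without its pole -/
noncomputable def H (s : ℂ) : ℂ := riemannZeta₁ s / (s + 1)

/-- the quotient of `s - 1` and `s + 1` -/
noncomputable def b (s : ℂ) : ℂ := (s - 1) / (s + 1)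

theorem add_one_ne {s : ℂ} (hs : 0 ≤ s.re) : s + 1 ≠ 0 := by
  intro h
  have := congrArg Complex.re h
  simp at this
  linarith

theorem H_eq {s : ℂ} (hs : s ≠ 1) : H s = b s * riemannZeta s := by
  have h1 : s - 1 ≠ 0 := sub_ne_zero.2 hs
  unfold H b
  rw [riemannZeta_eq_inv_sub_mul hs, div_mul_eq_mul_div, mul_inv_cancel_left₀ h1]

theorem norm_b_le {s : ℂ} (hs : 0 ≤ s.re) : ‖b s‖ ≤ 1 := by
  unfold b
  rw [norm_div, div_le_one (norm_pos_iff.2 (add_one_ne hs))]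
  have h1 : ‖s - 1‖ ^ 2 ≤ ‖s + 1‖ ^ 2 := by
    rw [Complex.sq_norm, Complex.sq_norm, Complex.normSq_apply, Complex.normSq_apply]
    simp only [sub_re, one_re, sub_im, one_im, add_re, add_im]
    nlinarith
  exact (sq_le_sq₀ (norm_nonneg _) (norm_nonneg _)).1 h1

theorem norm_pow_sub_one_le (M : ℝ) (hM : 1 ≤ M) (z : ℂ) (hz : ‖z‖ ≤ M) (k : ℕ) :
    ‖z ^ k - 1‖ ≤ k * M ^ k * ‖z - 1‖ := by
  induction k with
  | zero => simp
  | succ k ih =>
    have h1 : z ^ (k + 1) - 1 = z * (z ^ k - 1) + (z - 1) := by ring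
    rw [h1]
    refine (norm_add_le _ _).trans ?_
    rw [norm_mul]
    have h2 : ‖z‖ * ‖z ^ k - 1‖ ≤ M * (k * M ^ k * ‖z - 1‖) :=
      mul_le_mul hz ih (norm_nonneg _) (by linarith)
    have h3 : 1 ≤ M ^ (k + 1) := one_le_pow₀ hM
    have h4 := norm_nonneg (z - 1)
    push_cast
    calc ‖z‖ * ‖z ^ k - 1‖ + ‖z - 1‖ ≤ M * (k * M ^ k * ‖z - 1‖) + M ^ (k + 1) * ‖z - 1‖ := by
          nlinarith
      _ = ((k : ℝ) + 1) * M ^ (k + 1) * ‖z - 1‖ := by ring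

theorem norm_b_sub {s : ℂ} (hs : 0 ≤ s.re) (k : ℕ) :
    ‖b s ^ k - 1‖ ≤ 2 * k * ‖s + 1‖⁻¹ := by
  refine (norm_pow_sub_one_le 1 le_rfl (b s) (norm_b_le hs) k).trans ?_
  have h1 : b s - 1 = -2 / (s + 1) := by
    unfold b
    rw [div_sub_one (add_one_ne hs)]
    congr 1
    ring
  rw [h1, norm_div, norm_neg, Complex.norm_ofNat, one_pow]
  apply le_of_eq
  ring

theorem zeta_sub_one : ∃ C : ℝ, 1 ≤ C ∧ ∀ s : ℂ, 3 / 2 ≤ s.re →
    ‖riemannZeta s - 1‖ ≤ C * (2 : ℝ) ^ (-(s.re - 3 / 2)) := by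
  have hsumm : Summable fun n : ℕ => (((n + 1 : ℕ) : ℝ) + 1) ^ (-(1 / 2 : ℝ) - 1) :=
    (summable_nat_add_iff 1).2
      (Pool.Agent.Lib.ZetaCrude.summable_rpow_aux (σ := 1 / 2) (by norm_num))
  have hT : 0 ≤ ∑' n : ℕ, (((n + 1 : ℕ) : ℝ) + 1) ^ (-(1 / 2 : ℝ) - 1) :=
    tsum_nonneg fun n => by positivity
  refine ⟨1 + ∑' n : ℕ, (((n + 1 : ℕ) : ℝ) + 1) ^ (-(1 / 2 : ℝ) - 1), by linarith, ?_⟩
  intro s hs
  have hz := zeta_eq_tsum_one_div_nat_add_one_cpow (s := s) (by linarith)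
  have hs1 : Summable fun n : ℕ => 1 / ((n : ℂ) + 1) ^ s := by
    have := Complex.summable_one_div_nat_cpow.mpr (show 1 < s.re by linarith)
    have h2 := (summable_nat_add_iff 1).mpr this
    simpa using h2
  rw [hz, hs1.tsum_eq_zero_add]
  simp only [Nat.cast_zero, zero_add, one_cpow, div_one, add_sub_cancel_left]
  have he : ∀ n : ℕ, ‖1 / (((n + 1 : ℕ) : ℂ) + 1) ^ s‖ ≤
      (((n + 1 : ℕ) : ℝ) + 1) ^ (-(1 / 2 : ℝ) - 1) * (2 : ℝ) ^ (-(s.re - 3 / 2)) := by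
    intro n
    have h1 : (((n + 1 : ℕ) : ℂ) + 1) = ((((n + 1 : ℕ) : ℝ) + 1 : ℝ) : ℂ) := by push_cast; rfl
    have h2 : (2 : ℝ) ≤ ((n + 1 : ℕ) : ℝ) + 1 := by
      push_cast
      have : (0 : ℝ) ≤ n := Nat.cast_nonneg n
      linarith
    rw [h1, norm_div, norm_one, norm_cpow_eq_rpow_re_of_pos (by positivity), one_div,
      ← Real.rpow_neg (by positivity)]
    have h3 : -s.re = (-(1 / 2 : ℝ) - 1) + -(s.re - 3 / 2) := by ring
    rw [h3, Real.rpow_add (by positivity)]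
    refine mul_le_mul_of_nonneg_left ?_ (by positivity)
    exact Real.rpow_le_rpow_of_nonpos (by norm_num) h2 (by linarith)
  have h1 := tsum_of_norm_bounded (hsumm.mul_right _).hasSum he
  rw [tsum_mul_right] at h1
  refine h1.trans ?_
  have : (0 : ℝ) ≤ (2 : ℝ) ^ (-(s.re - 3 / 2)) := by positivity
  nlinarith

/-- the growth of zeta in the half plane -/
theorem growth (hL : LineBound 0) (ε : ℝ) (hε : 0 < ε) :
    ∃ C : ℝ, 1 ≤ C ∧ ∀ s : ℂ, 1 / 2 ≤ s.re → ‖H s‖ ≤ C * (1 + ‖s‖) ^ ε := by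
  have hLB : Pool.Agent.Lib.ZetaConv.LineB ε := by
    obtain ⟨C, hC⟩ := hL ε hε
    refine ⟨|C| * 2 ^ ε + 1, 1, ?_, le_rfl, ?_⟩
    · have : 0 ≤ |C| * (2 : ℝ) ^ ε := by positivity
      linarith
    · intro t ht
      have h1 := hC t
      unfold zl at h1
      rw [zero_add, abs_of_nonneg (by linarith : (0 : ℝ) ≤ t)] at h1
      have e0 : (((1 / 2 : ℝ) : ℂ) + t * I) = 1 / 2 + t * I := by push_cast; ring
      rw [e0]
      refine h1.trans ?_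
      have h2 : (1 + t) ^ ε ≤ 2 ^ ε * t ^ ε := by
        rw [← Real.mul_rpow (by norm_num) (by linarith)]
        exact Real.rpow_le_rpow (by linarith) (by linarith) hε.le
      have h3 : 0 ≤ (1 + t) ^ ε := by positivity
      have h4 : 0 ≤ t ^ ε := by positivity
      calc C * (1 + t) ^ ε ≤ |C| * (1 + t) ^ ε :=
            mul_le_mul_of_nonneg_right (le_abs_self C) h3
        _ ≤ |C| * (2 ^ ε * t ^ ε) := mul_le_mul_of_nonneg_left h2 (abs_nonneg C)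
        _ ≤ (|C| * 2 ^ ε + 1) * t ^ ε := by nlinarith
  obtain ⟨C₁, T₁, hC₁, hT₁, h₁⟩ := Pool.Agent.HolMom.strip_bound hε.le hLB
  obtain ⟨C₂, hC₂, h₂⟩ := Pool.Agent.Lib.ZetaCrude.norm_zeta_le_of_two_le
  have hcomp : IsCompact ((Icc (1 / 2 : ℝ) 2) ×ℂ (Icc (-T₁) T₁)) :=
    isCompact_Icc.reProdIm isCompact_Icc
  have hcont : ContinuousOn H ((Icc (1 / 2 : ℝ) 2) ×ℂ (Icc (-T₁) T₁)) := by
    intro s hs
    rw [mem_reProdIm] at hs
    have h3 : s + 1 ≠ 0 := add_one_ne (by linarith [hs.1.1])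
    exact ((differentiable_riemannZeta₁ s).continuousAt.div
      ((continuous_id.add continuous_const).continuousAt) h3).continuousWithinAt
  obtain ⟨D, hD⟩ := hcomp.exists_bound_of_continuousOn hcont
  refine ⟨C₁ + C₂ + |D|, by linarith [abs_nonneg D], ?_⟩
  intro s hs
  have hns : (1 : ℝ) ≤ 1 + ‖s‖ := by linarith [norm_nonneg s]
  have hone : (1 : ℝ) ≤ (1 + ‖s‖) ^ ε := Real.one_le_rpow hns hε.le
  have hDa := abs_nonneg D
  have hKle : ∀ y : ℝ, y ≤ C₁ + C₂ + |D| → y ≤ (C₁ + C₂ + |D|) * (1 + ‖s‖) ^ ε := by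
    intro y hy
    nlinarith
  have hHz : s ≠ 1 → ‖H s‖ ≤ ‖riemannZeta s‖ := by
    intro h1
    rw [H_eq h1, norm_mul]
    have := norm_b_le (s := s) (by linarith)
    nlinarith [norm_nonneg (riemannZeta s)]
  by_cases hs2 : 2 ≤ s.re
  · apply hKle
    have hne : s ≠ 1 := by
      rintro rfl
      simp at hs2
    linarith [hHz hne, h₂ s hs2]
  · push Not at hs2
    by_cases him : |s.im| ≤ T₁
    · apply hKle
      have := hD s (by
        rw [mem_reProdIm]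
        exact ⟨⟨by linarith, hs2.le⟩, abs_le.1 him⟩)
      linarith [le_abs_self D]
    · push Not at him
      have hne : s ≠ 1 := by
        rintro rfl
        simp at him
        linarith
      refine (hHz hne).trans ?_
      have key : ‖riemannZeta s‖ ≤ C₁ * |s.im| ^ ε := by
        rcases le_total 0 s.im with h0 | h0
        · rw [abs_of_nonneg h0] at him ⊢
          exact h₁ s hs hs2.le him.le
        · rw [abs_of_nonpos h0] at him ⊢
          have h3 := h₁ ((starRingEnd ℂ) s) (by simpa using hs) (by simpa using hs2.le)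
            (by simpa using him.le)
          rw [riemannZeta_conj, Complex.norm_conj] at h3
          simpa using h3
      refine key.trans ?_
      have h3 : |s.im| ^ ε ≤ (1 + ‖s‖) ^ ε :=
        Real.rpow_le_rpow (abs_nonneg _) (by linarith [abs_im_le_norm s]) hε.le
      have h4 : 0 ≤ |s.im| ^ ε := by positivity
      calc C₁ * |s.im| ^ ε ≤ C₁ * (1 + ‖s‖) ^ ε :=
            mul_le_mul_of_nonneg_left h3 (by linarith)
        _ ≤ (C₁ + C₂ + |D|) * (1 + ‖s‖) ^ ε :=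
            mul_le_mul_of_nonneg_right (by linarith) (by linarith)

/-- the growth of the powers -/
theorem growth_pow (hL : LineBound 0) (k : ℕ) :
    ∃ C : ℝ, ∀ s : ℂ, 1 / 2 ≤ s.re → ‖H s ^ k‖ ≤ C * (1 + ‖s‖) ^ ((1 : ℝ) / 2) := by
  obtain ⟨C, hC, h⟩ := growth hL (1 / (2 * (k + 1))) (by positivity)
  refine ⟨C ^ k, fun s hs => ?_⟩
  have hns : (1 : ℝ) ≤ 1 + ‖s‖ := by linarith [norm_nonneg s]
  rw [norm_pow]
  calc ‖H s‖ ^ k ≤ (C * (1 + ‖s‖) ^ (1 / (2 * ((k : ℝ) + 1)))) ^ k :=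
        pow_le_pow_left₀ (norm_nonneg _) (h s hs) k
    _ = C ^ k * (1 + ‖s‖) ^ (1 / (2 * ((k : ℝ) + 1)) * k) := by
        rw [mul_pow, Real.rpow_mul (by linarith), Real.rpow_natCast]
    _ ≤ C ^ k * (1 + ‖s‖) ^ ((1 : ℝ) / 2) := by
        refine mul_le_mul_of_nonneg_left ?_ (by positivity)
        refine Real.rpow_le_rpow_of_exponent_le hns ?_
        have hk : (0 : ℝ) ≤ k := Nat.cast_nonneg k
        rw [div_mul_eq_mul_div, one_mul, div_le_div_iff₀ (by positivity) (by norm_num)]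
        linarith

theorem line_ne (t : ℝ) : (1 / 2 + t * I : ℂ) ≠ 1 := by
  intro h
  have := congrArg Complex.re h
  norm_num at this

theorem norm_line (t : ℝ) : ‖(1 / 2 + t * I : ℂ) + 1‖⁻¹ ≤ 2 * (1 + |t|)⁻¹ := by
  have h1 := abs_re_le_norm ((1 / 2 + t * I : ℂ) + 1)
  have h2 := abs_im_le_norm ((1 / 2 + t * I : ℂ) + 1)
  have e1 : ((1 / 2 + t * I : ℂ) + 1).re = 3 / 2 := by norm_num
  have e2 : ((1 / 2 + t * I : ℂ) + 1).im = t := by simp
  rw [e1, abs_of_pos (by norm_num)] at h1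
  rw [e2] at h2
  have h3 : (1 + |t|) / 2 ≤ ‖(1 / 2 + t * I : ℂ) + 1‖ := by linarith
  have h4 := abs_nonneg t
  calc ‖(1 / 2 + t * I : ℂ) + 1‖⁻¹ ≤ ((1 + |t|) / 2)⁻¹ := inv_anti₀ (by positivity) h3
    _ = 2 * (1 + |t|)⁻¹ := by rw [inv_div, div_eq_mul_inv]

/-- the difference on the line -/
theorem diff_line (hL : LineBound 0) (k : ℕ) (ε : ℝ) (hε : 0 < ε) :
    ∃ C : ℝ, 0 ≤ C ∧ ∀ t : ℝ, ‖zl t ^ k - H (1 / 2 + t * I) ^ k‖ ≤
      C * (1 + |t|) ^ (-(1 - 2 * ε)) := by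
  obtain ⟨C, hC⟩ := hL (2 * ε / (k + 1)) (by positivity)
  have hC0 : 0 ≤ C := by
    have h1 := (norm_nonneg (zl 0)).trans (hC 0)
    have h2 : (0 : ℝ) < (1 + |(0 : ℝ)|) ^ (0 + 2 * ε / ((k : ℝ) + 1)) := by positivity
    exact nonneg_of_mul_nonneg_left h1 h2
  refine ⟨C ^ k * (2 * k * 2), by positivity, fun t => ?_⟩
  have ht : (1 : ℝ) ≤ 1 + |t| := by linarith [abs_nonneg t]
  have hre : (0 : ℝ) ≤ (1 / 2 + t * I : ℂ).re := by norm_num
  have h1 : zl t ^ k - H (1 / 2 + t * I) ^ k = -(zl t ^ k * (b (1 / 2 + t * I) ^ k - 1)) := by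
    rw [H_eq (line_ne t)]
    unfold zl
    ring
  rw [h1, norm_neg, norm_mul, norm_pow]
  have h2 : ‖zl t‖ ^ k ≤ C ^ k * (1 + |t|) ^ (2 * ε) := by
    calc ‖zl t‖ ^ k ≤ (C * (1 + |t|) ^ (0 + 2 * ε / ((k : ℝ) + 1))) ^ k :=
          pow_le_pow_left₀ (norm_nonneg _) (hC t) k
      _ = C ^ k * (1 + |t|) ^ ((0 + 2 * ε / ((k : ℝ) + 1)) * k) := by
          rw [mul_pow, Real.rpow_mul (by linarith), Real.rpow_natCast]
      _ ≤ C ^ k * (1 + |t|) ^ (2 * ε) := by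
          refine mul_le_mul_of_nonneg_left ?_ (by positivity)
          refine Real.rpow_le_rpow_of_exponent_le ht ?_
          have hk : (0 : ℝ) ≤ k := Nat.cast_nonneg k
          rw [zero_add, div_mul_eq_mul_div, div_le_iff₀ (by positivity)]
          nlinarith
  have h3 : ‖b (1 / 2 + t * I) ^ k - 1‖ ≤ 2 * k * (2 * (1 + |t|)⁻¹) :=
    (norm_b_sub hre k).trans (mul_le_mul_of_nonneg_left (norm_line t) (by positivity))
  calc ‖zl t‖ ^ k * ‖b (1 / 2 + t * I) ^ k - 1‖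
      ≤ (C ^ k * (1 + |t|) ^ (2 * ε)) * (2 * k * (2 * (1 + |t|)⁻¹)) :=
        mul_le_mul h2 h3 (norm_nonneg _) (by positivity)
    _ = C ^ k * (2 * k * 2) * ((1 + |t|) ^ (2 * ε) * (1 + |t|)⁻¹) := by ring
    _ = C ^ k * (2 * k * 2) * (1 + |t|) ^ (-(1 - 2 * ε)) := by
        congr 1
        rw [← Real.rpow_neg_one, ← Real.rpow_add (by linarith)]
        congr 1
        ring

/-- the value inside -/
theorem value (k : ℕ) (ε : ℝ) (hε : 0 < ε) (hε8 : ε < 1 / 8) :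
    ∃ C : ℝ, 0 ≤ C ∧ ∀ r : ℕ, 1 ≤ r → ∀ x : ℝ, ‖H (((1 / 2 : ℝ) : ℂ) + (r : ℝ) + x * I) ^ k - 1‖ ≤
      C * ((1 / 2 : ℝ) ^ r + (r : ℝ) ^ (-(2 * ε)) * (1 + |x|) ^ (-(1 - 2 * ε))) := by
  obtain ⟨C, hC, h⟩ := zeta_sub_one
  refine ⟨k * (1 + C) ^ k * (C * 2) + 2 * k * 2, by positivity, fun r hr x => ?_⟩
  obtain ⟨p, hp⟩ : ∃ p : ℂ, p = ((1 / 2 : ℝ) : ℂ) + (r : ℝ) + x * I := ⟨_, rfl⟩
  rw [← hp]
  have hr1 : (1 : ℝ) ≤ r := by exact_mod_cast hr
  have hre : p.re = 1 / 2 + r := by rw [hp]; simp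
  have him : p.im = x := by rw [hp]; simp
  have hne : p ≠ 1 := by
    intro h1
    have := congrArg Complex.re h1
    rw [hre, one_re] at this
    linarith
  have h1 : H p ^ k - 1 = b p ^ k * (riemannZeta p ^ k - 1) + (b p ^ k - 1) := by
    rw [H_eq hne]
    ring
  have hp0 : 0 ≤ p.re := by rw [hre]; positivity
  -- the first part
  have h2 : ‖riemannZeta p - 1‖ ≤ C * (2 * (1 / 2 : ℝ) ^ r) := by
    refine (h p (by rw [hre]; linarith)).trans (le_of_eq ?_)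
    congr 1
    have e1 : -(p.re - 3 / 2) = 1 + -(r : ℝ) := by rw [hre]; ring
    rw [e1, Real.rpow_add (by norm_num), Real.rpow_one, Real.rpow_neg (by norm_num),
      Real.rpow_natCast, one_div, inv_pow]
  have h3 : ‖riemannZeta p‖ ≤ 1 + C := by
    have e1 : riemannZeta p = 1 + (riemannZeta p - 1) := by ring
    have e2 : (2 : ℝ) * (1 / 2) ^ r ≤ 1 := by
      obtain ⟨q, rfl⟩ : ∃ q, r = q + 1 := ⟨r - 1, by omega⟩
      have : ((1 : ℝ) / 2) ^ q ≤ 1 := pow_le_one₀ (by norm_num) (by norm_num)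
      rw [pow_succ]
      linarith
    rw [e1]
    refine (norm_add_le _ _).trans ?_
    rw [norm_one]
    have e3 : C * (2 * (1 / 2 : ℝ) ^ r) ≤ C * 1 := mul_le_mul_of_nonneg_left e2 (by linarith)
    linarith
  have h4 : ‖b p ^ k * (riemannZeta p ^ k - 1)‖ ≤
      k * (1 + C) ^ k * (C * 2) * (1 / 2 : ℝ) ^ r := by
    rw [norm_mul, norm_pow]
    have e1 : ‖b p‖ ^ k ≤ 1 := pow_le_one₀ (norm_nonneg _) (norm_b_le hp0)
    have e2 := norm_pow_sub_one_le (1 + C) (by linarith) (riemannZeta p) h3 k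
    calc ‖b p‖ ^ k * ‖riemannZeta p ^ k - 1‖ ≤ 1 * (k * (1 + C) ^ k * ‖riemannZeta p - 1‖) :=
          mul_le_mul e1 e2 (norm_nonneg _) (by norm_num)
      _ ≤ 1 * (k * (1 + C) ^ k * (C * (2 * (1 / 2 : ℝ) ^ r))) := by gcongr
      _ = k * (1 + C) ^ k * (C * 2) * (1 / 2 : ℝ) ^ r := by ring
  -- the second part
  have hx := abs_nonneg x
  have h5 : ‖p + 1‖⁻¹ ≤ 2 * ((r : ℝ) ^ (-(2 * ε)) * (1 + |x|) ^ (-(1 - 2 * ε))) := by
    have e1 := abs_re_le_norm (p + 1)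
    have e2 := abs_im_le_norm (p + 1)
    rw [add_re, one_re, hre, abs_of_pos (by linarith)] at e1
    rw [add_im, one_im, him, add_zero] at e2
    have e3 : (r : ℝ) ^ (2 * ε) ≤ (r + 1 + |x|) ^ (2 * ε) :=
      Real.rpow_le_rpow (by linarith) (by linarith) (by linarith)
    have e4 : (1 + |x|) ^ (1 - 2 * ε) ≤ (r + 1 + |x|) ^ (1 - 2 * ε) :=
      Real.rpow_le_rpow (by linarith) (by linarith) (by linarith)
    have e5 : (r + 1 + |x|) ^ (2 * ε) * (r + 1 + |x|) ^ (1 - 2 * ε) = (r : ℝ) + 1 + |x| := by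
      rw [← Real.rpow_add (by linarith)]
      have : 2 * ε + (1 - 2 * ε) = 1 := by ring
      rw [this, Real.rpow_one]
    have e6 : (r : ℝ) ^ (2 * ε) * (1 + |x|) ^ (1 - 2 * ε) ≤ r + 1 + |x| := by
      rw [← e5]
      exact mul_le_mul e3 e4 (by positivity) (by positivity)
    have e7 : (0 : ℝ) < (r : ℝ) ^ (2 * ε) * (1 + |x|) ^ (1 - 2 * ε) := by positivity
    have e8 : ((r : ℝ) ^ (2 * ε) * (1 + |x|) ^ (1 - 2 * ε)) / 2 ≤ ‖p + 1‖ := by linarith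
    calc ‖p + 1‖⁻¹ ≤ (((r : ℝ) ^ (2 * ε) * (1 + |x|) ^ (1 - 2 * ε)) / 2)⁻¹ :=
          inv_anti₀ (by positivity) e8
      _ = 2 * ((r : ℝ) ^ (-(2 * ε)) * (1 + |x|) ^ (-(1 - 2 * ε))) := by
          rw [inv_div, div_eq_mul_inv, mul_inv, Real.rpow_neg (by linarith),
            Real.rpow_neg (by linarith)]
  have h6 : ‖b p ^ k - 1‖ ≤
      2 * k * 2 * ((r : ℝ) ^ (-(2 * ε)) * (1 + |x|) ^ (-(1 - 2 * ε))) := by
    refine (norm_b_sub hp0 k).trans ?_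
    calc 2 * k * ‖p + 1‖⁻¹ ≤
          2 * k * (2 * ((r : ℝ) ^ (-(2 * ε)) * (1 + |x|) ^ (-(1 - 2 * ε)))) :=
          mul_le_mul_of_nonneg_left h5 (by positivity)
      _ = 2 * k * 2 * ((r : ℝ) ^ (-(2 * ε)) * (1 + |x|) ^ (-(1 - 2 * ε))) := by ring
  rw [h1]
  refine (norm_add_le _ _).trans ((add_le_add h4 h6).trans ?_)
  obtain ⟨A, hA⟩ : ∃ A : ℝ, A = (1 / 2 : ℝ) ^ r := ⟨_, rfl⟩
  obtain ⟨E, hE⟩ : ∃ E : ℝ, E = (r : ℝ) ^ (-(2 * ε)) * (1 + |x|) ^ (-(1 - 2 * ε)) := ⟨_, rfl⟩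
  obtain ⟨U, hU⟩ : ∃ U : ℝ, U = k * (1 + C) ^ k * (C * 2) := ⟨_, rfl⟩
  obtain ⟨V, hV⟩ : ∃ V : ℝ, V = 2 * k * 2 := ⟨_, rfl⟩
  have hA0 : 0 ≤ A := by rw [hA]; positivity
  have hE0 : 0 ≤ E := by rw [hE]; positivity
  have hU0 : 0 ≤ U := by rw [hU]; positivity
  have hV0 : 0 ≤ V := by rw [hV]; positivity
  rw [← hA, ← hE, ← hU, ← hV]
  nlinarith [mul_nonneg hU0 hE0, mul_nonneg hV0 hA0]

/-- from the density to the measure -/
theorem transfer (r : ℕ) (hr : 1 ≤ r) (f : ℝ → ℂ)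
    (hf : Integrable fun u : ℝ => f u * ((Real.pi⁻¹ * r * (u ^ 2 + r ^ 2)⁻¹ : ℝ) : ℂ)) :
    Integrable f (cauchyMeasure 0 r) ∧ ∫ u, f u ∂(cauchyMeasure 0 r) =
      ∫ u : ℝ, f u * ((Real.pi⁻¹ * r * (u ^ 2 + r ^ 2)⁻¹ : ℝ) : ℂ) := by
  have hr0 : (r : NNReal) ≠ 0 := by
    have : r ≠ 0 := by omega
    exact_mod_cast this
  have hden : ∀ u : ℝ, (cauchyPDF 0 r u).toReal • f u =
      f u * ((Real.pi⁻¹ * r * (u ^ 2 + r ^ 2)⁻¹ : ℝ) : ℂ) := by
    intro u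
    rw [cauchyPDF_def, ENNReal.toReal_ofReal (cauchyPDF_pos 0 hr0 u).le, cauchyPDFReal_def,
      Complex.real_smul, mul_comm, sub_zero]
    simp
  have hlt : ∀ᵐ u : ℝ, cauchyPDF 0 r u < ⊤ := ae_of_all _ fun u => ENNReal.ofReal_lt_top
  rw [cauchyMeasure_of_scale_ne_zero 0 hr0]
  constructor
  · rw [integrable_withDensity_iff_integrable_smul' (measurable_cauchyPDF 0 r) hlt]
    simpa only [hden] using hf
  · rw [integral_withDensity_eq_integral_toReal_smul (measurable_cauchyPDF 0 r) hlt]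
    simp only [hden]

end MEAN_

open MEAN_ in
theorem p_MEAN (hP : P_POISSON) : P_MEAN := by
  intro hL k ε hε hε8
  obtain ⟨C₁, hC₁⟩ := growth_pow hL k
  obtain ⟨C₂, hC₂0, hC₂⟩ := diff_line hL k ε hε
  obtain ⟨C₃, hC₃0, hC₃⟩ := value k ε hε hε8
  refine ⟨C₂ + C₃ + 1, by positivity, fun r hr x => ?_⟩
  have hdH : ∀ s : ℂ, 0 ≤ s.re → DifferentiableAt ℂ (fun z => H z ^ k) s := by
    intro s hs
    exact ((differentiable_riemannZeta₁ s).div
      (differentiableAt_id.add (differentiableAt_const _)) (add_one_ne hs)).pow k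
  have hdO : DifferentiableOn ℂ (fun z => H z ^ k) {s : ℂ | (1 / 2 : ℝ) < s.re} := by
    intro s hs
    have hs' : (1 / 2 : ℝ) < s.re := hs
    exact (hdH s (by linarith)).differentiableWithinAt
  have hcO : ContinuousOn (fun z => H z ^ k) {s : ℂ | (1 / 2 : ℝ) ≤ s.re} := by
    intro s hs
    have hs' : (1 / 2 : ℝ) ≤ s.re := hs
    exact (hdH s (by linarith)).continuousAt.continuousWithinAt
  have hr0 : (0 : ℝ) < r := by exact_mod_cast (by omega : 0 < r)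
  obtain ⟨hint, hval⟩ := hP (fun z => H z ^ k) (1 / 2) hdO hcO ⟨C₁, hC₁⟩ r hr0 x
  obtain ⟨hgi, hgv⟩ := transfer r hr
    (fun u : ℝ => H (((1 / 2 : ℝ) : ℂ) + ((x : ℂ) + u) * I) ^ k) hint
  rw [hval] at hgv
  obtain ⟨g, hg⟩ : ∃ g : ℝ → ℂ, g = fun u : ℝ => H (((1 / 2 : ℝ) : ℂ) + ((x : ℂ) + u) * I) ^ k :=
    ⟨_, rfl⟩
  rw [← hg] at hgi hgv
  have hgu : ∀ u, g u = H (1 / 2 + ((x + u : ℝ) : ℂ) * I) ^ k := by
    intro u
    rw [hg]
    push_cast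
    rfl
  have hzc : Continuous zl := Pool.Agent.HolMom.zeta_line_cont
  have hfm : Continuous fun u : ℝ => zl (x + u) ^ k :=
    (hzc.comp (continuous_const.add continuous_id)).pow k
  have hpc : Continuous fun u : ℝ => (1 + |x + u|) ^ (-(1 - 2 * ε)) := by
    refine Continuous.rpow_const (by fun_prop) fun u => Or.inl ?_
    have := abs_nonneg (x + u)
    linarith
  have hpi : Integrable (fun u : ℝ => (1 + |x + u|) ^ (-(1 - 2 * ε))) (cauchyMeasure 0 r) := by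
    refine Integrable.mono' (integrable_const (1 : ℝ)) hpc.aestronglyMeasurable
      (ae_of_all _ fun u => ?_)
    have h1 := abs_nonneg (x + u)
    rw [Real.norm_of_nonneg (by positivity)]
    exact Real.rpow_le_one_of_one_le_of_nonpos (by linarith) (by linarith)
  have hdb : ∀ u : ℝ, ‖zl (x + u) ^ k - g u‖ ≤ C₂ * (1 + |x + u|) ^ (-(1 - 2 * ε)) := by
    intro u
    rw [hgu]
    exact hC₂ (x + u)
  have hdi : Integrable (fun u : ℝ => zl (x + u) ^ k - g u) (cauchyMeasure 0 r) :=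
    Integrable.mono' (hpi.const_mul C₂) (hfm.aestronglyMeasurable.sub hgi.aestronglyMeasurable)
      (ae_of_all _ hdb)
  have hfi : Integrable (fun u : ℝ => zl (x + u) ^ k) (cauchyMeasure 0 r) := by
    have := hdi.add hgi
    refine this.congr (ae_of_all _ fun u => ?_)
    simp
  refine ⟨hfi, ?_⟩
  have hsplit : ∫ u, (zl (x + u) ^ k - 1) ∂(cauchyMeasure 0 r) =
      ∫ u, (zl (x + u) ^ k - g u) ∂(cauchyMeasure 0 r) +
        (H (((1 / 2 : ℝ) : ℂ) + (r : ℝ) + x * I) ^ k - 1) := by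
    rw [integral_sub hfi (integrable_const _), integral_sub hfi hgi, hgv]
    simp
  rw [hsplit]
  refine (norm_add_le _ _).trans ?_
  have h1 : ‖∫ u, (zl (x + u) ^ k - g u) ∂(cauchyMeasure 0 r)‖ ≤
      C₂ * ∫ u, (1 + |x + u|) ^ (-(1 - 2 * ε)) ∂(cauchyMeasure 0 r) := by
    rw [← integral_const_mul]
    exact norm_integral_le_of_norm_le (hpi.const_mul C₂) (ae_of_all _ hdb)
  have h2 := hC₃ r hr x
  obtain ⟨J, hJ⟩ : ∃ J : ℝ, J = ∫ u, (1 + |x + u|) ^ (-(1 - 2 * ε)) ∂(cauchyMeasure 0 r) :=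
    ⟨_, rfl⟩
  obtain ⟨A, hA⟩ : ∃ A : ℝ, A = (1 / 2 : ℝ) ^ r +
    (r : ℝ) ^ (-(2 * ε)) * (1 + |x|) ^ (-(1 - 2 * ε)) := ⟨_, rfl⟩
  have hJ0 : 0 ≤ J := by
    rw [hJ]
    exact integral_nonneg fun u => by positivity
  have hA0 : 0 ≤ A := by rw [hA]; positivity
  rw [← hJ] at h1 ⊢
  rw [← hA] at h2 ⊢
  nlinarith [mul_nonneg hC₂0 hA0, mul_nonneg hC₃0 hJ0]

end Pool.Agent.CW
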