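import Pool.Agent.CW.Defs

/-!
# Moments of order `c`, `|c| < 1`, of the Cauchy law
-/

set_option autoImplicit false

namespace Pool.Agent.CW

open MeasureTheory ProbabilityTheory Set Filter Topology

theorem mom_cauchy_integrable_iff {n : ℕ} (hn : 1 ≤ n) (h : ℝ → ℝ) :
    Integrable h (cauchyMeasure 0 n) ↔
      Integrable (fun x => h x * (Real.pi⁻¹ * (n : ℝ)⁻¹ * (1 + (x / n) ^ 2)⁻¹)) := by
  have hn0 : ((n : ℕ) : NNReal) ≠ 0 := by
    have : n ≠ 0 := by omega
    exact_mod_cast this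
  rw [cauchyMeasure_of_scale_ne_zero _ hn0, integrable_withDensity_iff (by fun_prop)
    (by simp [cauchyPDF])]
  have e : ∀ x, (cauchyPDF 0 (n : NNReal) x).toReal =
      Real.pi⁻¹ * (n : ℝ)⁻¹ * (1 + (x / n) ^ 2)⁻¹ := by
    intro x
    rw [cauchyPDF_def, ENNReal.toReal_ofReal (cauchyPDF_pos 0 hn0 x).le, cauchyPDFReal_def']
    simp
  simp only [e]

theorem mom_cauchy_integral {n : ℕ} (hn : 1 ≤ n) (h : ℝ → ℝ) :
    ∫ x, h x ∂(cauchyMeasure 0 n) =
      ∫ x, h x * (Real.pi⁻¹ * (n : ℝ)⁻¹ * (1 + (x / n) ^ 2)⁻¹) := by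
  have hn0 : ((n : ℕ) : NNReal) ≠ 0 := by
    have : n ≠ 0 := by omega
    exact_mod_cast this
  rw [cauchyMeasure_of_scale_ne_zero _ hn0, integral_withDensity_eq_integral_toReal_smul
    (by fun_prop) (by simp [cauchyPDF])]
  congr 1
  ext x
  rw [cauchyPDF_def, ENNReal.toReal_ofReal (cauchyPDF_pos 0 hn0 x).le, cauchyPDFReal_def',
    smul_eq_mul, mul_comm]
  simp

theorem mom_core (c : ℝ) (g : ℝ → ℝ) (hg : Integrable (fun y => g y * (1 + y ^ 2)⁻¹))
    (hle : ∀ N : ℝ, 1 ≤ N → ∀ᵐ x : ℝ, (1 + |x|) ^ c ≤ N ^ c * g (x / N)) :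
    ∃ C : ℝ, 0 < C ∧ ∀ n : ℕ, 1 ≤ n →
    Integrable (fun x : ℝ => (1 + |x|) ^ c) (cauchyMeasure 0 n) ∧
    ∫ x, (1 + |x|) ^ c ∂(cauchyMeasure 0 n) ≤ C * (n : ℝ) ^ c := by
  refine ⟨|∫ y, g y * (1 + y ^ 2)⁻¹| + 1, by positivity, ?_⟩
  intro n hn
  have hnR : (1 : ℝ) ≤ n := by exact_mod_cast hn
  have hn0 : (0 : ℝ) < n := by linarith
  have h1 : Integrable (fun x : ℝ => (Real.pi⁻¹ * (n : ℝ)⁻¹ * (n : ℝ) ^ c) *
      (g (x / n) * (1 + (x / n) ^ 2)⁻¹)) :=
    (hg.comp_div hn0.ne').const_mul _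
  have hae : ∀ᵐ x : ℝ, (1 + |x|) ^ c * (Real.pi⁻¹ * (n : ℝ)⁻¹ * (1 + (x / n) ^ 2)⁻¹) ≤
      (Real.pi⁻¹ * (n : ℝ)⁻¹ * (n : ℝ) ^ c) * (g (x / n) * (1 + (x / n) ^ 2)⁻¹) := by
    filter_upwards [hle n hnR] with x hx
    have h2 : (0 : ℝ) ≤ Real.pi⁻¹ * (n : ℝ)⁻¹ * (1 + (x / n) ^ 2)⁻¹ := by positivity
    calc (1 + |x|) ^ c * (Real.pi⁻¹ * (n : ℝ)⁻¹ * (1 + (x / n) ^ 2)⁻¹)
        ≤ ((n : ℝ) ^ c * g (x / n)) * (Real.pi⁻¹ * (n : ℝ)⁻¹ * (1 + (x / n) ^ 2)⁻¹) :=
          mul_le_mul_of_nonneg_right hx h2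
      _ = _ := by ring
  have hint : Integrable (fun x : ℝ =>
      (1 + |x|) ^ c * (Real.pi⁻¹ * (n : ℝ)⁻¹ * (1 + (x / n) ^ 2)⁻¹)) := by
    refine h1.mono' ?_ ?_
    · have : Measurable (fun x : ℝ =>
        (1 + |x|) ^ c * (Real.pi⁻¹ * (n : ℝ)⁻¹ * (1 + (x / n) ^ 2)⁻¹)) := by
        have hm : Measurable (fun x : ℝ => 1 + |x|) := by fun_prop
        exact (hm.pow_const c).mul (by fun_prop)
      exact this.aestronglyMeasurable
    · filter_upwards [hae] with x hx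
      rw [Real.norm_of_nonneg (by positivity)]
      exact hx
  refine ⟨(mom_cauchy_integrable_iff hn _).2 hint, ?_⟩
  rw [mom_cauchy_integral hn]
  refine (integral_mono_ae hint h1 hae).trans ?_
  rw [integral_const_mul, Measure.integral_comp_div (fun y => g y * (1 + y ^ 2)⁻¹) (n : ℝ),
    smul_eq_mul, abs_of_pos hn0]
  have h3 : Real.pi⁻¹ * (n : ℝ)⁻¹ * (n : ℝ) ^ c * ((n : ℝ) * ∫ y, g y * (1 + y ^ 2)⁻¹) =
      Real.pi⁻¹ * (∫ y, g y * (1 + y ^ 2)⁻¹) * (n : ℝ) ^ c := by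
    field_simp
  rw [h3]
  refine mul_le_mul_of_nonneg_right ?_ (by positivity)
  have hpi : Real.pi⁻¹ ≤ 1 := by
    rw [inv_le_one₀ Real.pi_pos]
    linarith [Real.pi_gt_three]
  have hpi0 : 0 ≤ Real.pi⁻¹ := by positivity
  calc Real.pi⁻¹ * (∫ y, g y * (1 + y ^ 2)⁻¹)
      ≤ Real.pi⁻¹ * |∫ y, g y * (1 + y ^ 2)⁻¹| :=
        mul_le_mul_of_nonneg_left (le_abs_self _) hpi0
    _ ≤ 1 * |∫ y, g y * (1 + y ^ 2)⁻¹| := mul_le_mul_of_nonneg_right hpi (abs_nonneg _)
    _ ≤ |∫ y, g y * (1 + y ^ 2)⁻¹| + 1 := by linarith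

theorem p_MOM : P_MOM := by
  intro c hc1 hc2
  rcases le_or_gt 0 c with hc | hc
  · -- `c ≥ 0`
    refine mom_core c (fun y => (1 + |y|) ^ c) ?_ ?_
    · have h1 : Integrable (fun y : ℝ => 2 * (1 + ‖y‖) ^ (-(2 - c))) :=
        (integrable_one_add_norm (by simp; linarith)).const_mul 2
      refine h1.mono' ?_ (Eventually.of_forall fun y => ?_)
      · have hm : Measurable (fun x : ℝ => 1 + |x|) := by fun_prop
        exact ((hm.pow_const c).mul (by fun_prop)).aestronglyMeasurable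
      · rw [Real.norm_of_nonneg (by positivity), Real.norm_eq_abs]
        have hy : 0 < 1 + |y| := by positivity
        have e1 : (1 + |y|) ^ (-(2 - c)) = (1 + |y|) ^ c * ((1 + |y|) ^ 2)⁻¹ := by
          rw [neg_sub, Real.rpow_sub hy, div_eq_mul_inv]
          norm_num
        rw [e1]
        have h2 : (1 + y ^ 2)⁻¹ ≤ 2 * ((1 + |y|) ^ 2)⁻¹ := by
          rw [inv_le_comm₀ (by positivity) (by positivity)]
          rw [mul_inv, inv_inv]
          have := sq_abs y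
          nlinarith [sq_nonneg (1 - |y|)]
        calc (1 + |y|) ^ c * (1 + y ^ 2)⁻¹ ≤ (1 + |y|) ^ c * (2 * ((1 + |y|) ^ 2)⁻¹) :=
              mul_le_mul_of_nonneg_left h2 (by positivity)
          _ = _ := by ring
    · intro N hN
      refine Eventually.of_forall fun x => ?_
      rw [← Real.mul_rpow (by positivity) (by positivity)]
      refine Real.rpow_le_rpow (by positivity) ?_ hc
      rw [abs_div, abs_of_pos (by linarith : (0 : ℝ) < N)]
      have hN0 : (0 : ℝ) < N := by linarith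
      rw [mul_add, mul_div_cancel₀ _ hN0.ne']
      linarith
  · -- `c < 0`
    refine mom_core c (fun y => |y| ^ c) ?_ ?_
    · have h0 : IntervalIntegrable (fun x : ℝ => |x| ^ c) volume (-1) 1 := by
        have h1 := (intervalIntegral.intervalIntegrable_cpow' (a := -1) (b := 1) (r := (c : ℂ))
          (by simpa using hc1)).norm
        refine h1.congr (fun x _ => ?_)
        simp only [Complex.norm_cpow_real, Complex.norm_real, Real.norm_eq_abs]
      have h1 : Integrable (indicator (Ioc (-1) 1) (fun x : ℝ => |x| ^ c)) := by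
        rw [integrable_indicator_iff measurableSet_Ioc]
        exact (intervalIntegrable_iff_integrableOn_Ioc_of_le (by norm_num)).1 h0
      refine (h1.add integrable_inv_one_add_sq).mono' ?_ (Eventually.of_forall fun y => ?_)
      · have hm : Measurable (fun x : ℝ => |x|) := by fun_prop
        exact ((hm.pow_const c).mul (by fun_prop)).aestronglyMeasurable
      · rw [Real.norm_of_nonneg (by positivity)]
        simp only [Pi.add_apply]
        have hinv : (1 + y ^ 2)⁻¹ ≤ 1 := by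
          rw [inv_le_one₀ (by positivity)]
          nlinarith [sq_nonneg y]
        by_cases hy : y ∈ Ioc (-1 : ℝ) 1
        · rw [indicator_of_mem hy]
          have h3 : |y| ^ c * (1 + y ^ 2)⁻¹ ≤ |y| ^ c * 1 :=
            mul_le_mul_of_nonneg_left hinv (by positivity)
          have h4 : (0 : ℝ) ≤ (1 + y ^ 2)⁻¹ := by positivity
          linarith
        · rw [indicator_of_notMem hy, zero_add]
          have hy1 : 1 ≤ |y| := by
            rw [mem_Ioc, not_and_or, not_lt, not_le] at hy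
            rcases hy with hy | hy
            · exact le_abs.2 (Or.inr (by linarith))
            · exact le_abs.2 (Or.inl hy.le)
          have h5 : |y| ^ c ≤ 1 := Real.rpow_le_one_of_one_le_of_nonpos hy1 hc.le
          calc |y| ^ c * (1 + y ^ 2)⁻¹ ≤ 1 * (1 + y ^ 2)⁻¹ :=
                mul_le_mul_of_nonneg_right h5 (by positivity)
            _ = _ := one_mul _
    · intro N hN
      have h0 : ∀ᵐ x : ℝ, x ≠ 0 := by
        rw [ae_iff]
        simp
      filter_upwards [h0] with x hx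
      have hN0 : (0 : ℝ) < N := by linarith
      rw [← Real.mul_rpow hN0.le (by positivity), abs_div, abs_of_pos hN0,
        mul_div_cancel₀ _ hN0.ne']
      exact Real.rpow_le_rpow_of_nonpos (abs_pos.2 hx) (by linarith) hc.le

end Pool.Agent.CW
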