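import Pool.Agent.CW.Defs
import Pool.Agent.CW.PAIR
import Pool.Agent.CW.MOM
import Pool.Agent.CW.MEAN

/-!
# BLOCK: second moments of the block sums under the Lindelöf hypothesis
-/

set_option autoImplicit false

namespace Pool.Agent.CW

open MeasureTheory ProbabilityTheory Set Filter Topology Complex

namespace BLOCK_

/-- the growth of the summand -/
theorem gbound (hL : LineBound 0) (k : ℕ) (ε : ℝ) (hε : 0 < ε) :
    ∃ C : ℝ, 0 < C ∧ ∀ t : ℝ, ‖zl t ^ k - 1‖ ≤ C * (1 + |t|) ^ ε := by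
  obtain ⟨C, hC⟩ := hL (ε / (k + 1)) (by positivity)
  have hC0 : 0 ≤ C := by
    have h1 := (norm_nonneg (zl 0)).trans (hC 0)
    have h2 : (0 : ℝ) < (1 + |(0 : ℝ)|) ^ (0 + ε / ((k : ℝ) + 1)) := by positivity
    exact nonneg_of_mul_nonneg_left h1 h2
  refine ⟨C ^ k + 1, by positivity, fun t => ?_⟩
  have ht : (1 : ℝ) ≤ 1 + |t| := by linarith [abs_nonneg t]
  have h2 : ‖zl t‖ ^ k ≤ C ^ k * (1 + |t|) ^ ε := by
    calc ‖zl t‖ ^ k ≤ (C * (1 + |t|) ^ (0 + ε / ((k : ℝ) + 1))) ^ k :=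
          pow_le_pow_left₀ (norm_nonneg _) (hC t) k
      _ = C ^ k * (1 + |t|) ^ ((0 + ε / ((k : ℝ) + 1)) * k) := by
          rw [mul_pow, Real.rpow_mul (by linarith), Real.rpow_natCast]
      _ ≤ C ^ k * (1 + |t|) ^ ε := by
          refine mul_le_mul_of_nonneg_left ?_ (by positivity)
          refine Real.rpow_le_rpow_of_exponent_le ht ?_
          have hk : (0 : ℝ) ≤ k := Nat.cast_nonneg k
          rw [zero_add, div_mul_eq_mul_div, div_le_iff₀ (by positivity)]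
          nlinarith
  have h3 : (1 : ℝ) ≤ (1 + |t|) ^ ε := Real.one_le_rpow ht hε.le
  calc ‖zl t ^ k - 1‖ ≤ ‖zl t ^ k‖ + ‖(1 : ℂ)‖ := norm_sub_le _ _
    _ = ‖zl t‖ ^ k + 1 := by rw [norm_pow, norm_one]
    _ ≤ (C ^ k + 1) * (1 + |t|) ^ ε := by linarith

theorem cont_zl : Continuous zl := Pool.Agent.HolMom.zeta_line_cont

theorem cont_pow (c : ℝ) : Continuous fun x : ℝ => (1 + |x|) ^ c := by
  refine Continuous.rpow_const (by fun_prop) fun u => Or.inl ?_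
  have := abs_nonneg u
  linarith

/-- a geometric sum centred at `m` -/
theorem geom (m N : ℕ) : ∑ n ∈ Finset.range N, (1 / 2 : ℝ) ^ ((n - m) + (m - n)) ≤
    if N ≤ m then (1 / 2 : ℝ) ^ (m - N) else 3 - (1 / 2 : ℝ) ^ (N - m - 1) := by
  induction N with
  | zero => simp
  | succ N ih =>
    rw [Finset.sum_range_succ]
    rcases lt_trichotomy N m with h | h | h
    · rw [if_pos (by omega)] at ih ⊢
      have e1 : (N - m) + (m - N) = (m - (N + 1)) + 1 := by omega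
      have e2 : m - N = (m - (N + 1)) + 1 := by omega
      rw [e2] at ih
      rw [e1]
      rw [pow_succ] at ih ⊢
      linarith
    · subst h
      rw [if_pos le_rfl] at ih
      rw [if_neg (by omega)]
      simp only [Nat.sub_self, pow_zero, add_zero] at ih ⊢
      have e1 : N + 1 - N - 1 = 0 := by omega
      rw [e1, pow_zero]
      linarith
    · rw [if_neg (by omega)] at ih ⊢
      have e1 : (N - m) + (m - N) = (N - m - 1) + 1 := by omega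
      have e2 : N + 1 - m - 1 = (N - m - 1) + 1 := by omega
      rw [e1, e2, pow_succ]
      linarith

theorem geom' (a b m : ℕ) :
    ∑ n ∈ Finset.Ioc a b, (1 / 2 : ℝ) ^ ((n - m) + (m - n)) ≤ 3 := by
  have h1 : ∑ n ∈ Finset.Ioc a b, (1 / 2 : ℝ) ^ ((n - m) + (m - n)) ≤
      ∑ n ∈ Finset.range (b + 1), (1 / 2 : ℝ) ^ ((n - m) + (m - n)) := by
    refine Finset.sum_le_sum_of_subset_of_nonneg ?_ fun i _ _ => by positivity
    intro i hi
    rw [Finset.mem_Ioc] at hi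
    rw [Finset.mem_range]
    omega
  refine h1.trans ((geom m (b + 1)).trans ?_)
  split_ifs with h
  · have : ((1 : ℝ) / 2) ^ (m - (b + 1)) ≤ 1 := pow_le_one₀ (by norm_num) (by norm_num)
    linarith
  · have : (0 : ℝ) ≤ (1 / 2) ^ (b + 1 - m - 1) := by positivity
    linarith

/-- sums of powers just above `-1` -/
theorem sumpow (ε : ℝ) (hε : 0 < ε) (a b : ℕ) (hab : a < b) :
    ∑ m ∈ Finset.Ioc a b, (m : ℝ) ^ (3 * ε - 1) ≤ (1 + ε⁻¹) * (b : ℝ) ^ (4 * ε) := by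
  have hb : (1 : ℝ) ≤ b := by exact_mod_cast (by omega : 1 ≤ b)
  have h1 : ∑ m ∈ Finset.Ioc a b, (m : ℝ) ^ (3 * ε - 1) ≤
      ∑ m ∈ Finset.Ioc a b, (b : ℝ) ^ (3 * ε) * ((m : ℝ))⁻¹ := by
    refine Finset.sum_le_sum fun m hm => ?_
    rw [Finset.mem_Ioc] at hm
    have hm0 : (0 : ℝ) < m := by exact_mod_cast (by omega : 0 < m)
    have hmb : (m : ℝ) ≤ b := by exact_mod_cast hm.2
    rw [Real.rpow_sub hm0, Real.rpow_one, div_eq_mul_inv]
    refine mul_le_mul_of_nonneg_right ?_ (by positivity)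
    exact Real.rpow_le_rpow hm0.le hmb (by linarith)
  have h2 : ∑ m ∈ Finset.Ioc a b, ((m : ℝ))⁻¹ ≤ ∑ m ∈ Finset.Icc 1 b, ((m : ℝ))⁻¹ := by
    refine Finset.sum_le_sum_of_subset_of_nonneg ?_ fun i _ _ => by positivity
    intro i hi
    rw [Finset.mem_Ioc] at hi
    rw [Finset.mem_Icc]
    omega
  have h3 : ∑ m ∈ Finset.Icc 1 b, ((m : ℝ))⁻¹ ≤ 1 + Real.log b := by
    have := harmonic_le_one_add_log b
    rw [harmonic_eq_sum_Icc] at this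
    push_cast at this
    exact this
  have h4 : Real.log b ≤ (b : ℝ) ^ ε / ε := Real.log_le_rpow_div (by linarith) hε
  have h5 : (1 : ℝ) ≤ (b : ℝ) ^ ε := Real.one_le_rpow hb hε.le
  have h6 : 1 + Real.log b ≤ (1 + ε⁻¹) * (b : ℝ) ^ ε := by
    rw [div_eq_mul_inv] at h4
    linarith
  calc ∑ m ∈ Finset.Ioc a b, (m : ℝ) ^ (3 * ε - 1)
      ≤ (b : ℝ) ^ (3 * ε) * ∑ m ∈ Finset.Ioc a b, ((m : ℝ))⁻¹ := by
        rw [Finset.mul_sum]; exact h1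
    _ ≤ (b : ℝ) ^ (3 * ε) * ((1 + ε⁻¹) * (b : ℝ) ^ ε) :=
        mul_le_mul_of_nonneg_left (h2.trans (h3.trans h6)) (by positivity)
    _ = (1 + ε⁻¹) * ((b : ℝ) ^ (3 * ε) * (b : ℝ) ^ ε) := by ring
    _ = (1 + ε⁻¹) * (b : ℝ) ^ (4 * ε) := by
        rw [← Real.rpow_add (by linarith)]
        congr 2
        ring

/-- summing the covariance bound -/
theorem sumall (ε : ℝ) (hε : 0 < ε) (a b : ℕ) (hab : a < b) :
    ∑ n ∈ Finset.Ioc a b, ∑ m ∈ Finset.Ioc a b,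
      ((b : ℝ) ^ (2 * ε) * (1 / 2 : ℝ) ^ ((n - m) + (m - n)) + (m : ℝ) ^ (3 * ε - 1) +
        (n : ℝ) ^ (3 * ε - 1)) ≤
      (3 + 2 * (1 + ε⁻¹)) * ((b : ℝ) - a) * (b : ℝ) ^ (4 * ε) := by
  have hb : (1 : ℝ) ≤ b := by exact_mod_cast (by omega : 1 ≤ b)
  have hba : (0 : ℝ) ≤ (b : ℝ) - a := by
    have : (a : ℝ) ≤ b := by exact_mod_cast hab.le
    linarith
  have hcard : ((Finset.Ioc a b).card : ℝ) = (b : ℝ) - a := by
    rw [Nat.card_Ioc, Nat.cast_sub hab.le]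
  have hs := sumpow ε hε a b hab
  obtain ⟨Q, hQ⟩ : ∃ s : ℝ, s = ∑ m ∈ Finset.Ioc a b, (m : ℝ) ^ (3 * ε - 1) := ⟨_, rfl⟩
  have hsplit : ∑ n ∈ Finset.Ioc a b, ∑ m ∈ Finset.Ioc a b,
      ((b : ℝ) ^ (2 * ε) * (1 / 2 : ℝ) ^ ((n - m) + (m - n)) + (m : ℝ) ^ (3 * ε - 1) +
        (n : ℝ) ^ (3 * ε - 1)) =
      (∑ n ∈ Finset.Ioc a b, (b : ℝ) ^ (2 * ε) *
        ∑ m ∈ Finset.Ioc a b, (1 / 2 : ℝ) ^ ((n - m) + (m - n))) +
        ((b : ℝ) - a) * Q + ((b : ℝ) - a) * Q := by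
    simp only [Finset.sum_add_distrib]
    congr 1
    · congr 1
      · refine Finset.sum_congr rfl fun n _ => ?_
        rw [Finset.mul_sum]
      · rw [Finset.sum_const, nsmul_eq_mul, hcard, hQ]
    · simp only [Finset.sum_const, nsmul_eq_mul, hcard]
      rw [← Finset.mul_sum, hQ]
  rw [hsplit]
  rw [← hQ] at hs
  have h1 : ∑ n ∈ Finset.Ioc a b, (b : ℝ) ^ (2 * ε) *
        ∑ m ∈ Finset.Ioc a b, (1 / 2 : ℝ) ^ ((n - m) + (m - n)) ≤
      ((b : ℝ) - a) * ((b : ℝ) ^ (2 * ε) * 3) := by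
    have : ∑ n ∈ Finset.Ioc a b, (b : ℝ) ^ (2 * ε) *
        ∑ m ∈ Finset.Ioc a b, (1 / 2 : ℝ) ^ ((n - m) + (m - n)) ≤
        ∑ n ∈ Finset.Ioc a b, (b : ℝ) ^ (2 * ε) * 3 := by
      refine Finset.sum_le_sum fun n _ => ?_
      refine mul_le_mul_of_nonneg_left ?_ (by positivity)
      refine le_trans (le_of_eq ?_) (geom' a b n)
      refine Finset.sum_congr rfl fun m _ => ?_
      rw [add_comm]
    refine this.trans (le_of_eq ?_)
    rw [Finset.sum_const, nsmul_eq_mul, hcard]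
  have h2 : (b : ℝ) ^ (2 * ε) ≤ (b : ℝ) ^ (4 * ε) :=
    Real.rpow_le_rpow_of_exponent_le hb (by linarith)
  have h3 : ((b : ℝ) - a) * ((b : ℝ) ^ (2 * ε) * 3) ≤ ((b : ℝ) - a) * ((b : ℝ) ^ (4 * ε) * 3) :=
    mul_le_mul_of_nonneg_left (by linarith) hba
  have h4 : ((b : ℝ) - a) * Q ≤ ((b : ℝ) - a) * ((1 + ε⁻¹) * (b : ℝ) ^ (4 * ε)) :=
    mul_le_mul_of_nonneg_left hs hba
  calc _ ≤ ((b : ℝ) - a) * ((b : ℝ) ^ (4 * ε) * 3) +
        ((b : ℝ) - a) * ((1 + ε⁻¹) * (b : ℝ) ^ (4 * ε)) +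
        ((b : ℝ) - a) * ((1 + ε⁻¹) * (b : ℝ) ^ (4 * ε)) :=
        add_le_add (add_le_add (h1.trans h3) h4) h4
    _ = _ := by ring

/-- the weighted inequality -/
theorem young (ε : ℝ) (hε : 0 < ε) (hε8 : ε < 1 / 8) (m n : ℝ) (hm : 0 < m) (hn : 0 < n)
    (A B : ℝ) (hA : 0 < A) (hB : 0 < B) :
    A ^ ε * B ^ (-(1 - 2 * ε)) ≤ m ^ ε * n ^ (-(1 - 2 * ε)) *
      (m ^ (-(1 - ε)) * A ^ (1 - ε) + n ^ (1 - ε) * B ^ (-(1 - ε))) := by
  have h1ε : 0 < 1 - ε := by linarith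
  have key := Real.geom_mean_le_arith_mean2_weighted (w₁ := ε / (1 - ε))
    (w₂ := (1 - 2 * ε) / (1 - ε)) (p₁ := (A / m) ^ (1 - ε)) (p₂ := (n / B) ^ (1 - ε))
    (by positivity) (div_nonneg (by linarith) h1ε.le) (by positivity) (by positivity)
    (by field_simp; ring)
  rw [← Real.rpow_mul (by positivity), ← Real.rpow_mul (by positivity),
    mul_div_cancel₀ _ h1ε.ne', mul_div_cancel₀ _ h1ε.ne'] at key
  have hw1 : ε / (1 - ε) ≤ 1 := by rw [div_le_one h1ε]; linarith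
  have hw2 : (1 - 2 * ε) / (1 - ε) ≤ 1 := by rw [div_le_one h1ε]; linarith
  have hp1 : 0 ≤ (A / m) ^ (1 - ε) := by positivity
  have hp2 : 0 ≤ (n / B) ^ (1 - ε) := by positivity
  have key2 : (A / m) ^ ε * (n / B) ^ (1 - 2 * ε) ≤
      (A / m) ^ (1 - ε) + (n / B) ^ (1 - ε) := by
    refine key.trans ?_
    nlinarith [mul_le_mul_of_nonneg_right hw1 hp1, mul_le_mul_of_nonneg_right hw2 hp2]
  have e1 : (A / m) ^ (1 - ε) = m ^ (-(1 - ε)) * A ^ (1 - ε) := by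
    rw [Real.div_rpow hA.le hm.le, Real.rpow_neg hm.le]
    ring
  have e2 : (n / B) ^ (1 - ε) = n ^ (1 - ε) * B ^ (-(1 - ε)) := by
    rw [Real.div_rpow hn.le hB.le, Real.rpow_neg hB.le]
    ring
  have e3 : A ^ ε * B ^ (-(1 - 2 * ε)) = m ^ ε * n ^ (-(1 - 2 * ε)) *
      ((A / m) ^ ε * (n / B) ^ (1 - 2 * ε)) := by
    rw [Real.div_rpow hA.le hm.le, Real.div_rpow hn.le hB.le, Real.rpow_neg hn.le,
      Real.rpow_neg hB.le]
    have h1 : m ^ ε ≠ 0 := by positivity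
    have h2 : n ^ (1 - 2 * ε) ≠ 0 := by positivity
    field_simp
  rw [e3, ← e1, ← e2]
  exact mul_le_mul_of_nonneg_left key2 (by positivity)

section

set_option linter.unusedSectionVars false

variable {Ω : Type} [MeasurableSpace Ω] {P : Measure Ω} [IsProbabilityMeasure P]
  {X : ℕ → Ω → ℝ}

/-- moments of the walk -/
theorem mom_walk (c : ℝ) (hc1 : -1 < c) (hc2 : c < 1) : ∃ C : ℝ, 0 < C ∧
    ∀ {Ω : Type} [MeasurableSpace Ω] (P : Measure Ω) [IsProbabilityMeasure P]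
    (X : ℕ → Ω → ℝ), IsCauchySeq P X → ∀ n : ℕ, 1 ≤ n →
    Integrable (fun ω => (1 + |walk X n ω|) ^ c) P ∧
    ∫ ω, (1 + |walk X n ω|) ^ c ∂P ≤ C * (n : ℝ) ^ c := by
  obtain ⟨C, hC, h⟩ := p_MOM c hc1 hc2
  refine ⟨C, hC, fun {Ω} _ P _ X hX n hn => ?_⟩
  obtain ⟨h1, h2⟩ := h n hn
  rw [← law_walk hX n] at h1 h2
  have hw := measurable_walk hX n
  have hc := (cont_pow c).aestronglyMeasurable (μ := P.map (walk X n))
  constructor
  · exact (integrable_map_measure hc hw.aemeasurable).1 h1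
  · rw [integral_map hw.aemeasurable hc] at h2
    exact h2

/-- the summands are square integrable -/
theorem memLp (hL : LineBound 0) (hX : IsCauchySeq P X) (k n : ℕ) :
    MemLp (fun ω => zl (walk X n ω) ^ k - 1) 2 P := by
  obtain ⟨C, hC, hg⟩ := gbound hL k (1 / 4) (by norm_num)
  have hw := measurable_walk hX n
  have hmeas : AEStronglyMeasurable (fun ω => zl (walk X n ω) ^ k - 1) P :=
    (((cont_zl.pow k).sub continuous_const).measurable.comp hw).aestronglyMeasurable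
  rcases Nat.eq_zero_or_pos n with h0 | h0
  · subst h0
    have : (fun ω => zl (walk X 0 ω) ^ k - 1) = fun _ : Ω => zl 0 ^ k - 1 := by
      funext ω
      simp [walk]
    rw [this]
    exact memLp_const _
  · rw [memLp_two_iff_integrable_sq_norm hmeas]
    obtain ⟨C₂, _, h2⟩ := mom_walk (1 / 2) (by norm_num) (by norm_num)
    refine Integrable.mono' ((h2 P X hX n h0).1.const_mul (C ^ 2)) (hmeas.norm.pow 2)
      (ae_of_all _ fun ω => ?_)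
    rw [Real.norm_of_nonneg (by positivity)]
    have h3 : (0 : ℝ) < 1 + |walk X n ω| := by positivity
    calc ‖zl (walk X n ω) ^ k - 1‖ ^ 2 ≤ (C * (1 + |walk X n ω|) ^ (1 / 4 : ℝ)) ^ 2 :=
          pow_le_pow_left₀ (norm_nonneg _) (hg _) 2
      _ = C ^ 2 * (1 + |walk X n ω|) ^ (1 / 2 : ℝ) := by
          rw [mul_pow, ← Real.rpow_natCast ((1 + |walk X n ω|) ^ (1 / 4 : ℝ)) 2,
            ← Real.rpow_mul h3.le]
          norm_num

/-- the mixed moment -/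
theorem mixed (ε : ℝ) (hε : 0 < ε) (hε8 : ε < 1 / 8) : ∃ C : ℝ, 0 < C ∧
    ∀ {Ω : Type} [MeasurableSpace Ω] (P : Measure Ω) [IsProbabilityMeasure P]
    (X : ℕ → Ω → ℝ), IsCauchySeq P X → ∀ m n : ℕ, 1 ≤ m → 1 ≤ n →
    Integrable (fun ω => (1 + |walk X m ω|) ^ ε * (1 + |walk X n ω|) ^ (-(1 - 2 * ε))) P ∧
    ∫ ω, (1 + |walk X m ω|) ^ ε * (1 + |walk X n ω|) ^ (-(1 - 2 * ε)) ∂P ≤
      C * ((m : ℝ) ^ ε * (n : ℝ) ^ (-(1 - 2 * ε))) := by
  obtain ⟨C₁, hC₁, h₁⟩ := mom_walk (1 - ε) (by linarith) (by linarith)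
  obtain ⟨C₂, hC₂, h₂⟩ := mom_walk (-(1 - ε)) (by linarith) (by linarith)
  refine ⟨C₁ + C₂, by positivity, fun {Ω} _ P _ X hX m n hm hn => ?_⟩
  obtain ⟨i1, b1⟩ := h₁ P X hX m hm
  obtain ⟨i2, b2⟩ := h₂ P X hX n hn
  have hm0 : (0 : ℝ) < m := by exact_mod_cast hm
  have hn0 : (0 : ℝ) < n := by exact_mod_cast hn
  have hwm := measurable_walk hX m
  have hwn := measurable_walk hX n
  have hmeas : AEStronglyMeasurable
      (fun ω => (1 + |walk X m ω|) ^ ε * (1 + |walk X n ω|) ^ (-(1 - 2 * ε))) P :=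
    (((cont_pow ε).measurable.comp hwm).mul
      ((cont_pow (-(1 - 2 * ε))).measurable.comp hwn)).aestronglyMeasurable
  have hpt : ∀ ω, (1 + |walk X m ω|) ^ ε * (1 + |walk X n ω|) ^ (-(1 - 2 * ε)) ≤
      (m : ℝ) ^ ε * (n : ℝ) ^ (-(1 - 2 * ε)) *
      ((m : ℝ) ^ (-(1 - ε)) * (1 + |walk X m ω|) ^ (1 - ε) +
        (n : ℝ) ^ (1 - ε) * (1 + |walk X n ω|) ^ (-(1 - ε))) := fun ω =>
    young ε hε hε8 m n hm0 hn0 _ _ (by positivity) (by positivity)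
  have hint := (((i1.const_mul ((m : ℝ) ^ (-(1 - ε)))).add
    (i2.const_mul ((n : ℝ) ^ (1 - ε)))).const_mul ((m : ℝ) ^ ε * (n : ℝ) ^ (-(1 - 2 * ε))))
  have hI : Integrable
      (fun ω => (1 + |walk X m ω|) ^ ε * (1 + |walk X n ω|) ^ (-(1 - 2 * ε))) P := by
    refine hint.mono' hmeas (ae_of_all _ fun ω => ?_)
    rw [Real.norm_of_nonneg (by positivity)]
    exact hpt ω
  refine ⟨hI, ?_⟩
  refine (integral_mono hI hint hpt).trans ?_
  have e1 : ∫ ω, (m : ℝ) ^ ε * (n : ℝ) ^ (-(1 - 2 * ε)) *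
      ((m : ℝ) ^ (-(1 - ε)) * (1 + |walk X m ω|) ^ (1 - ε) +
        (n : ℝ) ^ (1 - ε) * (1 + |walk X n ω|) ^ (-(1 - ε))) ∂P =
      (m : ℝ) ^ ε * (n : ℝ) ^ (-(1 - 2 * ε)) *
      ((m : ℝ) ^ (-(1 - ε)) * ∫ ω, (1 + |walk X m ω|) ^ (1 - ε) ∂P +
        (n : ℝ) ^ (1 - ε) * ∫ ω, (1 + |walk X n ω|) ^ (-(1 - ε)) ∂P) := by
    rw [integral_const_mul, integral_add (i1.const_mul _) (i2.const_mul _), integral_const_mul,
      integral_const_mul]
  refine (le_of_eq e1).trans ?_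
  have b1' : (m : ℝ) ^ (-(1 - ε)) * ∫ ω, (1 + |walk X m ω|) ^ (1 - ε) ∂P ≤ C₁ := by
    calc _ ≤ (m : ℝ) ^ (-(1 - ε)) * (C₁ * (m : ℝ) ^ (1 - ε)) :=
          mul_le_mul_of_nonneg_left b1 (by positivity)
      _ = C₁ * ((m : ℝ) ^ (-(1 - ε)) * (m : ℝ) ^ (1 - ε)) := by ring
      _ = C₁ := by rw [← Real.rpow_add hm0, neg_add_cancel, Real.rpow_zero, mul_one]
  have b2' : (n : ℝ) ^ (1 - ε) * ∫ ω, (1 + |walk X n ω|) ^ (-(1 - ε)) ∂P ≤ C₂ := by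
    calc _ ≤ (n : ℝ) ^ (1 - ε) * (C₂ * (n : ℝ) ^ (-(1 - ε))) :=
          mul_le_mul_of_nonneg_left b2 (by positivity)
      _ = C₂ * ((n : ℝ) ^ (1 - ε) * (n : ℝ) ^ (-(1 - ε))) := by ring
      _ = C₂ := by rw [← Real.rpow_add hn0, add_neg_cancel, Real.rpow_zero, mul_one]
  calc _ ≤ (m : ℝ) ^ ε * (n : ℝ) ^ (-(1 - 2 * ε)) * (C₁ + C₂) :=
        mul_le_mul_of_nonneg_left (add_le_add b1' b2') (by positivity)
    _ = _ := by ring

/-- the product of two summands -/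
noncomputable def pr (k : ℕ) (X : ℕ → Ω → ℝ) (n m : ℕ) (ω : Ω) : ℂ :=
  (zl (walk X n ω) ^ k - 1) * (starRingEnd ℂ) (zl (walk X m ω) ^ k - 1)

theorem pr_int (hL : LineBound 0) (hX : IsCauchySeq P X) (k n m : ℕ) :
    Integrable (pr k X n m) P := by
  have h1 := memLp hL hX k n
  have h2 := memLp hL hX k m
  have h3 : MemLp (fun ω => (starRingEnd ℂ) (zl (walk X m ω) ^ k - 1)) 2 P := by
    refine MemLp.congr_norm h2 ?_ (ae_of_all _ fun ω => (Complex.norm_conj _).symm)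
    have : Continuous fun t : ℝ => (starRingEnd ℂ) (zl t ^ k - 1) :=
      continuous_conj.comp ((cont_zl.pow k).sub continuous_const)
    exact (this.measurable.comp (measurable_walk hX m)).aestronglyMeasurable
  exact h1.integrable_mul h3

theorem pr_conj (k n m : ℕ) (ω : Ω) : pr k X m n ω = (starRingEnd ℂ) (pr k X n m ω) := by
  unfold pr
  rw [map_mul, Complex.conj_conj, mul_comm]

theorem pr_symm (k n m : ℕ) : ‖∫ ω, pr k X m n ω ∂P‖ = ‖∫ ω, pr k X n m ω ∂P‖ := by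
  simp only [pr_conj k n m]
  rw [integral_conj, Complex.norm_conj]

end

/-- the covariance bound -/
theorem cross (hL : LineBound 0) (k : ℕ) (ε : ℝ) (hε : 0 < ε) (hε8 : ε < 1 / 8) :
    ∃ C : ℝ, 0 < C ∧ ∀ {Ω : Type} [MeasurableSpace Ω] (P : Measure Ω) [IsProbabilityMeasure P]
    (X : ℕ → Ω → ℝ), IsCauchySeq P X → ∀ m n : ℕ, 1 ≤ m → m < n →
    ‖∫ ω, pr k X n m ω ∂P‖ ≤
      C * ((n : ℝ) ^ (2 * ε) * (1 / 2 : ℝ) ^ (n - m) + (m : ℝ) ^ (3 * ε - 1)) := by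
  obtain ⟨C₁, hC₁, hg⟩ := gbound hL k ε hε
  obtain ⟨C₂, hC₂, hmean⟩ := p_MEAN p_POISSON hL k ε hε hε8
  obtain ⟨C₃, hC₃, hm3⟩ := p_MOM ε (by linarith) (by linarith)
  obtain ⟨C₄, hC₄, hm4⟩ := p_MOM (3 * ε - 1) (by linarith) (by linarith)
  obtain ⟨C₅, hC₅, hmix⟩ := mixed ε hε hε8
  refine ⟨C₁ * C₂ * (C₃ + C₄ + C₅), by positivity, fun {Ω} _ P _ X hX m n hm hmn => ?_⟩
  have hr : 1 ≤ n - m := by omega
  have hm0 : (1 : ℝ) ≤ m := by exact_mod_cast hm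
  have hmn' : (m : ℝ) ≤ n := by exact_mod_cast hmn.le
  have hn0 : (1 : ℝ) ≤ n := hm0.trans hmn'
  have hwm := measurable_walk hX m
  have hwn := measurable_walk hX n
  have hpairm : Measurable (fun ω => (walk X m ω, walk X n ω - walk X m ω)) :=
    hwm.prodMk (hwn.sub hwm)
  have hpair := p_PAIR P X hX m n hmn.le
  obtain ⟨i3, b3⟩ := hm3 m hm
  obtain ⟨i4, b4⟩ := hm4 m hm
  obtain ⟨i5, b5⟩ := hmix P X hX m n hm (by omega)
  obtain ⟨r, hr'⟩ : ∃ r : ℕ, r = n - m := ⟨_, rfl⟩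
  rw [← hr'] at hr hpair ⊢
  have hr0 : (1 : ℝ) ≤ r := by exact_mod_cast hr
  -- the two functions on the plane
  obtain ⟨F, hF⟩ : ∃ F : ℝ × ℝ → ℂ, F = fun z =>
    (zl (z.1 + z.2) ^ k - 1) * (starRingEnd ℂ) (zl z.1 ^ k - 1) := ⟨_, rfl⟩
  obtain ⟨G, hG⟩ : ∃ G : ℝ × ℝ → ℝ, G = fun z =>
    (1 + |z.1|) ^ ε * (1 + |z.1 + z.2|) ^ (-(1 - 2 * ε)) := ⟨_, rfl⟩
  have hFc : Continuous F := by
    rw [hF]
    exact (((cont_zl.comp (continuous_fst.add continuous_snd)).pow k).sub continuous_const).mul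
      (continuous_conj.comp (((cont_zl.comp continuous_fst).pow k).sub continuous_const))
  have hGc : Continuous G := by
    rw [hG]
    exact ((cont_pow ε).comp continuous_fst).mul
      ((cont_pow (-(1 - 2 * ε))).comp (continuous_fst.add continuous_snd))
  have hFp : (fun ω => F (walk X m ω, walk X n ω - walk X m ω)) = pr k X n m := by
    funext ω
    rw [hF]
    unfold pr
    simp
  have hGp : (fun ω => G (walk X m ω, walk X n ω - walk X m ω)) =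
      fun ω => (1 + |walk X m ω|) ^ ε * (1 + |walk X n ω|) ^ (-(1 - 2 * ε)) := by
    funext ω
    rw [hG]
    simp
  have hFi : Integrable F ((cauchyMeasure 0 m).prod (cauchyMeasure 0 r)) := by
    rw [← hpair, integrable_map_measure hFc.aestronglyMeasurable hpairm.aemeasurable]
    change Integrable (fun ω => F (walk X m ω, walk X n ω - walk X m ω)) P
    rw [hFp]
    exact pr_int hL hX k n m
  have hGi : Integrable G ((cauchyMeasure 0 m).prod (cauchyMeasure 0 r)) := by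
    rw [← hpair, integrable_map_measure hGc.aestronglyMeasurable hpairm.aemeasurable]
    change Integrable (fun ω => G (walk X m ω, walk X n ω - walk X m ω)) P
    rw [hGp]
    exact i5
  have hFv : ∫ ω, pr k X n m ω ∂P =
      ∫ x, ∫ u, F (x, u) ∂(cauchyMeasure 0 r) ∂(cauchyMeasure 0 m) := by
    rw [← integral_prod F hFi, ← hpair,
      integral_map hpairm.aemeasurable hFc.aestronglyMeasurable, ← hFp]
  have hGv : ∫ x, ∫ u, G (x, u) ∂(cauchyMeasure 0 r) ∂(cauchyMeasure 0 m) ≤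
      C₅ * ((m : ℝ) ^ ε * (n : ℝ) ^ (-(1 - 2 * ε))) := by
    rw [← integral_prod G hGi, ← hpair,
      integral_map hpairm.aemeasurable hGc.aestronglyMeasurable]
    refine le_trans (le_of_eq ?_) b5
    congr 1
  -- the bound for the inner integral
  have hin : ∀ x : ℝ, ‖∫ u, F (x, u) ∂(cauchyMeasure 0 r)‖ ≤ C₁ * C₂ *
      ((1 / 2 : ℝ) ^ r * (1 + |x|) ^ ε + (1 + |x|) ^ (3 * ε - 1) +
        ∫ u, G (x, u) ∂(cauchyMeasure 0 r)) := by
    intro x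
    have hx : (0 : ℝ) < 1 + |x| := by positivity
    have e1 : ∫ u, F (x, u) ∂(cauchyMeasure 0 r) =
        (∫ u, (zl (x + u) ^ k - 1) ∂(cauchyMeasure 0 r)) *
          (starRingEnd ℂ) (zl x ^ k - 1) := by
      rw [hF, ← integral_mul_const]
    have e2 : ∫ u, G (x, u) ∂(cauchyMeasure 0 r) =
        (1 + |x|) ^ ε * ∫ u, (1 + |x + u|) ^ (-(1 - 2 * ε)) ∂(cauchyMeasure 0 r) := by
      rw [hG, ← integral_const_mul]
    have h2 := (hmean r hr x).2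
    obtain ⟨J, hJ⟩ : ∃ J : ℝ, J = ∫ u, (1 + |x + u|) ^ (-(1 - 2 * ε)) ∂(cauchyMeasure 0 r) :=
      ⟨_, rfl⟩
    have hJ0 : 0 ≤ J := by
      rw [hJ]
      exact integral_nonneg fun u => by positivity
    rw [← hJ] at h2 e2
    rw [e1, e2, norm_mul, Complex.norm_conj]
    have h3 : (r : ℝ) ^ (-(2 * ε)) ≤ 1 :=
      Real.rpow_le_one_of_one_le_of_nonpos hr0 (by linarith)
    have h4 : (r : ℝ) ^ (-(2 * ε)) * (1 + |x|) ^ (-(1 - 2 * ε)) ≤
        1 * (1 + |x|) ^ (-(1 - 2 * ε)) := mul_le_mul_of_nonneg_right h3 (by positivity)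
    have h5 : (1 + |x|) ^ (3 * ε - 1) = (1 + |x|) ^ ε * (1 + |x|) ^ (-(1 - 2 * ε)) := by
      rw [← Real.rpow_add hx]
      congr 1
      ring
    calc ‖∫ u, (zl (x + u) ^ k - 1) ∂(cauchyMeasure 0 r)‖ * ‖zl x ^ k - 1‖
        ≤ (C₂ * ((1 / 2 : ℝ) ^ r + (r : ℝ) ^ (-(2 * ε)) * (1 + |x|) ^ (-(1 - 2 * ε)) + J)) *
          (C₁ * (1 + |x|) ^ ε) :=
          mul_le_mul h2 (hg x) (norm_nonneg _) (by positivity)
      _ ≤ (C₂ * ((1 / 2 : ℝ) ^ r + 1 * (1 + |x|) ^ (-(1 - 2 * ε)) + J)) *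
          (C₁ * (1 + |x|) ^ ε) := by gcongr
      _ = _ := by rw [h5]; ring
  have hi6 : Integrable (fun x => ∫ u, G (x, u) ∂(cauchyMeasure 0 r)) (cauchyMeasure 0 m) :=
    hGi.integral_prod_left
  have hi34 : Integrable (fun x : ℝ => (1 / 2 : ℝ) ^ r * (1 + |x|) ^ ε +
      (1 + |x|) ^ (3 * ε - 1)) (cauchyMeasure 0 m) := (i3.const_mul _).add i4
  have hbi : Integrable (fun x : ℝ => C₁ * C₂ *
      ((1 / 2 : ℝ) ^ r * (1 + |x|) ^ ε + (1 + |x|) ^ (3 * ε - 1) +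
        ∫ u, G (x, u) ∂(cauchyMeasure 0 r))) (cauchyMeasure 0 m) :=
    (hi34.add hi6).const_mul _
  rw [hFv]
  refine (norm_integral_le_of_norm_le hbi (ae_of_all _ hin)).trans ?_
  rw [integral_const_mul, integral_add hi34 hi6,
    integral_add (i3.const_mul _) i4, integral_const_mul]
  have h7 : (m : ℝ) ^ ε ≤ (n : ℝ) ^ (2 * ε) :=
    (Real.rpow_le_rpow (by linarith) hmn' hε.le).trans
      (Real.rpow_le_rpow_of_exponent_le hn0 (by linarith))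
  have h8 : (m : ℝ) ^ ε * (n : ℝ) ^ (-(1 - 2 * ε)) ≤ (m : ℝ) ^ (3 * ε - 1) := by
    have e1 : (m : ℝ) ^ (3 * ε - 1) = (m : ℝ) ^ ε * (m : ℝ) ^ (-(1 - 2 * ε)) := by
      rw [← Real.rpow_add (by linarith)]
      congr 1
      ring
    rw [e1]
    refine mul_le_mul_of_nonneg_left ?_ (by positivity)
    exact Real.rpow_le_rpow_of_nonpos (by linarith) hmn' (by linarith)
  obtain ⟨U, hU⟩ : ∃ U : ℝ, U = (1 / 2 : ℝ) ^ r := ⟨_, rfl⟩
  have hU0 : 0 ≤ U := by rw [hU]; positivity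
  have h9 : U * ∫ x, (1 + |x|) ^ ε ∂(cauchyMeasure 0 m) ≤ C₃ * ((n : ℝ) ^ (2 * ε) * U) := by
    calc _ ≤ U * (C₃ * (m : ℝ) ^ ε) := mul_le_mul_of_nonneg_left b3 hU0
      _ ≤ U * (C₃ * (n : ℝ) ^ (2 * ε)) := by gcongr
      _ = _ := by ring
  have h10 : ∫ x, ∫ u, G (x, u) ∂(cauchyMeasure 0 r) ∂(cauchyMeasure 0 m) ≤
      C₅ * (m : ℝ) ^ (3 * ε - 1) :=
    hGv.trans (mul_le_mul_of_nonneg_left h8 hC₅.le)
  have h11 : 0 ≤ (n : ℝ) ^ (2 * ε) * U := by positivity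
  have h12 : (0 : ℝ) ≤ (m : ℝ) ^ (3 * ε - 1) := by positivity
  rw [← hU]
  have h13 : U * (∫ x, (1 + |x|) ^ ε ∂(cauchyMeasure 0 m)) +
      (∫ x, (1 + |x|) ^ (3 * ε - 1) ∂(cauchyMeasure 0 m)) +
      ∫ x, ∫ u, G (x, u) ∂(cauchyMeasure 0 r) ∂(cauchyMeasure 0 m) ≤
      (C₃ + C₄ + C₅) * ((n : ℝ) ^ (2 * ε) * U + (m : ℝ) ^ (3 * ε - 1)) := by
    refine (add_le_add (add_le_add h9 b4) h10).trans ?_
    nlinarith [mul_nonneg hC₃.le h12, mul_nonneg hC₄.le h11, mul_nonneg hC₅.le h11]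
  calc _ ≤ C₁ * C₂ * ((C₃ + C₄ + C₅) * ((n : ℝ) ^ (2 * ε) * U + (m : ℝ) ^ (3 * ε - 1))) :=
        mul_le_mul_of_nonneg_left h13 (by positivity)
    _ = _ := by ring

/-- the diagonal -/
theorem diag (hL : LineBound 0) (k : ℕ) (ε : ℝ) (hε : 0 < ε) (hε8 : ε < 1 / 8) :
    ∃ C : ℝ, 0 < C ∧ ∀ {Ω : Type} [MeasurableSpace Ω] (P : Measure Ω) [IsProbabilityMeasure P]
    (X : ℕ → Ω → ℝ), IsCauchySeq P X → ∀ n : ℕ, 1 ≤ n →
    ‖∫ ω, pr k X n n ω ∂P‖ ≤ C * (n : ℝ) ^ (2 * ε) := by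
  obtain ⟨C₁, hC₁, hg⟩ := gbound hL k ε hε
  obtain ⟨C₂, hC₂, hm⟩ := mom_walk (2 * ε) (by linarith) (by linarith)
  refine ⟨C₁ ^ 2 * C₂, by positivity, fun {Ω} _ P _ X hX n hn => ?_⟩
  obtain ⟨i1, b1⟩ := hm P X hX n hn
  refine (norm_integral_le_of_norm_le (i1.const_mul (C₁ ^ 2)) (ae_of_all _ fun ω => ?_)).trans ?_
  · unfold pr
    rw [norm_mul, Complex.norm_conj]
    have h3 : (0 : ℝ) < 1 + |walk X n ω| := by positivity
    calc ‖zl (walk X n ω) ^ k - 1‖ * ‖zl (walk X n ω) ^ k - 1‖ ≤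
          (C₁ * (1 + |walk X n ω|) ^ ε) * (C₁ * (1 + |walk X n ω|) ^ ε) :=
          mul_le_mul (hg _) (hg _) (norm_nonneg _) (by positivity)
      _ = C₁ ^ 2 * ((1 + |walk X n ω|) ^ ε * (1 + |walk X n ω|) ^ ε) := by ring
      _ = C₁ ^ 2 * (1 + |walk X n ω|) ^ (2 * ε) := by
          rw [← Real.rpow_add h3]
          congr 2
          ring
  · rw [integral_const_mul, mul_assoc]
    exact mul_le_mul_of_nonneg_left b1 (by positivity)

end BLOCK_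

open BLOCK_ in
theorem p_BLOCK : P_BLOCK := by
  intro hL Ω _ P _ X hX k
  refine ⟨fun n => memLp hL hX k n, fun κ hκ => ?_⟩
  obtain ⟨ε, hεd⟩ : ∃ ε : ℝ, ε = min (κ / 4) (1 / 16) := ⟨_, rfl⟩
  have hε : 0 < ε := by
    rw [hεd]
    exact lt_min (by linarith) (by norm_num)
  have hε8 : ε < 1 / 8 := by
    have := min_le_right (κ / 4) (1 / 16 : ℝ)
    rw [hεd]
    linarith
  have hεκ : 4 * ε ≤ κ := by
    have := min_le_left (κ / 4) (1 / 16 : ℝ)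
    rw [hεd]
    linarith
  obtain ⟨C₁, hC₁, hcross⟩ := cross hL k ε hε hε8
  obtain ⟨C₂, hC₂, hdiag⟩ := diag hL k ε hε hε8
  refine ⟨(C₁ + C₂) * (3 + 2 * (1 + ε⁻¹)), fun a b hab => ?_⟩
  have hb : (1 : ℝ) ≤ b := by exact_mod_cast (by omega : 1 ≤ b)
  have hba : (0 : ℝ) ≤ (b : ℝ) - a := by
    have : (a : ℝ) ≤ b := by exact_mod_cast hab.le
    linarith
  -- the bound for each pair
  have hpair : ∀ n ∈ Finset.Ioc a b, ∀ m ∈ Finset.Ioc a b, ‖∫ ω, pr k X n m ω ∂P‖ ≤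
      (C₁ + C₂) * ((b : ℝ) ^ (2 * ε) * (1 / 2 : ℝ) ^ ((n - m) + (m - n)) +
        (m : ℝ) ^ (3 * ε - 1) + (n : ℝ) ^ (3 * ε - 1)) := by
    intro n hn m hm
    rw [Finset.mem_Ioc] at hn hm
    have hnb : (n : ℝ) ≤ b := by exact_mod_cast hn.2
    have hmb : (m : ℝ) ≤ b := by exact_mod_cast hm.2
    have hn0 : (0 : ℝ) < n := by exact_mod_cast (by omega : 0 < n)
    have hm0 : (0 : ℝ) < m := by exact_mod_cast (by omega : 0 < m)
    have hnp : (n : ℝ) ^ (2 * ε) ≤ (b : ℝ) ^ (2 * ε) :=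
      Real.rpow_le_rpow hn0.le hnb (by linarith)
    have hmp : (m : ℝ) ^ (2 * ε) ≤ (b : ℝ) ^ (2 * ε) :=
      Real.rpow_le_rpow hm0.le hmb (by linarith)
    have hq1 : (0 : ℝ) ≤ (m : ℝ) ^ (3 * ε - 1) := by positivity
    have hq2 : (0 : ℝ) ≤ (n : ℝ) ^ (3 * ε - 1) := by positivity
    have hq3 : (0 : ℝ) ≤ (b : ℝ) ^ (2 * ε) := by positivity
    rcases lt_trichotomy m n with h | h | h
    · have h1 := hcross P X hX m n (by omega) h
      have e1 : (n - m) + (m - n) = n - m := by omega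
      rw [e1]
      have hq4 : (0 : ℝ) ≤ (1 / 2 : ℝ) ^ (n - m) := by positivity
      refine h1.trans ?_
      calc C₁ * ((n : ℝ) ^ (2 * ε) * (1 / 2 : ℝ) ^ (n - m) + (m : ℝ) ^ (3 * ε - 1))
          ≤ C₁ * ((b : ℝ) ^ (2 * ε) * (1 / 2 : ℝ) ^ (n - m) + (m : ℝ) ^ (3 * ε - 1)) := by
            gcongr
        _ ≤ (C₁ + C₂) * ((b : ℝ) ^ (2 * ε) * (1 / 2 : ℝ) ^ (n - m) +
            (m : ℝ) ^ (3 * ε - 1) + (n : ℝ) ^ (3 * ε - 1)) := by
            refine mul_le_mul (by linarith) (by linarith) (by positivity) (by linarith)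
    · subst h
      have h1 := hdiag P X hX m (by omega)
      simp only [Nat.sub_self, add_zero, pow_zero, mul_one]
      refine h1.trans ?_
      calc C₂ * (m : ℝ) ^ (2 * ε) ≤ C₂ * (b : ℝ) ^ (2 * ε) := by gcongr
        _ ≤ (C₁ + C₂) * ((b : ℝ) ^ (2 * ε) +
            (m : ℝ) ^ (3 * ε - 1) + (m : ℝ) ^ (3 * ε - 1)) := by
            refine mul_le_mul (by linarith) (by linarith) (by positivity) (by linarith)
    · have h1 := hcross P X hX n m (by omega) h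
      rw [pr_symm k n m] at h1
      have e1 : (n - m) + (m - n) = m - n := by omega
      rw [e1]
      have hq4 : (0 : ℝ) ≤ (1 / 2 : ℝ) ^ (m - n) := by positivity
      refine h1.trans ?_
      calc C₁ * ((m : ℝ) ^ (2 * ε) * (1 / 2 : ℝ) ^ (m - n) + (n : ℝ) ^ (3 * ε - 1))
          ≤ C₁ * ((b : ℝ) ^ (2 * ε) * (1 / 2 : ℝ) ^ (m - n) + (n : ℝ) ^ (3 * ε - 1)) := by
            gcongr
        _ ≤ (C₁ + C₂) * ((b : ℝ) ^ (2 * ε) * (1 / 2 : ℝ) ^ (m - n) +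
            (m : ℝ) ^ (3 * ε - 1) + (n : ℝ) ^ (3 * ε - 1)) := by
            refine mul_le_mul (by linarith) (by linarith) (by positivity) (by linarith)
  -- expansion of the square
  have hexp : ((∫ ω, ‖∑ n ∈ Finset.Ioc a b, (zl (walk X n ω) ^ k - 1)‖ ^ 2 ∂P : ℝ) : ℂ) =
      ∑ n ∈ Finset.Ioc a b, ∑ m ∈ Finset.Ioc a b, ∫ ω, pr k X n m ω ∂P := by
    rw [← integral_complex_ofReal]
    have e1 : ∀ ω, ((‖∑ n ∈ Finset.Ioc a b, (zl (walk X n ω) ^ k - 1)‖ ^ 2 : ℝ) : ℂ) =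
        ∑ n ∈ Finset.Ioc a b, ∑ m ∈ Finset.Ioc a b, pr k X n m ω := by
      intro ω
      push_cast
      rw [← Complex.mul_conj', map_sum, Finset.sum_mul_sum]
      rfl
    rw [integral_congr_ae (ae_of_all _ e1), integral_finsetSum]
    · refine Finset.sum_congr rfl fun n _ => ?_
      rw [integral_finsetSum]
      exact fun m _ => pr_int hL hX k n m
    · intro n _
      exact integrable_finsetSum _ fun m _ => pr_int hL hX k n m
  have hnn : 0 ≤ ∫ ω, ‖∑ n ∈ Finset.Ioc a b, (zl (walk X n ω) ^ k - 1)‖ ^ 2 ∂P :=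
    integral_nonneg fun ω => by positivity
  have h1 : ∫ ω, ‖∑ n ∈ Finset.Ioc a b, (zl (walk X n ω) ^ k - 1)‖ ^ 2 ∂P =
      ‖∑ n ∈ Finset.Ioc a b, ∑ m ∈ Finset.Ioc a b, ∫ ω, pr k X n m ω ∂P‖ := by
    rw [← hexp, Complex.norm_real, Real.norm_of_nonneg hnn]
  rw [h1]
  calc ‖∑ n ∈ Finset.Ioc a b, ∑ m ∈ Finset.Ioc a b, ∫ ω, pr k X n m ω ∂P‖
      ≤ ∑ n ∈ Finset.Ioc a b, ∑ m ∈ Finset.Ioc a b, ‖∫ ω, pr k X n m ω ∂P‖ :=
        (norm_sum_le _ _).trans (Finset.sum_le_sum fun n _ => norm_sum_le _ _)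
    _ ≤ ∑ n ∈ Finset.Ioc a b, ∑ m ∈ Finset.Ioc a b,
        (C₁ + C₂) * ((b : ℝ) ^ (2 * ε) * (1 / 2 : ℝ) ^ ((n - m) + (m - n)) +
        (m : ℝ) ^ (3 * ε - 1) + (n : ℝ) ^ (3 * ε - 1)) :=
        Finset.sum_le_sum fun n hn => Finset.sum_le_sum fun m hm => hpair n hn m hm
    _ = (C₁ + C₂) * ∑ n ∈ Finset.Ioc a b, ∑ m ∈ Finset.Ioc a b,
        ((b : ℝ) ^ (2 * ε) * (1 / 2 : ℝ) ^ ((n - m) + (m - n)) +
        (m : ℝ) ^ (3 * ε - 1) + (n : ℝ) ^ (3 * ε - 1)) := by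
        simp only [Finset.mul_sum]
    _ ≤ (C₁ + C₂) * ((3 + 2 * (1 + ε⁻¹)) * ((b : ℝ) - a) * (b : ℝ) ^ (4 * ε)) :=
        mul_le_mul_of_nonneg_left (sumall ε hε a b hab) (by positivity)
    _ = (C₁ + C₂) * (3 + 2 * (1 + ε⁻¹)) * ((b : ℝ) - a) * (b : ℝ) ^ (4 * ε) := by ring
    _ ≤ (C₁ + C₂) * (3 + 2 * (1 + ε⁻¹)) * ((b : ℝ) - a) * (b : ℝ) ^ κ := by
        refine mul_le_mul_of_nonneg_left ?_ (by positivity)
        exact Real.rpow_le_rpow_of_exponent_le hb hεκ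

end Pool.Agent.CW
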