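import Pool.Agent.CW.Defs

/-!
# The Cauchy random walk and the moments of the Riemann zeta function: block statements
-/

namespace Pool.Agent.CW

open MeasureTheory ProbabilityTheory Set Filter Topology Complex

/-- `∫_0^T |ζ(1/2 + it)| ^ (2k) dt = O(T ^ (1 + 2l + ε))` for every `ε > 0` -/
def MomentBound (k : ℕ) (l : ℝ) : Prop :=
  ∀ ε : ℝ, 0 < ε → ∃ C : ℝ, ∀ T : ℝ, 1 ≤ T →
    ∫ t in (0 : ℝ)..T, ‖zl t‖ ^ (2 * k) ≤ C * T ^ (1 + 2 * l + ε)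

/-! ## Block statements -/

/-- Poisson formula in a half plane, growth exponent `c < 1` -/
def P_POISSONC : Prop := ∀ (F : ℂ → ℂ) (a c : ℝ), 0 ≤ c → c < 1 →
    DifferentiableOn ℂ F {s : ℂ | a < s.re} → ContinuousOn F {s : ℂ | a ≤ s.re} →
    (∃ C : ℝ, ∀ s : ℂ, a ≤ s.re → ‖F s‖ ≤ C * (1 + ‖s‖) ^ c) →
    ∀ r : ℝ, 0 < r → ∀ x : ℝ,
      Integrable (fun u : ℝ => F (a + (x + u) * I) * ((Real.pi⁻¹ * r * (u ^ 2 + r ^ 2)⁻¹ : ℝ) : ℂ)) ∧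
      ∫ u : ℝ, F (a + (x + u) * I) * ((Real.pi⁻¹ * r * (u ^ 2 + r ^ 2)⁻¹ : ℝ) : ℂ) =
        F (a + r + x * I)

/-- the potential: `f` is `ζ^k - 1` up to a small error, and `(f + h) - h` is a martingale
difference for the walk -/
def P_POT : Prop := ∀ (A : ℝ) (k : ℕ) (c : ℝ), 0 ≤ A → LineBound A → k * A < c → c < 1 →
    ∃ (f h : ℝ → ℂ) (C : ℝ), 0 < C ∧ Continuous f ∧ Continuous h ∧
      (∀ x, ‖f x‖ ≤ C * (1 + |x|) ^ c) ∧ (∀ x, ‖h x‖ ≤ C) ∧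
      (∀ x, ‖f x - (zl x ^ k - 1)‖ ≤ C * (1 + |x|)⁻¹) ∧
      ∀ x, Integrable (fun u => f (x + u) + h (x + u)) (cauchyMeasure 0 1) ∧
        ∫ u, (f (x + u) + h (x + u)) ∂(cauchyMeasure 0 1) = h x

/-- a function of the first `n` steps is orthogonal to a centred function of the next step -/
def P_ORTH : Prop := ∀ {Ω : Type} [MeasurableSpace Ω] (P : Measure Ω) [IsProbabilityMeasure P]
    (X : ℕ → Ω → ℝ), IsCauchySeq P X → ∀ (n : ℕ) (Φ : (Fin n → ℝ) → ℂ) (ψ : ℝ × ℝ → ℂ),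
    Measurable Φ → Measurable ψ → (∀ x, ∫ u, ψ (x, u) ∂(cauchyMeasure 0 1) = 0) →
    Integrable (fun ω => Φ (fun i => X i ω) * ψ (walk X n ω, X n ω)) P →
    ∫ ω, Φ (fun i => X i ω) * ψ (walk X n ω, X n ω) ∂P = 0

/-- Rademacher-Menshov form with an extra exponent `2l` -/
def P_RMW : Prop := ∀ {Ω : Type} [MeasurableSpace Ω] (P : Measure Ω) [IsProbabilityMeasure P]
    (ξ : ℕ → Ω → ℂ) (l : ℝ), 0 ≤ l → (∀ n, Measurable (ξ n)) → (∀ n, MemLp (ξ n) 2 P) →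
    (∀ κ : ℝ, 0 < κ → ∃ C : ℝ, ∀ a b : ℕ, a < b →
      ∫ ω, ‖∑ n ∈ Finset.Ioc a b, ξ n ω‖ ^ 2 ∂P ≤ C * ((b : ℝ) - a) * (b : ℝ) ^ (2 * l + κ)) →
    ∀ᵐ ω ∂P, ∀ ε : ℝ, 0 < ε → ∃ C : ℝ, ∀ N : ℕ, 1 ≤ N →
      ‖∑ n ∈ Finset.Icc 1 N, ξ n ω‖ ≤ C * (N : ℝ) ^ (1 / 2 + l + ε)

/-- the hitting lemma for weights (second moment method) -/
def P_HITW : Prop := ∀ η : ℝ, 0 < η → ∃ p : ℝ, 0 < p ∧ ∃ q : ℝ, 0 < q ∧ ∃ T₀ : ℝ, 1 ≤ T₀ ∧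
    ∀ T : ℝ, T₀ ≤ T → ∀ (w : ℝ → ℝ) (M : ℝ), Measurable w → 0 < M →
      (∀ t, 0 ≤ w t) → (∀ t, w t ≤ M) → (∀ t, t ∉ Icc (T / 2) (4 * T) → w t = 0) →
      ∫ t, w t = M →
    ∀ {Ω : Type} [MeasurableSpace Ω] (P : Measure Ω) [IsProbabilityMeasure P]
      (X : ℕ → Ω → ℝ), IsCauchySeq P X →
      p ≤ P.real {ω | q * M ≤ ∑ n ∈ Finset.Icc 1 ⌊T ^ (1 + η)⌋₊, w (walk X n ω)}

/-- zero-one lemma for weights -/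
def P_ZOW : Prop := ∀ {Ω : Type} [MeasurableSpace Ω] (P : Measure Ω) [IsProbabilityMeasure P]
    (X : ℕ → Ω → ℝ), IsCauchySeq P X →
    ∀ (p : ℝ), 0 < p → ∀ (w : ℕ → ℝ → ℝ) (θ : ℕ → ℝ) (N : ℕ → ℕ), (∀ j, Measurable (w j)) →
    (∀ j t, 0 ≤ w j t) →
    (∀ (M : ℕ) (K : ℝ), ∀ᶠ j in atTop, ∀ x : ℝ, |x| ≤ K →
      p ≤ P.real {ω | θ j ≤ ∑ n ∈ Finset.Icc 1 (N j - M), w j (x + walk X n ω)}) →
    ∀ᵐ ω ∂P, ∃ᶠ j in atTop, θ j ≤ ∑ n ∈ Finset.Icc 1 (N j), w j (walk X n ω)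

/-- moments along the walk from moments on the line -/
def P_EMOM : Prop := ∀ (k : ℕ) (l : ℝ), 0 ≤ l → l < 1 / 2 → MomentBound k l →
    ∀ ε : ℝ, 0 < ε → ∃ C : ℝ, 0 < C ∧ ∀ n : ℕ, 1 ≤ n →
      Integrable (fun x => ‖zl x‖ ^ (2 * k)) (cauchyMeasure 0 n) ∧
      ∫ x, ‖zl x‖ ^ (2 * k) ∂(cauchyMeasure 0 n) ≤ C * (n : ℝ) ^ (2 * l + ε)

/-- moments give pointwise bounds -/
def P_LB : Prop := ∀ (k : ℕ) (l : ℝ), 1 ≤ k → 0 ≤ l → MomentBound k l →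
    LineBound ((1 / 2 + l) / k)

/-- the law of the powers from the moments -/
def P_LAW : Prop := ∀ (k : ℕ) (l : ℝ), 1 ≤ k → 0 ≤ l → l < 1 / 2 → MomentBound k l →
    ∀ {Ω : Type} [MeasurableSpace Ω] (P : Measure Ω) [IsProbabilityMeasure P]
    (X : ℕ → Ω → ℝ), IsCauchySeq P X →
    ∀ᵐ ω ∂P, ∀ ε : ℝ, 0 < ε → ∃ C : ℝ, ∀ N : ℕ, 1 ≤ N →
      ‖dev k (fun n => walk X n ω) N‖ ≤ C * (N : ℝ) ^ (1 / 2 + l + ε)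

/-- the quadratic variation is controlled by the sums -/
def P_QV : Prop := ∀ (A : ℝ) (k : ℕ) (c c' : ℝ), 0 ≤ A → LineBound A → k * A < c → 1 / 2 ≤ c →
    c < c' → c' < 1 →
    ∀ {Ω : Type} [MeasurableSpace Ω] (P : Measure Ω) [IsProbabilityMeasure P]
    (X : ℕ → Ω → ℝ), IsCauchySeq P X →
    ∀ᵐ ω ∂P, (∃ C : ℝ, ∀ N : ℕ, 1 ≤ N → ‖dev k (fun n => walk X n ω) N‖ ≤ C * (N : ℝ) ^ c) →
      ∃ C : ℝ, ∀ N : ℕ, 1 ≤ N →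
        ∑ n ∈ Finset.Icc 1 N, ‖zl (walk X n ω) ^ k - 1‖ ^ 2 ≤ C * (N : ℝ) ^ (2 * c')

/-- if the moment bound fails, the sum of squares along the walk is large infinitely often -/
def P_BIG : Prop := ∀ (k : ℕ) (l : ℝ), 1 ≤ k → 0 ≤ l → l < 1 / 2 →
    LineBound ((1 / 2 + l) / k) → ¬ MomentBound k l → ∃ κ : ℝ, 0 < κ ∧
    ∀ {Ω : Type} [MeasurableSpace Ω] (P : Measure Ω) [IsProbabilityMeasure P]
    (X : ℕ → Ω → ℝ), IsCauchySeq P X →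
    ∀ᵐ ω ∂P, ∀ C : ℝ, ∃ N : ℕ, 1 ≤ N ∧
      C * (N : ℝ) ^ (1 + 2 * l + κ) < ∑ n ∈ Finset.Icc 1 N, ‖zl (walk X n ω) ^ k - 1‖ ^ 2

end Pool.Agent.CW
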