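import Pool.Agent.CW.Defs2
import Pool.Agent.CW.MOM
import Pool.Agent.CW.MEAN

/-!
# Moments along the walk from moments on the line
-/

set_option autoImplicit false

namespace Pool.Agent.CW

open MeasureTheory ProbabilityTheory Set Filter Topology Complex

namespace EMOM_

theorem norm_zl_neg (x : ℝ) : ‖zl (-x)‖ = ‖zl x‖ := by
  unfold zl
  have h : (1 / 2 + ((-x : ℝ) : ℂ) * I) = (starRingEnd ℂ) (1 / 2 + (x : ℂ) * I) := by
    apply Complex.ext <;> simp
  rw [h, riemannZeta_conj, Complex.norm_conj]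

/-- the density is at most a step function -/
theorem step {n : ℕ} (hn : 1 ≤ n) (x : ℝ) : ∃ j : ℕ, |x| ≤ 2 ^ j * (n : ℝ) ∧
    Real.pi⁻¹ * (n : ℝ)⁻¹ * (1 + (x / n) ^ 2)⁻¹ ≤ 4 * (n : ℝ)⁻¹ * (1 / 4) ^ j := by
  have hnR : (1 : ℝ) ≤ n := by exact_mod_cast hn
  have hn0 : (0 : ℝ) < n := by linarith
  have hpi : Real.pi⁻¹ ≤ 1 := by
    rw [inv_le_one₀ Real.pi_pos]
    linarith [Real.pi_gt_three]
  have hpi0 : 0 ≤ Real.pi⁻¹ := by positivity
  have hex : ∃ j : ℕ, |x| ≤ 2 ^ j * (n : ℝ) := by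
    obtain ⟨j, hj⟩ := pow_unbounded_of_one_lt |x| (by norm_num : (1 : ℝ) < 2)
    refine ⟨j, ?_⟩
    have h2 : (0 : ℝ) < 2 ^ j := by positivity
    nlinarith
  classical
  refine ⟨Nat.find hex, Nat.find_spec hex, ?_⟩
  have hinv : 0 ≤ (1 + (x / n) ^ 2)⁻¹ := by positivity
  rcases Nat.eq_zero_or_pos (Nat.find hex) with h0 | h0
  · rw [h0, pow_zero, mul_one]
    have h1 : (1 + (x / n) ^ 2)⁻¹ ≤ 1 := by
      rw [inv_le_one₀ (by positivity)]
      nlinarith [sq_nonneg (x / n)]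
    calc Real.pi⁻¹ * (n : ℝ)⁻¹ * (1 + (x / n) ^ 2)⁻¹ ≤ 1 * (n : ℝ)⁻¹ * 1 := by gcongr
      _ ≤ 4 * (n : ℝ)⁻¹ := by
        have : 0 ≤ (n : ℝ)⁻¹ := by positivity
        linarith
  · obtain ⟨i, hi⟩ : ∃ i, Nat.find hex = i + 1 := ⟨Nat.find hex - 1, by omega⟩
    have hlt : ¬ |x| ≤ 2 ^ i * (n : ℝ) := Nat.find_min hex (by omega)
    push Not at hlt
    have h1 : (4 : ℝ) ^ i ≤ 1 + (x / n) ^ 2 := by
      have h2 : 2 ^ i ≤ |x / n| := by
        rw [abs_div, abs_of_pos hn0, le_div_iff₀ hn0]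
        exact hlt.le
      have h3 : (2 ^ i) ^ 2 ≤ |x / n| ^ 2 := pow_le_pow_left₀ (by positivity) h2 2
      rw [sq_abs, ← pow_mul, mul_comm i 2, pow_mul] at h3
      norm_num at h3
      linarith
    have h4 : (1 + (x / n) ^ 2)⁻¹ ≤ ((4 : ℝ) ^ i)⁻¹ := inv_anti₀ (by positivity) h1
    rw [hi]
    calc Real.pi⁻¹ * (n : ℝ)⁻¹ * (1 + (x / n) ^ 2)⁻¹ ≤ 1 * (n : ℝ)⁻¹ * ((4 : ℝ) ^ i)⁻¹ := by gcongr
      _ = 4 * (n : ℝ)⁻¹ * (1 / 4) ^ (i + 1) := by
        rw [pow_succ, one_div, inv_pow]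
        ring

end EMOM_

theorem p_EMOM : P_EMOM := by
  intro k l hl0 hl hM ε hε
  set g : ℝ → ℝ := fun x => ‖zl x‖ ^ (2 * k) with hg
  have hzc : Continuous zl := Pool.Agent.HolMom.zeta_line_cont
  have hgc : Continuous g := (hzc.norm).pow _
  have hg0 : ∀ x, 0 ≤ g x := fun x => by positivity
  have hgs : ∀ x, g (-x) = g x := fun x => by
    simp only [hg]
    rw [EMOM_.norm_zl_neg]
  set e : ℝ := min ε (1 / 2 - l) with he
  have he0 : 0 < e := lt_min hε (by linarith)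
  have he1 : e ≤ ε := min_le_left _ _
  have he2 : e ≤ 1 / 2 - l := min_le_right _ _
  obtain ⟨C, hC⟩ := hM e he0
  have hC0 : 0 ≤ C := by
    have h1 := hC 1 le_rfl
    rw [Real.one_rpow, mul_one] at h1
    refine le_trans ?_ h1
    exact intervalIntegral.integral_nonneg zero_le_one fun x _ => hg0 x
  -- symmetric integrals
  have hsym : ∀ T : ℝ, 1 ≤ T → ∫ x in Icc (-T) T, g x ≤ 2 * C * T ^ (1 + 2 * l + e) := by
    intro T hT
    have hT0 : 0 ≤ T := by linarith
    rw [integral_Icc_eq_integral_Ioc, ← intervalIntegral.integral_of_le (by linarith),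
      ← intervalIntegral.integral_add_adjacent_intervals (b := 0) (hgc.intervalIntegrable _ _)
        (hgc.intervalIntegrable _ _)]
    have h1 : ∫ x in (-T)..0, g x = ∫ x in (0 : ℝ)..T, g x := by
      have h2 := intervalIntegral.integral_comp_neg (a := 0) (b := T) g
      rw [neg_zero] at h2
      rw [← h2]
      exact intervalIntegral.integral_congr fun x _ => hgs x
    rw [h1]
    have h3 := hC T hT
    linarith
  -- the ratio
  set ρ : ℝ := (2 : ℝ) ^ (2 * l + e - 1) with hρ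
  have hρ0 : 0 < ρ := by positivity
  have hρ1 : ρ < 1 := Real.rpow_lt_one_of_one_lt_of_neg (by norm_num) (by linarith)
  have hsum : Summable (fun j : ℕ => ρ ^ j) := summable_geometric_of_lt_one hρ0.le hρ1
  set K : ℝ := 8 * C * ∑' j : ℕ, ρ ^ j with hK
  have hK0 : 0 ≤ K := by
    have : 0 ≤ ∑' j : ℕ, ρ ^ j := tsum_nonneg fun j => by positivity
    positivity
  refine ⟨K + 1, by positivity, fun n hn => ?_⟩
  have hnR : (1 : ℝ) ≤ n := by exact_mod_cast hn
  have hn0 : (0 : ℝ) < n := by linarith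
  set w : ℝ → ℝ := fun x => Real.pi⁻¹ * (n : ℝ)⁻¹ * (1 + (x / n) ^ 2)⁻¹ with hw
  have hw0 : ∀ x, 0 ≤ w x := fun x => by positivity
  set a : ℕ → ℝ := fun j => 4 * (n : ℝ)⁻¹ * (1 / 4) ^ j with ha
  have ha0 : ∀ j, 0 ≤ a j := fun j => by positivity
  set B : ℕ → Set ℝ := fun j => Icc (-(2 ^ j * (n : ℝ))) (2 ^ j * (n : ℝ)) with hB
  have hterm : ∀ j : ℕ, a j * ∫ x in B j, g x ≤ 8 * C * (n : ℝ) ^ (2 * l + e) * ρ ^ j := by
    intro j
    have h1 : (1 : ℝ) ≤ 2 ^ j * (n : ℝ) := by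
      have : (1 : ℝ) ≤ 2 ^ j := one_le_pow₀ (by norm_num)
      nlinarith
    have h2 := hsym _ h1
    calc a j * ∫ x in B j, g x
        ≤ a j * (2 * C * (2 ^ j * (n : ℝ)) ^ (1 + 2 * l + e)) :=
          mul_le_mul_of_nonneg_left h2 (ha0 j)
      _ = 8 * C * (n : ℝ) ^ (2 * l + e) * ρ ^ j := by
        rw [Real.mul_rpow (by positivity) hn0.le]
        have e1 : (n : ℝ) ^ (1 + 2 * l + e) = n * (n : ℝ) ^ (2 * l + e) := by
          rw [show 1 + 2 * l + e = 1 + (2 * l + e) by ring, Real.rpow_add hn0, Real.rpow_one]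
        have e2 : ((2 : ℝ) ^ j) ^ (1 + 2 * l + e) = 4 ^ j * ρ ^ j := by
          rw [hρ, ← Real.rpow_natCast 2 j, ← Real.rpow_natCast, ← Real.rpow_natCast,
            ← Real.rpow_mul (by norm_num), ← Real.rpow_mul (by norm_num),
            show (4 : ℝ) = 2 ^ (2 : ℝ) by norm_num, ← Real.rpow_mul (by norm_num),
            ← Real.rpow_add (by norm_num)]
          congr 1
          ring
        rw [e1, e2]
        simp only [ha]
        have e3 : ((1 : ℝ) / 4) ^ j * 4 ^ j = 1 := by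
          rw [← mul_pow]
          norm_num
        have e4 : (n : ℝ)⁻¹ * n = 1 := inv_mul_cancel₀ hn0.ne'
        calc 4 * (n : ℝ)⁻¹ * (1 / 4) ^ j * (2 * C * (4 ^ j * ρ ^ j * (n * (n : ℝ) ^ (2 * l + e))))
            = 8 * C * (n : ℝ) ^ (2 * l + e) * ρ ^ j * (((1 : ℝ) / 4) ^ j * 4 ^ j)
              * ((n : ℝ)⁻¹ * n) := by ring
          _ = _ := by rw [e3, e4, mul_one, mul_one]
  -- the bound of the lower integral
  have hlint : ∫⁻ x, ENNReal.ofReal (g x * w x) ≤ ENNReal.ofReal (K * (n : ℝ) ^ (2 * l + e)) := by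
    calc ∫⁻ x, ENNReal.ofReal (g x * w x)
        ≤ ∫⁻ x, ∑' j : ℕ, ENNReal.ofReal (a j) * (B j).indicator
            (fun x => ENNReal.ofReal (g x)) x := by
          refine lintegral_mono fun x => ?_
          obtain ⟨j, hj1, hj2⟩ := EMOM_.step hn x
          have hxB : x ∈ B j := abs_le.1 hj1
          refine le_trans ?_ (ENNReal.le_tsum j)
          rw [indicator_of_mem hxB, ← ENNReal.ofReal_mul (ha0 j), mul_comm (a j)]
          exact ENNReal.ofReal_le_ofReal (mul_le_mul_of_nonneg_left hj2 (hg0 x))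
      _ = ∑' j : ℕ, ENNReal.ofReal (a j) * ∫⁻ x in B j, ENNReal.ofReal (g x) := by
          rw [lintegral_tsum]
          · refine tsum_congr fun j => ?_
            rw [lintegral_const_mul _ (hgc.measurable.ennreal_ofReal.indicator measurableSet_Icc),
              lintegral_indicator measurableSet_Icc]
          · intro j
            exact ((hgc.measurable.ennreal_ofReal.indicator measurableSet_Icc).const_mul
              _).aemeasurable
      _ ≤ ∑' j : ℕ, ENNReal.ofReal (8 * C * (n : ℝ) ^ (2 * l + e) * ρ ^ j) := by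
          refine ENNReal.tsum_le_tsum fun j => ?_
          have h1 : ∫⁻ x in B j, ENNReal.ofReal (g x) = ENNReal.ofReal (∫ x in B j, g x) :=
            (ofReal_integral_eq_lintegral_ofReal (hgc.integrableOn_Icc)
              (Eventually.of_forall hg0)).symm
          rw [h1, ← ENNReal.ofReal_mul (ha0 j)]
          exact ENNReal.ofReal_le_ofReal (hterm j)
      _ = ENNReal.ofReal (K * (n : ℝ) ^ (2 * l + e)) := by
          rw [← ENNReal.ofReal_tsum_of_nonneg (fun j => by positivity) (hsum.mul_left _),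
            tsum_mul_left, hK]
          congr 1
          ring
  have hint : Integrable (fun x => g x * w x) := by
    have hwc : Continuous w := by
      rw [hw]
      fun_prop (disch := intro x; positivity)
    refine ⟨(hgc.mul hwc).aestronglyMeasurable, ?_⟩
    rw [hasFiniteIntegral_iff_ofReal (Eventually.of_forall fun x => mul_nonneg (hg0 x) (hw0 x))]
    exact lt_of_le_of_lt hlint ENNReal.ofReal_lt_top
  refine ⟨(mom_cauchy_integrable_iff hn g).2 hint, ?_⟩
  rw [mom_cauchy_integral hn g]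
  have h1 : ENNReal.ofReal (∫ x, g x * w x) ≤ ENNReal.ofReal (K * (n : ℝ) ^ (2 * l + e)) := by
    rw [ofReal_integral_eq_lintegral_ofReal hint
      (Eventually.of_forall fun x => mul_nonneg (hg0 x) (hw0 x))]
    exact hlint
  have h2 : ∫ x, g x * w x ≤ K * (n : ℝ) ^ (2 * l + e) :=
    (ENNReal.ofReal_le_ofReal_iff (by positivity)).1 h1
  calc ∫ x, g x * w x ≤ K * (n : ℝ) ^ (2 * l + e) := h2
    _ ≤ (K + 1) * (n : ℝ) ^ (2 * l + ε) := by
      have h3 : (n : ℝ) ^ (2 * l + e) ≤ (n : ℝ) ^ (2 * l + ε) :=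
        Real.rpow_le_rpow_of_exponent_le hnR (by linarith)
      gcongr
      linarith

end Pool.Agent.CW
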