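import Pool.Agent.CW.Defs2
import Pool.Agent.CW.HIT
import Pool.Agent.CW.PAIR
import Pool.Agent.CW.MOM

/-!
# The Cauchy random walk: the hitting lemma for weights (second moment method)
-/

set_option autoImplicit false

namespace Pool.Agent.CW

open MeasureTheory ProbabilityTheory Set Filter Topology

namespace HITW_

/-- upper bound for the Cauchy mean of a translated weight -/
lemma int_up {r : ℕ} (hr : 1 ≤ r) {w : ℝ → ℝ} (hw0 : ∀ t, 0 ≤ w t) (hwi : Integrable w)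
    {M : ℝ} (hM : ∫ t, w t = M) (x : ℝ) :
    ∫ y, w (x + y) ∂(cauchyMeasure 0 (r : NNReal)) ≤ M / (Real.pi * r) := by
  have hr1 : (0 : ℝ) < r := by exact_mod_cast hr
  have hpi := Real.pi_pos
  rw [mom_cauchy_integral hr]
  have h1 : ∫ y, w (x + y) * (Real.pi⁻¹ * (r : ℝ)⁻¹ * (1 + (y / r) ^ 2)⁻¹) ≤
      ∫ y, w (x + y) * (Real.pi⁻¹ * (r : ℝ)⁻¹) := by
    refine integral_mono_of_nonneg (ae_of_all _ fun y => ?_)
      ((hwi.comp_add_left x).mul_const _) (ae_of_all _ fun y => ?_)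
    · have := hw0 (x + y)
      simp only [Pi.zero_apply]
      positivity
    · refine mul_le_mul_of_nonneg_left ?_ (hw0 _)
      have h2 : (1 + (y / r) ^ 2)⁻¹ ≤ 1 := by
        apply inv_le_one_of_one_le₀
        have : 0 ≤ (y / r) ^ 2 := sq_nonneg _
        linarith
      calc Real.pi⁻¹ * (r : ℝ)⁻¹ * (1 + (y / r) ^ 2)⁻¹ ≤ Real.pi⁻¹ * (r : ℝ)⁻¹ * 1 :=
            mul_le_mul_of_nonneg_left h2 (by positivity)
        _ = _ := mul_one _
  refine h1.trans (le_of_eq ?_)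
  rw [integral_mul_const, integral_add_left_eq_self (μ := volume) w x, hM]
  field_simp

/-- lower bound for the Cauchy mean of a weight -/
lemma int_low {r : ℕ} (hr : 1 ≤ r) {w : ℝ → ℝ} (hw0 : ∀ t, 0 ≤ w t) (hwi : Integrable w)
    {M : ℝ} (hM : ∫ t, w t = M) (hwr : ∀ t, w t ≠ 0 → |t| ≤ 4 * r) :
    M / (17 * Real.pi) * (1 / (r : ℝ)) ≤ ∫ y, w y ∂(cauchyMeasure 0 (r : NNReal)) := by
  have hr1 : (0 : ℝ) < r := by exact_mod_cast hr
  have hpi := Real.pi_pos
  rw [mom_cauchy_integral hr]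
  have e1 : M / (17 * Real.pi) * (1 / (r : ℝ)) =
      ∫ y, w y * (Real.pi⁻¹ * (r : ℝ)⁻¹ * (17 : ℝ)⁻¹) := by
    rw [integral_mul_const, hM]
    field_simp
  rw [e1]
  have hint : Integrable fun y => w y * (Real.pi⁻¹ * (r : ℝ)⁻¹ * (1 + (y / r) ^ 2)⁻¹) := by
    refine Integrable.mono' (hwi.mul_const (Real.pi⁻¹ * (r : ℝ)⁻¹)) ?_ (ae_of_all _ fun y => ?_)
    · exact hwi.aestronglyMeasurable.mul (by fun_prop)
    · have h2 : (1 + (y / r) ^ 2)⁻¹ ≤ 1 := by
        apply inv_le_one_of_one_le₀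
        have : 0 ≤ (y / r) ^ 2 := sq_nonneg _
        linarith
      have h3 := hw0 y
      rw [Real.norm_eq_abs, abs_of_nonneg (by positivity)]
      refine mul_le_mul_of_nonneg_left ?_ h3
      calc Real.pi⁻¹ * (r : ℝ)⁻¹ * (1 + (y / r) ^ 2)⁻¹ ≤ Real.pi⁻¹ * (r : ℝ)⁻¹ * 1 :=
            mul_le_mul_of_nonneg_left h2 (by positivity)
        _ = _ := mul_one _
  refine integral_mono (hwi.mul_const _) hint fun y => ?_
  by_cases hy : w y = 0
  · simp only [hy, zero_mul]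
    exact le_rfl
  · refine mul_le_mul_of_nonneg_left (mul_le_mul_of_nonneg_left ?_ (by positivity)) (hw0 y)
    apply inv_anti₀ (by positivity)
    have h4 := hwr y hy
    have h5 : |y / r| ≤ 4 := by
      rw [abs_div, abs_of_pos hr1, div_le_iff₀ hr1]
      exact h4
    have h6 : (y / r) ^ 2 ≤ 4 ^ 2 := by
      rw [← sq_abs]
      exact pow_le_pow_left₀ (abs_nonneg _) h5 2
    linarith

variable {Ω : Type} [MeasurableSpace Ω] {P : Measure Ω} [IsProbabilityMeasure P]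
  {X : ℕ → Ω → ℝ}

/-- the mean of a weight along the walk -/
lemma mean (hX : IsCauchySeq P X) (n : ℕ) {w : ℝ → ℝ} (hw : Measurable w) :
    ∫ ω, w (walk X n ω) ∂P = ∫ y, w y ∂(cauchyMeasure 0 (n : NNReal)) := by
  rw [← law_walk hX n]
  exact (integral_map (measurable_walk hX n).aemeasurable hw.aestronglyMeasurable).symm

/-- the mean of a product of two values of the weight -/
lemma mean2 (hX : IsCauchySeq P X) {m n : ℕ} (hmn : m < n) {w : ℝ → ℝ} (hw : Measurable w)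
    (hw0 : ∀ t, 0 ≤ w t) {M : ℝ} (hwM : ∀ t, w t ≤ M) (hwi : Integrable w)
    (hM : ∫ t, w t = M) :
    ∫ ω, w (walk X m ω) * w (walk X n ω) ∂P ≤
      (∫ ω, w (walk X m ω) ∂P) * (M / (Real.pi * ((n - m : ℕ) : ℝ))) := by
  have h1 := p_PAIR P X hX m n hmn.le
  have hg : Measurable fun q : ℝ × ℝ => w q.1 * w (q.1 + q.2) :=
    (hw.comp measurable_fst).mul (hw.comp (measurable_fst.add measurable_snd))
  have h2 : ∫ ω, w (walk X m ω) * w (walk X n ω) ∂P =
      ∫ q, w q.1 * w (q.1 + q.2) ∂((cauchyMeasure 0 (m : NNReal)).prod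
        (cauchyMeasure 0 ((n - m : ℕ) : NNReal))) := by
    rw [← h1, integral_map (HIT_.pair_meas hX m n).aemeasurable hg.aestronglyMeasurable]
    refine integral_congr_ae (ae_of_all _ fun ω => ?_)
    simp only
    rw [add_sub_cancel]
  have hM0 : 0 ≤ M := (hw0 0).trans (hwM 0)
  have hgi : Integrable (fun q : ℝ × ℝ => w q.1 * w (q.1 + q.2))
      ((cauchyMeasure 0 (m : NNReal)).prod (cauchyMeasure 0 ((n - m : ℕ) : NNReal))) := by
    refine Integrable.of_bound hg.aestronglyMeasurable (M * M) (ae_of_all _ fun q => ?_)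
    rw [Real.norm_eq_abs, abs_of_nonneg (mul_nonneg (hw0 _) (hw0 _))]
    exact mul_le_mul (hwM _) (hwM _) (hw0 _) hM0
  rw [h2, integral_prod _ hgi, mean hX m hw, ← integral_mul_const]
  refine integral_mono_of_nonneg (ae_of_all _ fun x => ?_) ?_ (ae_of_all _ fun x => ?_)
  · exact integral_nonneg fun y => mul_nonneg (hw0 _) (hw0 _)
  · refine Integrable.mul_const ?_ _
    refine Integrable.of_bound hw.aestronglyMeasurable M (ae_of_all _ fun q => ?_)
    rw [Real.norm_eq_abs, abs_of_nonneg (hw0 _)]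
    exact hwM _
  · simp only
    rw [integral_const_mul]
    exact mul_le_mul_of_nonneg_left (int_up (by omega) hw0 hwi hM x) (hw0 x)

/-- the second moment method -/
lemma second (hX : IsCauchySeq P X) {w : ℝ → ℝ} (hw : Measurable w)
    (hw0 : ∀ t, 0 ≤ w t) {M : ℝ} (hMp : 0 < M) (hwM : ∀ t, w t ≤ M) (n₀ N : ℕ) (hn₀ : 1 ≤ n₀)
    (K θ : ℝ) (hK : 0 < K) (hθ0 : 0 ≤ θ)
    (h2 : ∑ m ∈ Finset.Icc n₀ N, ∑ n ∈ Finset.Icc n₀ N, ∫ ω, w (walk X m ω) * w (walk X n ω) ∂P ≤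
      M * ((∑ n ∈ Finset.Icc n₀ N, ∫ ω, w (walk X n ω) ∂P) * K))
    (hθ : 2 * θ ≤ ∑ n ∈ Finset.Icc n₀ N, ∫ ω, w (walk X n ω) ∂P) :
    ∑ n ∈ Finset.Icc n₀ N, ∫ ω, w (walk X n ω) ∂P ≤
      4 * (M * K) * P.real {ω | θ ≤ ∑ n ∈ Finset.Icc 1 N, w (walk X n ω)} := by
  classical
  set I := Finset.Icc n₀ N with hI
  set G : Set Ω := {ω | θ ≤ ∑ n ∈ Finset.Icc 1 N, w (walk X n ω)} with hG
  have hwm : ∀ n, Measurable fun ω => w (walk X n ω) := fun n => hw.comp (measurable_walk hX n)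
  have hGm : MeasurableSet G :=
    measurableSet_le measurable_const (Finset.measurable_sum _ fun n _ => hwm n)
  have hfi : ∀ n, Integrable (fun ω => w (walk X n ω)) P := by
    intro n
    refine Integrable.of_bound (hwm n).aestronglyMeasurable M (ae_of_all _ fun q => ?_)
    rw [Real.norm_eq_abs, abs_of_nonneg (hw0 _)]
    exact hwM _
  have hffi : ∀ m n, Integrable (fun ω => w (walk X m ω) * w (walk X n ω)) P := by
    intro m n
    refine Integrable.of_bound ((hwm m).mul (hwm n)).aestronglyMeasurable (M * M)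
      (ae_of_all _ fun q => ?_)
    rw [Real.norm_eq_abs, abs_of_nonneg (mul_nonneg (hw0 _) (hw0 _))]
    exact mul_le_mul (hwM _) (hwM _) (hw0 _) hMp.le
  set A : ℝ := 2 * (M * K) with hA
  have hAp : 0 < A := by positivity
  have hpt : ∀ ω, ∑ n ∈ I, w (walk X n ω) ≤ θ + ((1 / (2 * A)) *
      (∑ m ∈ I, ∑ n ∈ I, w (walk X m ω) * w (walk X n ω)) + (A / 2) * G.indicator 1 ω) := by
    intro ω
    have h1 : ∑ m ∈ I, ∑ n ∈ I, w (walk X m ω) * w (walk X n ω) =
        (∑ n ∈ I, w (walk X n ω)) ^ 2 := by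
      rw [sq, Finset.sum_mul_sum]
    rw [h1]
    have h0 : 0 ≤ ∑ n ∈ I, w (walk X n ω) := Finset.sum_nonneg fun n _ => hw0 _
    have hi0 : 0 ≤ G.indicator (1 : Ω → ℝ) ω := indicator_nonneg (fun _ _ => zero_le_one) ω
    rcases lt_or_ge (∑ n ∈ I, w (walk X n ω)) θ with h3 | h3
    · have h4 : 0 ≤ (1 / (2 * A)) * (∑ n ∈ I, w (walk X n ω)) ^ 2 := by positivity
      have h5 : 0 ≤ (A / 2) * G.indicator (1 : Ω → ℝ) ω := by positivity
      linarith
    · have h6 : ω ∈ G := by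
        rw [hG, mem_ofPred_eq]
        refine h3.trans ?_
        refine Finset.sum_le_sum_of_subset_of_nonneg ?_ fun n _ _ => hw0 _
        intro n hn
        rw [hI, Finset.mem_Icc] at hn
        rw [Finset.mem_Icc]
        omega
      rw [indicator_of_mem h6]
      have h7 : 0 ≤ (1 / (2 * A)) * ((∑ n ∈ I, w (walk X n ω)) - A) ^ 2 := by positivity
      have h8 : (1 / (2 * A)) * ((∑ n ∈ I, w (walk X n ω)) - A) ^ 2 =
          (1 / (2 * A)) * (∑ n ∈ I, w (walk X n ω)) ^ 2 - (∑ n ∈ I, w (walk X n ω)) + A / 2 := by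
        field_simp
        ring
      simp only [Pi.one_apply, mul_one]
      linarith
  have hGi : Integrable (fun ω => G.indicator (1 : Ω → ℝ) ω) P :=
    (integrable_const (1 : ℝ)).indicator hGm
  have hGI : ∫ ω, G.indicator (1 : Ω → ℝ) ω ∂P = P.real G := integral_indicator_one hGm
  have hS1 : Integrable (fun ω => ∑ n ∈ I, w (walk X n ω)) P :=
    integrable_finsetSum _ fun n _ => hfi n
  have hS2 : ∀ m, Integrable (fun ω => ∑ n ∈ I, w (walk X m ω) * w (walk X n ω)) P := fun m =>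
    integrable_finsetSum _ fun n _ => hffi m n
  have hS3 : Integrable (fun ω => ∑ m ∈ I, ∑ n ∈ I, w (walk X m ω) * w (walk X n ω)) P :=
    integrable_finsetSum _ fun m _ => hS2 m
  have hint : ∫ ω, ∑ n ∈ I, w (walk X n ω) ∂P ≤ θ + ((1 / (2 * A)) *
      ∫ ω, ∑ m ∈ I, ∑ n ∈ I, w (walk X m ω) * w (walk X n ω) ∂P + (A / 2) * P.real G) := by
    have hB : Integrable (fun ω => (1 / (2 * A)) *
        (∑ m ∈ I, ∑ n ∈ I, w (walk X m ω) * w (walk X n ω)) + (A / 2) * G.indicator 1 ω) P :=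
      (hS3.const_mul _).add (hGi.const_mul _)
    have h3 := integral_mono hS1 ((integrable_const θ).add hB) hpt
    simp only [Pi.add_apply] at h3
    rw [integral_add (integrable_const θ) hB, integral_add (hS3.const_mul _) (hGi.const_mul _),
      integral_const_mul, integral_const_mul, hGI] at h3
    simpa using h3
  rw [integral_finsetSum _ fun n _ => hfi n, integral_finsetSum _ fun m _ => hS2 m] at hint
  have h4 : ∑ m ∈ I, ∫ ω, ∑ n ∈ I, w (walk X m ω) * w (walk X n ω) ∂P =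
      ∑ m ∈ I, ∑ n ∈ I, ∫ ω, w (walk X m ω) * w (walk X n ω) ∂P := by
    refine Finset.sum_congr rfl fun m _ => ?_
    rw [integral_finsetSum _ fun n _ => hffi m n]
  rw [h4] at hint
  have h5 : (1 / (2 * A)) * ∑ m ∈ I, ∑ n ∈ I, ∫ ω, w (walk X m ω) * w (walk X n ω) ∂P ≤
      (∑ n ∈ I, ∫ ω, w (walk X n ω) ∂P) / 4 := by
    calc (1 / (2 * A)) * ∑ m ∈ I, ∑ n ∈ I, ∫ ω, w (walk X m ω) * w (walk X n ω) ∂P ≤
        (1 / (2 * A)) * (M * ((∑ n ∈ I, ∫ ω, w (walk X n ω) ∂P) * K)) :=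
          mul_le_mul_of_nonneg_left h2 (by positivity)
      _ = _ := by
        rw [hA]
        field_simp
        ring
  have h6 : A / 2 * P.real G = (M * K) * P.real G := by rw [hA]; ring
  rw [h6] at hint
  linarith

end HITW_

theorem p_HITW : P_HITW := by
  intro η hη
  have hpi : 0 < Real.pi := Real.pi_pos
  obtain ⟨c1, hc1⟩ : ∃ c1 : ℝ, c1 = η / (34 * Real.pi) := ⟨_, rfl⟩
  obtain ⟨c2, hc2⟩ : ∃ c2 : ℝ, c2 = 1 + 2 * (1 / Real.pi) * (2 + η) := ⟨_, rfl⟩
  have hc1p : 0 < c1 := by rw [hc1]; positivity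
  have hc2p : 0 < c2 := by rw [hc2]; positivity
  refine ⟨c1 / (4 * c2), by positivity, c1 / 2, by positivity,
    max (Real.exp 1) (Real.exp (2 * Real.log 2 / η)),
    le_max_of_le_left (Real.one_le_exp zero_le_one), ?_⟩
  intro T hT w M hw hMp hw0 hwM hsupp hM Ω _ P _ X hX
  have hT1 : Real.exp 1 ≤ T := (le_max_left _ _).trans hT
  have hT2 : Real.exp (2 * Real.log 2 / η) ≤ T := (le_max_right _ _).trans hT
  have hTpos : 0 < T := (Real.exp_pos 1).trans_le hT1
  obtain ⟨l, hl⟩ : ∃ l : ℝ, l = Real.log T := ⟨_, rfl⟩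
  have hl1 : 1 ≤ l := by
    rw [hl, Real.le_log_iff_exp_le hTpos]
    exact hT1
  have hl2 : Real.log 2 ≤ η / 2 * l := by
    have h1 : 2 * Real.log 2 / η ≤ l := by
      rw [hl, Real.le_log_iff_exp_le hTpos]
      exact hT2
    rw [div_le_iff₀ hη] at h1
    linarith
  have hTone : 1 ≤ T := (Real.one_le_exp zero_le_one).trans hT1
  have hTpow : T ≤ T ^ (1 + η) := by
    nth_rewrite 1 [← Real.rpow_one T]
    exact Real.rpow_le_rpow_of_exponent_le hTone (by linarith)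
  obtain ⟨n₀, hn₀⟩ : ∃ n₀ : ℕ, n₀ = ⌈T⌉₊ := ⟨_, rfl⟩
  obtain ⟨N, hN⟩ : ∃ N : ℕ, N = ⌊T ^ (1 + η)⌋₊ := ⟨_, rfl⟩
  have hn1 : T ≤ n₀ := by rw [hn₀]; exact Nat.le_ceil T
  have hn2 : (n₀ : ℝ) < T + 1 := by rw [hn₀]; exact Nat.ceil_lt_add_one hTpos.le
  have hN1 : (N : ℝ) ≤ T ^ (1 + η) := by
    rw [hN]
    exact Nat.floor_le (by positivity)
  have hN2 : T ^ (1 + η) < N + 1 := by rw [hN]; exact Nat.lt_floor_add_one _
  have hn₀1 : 1 ≤ n₀ := by
    have : (0 : ℝ) < n₀ := hTpos.trans_le hn1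
    exact_mod_cast this
  have hn₀N : n₀ ≤ N + 1 := by
    rw [hn₀]
    refine Nat.ceil_le.2 ?_
    push_cast
    linarith
  have hwi : Integrable w := by
    by_contra hcon
    rw [integral_undef hcon] at hM
    linarith
  -- the means
  obtain ⟨a, ha⟩ : ∃ a : ℕ → ℝ, ∀ n, a n = ∫ ω, w (walk X n ω) ∂P := ⟨_, fun _ => rfl⟩
  obtain ⟨d, hd⟩ : ∃ d : ℕ → ℕ → ℝ, ∀ m n, d m n = ∫ ω, w (walk X m ω) * w (walk X n ω) ∂P :=
    ⟨_, fun _ _ => rfl⟩
  have ha0 : ∀ n, 0 ≤ a n := fun n => by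
    rw [ha]
    exact integral_nonneg fun ω => hw0 _
  have hlow : ∀ n ∈ Finset.Icc n₀ N, M / (17 * Real.pi) * (1 / (n : ℝ)) ≤ a n := by
    intro n hn
    rw [Finset.mem_Icc] at hn
    have hn3 : 1 ≤ n := hn₀1.trans hn.1
    have hn4 : (n₀ : ℝ) ≤ n := by exact_mod_cast hn.1
    rw [ha, HITW_.mean hX n hw]
    refine HITW_.int_low hn3 hw0 hwi hM fun t ht => ?_
    have h2 : t ∈ Icc (T / 2) (4 * T) := by
      by_contra hcon
      exact ht (hsupp t hcon)
    rw [abs_of_nonneg (by linarith [h2.1])]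
    linarith [h2.2]
  have hpair : ∀ m n, m < n → d m n ≤ a m * (M / (Real.pi * ((n - m : ℕ) : ℝ))) := by
    intro m n hmn
    rw [hd, ha]
    exact HITW_.mean2 hX hmn hw hw0 hwM hwi hM
  have hdiag : ∀ n, d n n ≤ M * a n := by
    intro n
    rw [hd, ha, ← integral_const_mul]
    have hwm : Measurable fun ω => w (walk X n ω) := hw.comp (measurable_walk hX n)
    refine integral_mono_of_nonneg (ae_of_all _ fun ω => mul_nonneg (hw0 _) (hw0 _)) ?_
      (ae_of_all _ fun ω => mul_le_mul_of_nonneg_right (hwM _) (hw0 _))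
    refine Integrable.const_mul ?_ _
    refine Integrable.of_bound hwm.aestronglyMeasurable M (ae_of_all _ fun q => ?_)
    rw [Real.norm_eq_abs, abs_of_nonneg (hw0 _)]
    exact hwM _
  have hsymm : ∀ m n, d m n = d n m := by
    intro m n
    rw [hd, hd]
    exact integral_congr_ae (ae_of_all _ fun ω => mul_comm _ _)
  -- the second moment
  obtain ⟨H, hH⟩ : ∃ H : ℝ, H = ∑ r ∈ Finset.Icc 1 N, 1 / (r : ℝ) := ⟨_, rfl⟩
  have hH0 : 0 ≤ H := by
    rw [hH]
    exact Finset.sum_nonneg fun r _ => by positivity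
  have hH1 : H ≤ 1 + (1 + η) * l := by
    rw [hH]
    refine (HIT_.sum_le_log N).trans ?_
    have h1 : Real.log N ≤ (1 + η) * l := by
      rcases Nat.eq_zero_or_pos N with h0 | h0
      · rw [h0]
        simp only [Nat.cast_zero, Real.log_zero]
        positivity
      · rw [hl, ← Real.log_rpow hTpos]
        exact Real.log_le_log (by exact_mod_cast h0) hN1
    linarith
  obtain ⟨K, hK⟩ : ∃ K : ℝ, K = 1 + 2 * (1 / Real.pi) * H := ⟨_, rfl⟩
  have hKp : 0 < K := by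
    rw [hK]
    positivity
  have hK2 : K ≤ c2 * l := by
    have h1 : 0 < 1 / Real.pi := by positivity
    have h2 : 1 + 2 * (1 / Real.pi) * H ≤ 1 + 2 * (1 / Real.pi) * (1 + (1 + η) * l) := by
      have := mul_le_mul_of_nonneg_left hH1 (by positivity : (0 : ℝ) ≤ 2 * (1 / Real.pi))
      linarith
    have h3 : 1 + 2 * (1 / Real.pi) * (1 + (1 + η) * l) ≤ c2 * l := by
      rw [hc2]
      have h4 : 2 * (1 / Real.pi) * (1 + (1 + η) * l) ≤ 2 * (1 / Real.pi) * ((2 + η) * l) := by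
        refine mul_le_mul_of_nonneg_left ?_ (by positivity)
        nlinarith
      nlinarith
    rw [hK]
    exact h2.trans h3
  obtain ⟨b, hb⟩ : ∃ b : ℕ → ℕ → ℝ, ∀ m n, b m n = if m = n then a m else d m n / M :=
    ⟨_, fun _ _ => rfl⟩
  have hds := HIT_.double_sum a ha0 (1 / Real.pi) (by positivity) n₀ N b (fun m n hmn => by
      rw [hb, if_neg hmn.ne, div_le_iff₀ hMp]
      refine (hpair m n hmn).trans (le_of_eq ?_)
      have hr : (0 : ℝ) < ((n - m : ℕ) : ℝ) := by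
        have : 0 < n - m := by omega
        exact_mod_cast this
      field_simp)
    (fun m n => by
      rw [hb, hb]
      by_cases hmn : m = n
      · subst hmn; rfl
      · rw [if_neg hmn, if_neg (Ne.symm hmn), hsymm])
    (fun n => by rw [hb, if_pos rfl])
  rw [← hH, ← hK] at hds
  have hdb : ∀ m n, d m n ≤ M * b m n := by
    intro m n
    rw [hb]
    split_ifs with h1
    · subst h1
      exact hdiag m
    · rw [mul_div_cancel₀ _ hMp.ne']
  have h2m : ∑ m ∈ Finset.Icc n₀ N, ∑ n ∈ Finset.Icc n₀ N, d m n ≤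
      M * ((∑ n ∈ Finset.Icc n₀ N, a n) * K) := by
    refine le_trans ?_ (mul_le_mul_of_nonneg_left hds hMp.le)
    rw [Finset.mul_sum]
    refine Finset.sum_le_sum fun m _ => ?_
    rw [Finset.mul_sum]
    exact Finset.sum_le_sum fun n _ => hdb m n
  -- the first moment
  have hA : c1 * l * M ≤ ∑ n ∈ Finset.Icc n₀ N, a n := by
    refine le_trans ?_ (Finset.sum_le_sum hlow)
    rw [← Finset.mul_sum]
    have h1 := HIT_.log_le_sum n₀ hn₀1 N hn₀N
    have h2 : (1 + η) * l ≤ Real.log ((N : ℝ) + 1) := by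
      rw [hl, ← Real.log_rpow hTpos]
      exact Real.log_le_log (by positivity) hN2.le
    have h3 : Real.log n₀ ≤ Real.log 2 + l := by
      rw [hl, ← Real.log_mul (by norm_num) hTpos.ne']
      refine Real.log_le_log (by exact_mod_cast hn₀1) ?_
      linarith
    have h4 : η / 2 * l ≤ ∑ n ∈ Finset.Icc n₀ N, 1 / (n : ℝ) := by
      nlinarith
    calc c1 * l * M = M / (17 * Real.pi) * (η / 2 * l) := by
          rw [hc1]
          field_simp
          norm_num
      _ ≤ _ := mul_le_mul_of_nonneg_left h4 (by positivity)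
  have hθ : 2 * (c1 / 2 * M) ≤ ∑ n ∈ Finset.Icc n₀ N, a n := by
    refine le_trans ?_ hA
    have h1 : c1 * M * 1 ≤ c1 * M * l := mul_le_mul_of_nonneg_left hl1 (by positivity)
    linarith
  simp only [ha] at hθ h2m hA
  simp only [hd] at h2m
  have hsm := HITW_.second hX hw hw0 hMp hwM n₀ N hn₀1 K (c1 / 2 * M) hKp (by positivity) h2m hθ
  rw [← hN]
  rw [div_le_iff₀ (by positivity)]
  have hlp : 0 < l := by linarith
  have h1 : c1 * l * M ≤ 4 * (M * (c2 * l)) *
      P.real {ω | c1 / 2 * M ≤ ∑ n ∈ Finset.Icc 1 N, w (walk X n ω)} := by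
    refine (hA.trans hsm).trans (mul_le_mul_of_nonneg_right ?_ measureReal_nonneg)
    have := mul_le_mul_of_nonneg_left hK2 hMp.le
    linarith
  have h2 : c1 * (l * M) ≤ (P.real {ω | c1 / 2 * M ≤ ∑ n ∈ Finset.Icc 1 N, w (walk X n ω)} *
      (4 * c2)) * (l * M) := by
    linarith
  exact le_of_mul_le_mul_right h2 (by positivity)

end Pool.Agent.CW
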