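import Pool.Agent.CW.Defs2
import Pool.Agent.CW.PAIR
import Pool.Agent.CW.MOM
import Pool.Agent.CW.BLOCK

/-!
# LAW: the law of the powers of zeta along the walk from the moments
-/

set_option autoImplicit false

namespace Pool.Agent.CW

open MeasureTheory ProbabilityTheory Set Filter Topology Complex

namespace LAW_

theorem fsq {f : ℝ → ℂ} {C : ℝ} {k : ℕ} (hC : 0 < C)
    (h4 : ∀ x, ‖f x - (zl x ^ k - 1)‖ ≤ C * (1 + |x|)⁻¹) (x : ℝ) :
    ‖f x‖ ^ 2 ≤ 2 * ‖zl x‖ ^ (2 * k) + 2 * (1 + C) ^ 2 := by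
  have h1 : (1 + |x|)⁻¹ ≤ 1 := inv_le_one_of_one_le₀ (by linarith [abs_nonneg x])
  have h2 : ‖f x‖ ≤ ‖zl x‖ ^ k + (1 + C) := by
    calc ‖f x‖ = ‖(f x - (zl x ^ k - 1)) + (zl x ^ k - 1)‖ := by congr 1; ring
      _ ≤ ‖f x - (zl x ^ k - 1)‖ + ‖zl x ^ k - 1‖ := norm_add_le _ _
      _ ≤ C * 1 + (‖zl x ^ k‖ + ‖(1 : ℂ)‖) :=
          add_le_add ((h4 x).trans (mul_le_mul_of_nonneg_left h1 hC.le)) (norm_sub_le _ _)
      _ = ‖zl x‖ ^ k + (1 + C) := by rw [norm_pow, norm_one]; ring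
  have h3 : ‖f x‖ ^ 2 ≤ (‖zl x‖ ^ k + (1 + C)) ^ 2 := pow_le_pow_left₀ (norm_nonneg _) h2 2
  have h5 : ‖zl x‖ ^ (2 * k) = (‖zl x‖ ^ k) ^ 2 := by rw [← pow_mul, mul_comm]
  rw [h5]
  nlinarith [sq_nonneg (‖zl x‖ ^ k - (1 + C))]

section

set_option linter.unusedSectionVars false

variable {Ω : Type} [MeasurableSpace Ω] {P : Measure Ω} [IsProbabilityMeasure P]
  {X : ℕ → Ω → ℝ}

/-- second moments along the walk -/
theorem mom2 (hE : P_EMOM) {k : ℕ} {l : ℝ} (hl : 0 ≤ l) (hl2 : l < 1 / 2)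
    (hM : MomentBound k l) {f : ℝ → ℂ} (hf : Continuous f) {C : ℝ} (hC : 0 < C)
    (h4 : ∀ x, ‖f x - (zl x ^ k - 1)‖ ≤ C * (1 + |x|)⁻¹) (hX : IsCauchySeq P X) (κ : ℝ)
    (hκ : 0 < κ) : ∃ K : ℝ, 0 < K ∧ ∀ n : ℕ, 1 ≤ n →
      Integrable (fun ω => ‖f (walk X n ω)‖ ^ 2) P ∧
      ∫ ω, ‖f (walk X n ω)‖ ^ 2 ∂P ≤ K * (n : ℝ) ^ (2 * l + κ) := by
  obtain ⟨C', hC', hm⟩ := hE k l hl hl2 hM κ hκ
  refine ⟨2 * C' + 2 * (1 + C) ^ 2, by positivity, fun n hn => ?_⟩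
  obtain ⟨i1, b1⟩ := hm n hn
  have hn1 : (1 : ℝ) ≤ n := by exact_mod_cast hn
  have hw := measurable_walk hX n
  have : IsProbabilityMeasure (cauchyMeasure 0 (n : NNReal)) := by
    rw [← law_walk hX n]
    exact Measure.isProbabilityMeasure_map hw.aemeasurable
  have hgc : Continuous fun x : ℝ => ‖f x‖ ^ 2 := (hf.norm).pow 2
  have i2 : Integrable (fun x : ℝ => 2 * ‖zl x‖ ^ (2 * k) + 2 * (1 + C) ^ 2)
      (cauchyMeasure 0 n) := (i1.const_mul 2).add (integrable_const _)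
  have i3 : Integrable (fun x : ℝ => ‖f x‖ ^ 2) (cauchyMeasure 0 n) := by
    refine i2.mono' hgc.aestronglyMeasurable (ae_of_all _ fun x => ?_)
    rw [Real.norm_of_nonneg (by positivity)]
    exact fsq hC h4 x
  have b3 : ∫ x, ‖f x‖ ^ 2 ∂(cauchyMeasure 0 n) ≤
      (2 * C' + 2 * (1 + C) ^ 2) * (n : ℝ) ^ (2 * l + κ) := by
    refine (integral_mono i3 i2 (fun x => fsq hC h4 x)).trans ?_
    rw [integral_add (i1.const_mul 2) (integrable_const _), integral_const_mul, integral_const]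
    have h5 : (1 : ℝ) ≤ (n : ℝ) ^ (2 * l + κ) := Real.one_le_rpow hn1 (by linarith)
    have h6 : (0 : ℝ) ≤ 2 * (1 + C) ^ 2 := by positivity
    simp only [probReal_univ, smul_eq_mul, one_mul]
    nlinarith [mul_le_mul_of_nonneg_left h5 h6]
  rw [← law_walk hX n] at i3 b3
  constructor
  · exact (integrable_map_measure hgc.aestronglyMeasurable hw.aemeasurable).1 i3
  · rw [integral_map hw.aemeasurable hgc.aestronglyMeasurable] at b3
    exact b3

theorem meas_f (hX : IsCauchySeq P X) {f : ℝ → ℂ} (hf : Continuous f) (n : ℕ) :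
    Measurable (fun ω => f (walk X n ω)) := hf.measurable.comp (measurable_walk hX n)

theorem memLp_f (hX : IsCauchySeq P X) {f : ℝ → ℂ} (hf : Continuous f)
    (h : ∀ n : ℕ, 1 ≤ n → Integrable (fun ω => ‖f (walk X n ω)‖ ^ 2) P) (n : ℕ) :
    MemLp (fun ω => f (walk X n ω)) 2 P := by
  rcases Nat.eq_zero_or_pos n with h0 | h0
  · subst h0
    have : (fun ω => f (walk X 0 ω)) = fun _ : Ω => f 0 := by
      funext ω
      simp [walk]
    rw [this]
    exact memLp_const _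
  · rw [memLp_two_iff_integrable_sq_norm (meas_f hX hf n).aestronglyMeasurable]
    exact h n h0

theorem memLp_h (hX : IsCauchySeq P X) {h : ℝ → ℂ} (hh : Continuous h) {C : ℝ}
    (hb : ∀ x, ‖h x‖ ≤ C) (n : ℕ) : MemLp (fun ω => h (walk X n ω)) 2 P :=
  MemLp.of_bound (meas_f hX hh n).aestronglyMeasurable C (ae_of_all _ fun _ => hb _)

/-- the martingale difference -/
noncomputable def D (f h : ℝ → ℂ) (X : ℕ → Ω → ℝ) (n : ℕ) (ω : Ω) : ℂ :=
  f (walk X (n + 1) ω) + h (walk X (n + 1) ω) - h (walk X n ω)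

/-- the same as a function of position and step -/
noncomputable def psi (f h : ℝ → ℂ) (z : ℝ × ℝ) : ℂ :=
  f (z.1 + z.2) + h (z.1 + z.2) - h z.1

theorem D_eq (f h : ℝ → ℂ) (X : ℕ → Ω → ℝ) (n : ℕ) (ω : Ω) :
    D f h X n ω = psi f h (walk X n ω, X n ω) := by
  have : walk X (n + 1) ω = walk X n ω + X n ω := by
    unfold walk
    rw [Finset.sum_range_succ]
  rw [D, psi, this]

theorem psi_meas {f h : ℝ → ℂ} (hf : Continuous f) (hh : Continuous h) :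
    Measurable (psi f h) := by
  have : Continuous (psi f h) :=
    ((hf.comp (continuous_fst.add continuous_snd)).add
      (hh.comp (continuous_fst.add continuous_snd))).sub (hh.comp continuous_fst)
  exact this.measurable

theorem psi_zero {f h : ℝ → ℂ}
    (h5 : ∀ x, Integrable (fun u => f (x + u) + h (x + u)) (cauchyMeasure 0 1) ∧
        ∫ u, (f (x + u) + h (x + u)) ∂(cauchyMeasure 0 1) = h x)
    [IsProbabilityMeasure (cauchyMeasure 0 1)] (x : ℝ) :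
    ∫ u, psi f h (x, u) ∂(cauchyMeasure 0 1) = 0 := by
  unfold psi
  simp only
  rw [integral_sub (h5 x).1 (integrable_const _), (h5 x).2, integral_const]
  simp

theorem memLp_D (hX : IsCauchySeq P X) {f h : ℝ → ℂ} (hf : Continuous f) (hh : Continuous h)
    (h2 : ∀ n : ℕ, 1 ≤ n → Integrable (fun ω => ‖f (walk X n ω)‖ ^ 2) P) {C : ℝ}
    (hb : ∀ x, ‖h x‖ ≤ C) (n : ℕ) : MemLp (D f h X n) 2 P :=
  ((memLp_f hX hf h2 (n + 1)).add (memLp_h hX hh hb (n + 1))).sub (memLp_h hX hh hb n)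

/-- orthogonality -/
theorem orth (hOrth : P_ORTH) (hX : IsCauchySeq P X) {f h : ℝ → ℂ} (hf : Continuous f)
    (hh : Continuous h)
    (h2 : ∀ n : ℕ, 1 ≤ n → Integrable (fun ω => ‖f (walk X n ω)‖ ^ 2) P) {C : ℝ}
    (hb : ∀ x, ‖h x‖ ≤ C)
    (h5 : ∀ x, Integrable (fun u => f (x + u) + h (x + u)) (cauchyMeasure 0 1) ∧
        ∫ u, (f (x + u) + h (x + u)) ∂(cauchyMeasure 0 1) = h x)
    {m n : ℕ} (hmn : m < n) :
    Integrable (fun ω => (starRingEnd ℂ) (D f h X m ω) * D f h X n ω) P ∧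
    ∫ ω, (starRingEnd ℂ) (D f h X m ω) * D f h X n ω ∂P = 0 := by
  have : IsProbabilityMeasure (cauchyMeasure 0 1) := by
    rw [← hX.law 0]
    exact Measure.isProbabilityMeasure_map (hX.measurable 0).aemeasurable
  have hDm := memLp_D hX hf hh h2 hb m
  have hDn := memLp_D hX hf hh h2 hb n
  have hconj : MemLp (fun ω => (starRingEnd ℂ) (D f h X m ω)) 2 P := by
    refine MemLp.congr_norm hDm ?_ (ae_of_all _ fun ω => (Complex.norm_conj _).symm)
    exact Complex.continuous_conj.comp_aestronglyMeasurable hDm.aestronglyMeasurable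
  have hint : Integrable (fun ω => (starRingEnd ℂ) (D f h X m ω) * D f h X n ω) P :=
    hconj.integrable_mul hDn
  refine ⟨hint, ?_⟩
  have key := hOrth P X hX n
    (fun v => (starRingEnd ℂ) (psi f h (∑ i : Fin n, (if (i : ℕ) < m then v i else 0),
      v ⟨m, hmn⟩))) (psi f h)
    (by
      refine Complex.continuous_conj.measurable.comp ((psi_meas hf hh).comp ?_)
      refine Measurable.prodMk ?_ (measurable_pi_apply _)
      refine Finset.measurable_sum _ fun i _ => ?_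
      by_cases hi : (i : ℕ) < m
      · simp only [hi, if_true]
        exact measurable_pi_apply _
      · simp only [hi, if_false]
        exact measurable_const)
    (psi_meas hf hh) (psi_zero h5)
  have e1 : ∀ ω, ∑ i : Fin n, (if (i : ℕ) < m then X i ω else 0) = walk X m ω := by
    intro ω
    rw [Fin.sum_univ_eq_sum_range (fun i => if i < m then X i ω else 0) n, walk,
      ← Finset.sum_filter]
    refine Finset.sum_congr ?_ fun _ _ => rfl
    ext i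
    simp only [Finset.mem_filter, Finset.mem_range]
    omega
  have e2 : (fun ω => (starRingEnd ℂ) (psi f h
      (∑ i : Fin n, (if (i : ℕ) < m then X i ω else 0), X m ω)) *
      psi f h (walk X n ω, X n ω)) =
      fun ω => (starRingEnd ℂ) (D f h X m ω) * D f h X n ω := by
    funext ω
    rw [e1, D_eq, D_eq]
  have key' := key (by
    change Integrable (fun ω => (starRingEnd ℂ) (psi f h
      (∑ i : Fin n, (if (i : ℕ) < m then X i ω else 0), X m ω)) *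
      psi f h (walk X n ω, X n ω)) P
    rw [e2]
    exact hint)
  change ∫ ω, (fun ω => (starRingEnd ℂ) (psi f h
      (∑ i : Fin n, (if (i : ℕ) < m then X i ω else 0), X m ω)) *
      psi f h (walk X n ω, X n ω)) ω ∂P = 0 at key'
  rw [e2] at key'
  exact key'

/-- the sum of the differences over a block -/
theorem sumsq (hOrth : P_ORTH) (hX : IsCauchySeq P X) {f h : ℝ → ℂ} (hf : Continuous f)
    (hh : Continuous h)
    (h2 : ∀ n : ℕ, 1 ≤ n → Integrable (fun ω => ‖f (walk X n ω)‖ ^ 2) P) {C : ℝ}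
    (hb : ∀ x, ‖h x‖ ≤ C)
    (h5 : ∀ x, Integrable (fun u => f (x + u) + h (x + u)) (cauchyMeasure 0 1) ∧
        ∫ u, (f (x + u) + h (x + u)) ∂(cauchyMeasure 0 1) = h x) (a : ℕ) :
    ∀ b : ℕ, a ≤ b → ∫ ω, ‖∑ n ∈ Finset.Ico a b, D f h X n ω‖ ^ 2 ∂P =
      ∑ n ∈ Finset.Ico a b, ∫ ω, ‖D f h X n ω‖ ^ 2 ∂P := by
  intro b hab
  induction b, hab using Nat.le_induction with
  | base => simp
  | succ b hab ih =>
    have hT : MemLp (fun ω => ∑ n ∈ Finset.Ico a b, D f h X n ω) 2 P :=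
      memLp_finsetSum _ fun n _ => memLp_D hX hf hh h2 hb n
    have hD := memLp_D hX hf hh h2 hb b
    have hTi : Integrable (fun ω => ‖∑ n ∈ Finset.Ico a b, D f h X n ω‖ ^ 2) P :=
      (memLp_two_iff_integrable_sq_norm hT.aestronglyMeasurable).1 hT
    have hDi : Integrable (fun ω => ‖D f h X b ω‖ ^ 2) P :=
      (memLp_two_iff_integrable_sq_norm hD.aestronglyMeasurable).1 hD
    have hcr : ∀ n ∈ Finset.Ico a b,
        Integrable (fun ω => (starRingEnd ℂ) (D f h X n ω) * D f h X b ω) P ∧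
        ∫ ω, (starRingEnd ℂ) (D f h X n ω) * D f h X b ω ∂P = 0 := fun n hn =>
      orth hOrth hX hf hh h2 hb h5 (Finset.mem_Ico.1 hn).2
    have hcs : Integrable (fun ω => ∑ n ∈ Finset.Ico a b,
        (starRingEnd ℂ) (D f h X n ω) * D f h X b ω) P :=
      integrable_finsetSum _ fun n hn => (hcr n hn).1
    have hc0 : ∫ ω, ∑ n ∈ Finset.Ico a b,
        (starRingEnd ℂ) (D f h X n ω) * D f h X b ω ∂P = 0 := by
      rw [integral_finsetSum _ fun n hn => (hcr n hn).1]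
      exact Finset.sum_eq_zero fun n hn => (hcr n hn).2
    have hre : ∫ ω, (∑ n ∈ Finset.Ico a b,
        (starRingEnd ℂ) (D f h X n ω) * D f h X b ω).re ∂P = 0 := by
      have := integral_re hcs
      simp only [RCLike.re_to_complex] at this
      rw [this, hc0]
      simp
    have hrei : Integrable (fun ω => (∑ n ∈ Finset.Ico a b,
        (starRingEnd ℂ) (D f h X n ω) * D f h X b ω).re) P := by
      have := hcs.re
      simpa only [RCLike.re_to_complex] using this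
    have e1 : ∀ ω, ‖∑ n ∈ Finset.Ico a (b + 1), D f h X n ω‖ ^ 2 =
        (‖∑ n ∈ Finset.Ico a b, D f h X n ω‖ ^ 2 + ‖D f h X b ω‖ ^ 2) +
        2 * (∑ n ∈ Finset.Ico a b, (starRingEnd ℂ) (D f h X n ω) * D f h X b ω).re := by
      intro ω
      rw [Finset.sum_Ico_succ_top hab]
      have e2 : (∑ n ∈ Finset.Ico a b, (starRingEnd ℂ) (D f h X n ω) * D f h X b ω) =
          (starRingEnd ℂ) (∑ n ∈ Finset.Ico a b, D f h X n ω) * D f h X b ω := by
        rw [map_sum, Finset.sum_mul]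
      rw [e2]
      generalize (∑ n ∈ Finset.Ico a b, D f h X n ω) = T
      generalize D f h X b ω = d
      rw [Complex.sq_norm, Complex.sq_norm, Complex.sq_norm, Complex.normSq_apply,
        Complex.normSq_apply, Complex.normSq_apply]
      simp only [add_re, add_im, mul_re, conj_re, conj_im]
      ring
    have hTD : Integrable (fun ω => ‖∑ n ∈ Finset.Ico a b, D f h X n ω‖ ^ 2 +
        ‖D f h X b ω‖ ^ 2) P := hTi.add hDi
    rw [integral_congr_ae (ae_of_all _ e1), integral_add hTD (hrei.const_mul 2),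
      integral_add hTi hDi, integral_const_mul, hre, ih, Finset.sum_Ico_succ_top hab]
    ring

theorem telescope (f h : ℝ → ℂ) (X : ℕ → Ω → ℝ) (a : ℕ) (ω : Ω) : ∀ b : ℕ, a ≤ b →
    ∑ n ∈ Finset.Ioc a b, f (walk X n ω) = (∑ n ∈ Finset.Ico a b, D f h X n ω) +
      (h (walk X a ω) - h (walk X b ω)) := by
  intro b hab
  induction b, hab using Nat.le_induction with
  | base => simp
  | succ b hab ih =>
    rw [Finset.sum_Ico_succ_top hab, Finset.sum_Ioc_succ_top hab, ih, D]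
    ring

end

/-- the block bound -/
theorem block (hOrth : P_ORTH) (hE : P_EMOM) {k : ℕ} {l : ℝ} (hl : 0 ≤ l) (hl2 : l < 1 / 2)
    (hM : MomentBound k l) {f h : ℝ → ℂ} (hf : Continuous f) (hh : Continuous h) {C : ℝ}
    (hC : 0 < C) (h4 : ∀ x, ‖f x - (zl x ^ k - 1)‖ ≤ C * (1 + |x|)⁻¹)
    (hb : ∀ x, ‖h x‖ ≤ C)
    (h5 : ∀ x, Integrable (fun u => f (x + u) + h (x + u)) (cauchyMeasure 0 1) ∧
        ∫ u, (f (x + u) + h (x + u)) ∂(cauchyMeasure 0 1) = h x)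
    {Ω : Type} [MeasurableSpace Ω] {P : Measure Ω} [IsProbabilityMeasure P]
    {X : ℕ → Ω → ℝ} (hX : IsCauchySeq P X) (κ : ℝ) (hκ : 0 < κ) :
    ∃ K : ℝ, ∀ a b : ℕ, a < b →
      ∫ ω, ‖∑ n ∈ Finset.Ioc a b, f (walk X n ω)‖ ^ 2 ∂P ≤
        K * ((b : ℝ) - a) * (b : ℝ) ^ (2 * l + κ) := by
  obtain ⟨K, hK, hm⟩ := mom2 hE hl hl2 hM hf hC h4 hX κ hκ
  have h2 : ∀ n : ℕ, 1 ≤ n → Integrable (fun ω => ‖f (walk X n ω)‖ ^ 2) P :=
    fun n hn => (hm n hn).1
  have hlκ : 0 ≤ 2 * l + κ := by linarith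
  -- second moment of the differences
  have hDb : ∀ n : ℕ, ∫ ω, ‖D f h X n ω‖ ^ 2 ∂P ≤
      (2 * K + 8 * C ^ 2) * ((n + 1 : ℕ) : ℝ) ^ (2 * l + κ) := by
    intro n
    obtain ⟨i1, b1⟩ := hm (n + 1) (by omega)
    have hn1 : (1 : ℝ) ≤ ((n + 1 : ℕ) : ℝ) := by exact_mod_cast (by omega : 1 ≤ n + 1)
    have h6 : (1 : ℝ) ≤ ((n + 1 : ℕ) : ℝ) ^ (2 * l + κ) := Real.one_le_rpow hn1 hlκ
    have hpt : ∀ ω, ‖D f h X n ω‖ ^ 2 ≤ 2 * ‖f (walk X (n + 1) ω)‖ ^ 2 + 8 * C ^ 2 := by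
      intro ω
      have h7 : ‖D f h X n ω‖ ≤ ‖f (walk X (n + 1) ω)‖ + 2 * C := by
        unfold D
        calc ‖f (walk X (n + 1) ω) + h (walk X (n + 1) ω) - h (walk X n ω)‖
            ≤ ‖f (walk X (n + 1) ω) + h (walk X (n + 1) ω)‖ + ‖h (walk X n ω)‖ :=
              norm_sub_le _ _
          _ ≤ (‖f (walk X (n + 1) ω)‖ + ‖h (walk X (n + 1) ω)‖) + ‖h (walk X n ω)‖ :=
              add_le_add (norm_add_le _ _) le_rfl
          _ ≤ _ := by linarith [hb (walk X (n + 1) ω), hb (walk X n ω)]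
      have h8 : ‖D f h X n ω‖ ^ 2 ≤ (‖f (walk X (n + 1) ω)‖ + 2 * C) ^ 2 :=
        pow_le_pow_left₀ (norm_nonneg _) h7 2
      nlinarith [sq_nonneg (‖f (walk X (n + 1) ω)‖ - 2 * C)]
    have hD := memLp_D hX hf hh h2 hb n
    have hDi : Integrable (fun ω => ‖D f h X n ω‖ ^ 2) P :=
      (memLp_two_iff_integrable_sq_norm hD.aestronglyMeasurable).1 hD
    have i2 : Integrable (fun ω => 2 * ‖f (walk X (n + 1) ω)‖ ^ 2 + 8 * C ^ 2) P :=
      (i1.const_mul 2).add (integrable_const _)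
    refine (integral_mono hDi i2 hpt).trans ?_
    rw [integral_add (i1.const_mul 2) (integrable_const _), integral_const_mul, integral_const]
    simp only [probReal_univ, smul_eq_mul, one_mul]
    have h9 : (0 : ℝ) ≤ 8 * C ^ 2 := by positivity
    nlinarith [mul_le_mul_of_nonneg_left h6 h9]
  refine ⟨2 * (2 * K + 8 * C ^ 2) + 8 * C ^ 2, fun a b hab => ?_⟩
  have hb1 : (1 : ℝ) ≤ b := by exact_mod_cast (by omega : 1 ≤ b)
  have hba : (1 : ℝ) ≤ (b : ℝ) - a := by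
    have : (a : ℝ) + 1 ≤ b := by exact_mod_cast hab
    linarith
  have hB : (1 : ℝ) ≤ (b : ℝ) ^ (2 * l + κ) := Real.one_le_rpow hb1 hlκ
  have hT : MemLp (fun ω => ∑ n ∈ Finset.Ico a b, D f h X n ω) 2 P :=
    memLp_finsetSum _ fun n _ => memLp_D hX hf hh h2 hb n
  have hTi : Integrable (fun ω => ‖∑ n ∈ Finset.Ico a b, D f h X n ω‖ ^ 2) P :=
    (memLp_two_iff_integrable_sq_norm hT.aestronglyMeasurable).1 hT
  have hF : MemLp (fun ω => ∑ n ∈ Finset.Ioc a b, f (walk X n ω)) 2 P :=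
    memLp_finsetSum _ fun n _ => memLp_f hX hf h2 n
  have hFi : Integrable (fun ω => ‖∑ n ∈ Finset.Ioc a b, f (walk X n ω)‖ ^ 2) P :=
    (memLp_two_iff_integrable_sq_norm hF.aestronglyMeasurable).1 hF
  have hpt : ∀ ω, ‖∑ n ∈ Finset.Ioc a b, f (walk X n ω)‖ ^ 2 ≤
      2 * ‖∑ n ∈ Finset.Ico a b, D f h X n ω‖ ^ 2 + 8 * C ^ 2 := by
    intro ω
    rw [telescope f h X a ω b hab.le]
    have h7 : ‖(∑ n ∈ Finset.Ico a b, D f h X n ω) + (h (walk X a ω) - h (walk X b ω))‖ ≤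
        ‖∑ n ∈ Finset.Ico a b, D f h X n ω‖ + 2 * C := by
      refine (norm_add_le _ _).trans ?_
      have := norm_sub_le (h (walk X a ω)) (h (walk X b ω))
      linarith [hb (walk X a ω), hb (walk X b ω)]
    have h8 := pow_le_pow_left₀ (norm_nonneg _) h7 2
    nlinarith [sq_nonneg (‖∑ n ∈ Finset.Ico a b, D f h X n ω‖ - 2 * C)]
  have i2 : Integrable (fun ω => 2 * ‖∑ n ∈ Finset.Ico a b, D f h X n ω‖ ^ 2 + 8 * C ^ 2) P :=
    (hTi.const_mul 2).add (integrable_const _)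
  refine (integral_mono hFi i2 hpt).trans ?_
  rw [integral_add (hTi.const_mul 2) (integrable_const _), integral_const_mul, integral_const,
    sumsq hOrth hX hf hh h2 hb h5 a b hab.le]
  simp only [probReal_univ, smul_eq_mul, one_mul]
  have hsum : ∑ n ∈ Finset.Ico a b, ∫ ω, ‖D f h X n ω‖ ^ 2 ∂P ≤
      ((b : ℝ) - a) * ((2 * K + 8 * C ^ 2) * (b : ℝ) ^ (2 * l + κ)) := by
    have h10 : ∀ n ∈ Finset.Ico a b, ∫ ω, ‖D f h X n ω‖ ^ 2 ∂P ≤
        (2 * K + 8 * C ^ 2) * (b : ℝ) ^ (2 * l + κ) := by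
      intro n hn
      refine (hDb n).trans ?_
      have h11 : ((n + 1 : ℕ) : ℝ) ≤ b := by exact_mod_cast (Finset.mem_Ico.1 hn).2
      refine mul_le_mul_of_nonneg_left ?_ (by positivity)
      exact Real.rpow_le_rpow (by positivity) h11 hlκ
    refine (Finset.sum_le_sum h10).trans (le_of_eq ?_)
    rw [Finset.sum_const, Nat.card_Ico, nsmul_eq_mul, Nat.cast_sub hab.le]
  have h12 : 8 * C ^ 2 ≤ 8 * C ^ 2 * (((b : ℝ) - a) * (b : ℝ) ^ (2 * l + κ)) := by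
    have h13 : (1 : ℝ) ≤ ((b : ℝ) - a) * (b : ℝ) ^ (2 * l + κ) := by nlinarith
    have h14 : (0 : ℝ) ≤ 8 * C ^ 2 := by positivity
    nlinarith [mul_le_mul_of_nonneg_left h13 h14]
  linarith

/-- the error term -/
theorem err {Ω : Type} [MeasurableSpace Ω] {P : Measure Ω} [IsProbabilityMeasure P]
    {X : ℕ → Ω → ℝ} (hX : IsCauchySeq P X) :
    ∀ᵐ ω ∂P, ∃ W : ℝ, 0 ≤ W ∧ ∀ N : ℕ, 1 ≤ N →
      ∑ n ∈ Finset.Icc 1 N, (1 + |walk X n ω|)⁻¹ ≤ W * (N : ℝ) ^ (1 / 2 : ℝ) := by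
  obtain ⟨C, hC, hm⟩ := BLOCK_.mom_walk (-(3 / 4)) (by norm_num) (by norm_num)
  have hcont : Continuous fun x : ℝ => (1 + |x|)⁻¹ := by
    refine Continuous.inv₀ (by fun_prop) fun x => ?_
    have := abs_nonneg x
    linarith
  have hmeas : ∀ n : ℕ, Measurable fun ω => (1 + |walk X n ω|)⁻¹ * (n : ℝ) ^ (-(1 / 2) : ℝ) :=
    fun n => (hcont.measurable.comp (measurable_walk hX n)).mul_const _
  have hle : ∀ x : ℝ, (1 + |x|)⁻¹ ≤ (1 + |x|) ^ (-(3 / 4) : ℝ) := by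
    intro x
    rw [← Real.rpow_neg_one]
    exact Real.rpow_le_rpow_of_exponent_le (by linarith [abs_nonneg x]) (by norm_num)
  have h1 : ∀ n : ℕ, ∫⁻ ω, ENNReal.ofReal ((1 + |walk X n ω|)⁻¹ * (n : ℝ) ^ (-(1 / 2) : ℝ)) ∂P ≤
      ENNReal.ofReal (C * (n : ℝ) ^ (-(5 / 4) : ℝ)) := by
    intro n
    rcases Nat.eq_zero_or_pos n with h0 | h0
    · subst h0
      simp
    · obtain ⟨i1, b1⟩ := hm P X hX n h0
      have hn0 : (0 : ℝ) < n := by exact_mod_cast h0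
      have h2 : ∫⁻ ω, ENNReal.ofReal ((1 + |walk X n ω|)⁻¹ * (n : ℝ) ^ (-(1 / 2) : ℝ)) ∂P ≤
          ∫⁻ ω, ENNReal.ofReal ((1 + |walk X n ω|) ^ (-(3 / 4) : ℝ) *
            (n : ℝ) ^ (-(1 / 2) : ℝ)) ∂P := by
        refine lintegral_mono fun ω => ENNReal.ofReal_le_ofReal ?_
        exact mul_le_mul_of_nonneg_right (hle _) (by positivity)
      refine h2.trans ?_
      rw [← ofReal_integral_eq_lintegral_ofReal (i1.mul_const _)
        (ae_of_all _ fun ω => by positivity), integral_mul_const]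
      refine ENNReal.ofReal_le_ofReal ?_
      calc (∫ ω, (1 + |walk X n ω|) ^ (-(3 / 4) : ℝ) ∂P) * (n : ℝ) ^ (-(1 / 2) : ℝ)
          ≤ (C * (n : ℝ) ^ (-(3 / 4) : ℝ)) * (n : ℝ) ^ (-(1 / 2) : ℝ) :=
            mul_le_mul_of_nonneg_right b1 (by positivity)
        _ = C * (n : ℝ) ^ (-(5 / 4) : ℝ) := by
            rw [mul_assoc, ← Real.rpow_add hn0]
            norm_num
  have h2 : ∫⁻ ω, ∑' n : ℕ,
      ENNReal.ofReal ((1 + |walk X n ω|)⁻¹ * (n : ℝ) ^ (-(1 / 2) : ℝ)) ∂P < ⊤ := by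
    rw [lintegral_tsum fun n => (hmeas n).aemeasurable.ennreal_ofReal]
    refine lt_of_le_of_lt (ENNReal.tsum_le_tsum h1) ?_
    have h3 : Summable fun n : ℕ => C * (n : ℝ) ^ (-(5 / 4) : ℝ) :=
      (Real.summable_nat_rpow.2 (by norm_num)).mul_left C
    rw [← ENNReal.ofReal_tsum_of_nonneg (fun n => by positivity) h3]
    exact ENNReal.ofReal_lt_top
  have h3 : AEMeasurable (fun ω => ∑' n : ℕ,
      ENNReal.ofReal ((1 + |walk X n ω|)⁻¹ * (n : ℝ) ^ (-(1 / 2) : ℝ))) P :=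
    AEMeasurable.tsum fun n => (hmeas n).aemeasurable.ennreal_ofReal
  filter_upwards [ae_lt_top' h3 h2.ne] with ω hω
  obtain ⟨W, hW⟩ : ∃ W : ℝ, W = (∑' n : ℕ,
    ENNReal.ofReal ((1 + |walk X n ω|)⁻¹ * (n : ℝ) ^ (-(1 / 2) : ℝ))).toReal := ⟨_, rfl⟩
  refine ⟨W, by rw [hW]; exact ENNReal.toReal_nonneg, fun N hN => ?_⟩
  have h4 : ∑ n ∈ Finset.Icc 1 N, (1 + |walk X n ω|)⁻¹ * (n : ℝ) ^ (-(1 / 2) : ℝ) ≤ W := by
    rw [hW, ← ENNReal.ofReal_le_iff_le_toReal hω.ne,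
      ENNReal.ofReal_sum_of_nonneg fun n _ => by positivity]
    exact ENNReal.sum_le_tsum _
  have h5 : ∑ n ∈ Finset.Icc 1 N, (1 + |walk X n ω|)⁻¹ ≤
      ∑ n ∈ Finset.Icc 1 N, ((1 + |walk X n ω|)⁻¹ * (n : ℝ) ^ (-(1 / 2) : ℝ)) *
        (N : ℝ) ^ (1 / 2 : ℝ) := by
    refine Finset.sum_le_sum fun n hn => ?_
    rw [Finset.mem_Icc] at hn
    have hn0 : (0 : ℝ) < n := by exact_mod_cast hn.1
    have hnN : (n : ℝ) ≤ N := by exact_mod_cast hn.2
    have h6 : (n : ℝ) ^ (1 / 2 : ℝ) ≤ (N : ℝ) ^ (1 / 2 : ℝ) :=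
      Real.rpow_le_rpow hn0.le hnN (by norm_num)
    have h7 : (n : ℝ) ^ (-(1 / 2) : ℝ) * (n : ℝ) ^ (1 / 2 : ℝ) = 1 := by
      rw [← Real.rpow_add hn0]
      norm_num
    calc (1 + |walk X n ω|)⁻¹ = ((1 + |walk X n ω|)⁻¹ * (n : ℝ) ^ (-(1 / 2) : ℝ)) *
          (n : ℝ) ^ (1 / 2 : ℝ) := by rw [mul_assoc, h7, mul_one]
      _ ≤ _ := mul_le_mul_of_nonneg_left h6 (by positivity)
  refine h5.trans ?_
  rw [← Finset.sum_mul]
  exact mul_le_mul_of_nonneg_right h4 (by positivity)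

end LAW_

open LAW_ in
theorem p_LAW (hPot : P_POT) (hOrth : P_ORTH) (hRM : P_RMW) (hE : P_EMOM) (hLB : P_LB) :
    P_LAW := by
  intro k l hk hl hl2 hM Ω _ P _ X hX
  have hLine := hLB k l hk hl hM
  have hk0 : (0 : ℝ) < k := by exact_mod_cast hk
  have hkA : (k : ℝ) * ((1 / 2 + l) / k) = 1 / 2 + l := by field_simp
  obtain ⟨f, h, C, hC, hf, hh, -, hb, h4, h5⟩ := hPot ((1 / 2 + l) / k) k (3 / 4 + l / 2)
    (by positivity) hLine (by rw [hkA]; linarith) (by linarith)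
  obtain ⟨_, _, hm⟩ := mom2 hE hl hl2 hM hf hC h4 hX 1 one_pos
  have h2 : ∀ n : ℕ, 1 ≤ n → Integrable (fun ω => ‖f (walk X n ω)‖ ^ 2) P :=
    fun n hn => (hm n hn).1
  have hrm := hRM P (fun n ω => f (walk X n ω)) l hl (fun n => meas_f hX hf n)
    (fun n => memLp_f hX hf h2 n)
    (fun κ hκ => block hOrth hE hl hl2 hM hf hh hC h4 hb h5 hX κ hκ)
  filter_upwards [hrm, err hX] with ω h6 h7 ε hε
  obtain ⟨K, hK⟩ := h6 ε hε
  obtain ⟨W, hW0, hW⟩ := h7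
  refine ⟨K + C * W, fun N hN => ?_⟩
  have hN1 : (1 : ℝ) ≤ N := by exact_mod_cast hN
  have e1 : dev k (fun n => walk X n ω) N = (∑ n ∈ Finset.Icc 1 N, f (walk X n ω)) -
      ∑ n ∈ Finset.Icc 1 N, (f (walk X n ω) - (zl (walk X n ω) ^ k - 1)) := by
    unfold dev
    rw [← Finset.sum_sub_distrib]
    exact Finset.sum_congr rfl fun n _ => by ring
  have h8 : ‖∑ n ∈ Finset.Icc 1 N, (f (walk X n ω) - (zl (walk X n ω) ^ k - 1))‖ ≤
      C * (W * (N : ℝ) ^ (1 / 2 : ℝ)) := by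
    refine (norm_sum_le _ _).trans ?_
    refine (Finset.sum_le_sum fun n _ => h4 (walk X n ω)).trans ?_
    rw [← Finset.mul_sum]
    exact mul_le_mul_of_nonneg_left (hW N hN) hC.le
  have h9 : (N : ℝ) ^ (1 / 2 : ℝ) ≤ (N : ℝ) ^ (1 / 2 + l + ε) :=
    Real.rpow_le_rpow_of_exponent_le hN1 (by linarith)
  rw [e1]
  refine (norm_sub_le _ _).trans ?_
  have h10 := mul_le_mul_of_nonneg_left h9 (mul_nonneg hC.le hW0)
  have h11 := hK N hN
  linarith

end Pool.Agent.CW
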