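import Pool.Agent.CW.Defs2
import Pool.Agent.CW.BLOCK
import Pool.Agent.Lib.ThickFailure

/-!
# Moments of zeta on the critical line give pointwise bounds
-/

set_option autoImplicit false

namespace Pool.Agent.CW

open MeasureTheory ProbabilityTheory Set Filter Topology Complex

theorem LB_cont : Continuous zl := Pool.Agent.HolMom.zeta_line_cont

/-- the moment is at least the contribution of a set where zeta is large -/
theorem LB_lower (k : ℕ) {T δ B : ℝ} (hT : 1 ≤ T) (hδ : 0 < δ) (hδT : δ ≤ T)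
    (hv : volume.real (Pool.Agent.Lib.ThickFailure.Good B T δ) < 1 / 2 * δ) :
    (T ^ B) ^ (2 * k) * (δ / 2) ≤ ∫ t in (0 : ℝ)..(2 * T), ‖zl t‖ ^ (2 * k) := by
  obtain ⟨D, hD⟩ : ∃ D : Set ℝ, D = Icc T (T + δ) \ Pool.Agent.Lib.ThickFailure.Good B T δ :=
    ⟨_, rfl⟩
  have hT0 : 0 < T := by linarith
  have hDm : MeasurableSet D := by
    rw [hD]
    exact measurableSet_Icc.diff (Pool.Agent.Lib.ThickFailure.measurable_Good _ _ _)
  have hDs : D ⊆ Icc T (T + δ) := by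
    rw [hD]
    exact sdiff_subset
  have hIcc : volume.real (Icc T (T + δ)) = δ := by
    rw [Real.volume_real_Icc_of_le (by linarith)]
    ring
  have hDfin : volume D ≠ ⊤ := ne_top_of_le_ne_top measure_Icc_lt_top.ne (measure_mono hDs)
  have hDv : δ / 2 ≤ volume.real D := by
    have h1 : volume.real (Icc T (T + δ)) ≤ volume.real D +
        volume.real (Pool.Agent.Lib.ThickFailure.Good B T δ) := by
      have hfin : volume (D ∪ Pool.Agent.Lib.ThickFailure.Good B T δ) ≠ ⊤ := by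
        refine ne_top_of_le_ne_top ?_ (measure_mono (union_subset hDs fun t ht => ht.1))
        exact measure_Icc_lt_top.ne
      refine le_trans (measureReal_mono ?_ hfin) (measureReal_union_le _ _)
      intro t ht
      by_cases hg : t ∈ Pool.Agent.Lib.ThickFailure.Good B T δ
      · exact Or.inr hg
      · left
        rw [hD]
        exact ⟨ht, hg⟩
    rw [hIcc] at h1
    linarith
  have hcont : Continuous fun t : ℝ => ‖zl t‖ ^ (2 * k) := LB_cont.norm.pow _
  have hsub : D ⊆ Ioc 0 (2 * T) := by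
    intro t ht
    obtain ⟨h1, h2⟩ := hDs ht
    constructor <;> linarith
  have hint : IntegrableOn (fun t : ℝ => ‖zl t‖ ^ (2 * k)) (Ioc 0 (2 * T)) :=
    (hcont.integrableOn_Icc (a := 0) (b := 2 * T)).mono_set Ioc_subset_Icc_self
  rw [intervalIntegral.integral_of_le (by linarith)]
  have h1 : ∫ t in D, ‖zl t‖ ^ (2 * k) ≤ ∫ t in Ioc 0 (2 * T), ‖zl t‖ ^ (2 * k) :=
    setIntegral_mono_set hint (ae_of_all _ fun t => by positivity) hsub.eventuallyLE
  have h2 : (T ^ B) ^ (2 * k) * volume.real D ≤ ∫ t in D, ‖zl t‖ ^ (2 * k) := by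
    refine setIntegral_ge_of_const_le_real hDm hDfin ?_ (hint.mono_set hsub)
    intro t ht
    refine pow_le_pow_left₀ (by positivity) ?_ _
    rw [hD] at ht
    obtain ⟨h3, h4⟩ := ht
    by_contra h5
    exact h4 ⟨h3, (not_le.1 h5).le⟩
  have h3 : (T ^ B) ^ (2 * k) * (δ / 2) ≤ (T ^ B) ^ (2 * k) * volume.real D :=
    mul_le_mul_of_nonneg_left hDv (by positivity)
  linarith

theorem p_LB : P_LB := by
  intro k l hk hl hM
  by_contra hL
  have hk0 : (0 : ℝ) < k := by exact_mod_cast hk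
  have hA : (0 : ℝ) ≤ (1 / 2 + l) / k := by positivity
  have h0 := (not_congr (Pool.Agent.Lib.ThickFailure.result _ hA)).1 hL
  push Not at h0
  obtain ⟨B, hB, h0⟩ := h0
  obtain ⟨δ, hδ, h0⟩ := h0 (1 / 2) (by norm_num)
  obtain ⟨ε, hε⟩ : ∃ ε : ℝ, ε = (2 * k * B - (1 + 2 * l)) / 2 := ⟨_, rfl⟩
  have hkB : 1 / 2 + l < B * k := by rwa [div_lt_iff₀ hk0] at hB
  have hε0 : 0 < ε := by
    rw [hε]
    linarith
  obtain ⟨C, hC⟩ := hM ε hε0
  have hev := (tendsto_rpow_atTop hε0).eventually_ge_atTop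
    (2 * (|C| * 2 ^ (1 + 2 * l + ε)) / δ + 1)
  obtain ⟨T₁, hT₁⟩ := eventually_atTop.1 (hev.and ((eventually_ge_atTop 1).and
    (eventually_ge_atTop δ)))
  obtain ⟨T, hT, hv⟩ := h0 T₁
  obtain ⟨h1, h2, h3⟩ := hT₁ T hT
  have hT0 : 0 < T := by linarith
  have hlow := LB_lower k h2 hδ h3 hv
  have hup := hC (2 * T) (by linarith)
  have h4 : (T ^ B) ^ (2 * k) = T ^ (1 + 2 * l + ε) * T ^ ε := by
    rw [← Real.rpow_natCast, ← Real.rpow_mul hT0.le, ← Real.rpow_add hT0]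
    congr 1
    rw [hε]
    push_cast
    ring
  have h5 : (2 * T) ^ (1 + 2 * l + ε) = 2 ^ (1 + 2 * l + ε) * T ^ (1 + 2 * l + ε) :=
    Real.mul_rpow (by norm_num) hT0.le
  rw [h4] at hlow
  rw [h5] at hup
  have h6 : 0 < T ^ (1 + 2 * l + ε) := by positivity
  have h7 : 0 < (2 : ℝ) ^ (1 + 2 * l + ε) := by positivity
  have h8 : C * (2 ^ (1 + 2 * l + ε) * T ^ (1 + 2 * l + ε)) ≤
      |C| * 2 ^ (1 + 2 * l + ε) * T ^ (1 + 2 * l + ε) := by
    rw [← mul_assoc]
    gcongr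
    exact le_abs_self C
  have h9 : |C| * 2 ^ (1 + 2 * l + ε) < T ^ ε * (δ / 2) := by
    have h10 : 2 * (|C| * 2 ^ (1 + 2 * l + ε)) / δ < T ^ ε := by linarith
    rw [div_lt_iff₀ hδ] at h10
    linarith
  have h11 : |C| * 2 ^ (1 + 2 * l + ε) * T ^ (1 + 2 * l + ε) <
      T ^ ε * (δ / 2) * T ^ (1 + 2 * l + ε) := mul_lt_mul_of_pos_right h9 h6
  nlinarith

end Pool.Agent.CW
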