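import Mathlib
import Pool.Agent.CW.Defs2
import Pool.Agent.CW.ZEROONE

/-!
# Orthogonality of a centred function of the next step to functions of the past
-/

namespace Pool.Agent.CW

open MeasureTheory ProbabilityTheory Set Filter Topology Complex

theorem p_ORTH : P_ORTH := by
  intro Ω _ P _ X hX n Φ ψ hΦ hψ hzero hint
  set U : Ω → (Fin n → ℝ) := fun ω i => X i ω with hU
  have hUm : Measurable U := measurable_pi_lambda _ fun i => hX.measurable _
  have hVm : Measurable (X n) := hX.measurable n
  have hind : IndepFun U (X n) P := by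
    have hm : Measurable fun g : Fin 1 → ℝ => g 0 := measurable_pi_apply (0 : Fin 1)
    have h := (ZEROONE_.indep_split P X hX n 1).comp (φ := id)
      (ψ := fun g : Fin 1 → ℝ => g 0) measurable_id hm
    exact h
  have hprod : P.map (fun ω => (U ω, X n ω)) = (P.map U).prod (cauchyMeasure 0 1) := by
    rw [← hX.law n]
    exact (indepFun_iff_map_prod_eq_prod_map_map hUm.aemeasurable hVm.aemeasurable).mp hind
  have : IsProbabilityMeasure (P.map U) := Measure.isProbabilityMeasure_map hUm.aemeasurable
  set G : (Fin n → ℝ) × ℝ → ℂ := fun q => Φ q.1 * ψ (ZEROONE_.ps q.1 n, q.2) with hG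
  have hGm : Measurable G := by
    have h1 : Measurable fun q : (Fin n → ℝ) × ℝ => (ZEROONE_.ps q.1 n, q.2) :=
      ((ZEROONE_.measurable_ps n n).comp measurable_fst).prodMk measurable_snd
    exact (hΦ.comp measurable_fst).mul (hψ.comp h1)
  have hGe : ∀ ω, G (U ω, X n ω) = Φ (fun i => X i ω) * ψ (walk X n ω, X n ω) := by
    intro ω
    simp only [hG, hU]
    rw [ZEROONE_.ps_walk X ω le_rfl]
  have hUV : Measurable fun ω => (U ω, X n ω) := hUm.prodMk hVm
  have hGint : Integrable G ((P.map U).prod (cauchyMeasure 0 1)) := by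
    rw [← hprod, integrable_map_measure hGm.aestronglyMeasurable hUV.aemeasurable]
    exact hint.congr (ae_of_all _ fun ω => (hGe ω).symm)
  have h1 : ∫ ω, Φ (fun i => X i ω) * ψ (walk X n ω, X n ω) ∂P =
      ∫ q, G q ∂((P.map U).prod (cauchyMeasure 0 1)) := by
    rw [← hprod, integral_map hUV.aemeasurable hGm.aestronglyMeasurable]
    exact integral_congr_ae (ae_of_all _ fun ω => (hGe ω).symm)
  rw [h1, integral_prod _ hGint]
  have h2 : ∀ u : Fin n → ℝ, ∫ v, G (u, v) ∂(cauchyMeasure 0 1) = 0 := by
    intro u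
    simp only [hG]
    rw [integral_const_mul, hzero, mul_zero]
  simp only [h2, integral_zero]

end Pool.Agent.CW
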