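import Pool.Agent.CW.Defs2
import Pool.Agent.CW.MEAN

/-!
# POT: the potential of the Cauchy walk for the powers of zeta
-/

set_option autoImplicit false

namespace Pool.Agent.CW

open MeasureTheory ProbabilityTheory Set Filter Topology Complex

namespace POT_

open MEAN_

/-- the growth of zeta in the half plane, general exponent -/
theorem growth (ε : ℝ) (hε : 0 < ε) (hL : ∃ C : ℝ, ∀ t : ℝ, ‖zl t‖ ≤ C * (1 + |t|) ^ ε) :
    ∃ C : ℝ, 1 ≤ C ∧ ∀ s : ℂ, 1 / 2 ≤ s.re → ‖H s‖ ≤ C * (1 + ‖s‖) ^ ε := by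
  have hLB : Pool.Agent.Lib.ZetaConv.LineB ε := by
    obtain ⟨C, hC⟩ := hL
    refine ⟨|C| * 2 ^ ε + 1, 1, ?_, le_rfl, ?_⟩
    · have : 0 ≤ |C| * (2 : ℝ) ^ ε := by positivity
      linarith
    · intro t ht
      have h1 := hC t
      unfold zl at h1
      rw [abs_of_nonneg (by linarith : (0 : ℝ) ≤ t)] at h1
      have e0 : (((1 / 2 : ℝ) : ℂ) + t * I) = 1 / 2 + t * I := by push_cast; ring
      rw [e0]
      refine h1.trans ?_
      have h2 : (1 + t) ^ ε ≤ 2 ^ ε * t ^ ε := by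
        rw [← Real.mul_rpow (by norm_num) (by linarith)]
        exact Real.rpow_le_rpow (by linarith) (by linarith) hε.le
      have h3 : 0 ≤ (1 + t) ^ ε := by positivity
      have h4 : 0 ≤ t ^ ε := by positivity
      calc C * (1 + t) ^ ε ≤ |C| * (1 + t) ^ ε :=
            mul_le_mul_of_nonneg_right (le_abs_self C) h3
        _ ≤ |C| * (2 ^ ε * t ^ ε) := mul_le_mul_of_nonneg_left h2 (abs_nonneg C)
        _ ≤ (|C| * 2 ^ ε + 1) * t ^ ε := by nlinarith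
  obtain ⟨C₁, T₁, hC₁, hT₁, h₁⟩ := Pool.Agent.HolMom.strip_bound hε.le hLB
  obtain ⟨C₂, hC₂, h₂⟩ := Pool.Agent.Lib.ZetaCrude.norm_zeta_le_of_two_le
  have hcomp : IsCompact ((Icc (1 / 2 : ℝ) 2) ×ℂ (Icc (-T₁) T₁)) :=
    isCompact_Icc.reProdIm isCompact_Icc
  have hcont : ContinuousOn H ((Icc (1 / 2 : ℝ) 2) ×ℂ (Icc (-T₁) T₁)) := by
    intro s hs
    rw [mem_reProdIm] at hs
    have h3 : s + 1 ≠ 0 := add_one_ne (by linarith [hs.1.1])
    exact ((differentiable_riemannZeta₁ s).continuousAt.div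
      ((continuous_id.add continuous_const).continuousAt) h3).continuousWithinAt
  obtain ⟨D, hD⟩ := hcomp.exists_bound_of_continuousOn hcont
  refine ⟨C₁ + C₂ + |D|, by linarith [abs_nonneg D], ?_⟩
  intro s hs
  have hns : (1 : ℝ) ≤ 1 + ‖s‖ := by linarith [norm_nonneg s]
  have hone : (1 : ℝ) ≤ (1 + ‖s‖) ^ ε := Real.one_le_rpow hns hε.le
  have hDa := abs_nonneg D
  have hKle : ∀ y : ℝ, y ≤ C₁ + C₂ + |D| → y ≤ (C₁ + C₂ + |D|) * (1 + ‖s‖) ^ ε := by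
    intro y hy
    nlinarith
  have hHz : s ≠ 1 → ‖H s‖ ≤ ‖riemannZeta s‖ := by
    intro h1
    rw [H_eq h1, norm_mul]
    have := norm_b_le (s := s) (by linarith)
    nlinarith [norm_nonneg (riemannZeta s)]
  by_cases hs2 : 2 ≤ s.re
  · apply hKle
    have hne : s ≠ 1 := by
      rintro rfl
      simp at hs2
    linarith [hHz hne, h₂ s hs2]
  · push Not at hs2
    by_cases him : |s.im| ≤ T₁
    · apply hKle
      have := hD s (by
        rw [mem_reProdIm]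
        exact ⟨⟨by linarith, hs2.le⟩, abs_le.1 him⟩)
      linarith [le_abs_self D]
    · push Not at him
      have hne : s ≠ 1 := by
        rintro rfl
        simp at him
        linarith
      refine (hHz hne).trans ?_
      have key : ‖riemannZeta s‖ ≤ C₁ * |s.im| ^ ε := by
        rcases le_total 0 s.im with h0 | h0
        · rw [abs_of_nonneg h0] at him ⊢
          exact h₁ s hs hs2.le him.le
        · rw [abs_of_nonpos h0] at him ⊢
          have h3 := h₁ ((starRingEnd ℂ) s) (by simpa using hs) (by simpa using hs2.le)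
            (by simpa using him.le)
          rw [riemannZeta_conj, Complex.norm_conj] at h3
          simpa using h3
      refine key.trans ?_
      have h3 : |s.im| ^ ε ≤ (1 + ‖s‖) ^ ε :=
        Real.rpow_le_rpow (abs_nonneg _) (by linarith [abs_im_le_norm s]) hε.le
      have h4 : 0 ≤ |s.im| ^ ε := by positivity
      calc C₁ * |s.im| ^ ε ≤ C₁ * (1 + ‖s‖) ^ ε :=
            mul_le_mul_of_nonneg_left h3 (by linarith)
        _ ≤ (C₁ + C₂ + |D|) * (1 + ‖s‖) ^ ε :=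
            mul_le_mul_of_nonneg_right (by linarith) (by linarith)

/-- the second order regularisation -/
noncomputable def G (s : ℂ) : ℂ := H s * ((s + 3) / (s + 1))

/-- the factor -/
noncomputable def bb (s : ℂ) : ℂ := b s * ((s + 3) / (s + 1))

theorem G_eq {s : ℂ} (hs : s ≠ 1) : G s = bb s * riemannZeta s := by
  unfold G bb
  rw [H_eq hs]
  ring

theorem norm_q_le {s : ℂ} (hs : 0 ≤ s.re) : ‖(s + 3) / (s + 1)‖ ≤ 3 := by
  rw [norm_div, div_le_iff₀ (norm_pos_iff.2 (add_one_ne hs))]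
  have h1 : s + 3 = (s + 1) + 2 := by ring
  have h2 : 1 ≤ ‖s + 1‖ := by
    have := abs_re_le_norm (s + 1)
    rw [add_re, one_re] at this
    linarith [le_abs_self (s.re + 1)]
  rw [h1]
  refine (norm_add_le _ _).trans ?_
  rw [Complex.norm_ofNat]
  linarith

theorem norm_bb_le {s : ℂ} (hs : 0 ≤ s.re) : ‖bb s‖ ≤ 3 := by
  unfold bb
  rw [norm_mul]
  have h1 := norm_b_le hs
  have h2 := norm_q_le hs
  nlinarith [norm_nonneg (b s), norm_nonneg ((s + 3) / (s + 1))]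

theorem bb_sub {s : ℂ} (hs : 0 ≤ s.re) : bb s - 1 = -4 / (s + 1) ^ 2 := by
  have h := add_one_ne hs
  unfold bb b
  field_simp
  ring

theorem norm_bb_sub {s : ℂ} (hs : 0 ≤ s.re) (k : ℕ) :
    ‖bb s ^ k - 1‖ ≤ k * 3 ^ k * (4 * (‖s + 1‖⁻¹) ^ 2) := by
  refine (norm_pow_sub_one_le 3 (by norm_num) (bb s) (norm_bb_le hs) k).trans ?_
  rw [bb_sub hs, norm_div, norm_neg, Complex.norm_ofNat, norm_pow]
  apply le_of_eq
  rw [inv_pow, div_eq_mul_inv]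

/-- the growth of the powers -/
theorem growth_pow (k : ℕ) (c ε : ℝ) (hε : 0 < ε) (hk : k * ε ≤ c)
    (hL : ∃ C : ℝ, ∀ t : ℝ, ‖zl t‖ ≤ C * (1 + |t|) ^ ε) :
    ∃ C : ℝ, 1 ≤ C ∧ ∀ s : ℂ, 1 / 2 ≤ s.re → ‖G s ^ k - 1‖ ≤ C * (1 + ‖s‖) ^ c := by
  obtain ⟨C, hC, h⟩ := growth ε hε hL
  have hC0 : 0 ≤ (C * 3) ^ k := by positivity
  have hc0 : 0 ≤ c := le_trans (by positivity) hk
  refine ⟨(C * 3) ^ k + 1, by linarith, fun s hs => ?_⟩
  have hns : (1 : ℝ) ≤ 1 + ‖s‖ := by linarith [norm_nonneg s]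
  have h1 : ‖G s‖ ≤ (C * 3) * (1 + ‖s‖) ^ ε := by
    unfold G
    rw [norm_mul]
    calc ‖H s‖ * ‖(s + 3) / (s + 1)‖ ≤ (C * (1 + ‖s‖) ^ ε) * 3 :=
          mul_le_mul (h s hs) (norm_q_le (by linarith)) (norm_nonneg _) (by positivity)
      _ = (C * 3) * (1 + ‖s‖) ^ ε := by ring
  have h2 : ‖G s ^ k‖ ≤ (C * 3) ^ k * (1 + ‖s‖) ^ c := by
    rw [norm_pow]
    calc ‖G s‖ ^ k ≤ ((C * 3) * (1 + ‖s‖) ^ ε) ^ k := pow_le_pow_left₀ (norm_nonneg _) h1 k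
      _ = (C * 3) ^ k * (1 + ‖s‖) ^ (ε * k) := by
          rw [mul_pow, Real.rpow_mul (by linarith), Real.rpow_natCast]
      _ ≤ (C * 3) ^ k * (1 + ‖s‖) ^ c := by
          refine mul_le_mul_of_nonneg_left ?_ hC0
          exact Real.rpow_le_rpow_of_exponent_le hns (by linarith)
  have h3 : (1 : ℝ) ≤ (1 + ‖s‖) ^ c := Real.one_le_rpow hns hc0
  refine (norm_sub_le _ _).trans ?_
  rw [norm_one]
  linarith

/-- the value inside -/
theorem value (k : ℕ) :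
    ∃ C : ℝ, 0 ≤ C ∧ ∀ s : ℂ, 3 / 2 ≤ s.re → ‖G s ^ k - 1‖ ≤
      C * ((2 : ℝ) ^ (-(s.re - 3 / 2)) + (‖s + 1‖⁻¹) ^ 2) := by
  obtain ⟨C, hC, h⟩ := zeta_sub_one
  refine ⟨3 ^ k * (k * (1 + C) ^ k * C) + k * 3 ^ k * 4, by positivity, fun s hs => ?_⟩
  have hne : s ≠ 1 := by
    intro h1
    rw [h1, one_re] at hs
    linarith
  have hs0 : 0 ≤ s.re := by linarith
  have h1 : G s ^ k - 1 = bb s ^ k * (riemannZeta s ^ k - 1) + (bb s ^ k - 1) := by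
    rw [G_eq hne]
    ring
  have hz := h s hs
  have h2 : (2 : ℝ) ^ (-(s.re - 3 / 2)) ≤ 1 :=
    Real.rpow_le_one_of_one_le_of_nonpos (by norm_num) (by linarith)
  have h2' : (0 : ℝ) ≤ (2 : ℝ) ^ (-(s.re - 3 / 2)) := by positivity
  have h3 : ‖riemannZeta s‖ ≤ 1 + C := by
    have e1 : riemannZeta s = 1 + (riemannZeta s - 1) := by ring
    rw [e1]
    refine (norm_add_le _ _).trans ?_
    rw [norm_one]
    nlinarith
  have h4 : ‖bb s ^ k * (riemannZeta s ^ k - 1)‖ ≤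
      3 ^ k * (k * (1 + C) ^ k * C) * (2 : ℝ) ^ (-(s.re - 3 / 2)) := by
    rw [norm_mul, norm_pow]
    have e1 : ‖bb s‖ ^ k ≤ 3 ^ k := pow_le_pow_left₀ (norm_nonneg _) (norm_bb_le hs0) k
    have e2 := norm_pow_sub_one_le (1 + C) (by linarith) (riemannZeta s) h3 k
    calc ‖bb s‖ ^ k * ‖riemannZeta s ^ k - 1‖ ≤
          3 ^ k * (k * (1 + C) ^ k * ‖riemannZeta s - 1‖) :=
          mul_le_mul e1 e2 (norm_nonneg _) (by positivity)
      _ ≤ 3 ^ k * (k * (1 + C) ^ k * (C * (2 : ℝ) ^ (-(s.re - 3 / 2)))) := by gcongr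
      _ = 3 ^ k * (k * (1 + C) ^ k * C) * (2 : ℝ) ^ (-(s.re - 3 / 2)) := by ring
  have h5 : ‖bb s ^ k - 1‖ ≤ k * 3 ^ k * 4 * (‖s + 1‖⁻¹) ^ 2 := by
    refine (norm_bb_sub hs0 k).trans (le_of_eq ?_)
    ring
  rw [h1]
  refine (norm_add_le _ _).trans ((add_le_add h4 h5).trans ?_)
  obtain ⟨U, hU⟩ : ∃ U : ℝ, U = 3 ^ k * (k * (1 + C) ^ k * C) := ⟨_, rfl⟩
  obtain ⟨V, hV⟩ : ∃ V : ℝ, V = k * 3 ^ k * 4 := ⟨_, rfl⟩
  obtain ⟨E, hE⟩ : ∃ E : ℝ, E = (‖s + 1‖⁻¹) ^ 2 := ⟨_, rfl⟩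
  have hU0 : 0 ≤ U := by rw [hU]; positivity
  have hV0 : 0 ≤ V := by rw [hV]; positivity
  have hE0 : 0 ≤ E := by rw [hE]; positivity
  rw [← hU, ← hV, ← hE]
  nlinarith [mul_nonneg hU0 hE0, mul_nonneg hV0 h2']

/-- the difference on the line -/
theorem diff_line (k : ℕ) (c ε : ℝ) (hk : k * ε ≤ c) (hc1 : c ≤ 1)
    (hL : ∃ C : ℝ, ∀ t : ℝ, ‖zl t‖ ≤ C * (1 + |t|) ^ ε) :
    ∃ C : ℝ, 0 ≤ C ∧ ∀ t : ℝ, ‖G (1 / 2 + t * I) ^ k - zl t ^ k‖ ≤ C * (1 + |t|)⁻¹ := by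
  obtain ⟨C, hC⟩ := hL
  have hC0 : 0 ≤ C := by
    have h1 := (norm_nonneg (zl 0)).trans (hC 0)
    have h2 : (0 : ℝ) < (1 + |(0 : ℝ)|) ^ ε := by positivity
    exact nonneg_of_mul_nonneg_left h1 h2
  refine ⟨C ^ k * (k * 3 ^ k * 16), by positivity, fun t => ?_⟩
  have ht : (1 : ℝ) ≤ 1 + |t| := by linarith [abs_nonneg t]
  have hre : (0 : ℝ) ≤ (1 / 2 + t * I : ℂ).re := by norm_num
  have h1 : G (1 / 2 + t * I) ^ k - zl t ^ k = zl t ^ k * (bb (1 / 2 + t * I) ^ k - 1) := by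
    rw [G_eq (line_ne t)]
    unfold zl
    ring
  rw [h1, norm_mul, norm_pow]
  have h2 : ‖zl t‖ ^ k ≤ C ^ k * (1 + |t|) := by
    calc ‖zl t‖ ^ k ≤ (C * (1 + |t|) ^ ε) ^ k :=
          pow_le_pow_left₀ (norm_nonneg _) (hC t) k
      _ = C ^ k * (1 + |t|) ^ (ε * k) := by
          rw [mul_pow, Real.rpow_mul (by linarith), Real.rpow_natCast]
      _ ≤ C ^ k * (1 + |t|) ^ (1 : ℝ) := by
          refine mul_le_mul_of_nonneg_left ?_ (by positivity)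
          exact Real.rpow_le_rpow_of_exponent_le ht (by linarith)
      _ = C ^ k * (1 + |t|) := by rw [Real.rpow_one]
  have h3 : ‖bb (1 / 2 + t * I) ^ k - 1‖ ≤ k * 3 ^ k * (4 * (2 * (1 + |t|)⁻¹) ^ 2) := by
    refine (norm_bb_sub hre k).trans (mul_le_mul_of_nonneg_left ?_ (by positivity))
    refine mul_le_mul_of_nonneg_left ?_ (by norm_num)
    exact pow_le_pow_left₀ (by positivity) (norm_line t) 2
  calc ‖zl t‖ ^ k * ‖bb (1 / 2 + t * I) ^ k - 1‖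
      ≤ (C ^ k * (1 + |t|)) * (k * 3 ^ k * (4 * (2 * (1 + |t|)⁻¹) ^ 2)) :=
        mul_le_mul h2 h3 (norm_nonneg _) (by positivity)
    _ = C ^ k * (k * 3 ^ k * 16) * (((1 + |t|) * (1 + |t|)⁻¹) * (1 + |t|)⁻¹) := by ring
    _ = C ^ k * (k * 3 ^ k * 16) * (1 + |t|)⁻¹ := by
        rw [mul_inv_cancel₀ (by linarith : (1 + |t| : ℝ) ≠ 0), one_mul]

/-- the level `r` -/
noncomputable def g (k r : ℕ) (x : ℝ) : ℂ := G (((1 / 2 + (r : ℝ) : ℝ) : ℂ) + x * I) ^ k - 1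

theorem diffAt (k : ℕ) {s : ℂ} (hs : 0 ≤ s.re) : DifferentiableAt ℂ (fun z => G z ^ k - 1) s := by
  have h1 : DifferentiableAt ℂ H s :=
    (differentiable_riemannZeta₁ s).div (differentiableAt_id.add (differentiableAt_const _))
      (add_one_ne hs)
  have h2 : DifferentiableAt ℂ (fun z : ℂ => (z + 3) / (z + 1)) s :=
    (differentiableAt_id.add (differentiableAt_const _)).div
      (differentiableAt_id.add (differentiableAt_const _)) (add_one_ne hs)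
  exact ((h1.mul h2).pow k).sub (differentiableAt_const _)

theorem re_pt (r : ℕ) (x : ℝ) : ((((1 / 2 + (r : ℝ) : ℝ) : ℂ) + x * I)).re = 1 / 2 + r := by
  simp

theorem g_cont (k r : ℕ) : Continuous (g k r) := by
  rw [continuous_iff_continuousAt]
  intro x
  have h0 : (0 : ℝ) ≤ ((((1 / 2 + (r : ℝ) : ℝ) : ℂ) + x * I)).re := by
    rw [re_pt]
    positivity
  have h1 := (diffAt k h0).continuousAt
  have h2 : ContinuousAt (fun x : ℝ => (((1 / 2 + (r : ℝ) : ℝ) : ℂ) + x * I)) x := by fun_prop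
  exact ContinuousAt.comp (f := fun x : ℝ => (((1 / 2 + (r : ℝ) : ℝ) : ℂ) + x * I)) h1 h2

theorem g_mean (hP : P_POISSONC) (k : ℕ) (c : ℝ) (hc0 : 0 ≤ c) (hc1 : c < 1)
    (hG : ∃ C : ℝ, ∀ s : ℂ, 1 / 2 ≤ s.re → ‖G s ^ k - 1‖ ≤ C * (1 + ‖s‖) ^ c) (r : ℕ) (x : ℝ) :
    Integrable (fun u => g k r (x + u)) (cauchyMeasure 0 1) ∧
      ∫ u, g k r (x + u) ∂(cauchyMeasure 0 1) = g k (r + 1) x := by
  have hr : (0 : ℝ) ≤ r := Nat.cast_nonneg r
  have hdO : DifferentiableOn ℂ (fun z => G z ^ k - 1) {s : ℂ | (1 / 2 + (r : ℝ) : ℝ) < s.re} := by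
    intro s hs
    have hs' : (1 / 2 + (r : ℝ) : ℝ) < s.re := hs
    exact (diffAt k (by linarith)).differentiableWithinAt
  have hcO : ContinuousOn (fun z => G z ^ k - 1) {s : ℂ | (1 / 2 + (r : ℝ) : ℝ) ≤ s.re} := by
    intro s hs
    have hs' : (1 / 2 + (r : ℝ) : ℝ) ≤ s.re := hs
    exact (diffAt k (by linarith)).continuousAt.continuousWithinAt
  obtain ⟨C, hC⟩ := hG
  obtain ⟨hint, hval⟩ := hP (fun z => G z ^ k - 1) (1 / 2 + (r : ℝ)) c hc0 hc1 hdO hcO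
    ⟨C, fun s hs => hC s (by linarith)⟩ ((1 : ℕ) : ℝ) (by norm_num) x
  obtain ⟨hgi, hgv⟩ := transfer 1 le_rfl
    (fun u : ℝ => G (((1 / 2 + (r : ℝ) : ℝ) : ℂ) + ((x : ℂ) + u) * I) ^ k - 1) hint
  rw [hval] at hgv
  have e1 : (fun u : ℝ => G (((1 / 2 + (r : ℝ) : ℝ) : ℂ) + ((x : ℂ) + u) * I) ^ k - 1) =
      fun u => g k r (x + u) := by
    funext u
    unfold g
    push_cast
    rfl
  rw [e1, Nat.cast_one] at hgi hgv
  refine ⟨hgi, hgv.trans ?_⟩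
  unfold g
  have e2 : (((1 / 2 + (r : ℝ) : ℝ) : ℂ) + (((1 : ℕ) : ℝ) : ℂ) + x * I) =
      (((1 / 2 + ((r + 1 : ℕ) : ℝ) : ℝ) : ℂ) + x * I) := by
    push_cast
    ring
  rw [← e2]

/-- the uniform bound of the levels -/
theorem g_bound (k : ℕ) : ∃ C : ℝ, 0 ≤ C ∧ ∀ (r : ℕ) (x : ℝ), ‖g k (r + 1) x‖ ≤
    C * ((1 / 2 : ℝ) ^ r + (((r : ℝ) + 1)⁻¹) ^ 2) := by
  obtain ⟨C, hC0, hC⟩ := value k
  refine ⟨C, hC0, fun r x => ?_⟩
  have hr : (0 : ℝ) ≤ r := Nat.cast_nonneg r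
  have hre := re_pt (r + 1) x
  obtain ⟨p, hp⟩ : ∃ p : ℂ, p = (((1 / 2 + ((r + 1 : ℕ) : ℝ) : ℝ) : ℂ) + x * I) := ⟨_, rfl⟩
  rw [← hp] at hre
  push_cast at hre
  have h1 := hC p (by rw [hre]; linarith)
  have e1 : (2 : ℝ) ^ (-(p.re - 3 / 2)) = (1 / 2 : ℝ) ^ r := by
    have e2 : -(p.re - 3 / 2) = -(r : ℝ) := by rw [hre]; ring
    rw [e2, Real.rpow_neg (by norm_num), Real.rpow_natCast, one_div, inv_pow]
  have e3 : ‖p + 1‖⁻¹ ≤ ((r : ℝ) + 1)⁻¹ := by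
    refine inv_anti₀ (by positivity) ?_
    have := abs_re_le_norm (p + 1)
    rw [add_re, one_re, hre] at this
    linarith [le_abs_self (1 / 2 + ((r : ℝ) + 1) + 1)]
  have e4 : (‖p + 1‖⁻¹) ^ 2 ≤ (((r : ℝ) + 1)⁻¹) ^ 2 := pow_le_pow_left₀ (by positivity) e3 2
  unfold g
  rw [← hp]
  refine h1.trans (mul_le_mul_of_nonneg_left ?_ hC0)
  rw [e1]
  linarith

theorem summable_bound : Summable fun r : ℕ => (1 / 2 : ℝ) ^ r + (((r : ℝ) + 1)⁻¹) ^ 2 := by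
  refine (summable_geometric_of_lt_one (by norm_num) (by norm_num)).add ?_
  have h1 : Summable fun n : ℕ => ((n : ℝ) ^ 2)⁻¹ := Real.summable_nat_pow_inv.2 (by norm_num)
  have h2 := (summable_nat_add_iff 1).2 h1
  refine h2.congr fun r => ?_
  push_cast
  rw [inv_pow]

end POT_

open POT_ in
theorem p_POT (hP : P_POISSONC) : P_POT := by
  intro A k c hA hL hkA hc1
  have hk0 : (0 : ℝ) ≤ k := Nat.cast_nonneg k
  have hc0 : 0 < c := lt_of_le_of_lt (by positivity) hkA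
  obtain ⟨δ, hδ⟩ : ∃ δ : ℝ, δ = (c - k * A) / (k + 1) := ⟨_, rfl⟩
  have hδ0 : 0 < δ := by
    rw [hδ]
    apply div_pos <;> linarith
  have hkδ : k * (A + δ) ≤ c := by
    have h1 : (k + 1) * δ = c - k * A := by
      rw [hδ]
      field_simp
    nlinarith
  have hLε : ∃ C : ℝ, ∀ t : ℝ, ‖zl t‖ ≤ C * (1 + |t|) ^ (A + δ) := hL δ hδ0
  obtain ⟨C₁, hC₁0, hC₁⟩ := growth_pow k c (A + δ) (by linarith) hkδ hLε
  obtain ⟨C₂, hC₂0, hC₂⟩ := diff_line k c (A + δ) hkδ hc1.le hLε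
  obtain ⟨C₃, hC₃0, hC₃⟩ := g_bound k
  have hsb := summable_bound
  have hsC := hsb.mul_left C₃
  obtain ⟨S, hS⟩ : ∃ S : ℝ, S = ∑' r : ℕ, C₃ * ((1 / 2 : ℝ) ^ r + (((r : ℝ) + 1)⁻¹) ^ 2) :=
    ⟨_, rfl⟩
  have hS0 : 0 ≤ S := by
    rw [hS]
    exact tsum_nonneg fun r => by positivity
  have hmean := g_mean hP k c hc0.le hc1 ⟨C₁, hC₁⟩
  have hgs : ∀ x, Summable fun r : ℕ => g k (r + 1) x := fun x =>
    Summable.of_norm_bounded hsC fun r => hC₃ r x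
  have hhc : Continuous fun x => ∑' r : ℕ, g k (r + 1) x :=
    continuous_tsum (fun r => g_cont k (r + 1)) hsC fun r x => hC₃ r x
  have hhb : ∀ x, ‖∑' r : ℕ, g k (r + 1) x‖ ≤ S := by
    intro x
    rw [hS]
    exact tsum_of_norm_bounded hsC.hasSum fun r => hC₃ r x
  refine ⟨g k 0, fun x => ∑' r : ℕ, g k (r + 1) x, C₁ * 2 ^ c + C₂ + S + 1, by positivity,
    g_cont k 0, hhc, ?_, ?_, ?_, ?_⟩
  · intro x
    have hx := abs_nonneg x
    have e0 : g k 0 x = G (((1 / 2 + ((0 : ℕ) : ℝ) : ℝ) : ℂ) + x * I) ^ k - 1 := rfl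
    have h1 := hC₁ (((1 / 2 + ((0 : ℕ) : ℝ) : ℝ) : ℂ) + x * I) (by rw [re_pt]; simp)
    rw [← e0] at h1
    have h2 : 1 + ‖(((1 / 2 + ((0 : ℕ) : ℝ) : ℝ) : ℂ) + x * I)‖ ≤ 2 * (1 + |x|) := by
      have e1 := norm_add_le (((1 / 2 + ((0 : ℕ) : ℝ) : ℝ) : ℂ)) (x * I)
      rw [norm_mul, Complex.norm_I, mul_one, Complex.norm_real, Complex.norm_real,
        Real.norm_eq_abs, Real.norm_eq_abs] at e1
      have e2 : |(1 / 2 + ((0 : ℕ) : ℝ) : ℝ)| = 1 / 2 := by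
        rw [Nat.cast_zero, add_zero, abs_of_pos (by norm_num)]
      rw [e2] at e1
      linarith
    have h3 : (1 + ‖(((1 / 2 + ((0 : ℕ) : ℝ) : ℝ) : ℂ) + x * I)‖) ^ c ≤
        2 ^ c * (1 + |x|) ^ c := by
      rw [← Real.mul_rpow (by norm_num) (by linarith)]
      exact Real.rpow_le_rpow (by positivity) h2 hc0.le
    have h4 : (0 : ℝ) ≤ (1 + |x|) ^ c := by positivity
    calc ‖g k 0 x‖ ≤ C₁ * (2 ^ c * (1 + |x|) ^ c) :=
          h1.trans (mul_le_mul_of_nonneg_left h3 (by linarith))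
      _ ≤ (C₁ * 2 ^ c + C₂ + S + 1) * (1 + |x|) ^ c := by
          nlinarith [mul_nonneg hC₂0 h4, mul_nonneg hS0 h4]
  · intro x
    have h1 : (0 : ℝ) ≤ C₁ * 2 ^ c := by positivity
    linarith [hhb x]
  · intro x
    have hx := abs_nonneg x
    have h1 := hC₂ x
    have e1 : g k 0 x - (zl x ^ k - 1) = G (1 / 2 + x * I) ^ k - zl x ^ k := by
      unfold g
      have e2 : ((((1 / 2 + ((0 : ℕ) : ℝ) : ℝ) : ℂ)) + x * I) = 1 / 2 + x * I := by
        push_cast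
        ring
      rw [e2]
      ring
    rw [e1]
    have h4 : (0 : ℝ) ≤ (1 + |x|)⁻¹ := by positivity
    have h5 : (0 : ℝ) ≤ C₁ * 2 ^ c := by positivity
    refine h1.trans (mul_le_mul_of_nonneg_right ?_ h4)
    linarith
  · intro x
    obtain ⟨hi0, hv0⟩ := hmean 0 x
    have hi : ∀ r : ℕ, Integrable (fun u => g k (r + 1) (x + u)) (cauchyMeasure 0 1) :=
      fun r => (hmean (r + 1) x).1
    have hs1 : Summable fun r : ℕ => ∫ u, ‖g k (r + 1) (x + u)‖ ∂(cauchyMeasure 0 1) := by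
      refine Summable.of_nonneg_of_le (fun r => integral_nonneg fun u => norm_nonneg _)
        (fun r => ?_) hsC
      have h1 := integral_mono (hi r).norm
        (integrable_const (C₃ * ((1 / 2 : ℝ) ^ r + (((r : ℝ) + 1)⁻¹) ^ 2))) fun u => hC₃ r (x + u)
      refine h1.trans (le_of_eq ?_)
      simp
    have hsum := hasSum_integral_of_summable_integral_norm hi hs1
    have hhi : Integrable (fun u => ∑' r : ℕ, g k (r + 1) (x + u)) (cauchyMeasure 0 1) := by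
      refine Integrable.mono' (integrable_const S) ?_ (ae_of_all _ fun u => hhb (x + u))
      exact (hhc.comp (continuous_const.add continuous_id)).aestronglyMeasurable
    refine ⟨hi0.add hhi, ?_⟩
    rw [integral_add hi0 hhi, hv0, ← hsum.tsum_eq]
    have e3 : ∀ r : ℕ, ∫ u, g k (r + 1) (x + u) ∂(cauchyMeasure 0 1) = g k (r + 1 + 1) x :=
      fun r => (hmean (r + 1) x).2
    simp only [e3]
    exact ((hgs x).tsum_eq_zero_add).symm

end Pool.Agent.CW
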