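import Mathlib
import Pool.Agent.CW.Defs2
import Pool.Agent.CW.ORTH
import Pool.Agent.CW.PAIR

/-!
# Quadratic variation, part one: stopped martingale sums
-/

namespace Pool.Agent.CW

open MeasureTheory ProbabilityTheory Set Filter Topology Complex

namespace QV_

/-- nonnegative variables with summable means have bounded partial sums almost surely -/
theorem ae_sum_bdd {Ω : Type} [MeasurableSpace Ω] (P : Measure Ω) [IsProbabilityMeasure P]
    (Z : ℕ → Ω → ℝ) (hm : ∀ n, Measurable (Z n)) (h0 : ∀ n ω, 0 ≤ Z n ω)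
    (hint : ∀ n, Integrable (Z n) P) (b : ℕ → ℝ) (hb : Summable b)
    (hle : ∀ n, ∫ ω, Z n ω ∂P ≤ b n) :
    ∀ᵐ ω ∂P, ∃ W : ℝ, 0 ≤ W ∧ ∀ n, ∑ i ∈ Finset.range n, Z i ω ≤ W := by
  have hb0 : ∀ n, 0 ≤ b n := fun n => (integral_nonneg (h0 n)).trans (hle n)
  have hmeas : ∀ n, Measurable (fun ω => ENNReal.ofReal (Z n ω)) := fun n =>
    (hm n).ennreal_ofReal
  have hlint : ∫⁻ ω, ∑' i, ENNReal.ofReal (Z i ω) ∂P ≠ ⊤ := by
    rw [lintegral_tsum (fun i => (hmeas i).aemeasurable)]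
    have h1 : ∀ i, ∫⁻ ω, ENNReal.ofReal (Z i ω) ∂P ≤ ENNReal.ofReal (b i) := by
      intro i
      rw [← ofReal_integral_eq_lintegral_ofReal (hint i) (ae_of_all _ (h0 i))]
      exact ENNReal.ofReal_le_ofReal (hle i)
    refine ne_top_of_le_ne_top ?_ (ENNReal.tsum_le_tsum h1)
    rw [← ENNReal.ofReal_tsum_of_nonneg hb0 hb]
    exact ENNReal.ofReal_ne_top
  have hae := ae_lt_top (Measurable.tsum hmeas) hlint
  filter_upwards [hae] with ω hω
  refine ⟨(∑' i, ENNReal.ofReal (Z i ω)).toReal, ENNReal.toReal_nonneg, fun n => ?_⟩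
  have h1 : ∑ i ∈ Finset.range n, ENNReal.ofReal (Z i ω) ≤ ∑' i, ENNReal.ofReal (Z i ω) :=
    ENNReal.sum_le_tsum _
  have h2 := ENNReal.toReal_mono hω.ne h1
  rw [ENNReal.toReal_sum (fun i _ => ENNReal.ofReal_ne_top)] at h2
  refine le_trans (le_of_eq ?_) h2
  refine Finset.sum_congr rfl fun i _ => ?_
  rw [ENNReal.toReal_ofReal (h0 i ω)]

/-- monotone processes with polynomial means -/
theorem ae_dyadic {Ω : Type} [MeasurableSpace Ω] (P : Measure Ω) [IsProbabilityMeasure P]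
    (Y : ℕ → Ω → ℝ) (hm : ∀ n, Measurable (Y n)) (h0 : ∀ n ω, 0 ≤ Y n ω)
    (hmono : ∀ ω, Monotone fun n => Y n ω) (hint : ∀ n, Integrable (Y n) P) (α β B : ℝ)
    (hαβ : α < β) (hβ : 0 ≤ β) (hle : ∀ n : ℕ, 1 ≤ n → ∫ ω, Y n ω ∂P ≤ B * (n : ℝ) ^ α) :
    ∀ᵐ ω ∂P, ∃ C : ℝ, 0 ≤ C ∧ ∀ N : ℕ, 1 ≤ N → Y N ω ≤ C * (N : ℝ) ^ β := by
  have h2pos : ∀ j : ℕ, (0 : ℝ) < ((2 ^ j : ℕ) : ℝ) := fun j => by positivity
  have hZ := ae_sum_bdd P (fun j ω => Y (2 ^ j) ω * (((2 ^ j : ℕ) : ℝ) ^ β)⁻¹)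
    (fun j => (hm _).mul_const _) (fun j ω => mul_nonneg (h0 _ _) (by positivity))
    (fun j => (hint _).mul_const _) (fun j => B * ((2 : ℝ) ^ (α - β)) ^ j) ?_ ?_
  · filter_upwards [hZ] with ω hω
    obtain ⟨W, hW0, hW⟩ := hω
    refine ⟨W * 2 ^ β, by positivity, fun N hN => ?_⟩
    have hN0 : (0 : ℝ) < N := by exact_mod_cast hN
    set j := Nat.clog 2 N with hj
    have h1 : N ≤ 2 ^ j := Nat.le_pow_clog (by norm_num) N
    have h2 : 2 ^ j ≤ 2 * N := by
      rcases Nat.eq_zero_or_pos j with h | h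
      · rw [h]; omega
      · have h3 : 2 ^ (j - 1) < N := by
          have h4 : 1 < N := by
            by_contra h5
            have h6 : N = 1 := by omega
            rw [hj, h6, Nat.clog_one_right] at h
            omega
          exact Nat.pow_pred_clog_lt_self (by norm_num) h4
        have h5 : 2 ^ j = 2 * 2 ^ (j - 1) := by
          conv_lhs => rw [show j = (j - 1) + 1 by omega, pow_succ]
          ring
        omega
    have h3 : Y (2 ^ j) ω * (((2 ^ j : ℕ) : ℝ) ^ β)⁻¹ ≤ W := by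
      refine le_trans ?_ (hW (j + 1))
      exact Finset.single_le_sum (f := fun j => Y (2 ^ j) ω * (((2 ^ j : ℕ) : ℝ) ^ β)⁻¹)
        (fun i _ => mul_nonneg (h0 _ _) (by positivity)) (Finset.self_mem_range_succ j)
    have h4 : Y (2 ^ j) ω ≤ W * ((2 ^ j : ℕ) : ℝ) ^ β := by
      have h5 : (0 : ℝ) < ((2 ^ j : ℕ) : ℝ) ^ β := Real.rpow_pos_of_pos (h2pos j) _
      rwa [← div_eq_mul_inv, div_le_iff₀ h5] at h3
    have h5 : ((2 ^ j : ℕ) : ℝ) ^ β ≤ 2 ^ β * (N : ℝ) ^ β := by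
      rw [← Real.mul_rpow (by norm_num) hN0.le]
      apply Real.rpow_le_rpow (h2pos j).le _ hβ
      exact_mod_cast h2
    calc Y N ω ≤ Y (2 ^ j) ω := hmono ω h1
      _ ≤ W * ((2 ^ j : ℕ) : ℝ) ^ β := h4
      _ ≤ W * (2 ^ β * (N : ℝ) ^ β) := mul_le_mul_of_nonneg_left h5 hW0
      _ = W * 2 ^ β * (N : ℝ) ^ β := by ring
  · apply Summable.mul_left
    apply summable_geometric_of_lt_one (by positivity)
    exact Real.rpow_lt_one_of_one_lt_of_neg (by norm_num) (by linarith)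
  · intro j
    rw [integral_mul_const]
    have h1 := hle (2 ^ j) Nat.one_le_two_pow
    have h5 : (0 : ℝ) < ((2 ^ j : ℕ) : ℝ) ^ β := Real.rpow_pos_of_pos (h2pos j) _
    have h6 : ((2 : ℝ) ^ (α - β)) ^ j = ((2 ^ j : ℕ) : ℝ) ^ α * (((2 ^ j : ℕ) : ℝ) ^ β)⁻¹ := by
      rw [← div_eq_mul_inv, ← Real.rpow_sub (h2pos j)]
      push_cast
      rw [← Real.rpow_natCast, ← Real.rpow_natCast, ← Real.rpow_mul (by norm_num),
        ← Real.rpow_mul (by norm_num), mul_comm]
    rw [h6, ← mul_assoc]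
    exact mul_le_mul_of_nonneg_right h1 (by positivity)

/-- extension of a tuple by zero -/
noncomputable def ext {n : ℕ} (v : Fin n → ℝ) (k : ℕ) : ℝ := if h : k < n then v ⟨k, h⟩ else 0

lemma measurable_ext (n : ℕ) : Measurable (fun v : Fin n → ℝ => ext v) := by
  apply measurable_pi_lambda
  intro k
  by_cases h : k < n
  · simp only [ext, h, dif_pos]
    exact measurable_pi_apply _
  · simp only [ext, h, dif_neg, not_false_iff]
    exact measurable_const

/-- the position -/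
noncomputable def pos (x : ℕ → ℝ) (n : ℕ) : ℝ := ∑ i ∈ Finset.range n, x i

lemma measurable_pos (n : ℕ) : Measurable fun x : ℕ → ℝ => pos x n := by
  unfold pos
  exact Finset.measurable_sum _ fun i _ => measurable_pi_apply _

/-- the stopped sums -/
noncomputable def mart (ψ : ℕ → ℝ × ℝ → ℂ) (K b : ℝ) (m : ℕ) : ℕ → (ℕ → ℝ) → ℂ
  | 0, _ => 0
  | (n + 1), x => mart ψ K b m n x +
      (if m ≤ n ∧ ‖mart ψ K b m n x‖ ≤ K * ((n : ℝ) + 1) ^ b then ψ n (pos x n, x n) else 0)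

/-- the increments of the stopped sums -/
noncomputable def incr (ψ : ℕ → ℝ × ℝ → ℂ) (K b : ℝ) (m n : ℕ) (x : ℕ → ℝ) : ℂ :=
  if m ≤ n ∧ ‖mart ψ K b m n x‖ ≤ K * ((n : ℝ) + 1) ^ b then ψ n (pos x n, x n) else 0

section

variable {ψ : ℕ → ℝ × ℝ → ℂ} {K b : ℝ} {m : ℕ}

lemma mart_zero (x : ℕ → ℝ) : mart ψ K b m 0 x = 0 := rfl

lemma mart_succ (n : ℕ) (x : ℕ → ℝ) :
    mart ψ K b m (n + 1) x = mart ψ K b m n x + incr ψ K b m n x := rfl

lemma pos_congr {n : ℕ} {x y : ℕ → ℝ} (h : ∀ i < n, x i = y i) : pos x n = pos y n :=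
  Finset.sum_congr rfl fun i hi => h i (Finset.mem_range.mp hi)

lemma mart_congr {n : ℕ} {x y : ℕ → ℝ} (h : ∀ i < n, x i = y i) :
    mart ψ K b m n x = mart ψ K b m n y := by
  induction n with
  | zero => rfl
  | succ n ih =>
    have h1 := ih fun i hi => h i (by omega)
    rw [mart_succ, mart_succ, h1]
    unfold incr
    rw [h1, pos_congr (x := x) (y := y) fun i hi => h i (by omega), h n (by omega)]

lemma measurable_mart (hψ : ∀ n, Measurable (ψ n)) (n : ℕ) :
    Measurable (mart ψ K b m n) := by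
  induction n with
  | zero => exact measurable_const
  | succ n ih =>
    have h1 : Measurable fun x : ℕ → ℝ => ψ n (pos x n, x n) :=
      (hψ n).comp ((measurable_pos n).prodMk (measurable_pi_apply _))
    have h2 : MeasurableSet {x : ℕ → ℝ | m ≤ n ∧ ‖mart ψ K b m n x‖ ≤ K * ((n : ℝ) + 1) ^ b} :=
      (MeasurableSet.const _).inter (measurableSet_le ih.norm measurable_const)
    exact ih.add (Measurable.ite h2 h1 measurable_const)

lemma measurable_incr (hψ : ∀ n, Measurable (ψ n)) (n : ℕ) :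
    Measurable (incr ψ K b m n) := by
  have h1 : Measurable fun x : ℕ → ℝ => ψ n (pos x n, x n) :=
    (hψ n).comp ((measurable_pos n).prodMk (measurable_pi_apply _))
  have h2 : MeasurableSet {x : ℕ → ℝ | m ≤ n ∧ ‖mart ψ K b m n x‖ ≤ K * ((n : ℝ) + 1) ^ b} :=
    (MeasurableSet.const _).inter (measurableSet_le (measurable_mart hψ n).norm measurable_const)
  exact Measurable.ite h2 h1 measurable_const

lemma norm_incr_le {C₁ : ℝ} (hC₁ : 0 ≤ C₁) (hb : ∀ n q, ‖ψ n q‖ ≤ C₁ * ((n : ℝ) + 1) ^ b) (n : ℕ)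
    (x : ℕ → ℝ) : ‖incr ψ K b m n x‖ ≤ C₁ * ((n : ℝ) + 1) ^ b := by
  unfold incr
  split_ifs
  · exact hb n _
  · rw [norm_zero]
    positivity

lemma norm_mart_le {C₁ : ℝ} (hC₁ : 0 ≤ C₁) (hK : 0 ≤ K) (hb0 : 0 ≤ b)
    (hb : ∀ n q, ‖ψ n q‖ ≤ C₁ * ((n : ℝ) + 1) ^ b) (n : ℕ) (x : ℕ → ℝ) :
    ‖mart ψ K b m n x‖ ≤ (K + C₁) * (n : ℝ) ^ b := by
  induction n with
  | zero =>
    rw [mart_zero, norm_zero]
    positivity
  | succ n ih =>
    rw [mart_succ]
    push_cast
    by_cases h : m ≤ n ∧ ‖mart ψ K b m n x‖ ≤ K * ((n : ℝ) + 1) ^ b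
    · refine (norm_add_le _ _).trans ?_
      have h1 := norm_incr_le (K := K) (m := m) hC₁ hb n x
      rw [add_mul]
      exact add_le_add h.2 h1
    · have h1 : incr ψ K b m n x = 0 := by
        unfold incr
        rw [if_neg h]
      rw [h1, add_zero]
      refine ih.trans ?_
      apply mul_le_mul_of_nonneg_left _ (by positivity)
      exact Real.rpow_le_rpow (by positivity) (by linarith) hb0

end

variable {Ω : Type} [MeasurableSpace Ω] (P : Measure Ω) [IsProbabilityMeasure P]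
  (X : ℕ → Ω → ℝ)

omit [IsProbabilityMeasure P] in
lemma measurable_path (hX : IsCauchySeq P X) : Measurable fun ω (i : ℕ) => X i ω :=
  measurable_pi_lambda _ fun i => hX.measurable i

lemma integrable_of_bdd {E : Type*} [NormedAddCommGroup E] [MeasurableSpace E] [BorelSpace E]
    [SecondCountableTopology E] {f : Ω → E} (hf : Measurable f) (C : ℝ) (hC : ∀ ω, ‖f ω‖ ≤ C) :
    Integrable f P :=
  (integrable_const C).mono' hf.aestronglyMeasurable (ae_of_all _ hC)

/-- orthogonality of the increments -/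
theorem orth {ψ : ℕ → ℝ × ℝ → ℂ} {K b C₁ : ℝ} {m : ℕ} (hX : IsCauchySeq P X)
    (hψ : ∀ n, Measurable (ψ n)) (hC₁ : 0 ≤ C₁) (hK : 0 ≤ K) (hb0 : 0 ≤ b)
    (hb : ∀ n q, ‖ψ n q‖ ≤ C₁ * ((n : ℝ) + 1) ^ b)
    (hz : ∀ n x, ∫ u, ψ n (x, u) ∂(cauchyMeasure 0 1) = 0) (n : ℕ) :
    ∫ ω, (starRingEnd ℂ) (mart ψ K b m n fun i => X i ω) * incr ψ K b m n (fun i => X i ω) ∂P
      = 0 := by
  classical
  set Φ : (Fin n → ℝ) → ℂ := fun v =>
    if m ≤ n ∧ ‖mart ψ K b m n (ext v)‖ ≤ K * ((n : ℝ) + 1) ^ b then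
      (starRingEnd ℂ) (mart ψ K b m n (ext v)) else 0 with hΦ
  have hmart : ∀ ω, mart ψ K b m n (ext fun i : Fin n => X i ω) =
      mart ψ K b m n fun i => X i ω := by
    intro ω
    apply mart_congr
    intro i hi
    simp only [ext, hi, dif_pos]
  have hΦm : Measurable Φ := by
    have h1 : Measurable fun v : Fin n → ℝ => mart ψ K b m n (ext v) :=
      (measurable_mart hψ n).comp (measurable_ext n)
    have h2 : MeasurableSet {v : Fin n → ℝ | m ≤ n ∧
        ‖mart ψ K b m n (ext v)‖ ≤ K * ((n : ℝ) + 1) ^ b} :=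
      (MeasurableSet.const _).inter (measurableSet_le h1.norm measurable_const)
    have h3 : Measurable fun v : Fin n → ℝ => (starRingEnd ℂ) (mart ψ K b m n (ext v)) :=
      Complex.continuous_conj.measurable.comp h1
    exact Measurable.ite h2 h3 measurable_const
  have heq : ∀ ω, (starRingEnd ℂ) (mart ψ K b m n fun i => X i ω) *
      incr ψ K b m n (fun i => X i ω) = Φ (fun i => X i ω) * ψ n (walk X n ω, X n ω) := by
    intro ω
    simp only [hΦ, hmart]
    unfold incr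
    split_ifs with h
    · rfl
    · simp
  have hint : Integrable (fun ω => Φ (fun i => X i ω) * ψ n (walk X n ω, X n ω)) P := by
    have h1 : Integrable (fun ω => (starRingEnd ℂ) (mart ψ K b m n fun i => X i ω) *
        incr ψ K b m n (fun i => X i ω)) P := by
      apply integrable_of_bdd P _ ((K + C₁) * (n : ℝ) ^ b * (C₁ * ((n : ℝ) + 1) ^ b))
      · intro ω
        rw [norm_mul, RCLike.norm_conj]
        exact mul_le_mul (norm_mart_le hC₁ hK hb0 hb n _) (norm_incr_le hC₁ hb n _)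
          (norm_nonneg _) (by positivity)
      · have hp := measurable_path P X hX
        exact (Complex.continuous_conj.measurable.comp ((measurable_mart hψ n).comp hp)).mul
          ((measurable_incr hψ n).comp hp)
    exact h1.congr (ae_of_all _ heq)
  rw [integral_congr_ae (ae_of_all _ heq)]
  exact p_ORTH P X hX n Φ (ψ n) hΦm (hψ n) (hz n) hint

/-- the second moments of the increments add up to the second moment of the sum -/
theorem sum_sq {ψ : ℕ → ℝ × ℝ → ℂ} {K b C₁ : ℝ} {m : ℕ} (hX : IsCauchySeq P X)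
    (hψ : ∀ n, Measurable (ψ n)) (hC₁ : 0 ≤ C₁) (hK : 0 ≤ K) (hb0 : 0 ≤ b)
    (hb : ∀ n q, ‖ψ n q‖ ≤ C₁ * ((n : ℝ) + 1) ^ b)
    (hz : ∀ n x, ∫ u, ψ n (x, u) ∂(cauchyMeasure 0 1) = 0) (N : ℕ) :
    ∫ ω, ∑ n ∈ Finset.range N, ‖incr ψ K b m n (fun i => X i ω)‖ ^ 2 ∂P =
      ∫ ω, ‖mart ψ K b m N (fun i => X i ω)‖ ^ 2 ∂P := by
  have hp := measurable_path P X hX
  have hmm : ∀ n, Measurable fun ω => mart ψ K b m n (fun i => X i ω) := fun n =>
    (measurable_mart hψ n).comp hp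
  have him : ∀ n, Measurable fun ω => incr ψ K b m n (fun i => X i ω) := fun n =>
    (measurable_incr hψ n).comp hp
  have hMint : ∀ n, Integrable (fun ω => ‖mart ψ K b m n (fun i => X i ω)‖ ^ 2) P := by
    intro n
    apply integrable_of_bdd P ((hmm n).norm.pow_const 2) (((K + C₁) * (n : ℝ) ^ b) ^ 2)
    intro ω
    rw [Real.norm_of_nonneg (by positivity)]
    exact pow_le_pow_left₀ (norm_nonneg _) (norm_mart_le hC₁ hK hb0 hb n _) 2
  have hIint : ∀ n, Integrable (fun ω => ‖incr ψ K b m n (fun i => X i ω)‖ ^ 2) P := by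
    intro n
    apply integrable_of_bdd P ((him n).norm.pow_const 2) ((C₁ * ((n : ℝ) + 1) ^ b) ^ 2)
    intro ω
    rw [Real.norm_of_nonneg (by positivity)]
    exact pow_le_pow_left₀ (norm_nonneg _) (norm_incr_le hC₁ hb n _) 2
  have hCint : ∀ n, Integrable (fun ω => (starRingEnd ℂ) (mart ψ K b m n fun i => X i ω) *
      incr ψ K b m n (fun i => X i ω)) P := by
    intro n
    apply integrable_of_bdd P _ ((K + C₁) * (n : ℝ) ^ b * (C₁ * ((n : ℝ) + 1) ^ b))
    · intro ω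
      rw [norm_mul, RCLike.norm_conj]
      exact mul_le_mul (norm_mart_le hC₁ hK hb0 hb n _) (norm_incr_le hC₁ hb n _)
        (norm_nonneg _) (by positivity)
    · exact (Complex.continuous_conj.measurable.comp (hmm n)).mul (him n)
  induction N with
  | zero => simp [mart_zero]
  | succ N ih =>
    simp only [Finset.sum_range_succ]
    rw [integral_add (integrable_finsetSum _ fun i _ => hIint i) (hIint N), ih]
    have h1 : ∀ ω, ‖mart ψ K b m (N + 1) (fun i => X i ω)‖ ^ 2 =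
        ‖mart ψ K b m N (fun i => X i ω)‖ ^ 2 + ‖incr ψ K b m N (fun i => X i ω)‖ ^ 2 +
        2 * ((starRingEnd ℂ) (mart ψ K b m N fun i => X i ω) *
          incr ψ K b m N (fun i => X i ω)).re := by
      intro ω
      rw [mart_succ, ← Complex.normSq_eq_norm_sq, ← Complex.normSq_eq_norm_sq,
        ← Complex.normSq_eq_norm_sq, Complex.normSq_add]
      congr 2
      rw [← Complex.conj_re]
      simp [mul_comm]
    have h2 : ∫ ω, ‖mart ψ K b m (N + 1) (fun i => X i ω)‖ ^ 2 ∂P =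
        ∫ ω, ‖mart ψ K b m N (fun i => X i ω)‖ ^ 2 ∂P +
        ∫ ω, ‖incr ψ K b m N (fun i => X i ω)‖ ^ 2 ∂P +
        2 * ∫ ω, ((starRingEnd ℂ) (mart ψ K b m N fun i => X i ω) *
          incr ψ K b m N (fun i => X i ω)).re ∂P := by
      have hre : Integrable (fun ω => 2 * ((starRingEnd ℂ) (mart ψ K b m N fun i => X i ω) *
          incr ψ K b m N (fun i => X i ω)).re) P := (hCint N).re.const_mul 2
      rw [integral_congr_ae (ae_of_all _ h1), integral_add _ hre,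
        integral_add (hMint N) (hIint N), integral_const_mul]
      exact (hMint N).add (hIint N)
    have h3 : ∫ ω, ((starRingEnd ℂ) (mart ψ K b m N fun i => X i ω) *
          incr ψ K b m N (fun i => X i ω)).re ∂P = 0 := by
      have h4 := integral_re (hCint N)
      have h5 := orth (m := m) P X hX hψ hC₁ hK hb0 hb hz N
      rw [h5] at h4
      simpa using h4
    rw [h2, h3]
    ring

/-- the increments are square summable with the right growth, almost surely -/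
theorem ae_incr {ψ : ℕ → ℝ × ℝ → ℂ} {K b b' C₁ : ℝ} {m : ℕ} (hX : IsCauchySeq P X)
    (hψ : ∀ n, Measurable (ψ n)) (hC₁ : 0 ≤ C₁) (hK : 0 ≤ K) (hb0 : 0 ≤ b) (hbb : b < b')
    (hb : ∀ n q, ‖ψ n q‖ ≤ C₁ * ((n : ℝ) + 1) ^ b)
    (hz : ∀ n x, ∫ u, ψ n (x, u) ∂(cauchyMeasure 0 1) = 0) :
    ∀ᵐ ω ∂P, ∃ C : ℝ, 0 ≤ C ∧ ∀ N : ℕ, 1 ≤ N →
      ∑ n ∈ Finset.range N, ‖incr ψ K b m n (fun i => X i ω)‖ ^ 2 ≤ C * (N : ℝ) ^ (2 * b') := by
  have hp := measurable_path P X hX
  have him : ∀ n, Measurable fun ω => incr ψ K b m n (fun i => X i ω) := fun n =>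
    (measurable_incr hψ n).comp hp
  have hIint : ∀ n, Integrable (fun ω => ‖incr ψ K b m n (fun i => X i ω)‖ ^ 2) P := by
    intro n
    apply integrable_of_bdd P ((him n).norm.pow_const 2) ((C₁ * ((n : ℝ) + 1) ^ b) ^ 2)
    intro ω
    rw [Real.norm_of_nonneg (by positivity)]
    exact pow_le_pow_left₀ (norm_nonneg _) (norm_incr_le hC₁ hb n _) 2
  refine ae_dyadic P
    (fun N ω => ∑ n ∈ Finset.range N, ‖incr ψ K b m n (fun i => X i ω)‖ ^ 2)
    (fun N => Finset.measurable_sum _ fun i _ => (him i).norm.pow_const 2)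
    (fun N ω => Finset.sum_nonneg fun i _ => by positivity) ?_
    (fun N => integrable_finsetSum _ fun i _ => hIint i) (2 * b) (2 * b') ((K + C₁) ^ 2)
    (by linarith) (by linarith) ?_
  · intro ω n₁ n₂ h
    exact Finset.sum_le_sum_of_subset_of_nonneg (Finset.range_mono h)
      fun i _ _ => by positivity
  · intro N hN
    rw [sum_sq P X hX hψ hC₁ hK hb0 hb hz N]
    have hN0 : (0 : ℝ) < N := by exact_mod_cast hN
    have h1 : ∀ ω, ‖mart ψ K b m N (fun i => X i ω)‖ ^ 2 ≤ (K + C₁) ^ 2 * (N : ℝ) ^ (2 * b) := by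
      intro ω
      have h2 := pow_le_pow_left₀ (norm_nonneg _)
        (norm_mart_le (m := m) hC₁ hK hb0 hb N (fun i => X i ω)) 2
      rw [mul_pow, ← Real.rpow_natCast ((N : ℝ) ^ b) 2, ← Real.rpow_mul hN0.le] at h2
      rw [show 2 * b = b * ((2 : ℕ) : ℝ) by push_cast; ring]
      exact h2
    have hmm : Measurable fun ω => mart ψ K b m N (fun i => X i ω) :=
      (measurable_mart hψ N).comp hp
    have h3 : Integrable (fun ω => ‖mart ψ K b m N (fun i => X i ω)‖ ^ 2) P := by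
      apply integrable_of_bdd P (hmm.norm.pow_const 2) ((K + C₁) ^ 2 * (N : ℝ) ^ (2 * b))
      intro ω
      rw [Real.norm_of_nonneg (by positivity)]
      exact h1 ω
    calc ∫ ω, ‖mart ψ K b m N (fun i => X i ω)‖ ^ 2 ∂P
        ≤ ∫ _ω, (K + C₁) ^ 2 * (N : ℝ) ^ (2 * b) ∂P :=
          integral_mono h3 (integrable_const _) h1
      _ = _ := by simp

end QV_

end Pool.Agent.CW
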