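import Mathlib
import Pool.Agent.CW.Defs2
import Pool.Agent.CW.MOM

/-!
# Quadratic variation, part two: truncated increments and their drift
-/

namespace Pool.Agent.CW

open MeasureTheory ProbabilityTheory Set Filter Topology Complex

namespace QV_

/-- the truncation radius -/
noncomputable def rad (a : ℝ) (n : ℕ) : ℝ := ((n : ℝ) + 1) ^ (1 + a)

/-- the truncated increment -/
noncomputable def dd (f h : ℝ → ℂ) (a : ℝ) (n : ℕ) (q : ℝ × ℝ) : ℂ :=
  if |q.1 + q.2| ≤ rad a n then f (q.1 + q.2) + h (q.1 + q.2) - h q.1 else 0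

/-- the drift of the truncated increment -/
noncomputable def ee (f h : ℝ → ℂ) (a : ℝ) (n : ℕ) (x : ℝ) : ℂ :=
  ∫ u, dd f h a n (x, u) ∂(cauchyMeasure 0 1)

/-- the centred truncated increment -/
noncomputable def psi (f h : ℝ → ℂ) (a : ℝ) (n : ℕ) (q : ℝ × ℝ) : ℂ :=
  dd f h a n q - ee f h a n q.1

variable {f h : ℝ → ℂ} {a c C₀ b : ℝ}

lemma one_le_rad (ha : 0 ≤ a) (n : ℕ) : 1 ≤ rad a n :=
  Real.one_le_rpow (by linarith [Nat.cast_nonneg (α := ℝ) n]) (by linarith)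

lemma le_rad (ha : 0 ≤ a) (n : ℕ) : (n : ℝ) + 1 ≤ rad a n := by
  have h1 : ((n : ℝ) + 1) ^ (1 : ℝ) ≤ ((n : ℝ) + 1) ^ (1 + a) :=
    Real.rpow_le_rpow_of_exponent_le (by linarith [Nat.cast_nonneg (α := ℝ) n]) (by linarith)
  rwa [Real.rpow_one] at h1

lemma measurable_dd (hf : Continuous f) (hh : Continuous h) (n : ℕ) :
    Measurable (dd f h a n) := by
  have h1 : Measurable fun q : ℝ × ℝ => f (q.1 + q.2) + h (q.1 + q.2) - h q.1 := by
    have : Continuous fun q : ℝ × ℝ => f (q.1 + q.2) + h (q.1 + q.2) - h q.1 := by fun_prop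
    exact this.measurable
  have h2 : MeasurableSet {q : ℝ × ℝ | |q.1 + q.2| ≤ rad a n} := by
    have : Continuous fun q : ℝ × ℝ => |q.1 + q.2| := by fun_prop
    exact measurableSet_le this.measurable measurable_const
  exact Measurable.ite h2 h1 measurable_const

lemma measurable_ee (hf : Continuous f) (hh : Continuous h) (n : ℕ) :
    Measurable (ee f h a n) := by
  have h1 := (measurable_dd (a := a) hf hh n).stronglyMeasurable
  exact (StronglyMeasurable.integral_prod_right' (ν := cauchyMeasure 0 1) h1).measurable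

lemma measurable_psi (hf : Continuous f) (hh : Continuous h) (n : ℕ) :
    Measurable (psi f h a n) :=
  (measurable_dd hf hh n).sub ((measurable_ee hf hh n).comp measurable_fst)

lemma norm_dd_le (ha : 0 ≤ a) (hc0 : 0 ≤ c) (hc1 : c < 1) (hC₀ : 0 < C₀) (hb : (1 + a) * c ≤ b)
    (hfb : ∀ x, ‖f x‖ ≤ C₀ * (1 + |x|) ^ c) (hhb : ∀ x, ‖h x‖ ≤ C₀) (n : ℕ) (q : ℝ × ℝ) :
    ‖dd f h a n q‖ ≤ 4 * C₀ * ((n : ℝ) + 1) ^ b := by
  have hn1 : (1 : ℝ) ≤ (n : ℝ) + 1 := by linarith [Nat.cast_nonneg (α := ℝ) n]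
  have hb0 : 0 ≤ b := le_trans (by positivity) hb
  have h1b : (1 : ℝ) ≤ ((n : ℝ) + 1) ^ b := Real.one_le_rpow hn1 hb0
  unfold dd
  split_ifs with hq
  · have hR := one_le_rad ha n
    have h1 : (1 + |q.1 + q.2|) ^ c ≤ 2 * ((n : ℝ) + 1) ^ b := by
      calc (1 + |q.1 + q.2|) ^ c ≤ (2 * rad a n) ^ c :=
            Real.rpow_le_rpow (by positivity) (by linarith) hc0
        _ = 2 ^ c * (rad a n) ^ c := Real.mul_rpow (by norm_num) (by linarith)
        _ ≤ 2 * ((n : ℝ) + 1) ^ b := by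
            have h2 : (2 : ℝ) ^ c ≤ 2 := by
              calc (2 : ℝ) ^ c ≤ (2 : ℝ) ^ (1 : ℝ) :=
                    Real.rpow_le_rpow_of_exponent_le (by norm_num) hc1.le
                _ = 2 := Real.rpow_one 2
            have h3 : (rad a n) ^ c ≤ ((n : ℝ) + 1) ^ b := by
              unfold rad
              rw [← Real.rpow_mul (by linarith)]
              exact Real.rpow_le_rpow_of_exponent_le hn1 hb
            exact mul_le_mul h2 h3 (by unfold rad; positivity) (by norm_num)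
    have h2 := hfb (q.1 + q.2)
    have h3 := hhb (q.1 + q.2)
    have h4 := hhb q.1
    have h5 : ‖f (q.1 + q.2) + h (q.1 + q.2) - h q.1‖ ≤
        ‖f (q.1 + q.2)‖ + ‖h (q.1 + q.2)‖ + ‖h q.1‖ :=
      (norm_sub_le _ _).trans (by gcongr; exact norm_add_le _ _)
    nlinarith
  · rw [norm_zero]
    positivity

lemma integrable_dd (ha : 0 ≤ a) (hc0 : 0 ≤ c) (hc1 : c < 1) (hC₀ : 0 < C₀)
    (hf : Continuous f) (hh : Continuous h)
    (hfb : ∀ x, ‖f x‖ ≤ C₀ * (1 + |x|) ^ c) (hhb : ∀ x, ‖h x‖ ≤ C₀) (n : ℕ) (x : ℝ) :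
    Integrable (fun u => dd f h a n (x, u)) (cauchyMeasure 0 1) := by
  have hm : Measurable fun u => dd f h a n (x, u) :=
    (measurable_dd (a := a) hf hh n).comp measurable_prodMk_left
  exact (integrable_const (4 * C₀ * ((n : ℝ) + 1) ^ ((1 + a) * c))).mono' hm.aestronglyMeasurable
    (ae_of_all _ fun u => norm_dd_le ha hc0 hc1 hC₀ le_rfl hfb hhb n (x, u))

lemma norm_ee_le (ha : 0 ≤ a) (hc0 : 0 ≤ c) (hc1 : c < 1) (hC₀ : 0 < C₀) (hb : (1 + a) * c ≤ b)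
    (hfb : ∀ x, ‖f x‖ ≤ C₀ * (1 + |x|) ^ c) (hhb : ∀ x, ‖h x‖ ≤ C₀) (n : ℕ) (x : ℝ) :
    ‖ee f h a n x‖ ≤ 4 * C₀ * ((n : ℝ) + 1) ^ b := by
  unfold ee
  have h1 := norm_integral_le_of_norm_le_const (μ := cauchyMeasure 0 1)
    (f := fun u => dd f h a n (x, u)) (C := 4 * C₀ * ((n : ℝ) + 1) ^ b)
    (ae_of_all _ fun u => norm_dd_le ha hc0 hc1 hC₀ hb hfb hhb n (x, u))
  simpa using h1

lemma norm_psi_le (ha : 0 ≤ a) (hc0 : 0 ≤ c) (hc1 : c < 1) (hC₀ : 0 < C₀) (hb : (1 + a) * c ≤ b)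
    (hfb : ∀ x, ‖f x‖ ≤ C₀ * (1 + |x|) ^ c) (hhb : ∀ x, ‖h x‖ ≤ C₀) (n : ℕ) (q : ℝ × ℝ) :
    ‖psi f h a n q‖ ≤ 8 * C₀ * ((n : ℝ) + 1) ^ b := by
  unfold psi
  refine (norm_sub_le _ _).trans ?_
  have h1 := norm_dd_le ha hc0 hc1 hC₀ hb hfb hhb n q
  have h2 := norm_ee_le ha hc0 hc1 hC₀ hb hfb hhb n q.1
  linarith

lemma integral_psi (ha : 0 ≤ a) (hc0 : 0 ≤ c) (hc1 : c < 1) (hC₀ : 0 < C₀)
    (hf : Continuous f) (hh : Continuous h)
    (hfb : ∀ x, ‖f x‖ ≤ C₀ * (1 + |x|) ^ c) (hhb : ∀ x, ‖h x‖ ≤ C₀) (n : ℕ) (x : ℝ) :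
    ∫ u, psi f h a n (x, u) ∂(cauchyMeasure 0 1) = 0 := by
  unfold psi
  simp only
  rw [integral_sub (integrable_dd ha hc0 hc1 hC₀ hf hh hfb hhb n x) (integrable_const _)]
  simp [ee]

/-- the drift is small -/
lemma drift (ha : 0 ≤ a) (hc0 : 0 ≤ c) (hC₀ : 0 < C₀) (hbc : c < b) (hb1 : b < 1)
    (hf : Continuous f) (hh : Continuous h)
    (hfb : ∀ x, ‖f x‖ ≤ C₀ * (1 + |x|) ^ c) (hhb : ∀ x, ‖h x‖ ≤ C₀)
    (hmean : ∀ x, Integrable (fun u => f (x + u) + h (x + u)) (cauchyMeasure 0 1) ∧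
        ∫ u, (f (x + u) + h (x + u)) ∂(cauchyMeasure 0 1) = h x) :
    ∃ C₃ : ℝ, 0 ≤ C₃ ∧ ∀ (n : ℕ) (x : ℝ), |x| ≤ rad a n / 2 →
      ‖ee f h a n x‖ ≤ C₃ * ((n : ℝ) + 1) ^ (-(1 - b)) := by
  obtain ⟨C₄, hC₄, hmom⟩ := p_MOM (1 - (b - c)) (by linarith) (by linarith)
  have hmom1 : Integrable (fun x : ℝ => (1 + |x|) ^ (1 - (b - c))) (cauchyMeasure 0 1) ∧
      ∫ x : ℝ, (1 + |x|) ^ (1 - (b - c)) ∂(cauchyMeasure 0 1) ≤ C₄ := by
    have h0 := hmom 1 le_rfl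
    simpa using h0
  refine ⟨8 * C₀ * C₄, by positivity, fun n x hx => ?_⟩
  have hc1 : c < 1 := by linarith
  have hR := one_le_rad ha n
  have hR' := le_rad ha n
  obtain ⟨hi, hm⟩ := hmean x
  have hi2 : Integrable (fun u => f (x + u) + h (x + u) - h x) (cauchyMeasure 0 1) :=
    hi.sub (integrable_const _)
  have hm2 : ∫ u, (f (x + u) + h (x + u) - h x) ∂(cauchyMeasure 0 1) = 0 := by
    rw [integral_sub hi (integrable_const _), hm]
    simp
  have hdi := integrable_dd (a := a) ha hc0 hc1 hC₀ hf hh hfb hhb n x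
  have h1 : ee f h a n x =
      ∫ u, (dd f h a n (x, u) - (f (x + u) + h (x + u) - h x)) ∂(cauchyMeasure 0 1) := by
    rw [integral_sub hdi hi2, hm2, sub_zero]
    rfl
  have hn1 : (0 : ℝ) < (n : ℝ) + 1 := by positivity
  have h2 : ∀ u : ℝ, ‖dd f h a n (x, u) - (f (x + u) + h (x + u) - h x)‖ ≤
      8 * C₀ * ((n : ℝ) + 1) ^ (-(1 - b)) * (1 + |u|) ^ (1 - (b - c)) := by
    intro u
    unfold dd
    simp only
    split_ifs with hq
    · rw [sub_self, norm_zero]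
      positivity
    · push Not at hq
      have h3 : |x + u| ≤ |x| + |u| := abs_add_le x u
      have hu : rad a n / 2 < |u| := by linarith
      have h4 : 1 + |x + u| ≤ 2 * (1 + |u|) := by linarith
      have h5 : (1 + |x + u|) ^ c ≤ 2 * (1 + |u|) ^ c := by
        calc (1 + |x + u|) ^ c ≤ (2 * (1 + |u|)) ^ c :=
              Real.rpow_le_rpow (by positivity) h4 hc0
          _ = 2 ^ c * (1 + |u|) ^ c := Real.mul_rpow (by norm_num) (by positivity)
          _ ≤ 2 * (1 + |u|) ^ c := by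
              apply mul_le_mul_of_nonneg_right _ (by positivity)
              calc (2 : ℝ) ^ c ≤ (2 : ℝ) ^ (1 : ℝ) :=
                    Real.rpow_le_rpow_of_exponent_le (by norm_num) hc1.le
                _ = 2 := Real.rpow_one 2
      have h6 : (1 : ℝ) ≤ (1 + |u|) ^ c := Real.one_le_rpow (by linarith [abs_nonneg u]) hc0
      have h7 : ‖f (x + u) + h (x + u) - h x‖ ≤ 4 * C₀ * (1 + |u|) ^ c := by
        have e1 := hfb (x + u)
        have e2 := hhb (x + u)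
        have e3 := hhb x
        have e4 : ‖f (x + u) + h (x + u) - h x‖ ≤ ‖f (x + u)‖ + ‖h (x + u)‖ + ‖h x‖ :=
          (norm_sub_le _ _).trans (by gcongr; exact norm_add_le _ _)
        nlinarith
      have h8 : (1 + |u|) ^ c ≤ 2 * ((n : ℝ) + 1) ^ (-(1 - b)) * (1 + |u|) ^ (1 - (b - c)) := by
        have e1 : (1 + |u|) ^ c = (1 + |u|) ^ (-(1 - b)) * (1 + |u|) ^ (1 - (b - c)) := by
          rw [← Real.rpow_add (by positivity)]
          congr 1
          ring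
        rw [e1]
        apply mul_le_mul_of_nonneg_right _ (by positivity)
        have e2 : ((n : ℝ) + 1) / 2 ≤ 1 + |u| := by linarith
        have e3 : (1 + |u|) ^ (-(1 - b)) ≤ (((n : ℝ) + 1) / 2) ^ (-(1 - b)) :=
          Real.rpow_le_rpow_of_nonpos (by positivity) e2 (by linarith)
        refine e3.trans ?_
        rw [Real.div_rpow hn1.le (by norm_num), Real.rpow_neg (by norm_num : (0 : ℝ) ≤ 2),
          div_inv_eq_mul, mul_comm]
        apply mul_le_mul_of_nonneg_right _ (by positivity)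
        calc (2 : ℝ) ^ (1 - b) ≤ (2 : ℝ) ^ (1 : ℝ) :=
              Real.rpow_le_rpow_of_exponent_le (by norm_num) (by linarith)
          _ = 2 := Real.rpow_one 2
      rw [zero_sub, norm_neg]
      calc ‖f (x + u) + h (x + u) - h x‖ ≤ 4 * C₀ * (1 + |u|) ^ c := h7
        _ ≤ 4 * C₀ * (2 * ((n : ℝ) + 1) ^ (-(1 - b)) * (1 + |u|) ^ (1 - (b - c))) :=
            mul_le_mul_of_nonneg_left h8 (by positivity)
        _ = _ := by ring
  rw [h1]
  calc ‖∫ u, (dd f h a n (x, u) - (f (x + u) + h (x + u) - h x)) ∂(cauchyMeasure 0 1)‖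
      ≤ ∫ u, ‖dd f h a n (x, u) - (f (x + u) + h (x + u) - h x)‖ ∂(cauchyMeasure 0 1) :=
        norm_integral_le_integral_norm _
    _ ≤ ∫ u, 8 * C₀ * ((n : ℝ) + 1) ^ (-(1 - b)) * (1 + |u|) ^ (1 - (b - c))
          ∂(cauchyMeasure 0 1) :=
        integral_mono (hdi.sub hi2).norm (hmom1.1.const_mul _) h2
    _ = 8 * C₀ * ((n : ℝ) + 1) ^ (-(1 - b)) * ∫ u, (1 + |u|) ^ (1 - (b - c))
          ∂(cauchyMeasure 0 1) := integral_const_mul _ _
    _ ≤ 8 * C₀ * ((n : ℝ) + 1) ^ (-(1 - b)) * C₄ :=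
        mul_le_mul_of_nonneg_left hmom1.2 (by positivity)
    _ = _ := by ring

end QV_

end Pool.Agent.CW
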