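import Mathlib
import Pool.Agent.CW.Defs2
import Pool.Agent.CW.QVA
import Pool.Agent.CW.QVB
import Pool.Agent.CW.GROW
import Pool.Agent.CW.BLOCK

/-!
# Quadratic variation, part three: the path argument and the theorem
-/

namespace Pool.Agent.CW

open MeasureTheory ProbabilityTheory Set Filter Topology Complex

namespace QV_

lemma sum_rpow_le {b : ℝ} (hb0 : 0 < b) (hb1 : b < 1) (N : ℕ) :
    ∑ n ∈ Finset.range N, ((n : ℝ) + 1) ^ (-(1 - b)) ≤ b⁻¹ * (N : ℝ) ^ b := by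
  induction N with
  | zero => simp; positivity
  | succ N ih =>
    rw [Finset.sum_range_succ]
    have hN : (0 : ℝ) < (N : ℝ) + 1 := by positivity
    have h1 : (N : ℝ) ^ b ≤ ((N : ℝ) + 1) ^ b * (1 - b / ((N : ℝ) + 1)) := by
      have h2 : (N : ℝ) = ((N : ℝ) + 1) * (1 + -(1 / ((N : ℝ) + 1))) := by
        field_simp
        ring
      have h3 : (0 : ℝ) ≤ 1 + -(1 / ((N : ℝ) + 1)) := by
        have : 1 / ((N : ℝ) + 1) ≤ 1 := by
          rw [div_le_one hN]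
          linarith [Nat.cast_nonneg (α := ℝ) N]
        linarith
      have h4 : (1 + -(1 / ((N : ℝ) + 1))) ^ b ≤ 1 + b * -(1 / ((N : ℝ) + 1)) :=
        _root_.rpow_one_add_le_one_add_mul_self (by linarith) hb0.le hb1.le
      calc (N : ℝ) ^ b = (((N : ℝ) + 1) * (1 + -(1 / ((N : ℝ) + 1)))) ^ b := by rw [← h2]
        _ = ((N : ℝ) + 1) ^ b * (1 + -(1 / ((N : ℝ) + 1))) ^ b := Real.mul_rpow hN.le h3
        _ ≤ ((N : ℝ) + 1) ^ b * (1 + b * -(1 / ((N : ℝ) + 1))) :=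
            mul_le_mul_of_nonneg_left h4 (by positivity)
        _ = _ := by ring
    have h5 : ((N : ℝ) + 1) ^ (-(1 - b)) = ((N : ℝ) + 1) ^ b / ((N : ℝ) + 1) := by
      rw [show -(1 - b) = b - 1 by ring, Real.rpow_sub hN, Real.rpow_one]
    have h6 : b⁻¹ * (N : ℝ) ^ b ≤ b⁻¹ * ((N : ℝ) + 1) ^ b - ((N : ℝ) + 1) ^ b / ((N : ℝ) + 1) := by
      calc b⁻¹ * (N : ℝ) ^ b ≤ b⁻¹ * (((N : ℝ) + 1) ^ b * (1 - b / ((N : ℝ) + 1))) :=
            mul_le_mul_of_nonneg_left h1 (by positivity)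
        _ = _ := by
            field_simp
    rw [h5]
    push_cast
    linarith

lemma pos_succ (x : ℕ → ℝ) (n : ℕ) : pos x (n + 1) = pos x n + x n := Finset.sum_range_succ _ _

lemma sum_shift (s : ℕ → ℝ) (f h : ℝ → ℂ) {m N : ℕ} (hmN : m ≤ N) :
    ∑ n ∈ Finset.Ico m N, (f (s (n + 1)) + h (s (n + 1)) - h (s n)) =
      ∑ n ∈ Finset.Ioc m N, f (s n) + h (s N) - h (s m) := by
  induction N, hmN using Nat.le_induction with
  | base => simp
  | succ N hN ih =>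
    rw [Finset.sum_Ico_succ_top hN, ih, Finset.sum_Ioc_succ_top (by omega)]
    ring

lemma dev_sub (k : ℕ) (s : ℕ → ℝ) {m N : ℕ} (hmN : m ≤ N) :
    ∑ n ∈ Finset.Ioc m N, (zl (s n) ^ k - 1) = dev k s N - dev k s m := by
  induction N, hmN using Nat.le_induction with
  | base => simp
  | succ N hN ih =>
    rw [Finset.sum_Ioc_succ_top (by omega), ih]
    unfold dev
    rw [Finset.sum_Icc_succ_top (by omega)]
    ring

/-- eventually the walk is well inside the truncation radius -/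
lemma exists_start {a C : ℝ} (ha : 0 < a) (s : ℕ → ℝ)
    (hg : ∀ n : ℕ, 1 ≤ n → |s n| ≤ C * (n : ℝ) ^ (1 + a / 2)) :
    ∃ m : ℕ, 1 ≤ m ∧ ∀ n, m ≤ n → |s n| ≤ rad a n / 2 ∧ |s (n + 1)| ≤ rad a n / 2 := by
  have h1 : Tendsto (fun n : ℕ => ((n : ℝ) + 1) ^ (a / 2)) atTop atTop :=
    (tendsto_rpow_atTop (by positivity : (0 : ℝ) < a / 2)).comp
      (tendsto_natCast_atTop_atTop.atTop_add tendsto_const_nhds)
  obtain ⟨m₀, hm₀⟩ := eventually_atTop.mp (h1.eventually_ge_atTop (2 * |C|))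
  refine ⟨max m₀ 1, le_max_right _ _, fun n hn => ?_⟩
  have hn0 : m₀ ≤ n := (le_max_left _ _).trans hn
  have hn1 : 1 ≤ n := (le_max_right _ _).trans hn
  have h2 := hm₀ n hn0
  have hn' : (0 : ℝ) < (n : ℝ) + 1 := by positivity
  have key : ∀ j : ℕ, 1 ≤ j → j ≤ n + 1 → |s j| ≤ rad a n / 2 := by
    intro j hj1 hj2
    have hj0 : (0 : ℝ) ≤ (j : ℝ) := Nat.cast_nonneg j
    have hj3 : (j : ℝ) ≤ (n : ℝ) + 1 := by exact_mod_cast hj2
    calc |s j| ≤ C * (j : ℝ) ^ (1 + a / 2) := hg j hj1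
      _ ≤ |C| * ((n : ℝ) + 1) ^ (1 + a / 2) := by
          apply mul_le_mul (le_abs_self C) _ (by positivity) (abs_nonneg C)
          exact Real.rpow_le_rpow hj0 hj3 (by positivity)
      _ ≤ (((n : ℝ) + 1) ^ (a / 2) / 2) * ((n : ℝ) + 1) ^ (1 + a / 2) := by
          apply mul_le_mul_of_nonneg_right _ (by positivity)
          linarith
      _ = rad a n / 2 := by
          unfold rad
          rw [div_mul_eq_mul_div, ← Real.rpow_add hn']
          congr 2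
          ring
  exact ⟨key n hn1 (by omega), key (n + 1) (by omega) le_rfl⟩

/-- the path argument -/
theorem path {f h : ℝ → ℂ} {a c b b' C₀ C₃ : ℝ} {k : ℕ} (ha : 0 < a) (hc : 1 / 2 ≤ c)
    (hcb : c < b) (hb1 : b < 1) (hbb : b < b') (hC₀ : 0 < C₀) (hC₃ : 0 ≤ C₃)
    (hhb : ∀ x, ‖h x‖ ≤ C₀) (hfz : ∀ x, ‖f x - (zl x ^ k - 1)‖ ≤ C₀ * (1 + |x|)⁻¹)
    (hdrift : ∀ (n : ℕ) (x : ℝ), |x| ≤ rad a n / 2 →
      ‖ee f h a n x‖ ≤ C₃ * ((n : ℝ) + 1) ^ (-(1 - b)))
    (x : ℕ → ℝ) (hg : ∃ C : ℝ, ∀ n : ℕ, 1 ≤ n → |pos x n| ≤ C * (n : ℝ) ^ (1 + a / 2))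
    (herr : ∃ W : ℝ, 0 ≤ W ∧ ∀ N : ℕ, 1 ≤ N →
      ∑ n ∈ Finset.Icc 1 N, (1 + |pos x n|)⁻¹ ≤ W * (N : ℝ) ^ ((1 : ℝ) / 2))
    (hsq : ∀ (K m : ℕ), ∃ C : ℝ, 0 ≤ C ∧ ∀ N : ℕ, 1 ≤ N →
      ∑ n ∈ Finset.range N, ‖incr (psi f h a) K b m n x‖ ^ 2 ≤ C * (N : ℝ) ^ (2 * b'))
    (hdev : ∃ C : ℝ, ∀ N : ℕ, 1 ≤ N → ‖dev k (pos x) N‖ ≤ C * (N : ℝ) ^ c) :
    ∃ C : ℝ, ∀ N : ℕ, 1 ≤ N →
      ∑ n ∈ Finset.Icc 1 N, ‖zl (pos x n) ^ k - 1‖ ^ 2 ≤ C * (N : ℝ) ^ (2 * b') := by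
  obtain ⟨Cg, hCg⟩ := hg
  obtain ⟨W, hW0, hW⟩ := herr
  obtain ⟨Cd, hCd⟩ := hdev
  obtain ⟨m, hm1, hm⟩ := exists_start ha (pos x) hCg
  set s : ℕ → ℝ := pos x with hs
  have hb0 : 0 < b := by linarith
  have hCd0 : 0 ≤ Cd := by
    have h1 := hCd 1 le_rfl
    rw [Nat.cast_one, Real.one_rpow, mul_one] at h1
    exact (norm_nonneg _).trans h1
  -- the increments
  have hdd : ∀ n, m ≤ n → dd f h a n (s n, x n) = f (s (n + 1)) + h (s (n + 1)) - h (s n) := by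
    intro n hn
    have h1 : s n + x n = s (n + 1) := by rw [hs, pos_succ]
    unfold dd
    simp only
    rw [h1, if_pos]
    have h2 := (hm n hn).2
    have h3 := one_le_rad ha.le n
    linarith
  -- the bound for the sums
  obtain ⟨K, hK⟩ : ∃ K : ℕ, ∀ N, m ≤ N →
      ‖∑ n ∈ Finset.Ico m N, psi f h a n (s n, x n)‖ ≤ (K : ℝ) * ((N : ℝ) + 1) ^ b := by
    set D : ℝ := C₀ * W + Cd + Cd * (m : ℝ) ^ c + 2 * C₀ + C₃ * b⁻¹ with hD
    obtain ⟨K, hK⟩ := exists_nat_ge D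
    refine ⟨K, fun N hN => ?_⟩
    have hN1 : 1 ≤ N := hm1.trans hN
    have hN0 : (1 : ℝ) ≤ N := by exact_mod_cast hN1
    have hNb : (1 : ℝ) ≤ (N : ℝ) ^ b := Real.one_le_rpow hN0 hb0.le
    have h1 : ∑ n ∈ Finset.Ico m N, psi f h a n (s n, x n) =
        ∑ n ∈ Finset.Ioc m N, (f (s n) - (zl (s n) ^ k - 1)) + (dev k s N - dev k s m) +
        (h (s N) - h (s m)) - ∑ n ∈ Finset.Ico m N, ee f h a n (s n) := by
      unfold psi
      rw [Finset.sum_sub_distrib, Finset.sum_sub_distrib, dev_sub k s hN]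
      have h2 : ∑ n ∈ Finset.Ico m N, dd f h a n (s n, x n) =
          ∑ n ∈ Finset.Ico m N, (f (s (n + 1)) + h (s (n + 1)) - h (s n)) :=
        Finset.sum_congr rfl fun n hn => hdd n (Finset.mem_Ico.mp hn).1
      rw [h2, sum_shift s f h hN]
      ring
    have h2 : ‖∑ n ∈ Finset.Ioc m N, (f (s n) - (zl (s n) ^ k - 1))‖ ≤ C₀ * W * (N : ℝ) ^ b := by
      calc ‖∑ n ∈ Finset.Ioc m N, (f (s n) - (zl (s n) ^ k - 1))‖
          ≤ ∑ n ∈ Finset.Ioc m N, ‖f (s n) - (zl (s n) ^ k - 1)‖ := norm_sum_le _ _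
        _ ≤ ∑ n ∈ Finset.Ioc m N, C₀ * (1 + |s n|)⁻¹ := Finset.sum_le_sum fun n _ => hfz _
        _ ≤ ∑ n ∈ Finset.Icc 1 N, C₀ * (1 + |s n|)⁻¹ := by
            apply Finset.sum_le_sum_of_subset_of_nonneg
            · intro n hn
              rw [Finset.mem_Ioc] at hn
              rw [Finset.mem_Icc]
              omega
            · intro n _ _
              positivity
        _ = C₀ * ∑ n ∈ Finset.Icc 1 N, (1 + |s n|)⁻¹ := by rw [Finset.mul_sum]
        _ ≤ C₀ * (W * (N : ℝ) ^ ((1 : ℝ) / 2)) := mul_le_mul_of_nonneg_left (hW N hN1) hC₀.le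
        _ ≤ C₀ * (W * (N : ℝ) ^ b) := by
            have := Real.rpow_le_rpow_of_exponent_le hN0 (by linarith : (1 : ℝ) / 2 ≤ b)
            gcongr
        _ = _ := by ring
    have h3 : ‖dev k s N - dev k s m‖ ≤ (Cd + Cd * (m : ℝ) ^ c) * (N : ℝ) ^ b := by
      have e1 := hCd N hN1
      have e2 := hCd m hm1
      have e3 : (N : ℝ) ^ c ≤ (N : ℝ) ^ b := Real.rpow_le_rpow_of_exponent_le hN0 hcb.le
      have e4 := norm_sub_le (dev k s N) (dev k s m)
      have e5 : 0 ≤ Cd * (m : ℝ) ^ c := by positivity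
      nlinarith
    have h4 : ‖h (s N) - h (s m)‖ ≤ 2 * C₀ * (N : ℝ) ^ b := by
      have e1 := hhb (s N)
      have e2 := hhb (s m)
      have e3 := norm_sub_le (h (s N)) (h (s m))
      nlinarith
    have h5 : ‖∑ n ∈ Finset.Ico m N, ee f h a n (s n)‖ ≤ C₃ * b⁻¹ * (N : ℝ) ^ b := by
      calc ‖∑ n ∈ Finset.Ico m N, ee f h a n (s n)‖
          ≤ ∑ n ∈ Finset.Ico m N, ‖ee f h a n (s n)‖ := norm_sum_le _ _
        _ ≤ ∑ n ∈ Finset.Ico m N, C₃ * ((n : ℝ) + 1) ^ (-(1 - b)) :=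
            Finset.sum_le_sum fun n hn => hdrift n _ (hm n (Finset.mem_Ico.mp hn).1).1
        _ ≤ ∑ n ∈ Finset.range N, C₃ * ((n : ℝ) + 1) ^ (-(1 - b)) := by
            apply Finset.sum_le_sum_of_subset_of_nonneg
            · intro n hn
              rw [Finset.mem_Ico] at hn
              rw [Finset.mem_range]
              omega
            · intro n _ _
              positivity
        _ = C₃ * ∑ n ∈ Finset.range N, ((n : ℝ) + 1) ^ (-(1 - b)) := by rw [Finset.mul_sum]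
        _ ≤ C₃ * (b⁻¹ * (N : ℝ) ^ b) :=
            mul_le_mul_of_nonneg_left (sum_rpow_le hb0 hb1 N) hC₃
        _ = _ := by ring
    rw [h1]
    calc _ ≤ C₀ * W * (N : ℝ) ^ b + (Cd + Cd * (m : ℝ) ^ c) * (N : ℝ) ^ b +
          2 * C₀ * (N : ℝ) ^ b + C₃ * b⁻¹ * (N : ℝ) ^ b := by
          refine (norm_sub_le _ _).trans ?_
          refine add_le_add ?_ h5
          refine (norm_add_le _ _).trans ?_
          refine add_le_add ?_ h4
          exact (norm_add_le _ _).trans (add_le_add h2 h3)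
      _ = D * (N : ℝ) ^ b := by rw [hD]; ring
      _ ≤ K * ((N : ℝ) + 1) ^ b := by
          apply mul_le_mul hK _ (by positivity) (Nat.cast_nonneg K)
          exact Real.rpow_le_rpow (by positivity) (by linarith) hb0.le
  -- the stopped sums are not stopped
  have hmart0 : ∀ n, n ≤ m → mart (psi f h a) K b m n x = 0 := by
    intro n
    induction n with
    | zero => intro _; rfl
    | succ n ih =>
      intro hn
      rw [mart_succ, ih (by omega)]
      unfold incr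
      rw [if_neg (by omega), add_zero]
  have hincr_of : ∀ n, m ≤ n →
      mart (psi f h a) K b m n x = ∑ j ∈ Finset.Ico m n, psi f h a j (s j, x j) →
      incr (psi f h a) K b m n x = psi f h a n (s n, x n) := by
    intro n hn h1
    unfold incr
    rw [if_pos]
    refine ⟨hn, ?_⟩
    rw [h1]
    exact hK n hn
  have hmart : ∀ n, m ≤ n →
      mart (psi f h a) K b m n x = ∑ j ∈ Finset.Ico m n, psi f h a j (s j, x j) := by
    intro n hn
    induction n, hn using Nat.le_induction with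
    | base => rw [hmart0 m le_rfl]; simp
    | succ n hn ih =>
      rw [mart_succ, hincr_of n hn ih, ih, Finset.sum_Ico_succ_top hn]
  have hincr : ∀ n, m ≤ n → incr (psi f h a) K b m n x = psi f h a n (s n, x n) :=
    fun n hn => hincr_of n hn (hmart n hn)
  -- pointwise comparison
  set C₄ : ℝ := C₃ + 3 * C₀ with hC₄
  have hpt : ∀ n, m ≤ n → ‖zl (s (n + 1)) ^ k - 1‖ ^ 2 ≤
      2 * ‖incr (psi f h a) K b m n x‖ ^ 2 + 2 * C₄ ^ 2 := by
    intro n hn
    have h1 : zl (s (n + 1)) ^ k - 1 = psi f h a n (s n, x n) + ee f h a n (s n) -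
        h (s (n + 1)) + h (s n) - (f (s (n + 1)) - (zl (s (n + 1)) ^ k - 1)) := by
      unfold psi
      rw [hdd n hn]
      ring
    have h2 : ‖ee f h a n (s n)‖ ≤ C₃ := by
      refine (hdrift n (s n) (hm n hn).1).trans ?_
      have : ((n : ℝ) + 1) ^ (-(1 - b)) ≤ 1 :=
        Real.rpow_le_one_of_one_le_of_nonpos (by linarith [Nat.cast_nonneg (α := ℝ) n])
          (by linarith)
      nlinarith
    have h3 : ‖f (s (n + 1)) - (zl (s (n + 1)) ^ k - 1)‖ ≤ C₀ := by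
      refine (hfz _).trans ?_
      have : (1 + |s (n + 1)|)⁻¹ ≤ 1 := inv_le_one_of_one_le₀ (by linarith [abs_nonneg (s (n + 1))])
      nlinarith
    have h4 : ‖zl (s (n + 1)) ^ k - 1‖ ≤ ‖psi f h a n (s n, x n)‖ + C₄ := by
      rw [h1]
      have e1 := hhb (s (n + 1))
      have e2 := hhb (s n)
      have e3 := norm_sub_le (psi f h a n (s n, x n) + ee f h a n (s n) -
        h (s (n + 1)) + h (s n)) (f (s (n + 1)) - (zl (s (n + 1)) ^ k - 1))
      have e4 := norm_add_le (psi f h a n (s n, x n) + ee f h a n (s n) -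
        h (s (n + 1))) (h (s n))
      have e5 := norm_sub_le (psi f h a n (s n, x n) + ee f h a n (s n)) (h (s (n + 1)))
      have e6 := norm_add_le (psi f h a n (s n, x n)) (ee f h a n (s n))
      rw [hC₄]
      linarith
    rw [hincr n hn]
    have h5 := pow_le_pow_left₀ (norm_nonneg _) h4 2
    nlinarith [sq_nonneg (‖psi f h a n (s n, x n)‖ - C₄)]
  -- summation
  obtain ⟨Cs, hCs0, hCs⟩ := hsq K m
  set G : ℕ → ℝ := fun n => ‖zl (s (n + 1)) ^ k - 1‖ ^ 2 with hG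
  have hG0 : ∀ n, 0 ≤ G n := fun n => by positivity
  set C₅ : ℝ := ∑ n ∈ Finset.range m, G n with hC₅
  have hC₅0 : 0 ≤ C₅ := Finset.sum_nonneg fun n _ => hG0 n
  refine ⟨C₅ + 2 * Cs + 2 * C₄ ^ 2, fun N hN => ?_⟩
  have hN0 : (1 : ℝ) ≤ N := by exact_mod_cast hN
  have e0 : ∑ n ∈ Finset.Icc 1 N, ‖zl (s n) ^ k - 1‖ ^ 2 = ∑ n ∈ Finset.range N, G n := by
    rw [Finset.range_eq_Ico, Finset.sum_Ico_add' (fun n => ‖zl (s n) ^ k - 1‖ ^ 2) 0 N 1]
    apply Finset.sum_congr _ fun _ _ => rfl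
    ext n
    simp only [Finset.mem_Icc, Finset.mem_Ico]
    omega
  have e1 : ∑ n ∈ Finset.range N, G n ≤ C₅ + ∑ n ∈ Finset.Ico m N, G n := by
    rw [hC₅, ← Finset.sum_union]
    · apply Finset.sum_le_sum_of_subset_of_nonneg
      · intro n hn
        simp only [Finset.mem_union, Finset.mem_range, Finset.mem_Ico] at hn ⊢
        omega
      · intro n _ _
        exact hG0 n
    · rw [Finset.disjoint_left]
      intro n h1 h2
      rw [Finset.mem_range] at h1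
      rw [Finset.mem_Ico] at h2
      omega
  have e2 : ∑ n ∈ Finset.Ico m N, G n ≤
      2 * ∑ n ∈ Finset.range N, ‖incr (psi f h a) K b m n x‖ ^ 2 + 2 * C₄ ^ 2 * N := by
    calc ∑ n ∈ Finset.Ico m N, G n
        ≤ ∑ n ∈ Finset.Ico m N, (2 * ‖incr (psi f h a) K b m n x‖ ^ 2 + 2 * C₄ ^ 2) :=
          Finset.sum_le_sum fun n hn => hpt n (Finset.mem_Ico.mp hn).1
      _ ≤ ∑ n ∈ Finset.range N, (2 * ‖incr (psi f h a) K b m n x‖ ^ 2 + 2 * C₄ ^ 2) := by
          apply Finset.sum_le_sum_of_subset_of_nonneg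
          · intro n hn
            rw [Finset.mem_Ico] at hn
            rw [Finset.mem_range]
            omega
          · intro n _ _
            positivity
      _ = _ := by
          rw [Finset.sum_add_distrib, Finset.mul_sum, Finset.sum_const, Finset.card_range,
            nsmul_eq_mul]
          ring
  have e3 : (1 : ℝ) ≤ (N : ℝ) ^ (2 * b') := Real.one_le_rpow hN0 (by linarith)
  have e4 : (N : ℝ) ≤ (N : ℝ) ^ (2 * b') := by
    have := Real.rpow_le_rpow_of_exponent_le hN0 (by linarith : (1 : ℝ) ≤ 2 * b')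
    rwa [Real.rpow_one] at this
  have e5 := hCs N hN
  rw [e0]
  have e6 : C₅ ≤ C₅ * (N : ℝ) ^ (2 * b') := le_mul_of_one_le_right hC₅0 e3
  have e7 : 2 * C₄ ^ 2 * N ≤ 2 * C₄ ^ 2 * (N : ℝ) ^ (2 * b') :=
    mul_le_mul_of_nonneg_left e4 (by positivity)
  nlinarith

/-- the sum of the errors along the walk -/
theorem ae_err {Ω : Type} [MeasurableSpace Ω] (P : Measure Ω) [IsProbabilityMeasure P]
    (X : ℕ → Ω → ℝ) (hX : IsCauchySeq P X) :
    ∀ᵐ ω ∂P, ∃ W : ℝ, 0 ≤ W ∧ ∀ N : ℕ, 1 ≤ N →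
      ∑ n ∈ Finset.Icc 1 N, (1 + |walk X n ω|)⁻¹ ≤ W * (N : ℝ) ^ ((1 : ℝ) / 2) := by
  obtain ⟨C, hC, hmom⟩ := p_MOM (-(3 / 4)) (by norm_num) (by norm_num)
  have hcont : Continuous fun x : ℝ => (1 + |x|)⁻¹ := by
    have h1 : Continuous fun x : ℝ => 1 + |x| := by fun_prop
    exact h1.inv₀ fun x => by positivity
  have hle1 : ∀ x : ℝ, (1 + |x|)⁻¹ ≤ (1 + |x|) ^ (-(3 / 4) : ℝ) := by
    intro x
    rw [← Real.rpow_neg_one]
    exact Real.rpow_le_rpow_of_exponent_le (by linarith [abs_nonneg x]) (by norm_num)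
  have hmean : ∀ n : ℕ, 1 ≤ n → Integrable (fun ω => (1 + |walk X n ω|)⁻¹) P ∧
      ∫ ω, (1 + |walk X n ω|)⁻¹ ∂P ≤ C * (n : ℝ) ^ (-(3 / 4) : ℝ) := by
    intro n hn
    have hwm := measurable_walk hX n
    have hi : Integrable (fun x : ℝ => (1 + |x|)⁻¹) (cauchyMeasure 0 n) := by
      apply (hmom n hn).1.mono' hcont.measurable.aestronglyMeasurable
      refine ae_of_all _ fun x => ?_
      rw [Real.norm_of_nonneg (by positivity)]
      exact hle1 x
    have hlaw := law_walk hX n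
    constructor
    · have h1 : Integrable (fun x : ℝ => (1 + |x|)⁻¹) (P.map (walk X n)) := by rwa [hlaw]
      exact (integrable_map_measure hcont.measurable.aestronglyMeasurable hwm.aemeasurable).mp h1
    · have h1 : ∫ ω, (1 + |walk X n ω|)⁻¹ ∂P = ∫ x : ℝ, (1 + |x|)⁻¹ ∂(cauchyMeasure 0 n) := by
        rw [← hlaw, integral_map hwm.aemeasurable hcont.measurable.aestronglyMeasurable]
      rw [h1]
      exact (integral_mono hi (hmom n hn).1 hle1).trans (hmom n hn).2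
  have hae := ae_sum_bdd P
    (fun n ω => (1 + |walk X (n + 1) ω|)⁻¹ * ((n : ℝ) + 1) ^ (-(1 / 2) : ℝ))
    (fun n => ((hcont.measurable.comp (measurable_walk hX (n + 1)))).mul_const _)
    (fun n ω => by positivity)
    (fun n => (hmean (n + 1) (by omega)).1.mul_const _)
    (fun n => C * (((n : ℝ) + 1) ^ ((5 / 4) : ℝ))⁻¹) ?_ ?_
  · filter_upwards [hae] with ω hω
    obtain ⟨W, hW0, hW⟩ := hω
    refine ⟨W, hW0, fun N hN => ?_⟩
    have hN0 : (0 : ℝ) < N := by exact_mod_cast hN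
    have e0 : ∑ n ∈ Finset.Icc 1 N, (1 + |walk X n ω|)⁻¹ =
        ∑ n ∈ Finset.range N, (1 + |walk X (n + 1) ω|)⁻¹ := by
      rw [Finset.range_eq_Ico, Finset.sum_Ico_add' (fun n => (1 + |walk X n ω|)⁻¹) 0 N 1]
      apply Finset.sum_congr _ fun _ _ => rfl
      ext n
      simp only [Finset.mem_Icc, Finset.mem_Ico]
      omega
    rw [e0]
    calc ∑ n ∈ Finset.range N, (1 + |walk X (n + 1) ω|)⁻¹
        ≤ ∑ n ∈ Finset.range N, ((1 + |walk X (n + 1) ω|)⁻¹ * ((n : ℝ) + 1) ^ (-(1 / 2) : ℝ)) *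
            (N : ℝ) ^ ((1 : ℝ) / 2) := by
          refine Finset.sum_le_sum fun n hn => ?_
          have hn' : (n : ℝ) + 1 ≤ N := by
            have := Finset.mem_range.1 hn
            exact_mod_cast this
          have h1 : (1 : ℝ) ≤ ((n : ℝ) + 1) ^ (-(1 / 2) : ℝ) * (N : ℝ) ^ ((1 : ℝ) / 2) := by
            rw [Real.rpow_neg (by positivity), inv_mul_eq_div, one_le_div (by positivity)]
            exact Real.rpow_le_rpow (by positivity) hn' (by norm_num)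
          rw [mul_assoc]
          exact le_mul_of_one_le_right (by positivity) h1
      _ = (∑ n ∈ Finset.range N, ((1 + |walk X (n + 1) ω|)⁻¹ * ((n : ℝ) + 1) ^ (-(1 / 2) : ℝ))) *
            (N : ℝ) ^ ((1 : ℝ) / 2) := by rw [Finset.sum_mul]
      _ ≤ W * (N : ℝ) ^ ((1 : ℝ) / 2) := mul_le_mul_of_nonneg_right (hW N) (by positivity)
  · apply Summable.mul_left
    have h2 := (Real.summable_one_div_nat_add_rpow 1 (5 / 4)).2 (by norm_num)
    refine h2.congr fun i => ?_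
    rw [abs_of_pos (by positivity), one_div]
  · intro n
    rw [integral_mul_const]
    have h1 := (hmean (n + 1) (by omega)).2
    push_cast at h1
    have hn0 : (0 : ℝ) < (n : ℝ) + 1 := by positivity
    calc (∫ ω, (1 + |walk X (n + 1) ω|)⁻¹ ∂P) * ((n : ℝ) + 1) ^ (-(1 / 2) : ℝ)
        ≤ C * ((n : ℝ) + 1) ^ (-(3 / 4) : ℝ) * ((n : ℝ) + 1) ^ (-(1 / 2) : ℝ) :=
          mul_le_mul_of_nonneg_right h1 (by positivity)
      _ = C * (((n : ℝ) + 1) ^ ((5 / 4) : ℝ))⁻¹ := by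
          rw [mul_assoc, ← Real.rpow_add hn0, ← Real.rpow_neg hn0.le]
          norm_num

end QV_

open QV_ in
theorem p_QV (hPot : P_POT) : P_QV := by
  intro A k c c' hA hLB hkA hc hcc' hc'1 Ω _ P _ X hX
  set b : ℝ := (c + c') / 2 with hb
  have hcb : c < b := by rw [hb]; linarith
  have hbc' : b < c' := by rw [hb]; linarith
  have hb1 : b < 1 := by linarith
  have hb0 : 0 ≤ b := by linarith
  set a : ℝ := b - c with ha
  have ha0 : 0 < a := by rw [ha]; linarith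
  have hab : (1 + a) * c ≤ b := by
    have : a * c ≤ a * 1 := mul_le_mul_of_nonneg_left (by linarith) ha0.le
    have e : a = b - c := ha
    nlinarith
  have hc0 : 0 ≤ c := by linarith
  have hc1 : c < 1 := by linarith
  obtain ⟨f, h, C₀, hC₀, hf, hh, hfb, hhb, hfz, hmean⟩ := hPot A k c hA hLB hkA hc1
  obtain ⟨C₃, hC₃, hdrift⟩ := drift (a := a) ha0.le hc0 hC₀ hcb hb1 hf hh hfb hhb hmean
  have hsq : ∀ᵐ ω ∂P, ∀ (K m : ℕ), ∃ C : ℝ, 0 ≤ C ∧ ∀ N : ℕ, 1 ≤ N →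
      ∑ n ∈ Finset.range N, ‖incr (psi f h a) K b m n (fun i => X i ω)‖ ^ 2 ≤
        C * (N : ℝ) ^ (2 * c') := by
    rw [ae_all_iff]
    intro K
    rw [ae_all_iff]
    intro m
    exact ae_incr P X hX (fun n => measurable_psi hf hh n) (by positivity : 0 ≤ 8 * C₀)
      (Nat.cast_nonneg K) hb0 hbc' (fun n q => norm_psi_le ha0.le hc0 hc1 hC₀ hab hfb hhb n q)
      (fun n x => integral_psi ha0.le hc0 hc1 hC₀ hf hh hfb hhb n x)
  have hgrow := p_GROW P X hX (a / 2) (by positivity)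
  have herr := ae_err P X hX
  filter_upwards [hsq, hgrow, herr] with ω h1 h2 h3
  intro hdev
  exact path ha0 hc hcb hb1 hbc' hC₀ hC₃ hhb hfz hdrift (fun i => X i ω) h2 h3 h1 hdev

end Pool.Agent.CW
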