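import Mathlib
import Pool.Agent.CW.Defs

/-!
# Rademacher-Menshov: square root size of sums from second moments of blocks
-/

namespace Pool.Agent.CW

open MeasureTheory ProbabilityTheory Set Filter Topology Complex

/-- the number `N` with the lowest `l` binary digits replaced by zero -/
def rd (N l : ℕ) : ℕ := N / 2 ^ l * 2 ^ l

theorem rd_zero (N : ℕ) : rd N 0 = N := by simp [rd]

theorem rd_top {N J : ℕ} (h : N ≤ 2 ^ J) : rd N (J + 1) = 0 := by
  unfold rd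
  have : N / 2 ^ (J + 1) = 0 := by
    apply Nat.div_eq_of_lt
    calc N ≤ 2 ^ J := h
      _ < 2 ^ (J + 1) := Nat.pow_lt_pow_right (by norm_num) (by omega)
  rw [this, zero_mul]

theorem rd_step (N l : ℕ) : rd N l = rd N (l + 1) ∨
    (rd N (l + 1) = (2 * (N / 2 ^ (l + 1))) * 2 ^ l ∧
      rd N l = (2 * (N / 2 ^ (l + 1)) + 1) * 2 ^ l) := by
  unfold rd
  have h1 : N / 2 ^ (l + 1) = N / 2 ^ l / 2 := by
    rw [pow_succ, Nat.div_div_eq_div_mul]
  set q := N / 2 ^ l with hq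
  rw [h1, pow_succ]
  rcases Nat.even_or_odd q with ⟨r, hr⟩ | ⟨r, hr⟩
  · left
    have : q / 2 = r := by omega
    rw [this, hr]; ring
  · right
    have : q / 2 = r := by omega
    rw [this, hr]
    exact ⟨by ring, rfl⟩

/-- sums of the first terms -/
noncomputable def ps (x : ℕ → ℂ) (N : ℕ) : ℂ := ∑ n ∈ Finset.Ioc 0 N, x n

/-- dyadic block sums -/
noncomputable def bs (x : ℕ → ℂ) (l i : ℕ) : ℂ :=
  ∑ n ∈ Finset.Ioc (i * 2 ^ l) ((i + 1) * 2 ^ l), x n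

theorem ps_diff (x : ℕ → ℂ) {a b : ℕ} (h : a ≤ b) :
    ps x b - ps x a = ∑ n ∈ Finset.Ioc a b, x n := by
  unfold ps
  rw [sub_eq_iff_eq_add, add_comm, Finset.sum_Ioc_consecutive x (Nat.zero_le a) h]

/-- the sum of the squares of all dyadic block sums -/
noncomputable def zz (x : ℕ → ℂ) (J : ℕ) : ℝ :=
  ∑ l ∈ Finset.range (J + 1), ∑ i ∈ Finset.range (2 ^ (J - l)), ‖bs x l i‖ ^ 2

theorem ps_rd (x : ℕ → ℂ) (N L : ℕ) :
    ps x N = ps x (rd N L) + ∑ l ∈ Finset.range L, (ps x (rd N l) - ps x (rd N (l + 1))) := by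
  induction L with
  | zero => simp [rd_zero]
  | succ L ih =>
    rw [Finset.sum_range_succ, ih]
    ring

theorem step_le (x : ℕ → ℂ) {N J : ℕ} (h : N ≤ 2 ^ J) {l : ℕ} (hl : l ≤ J) :
    ‖ps x (rd N l) - ps x (rd N (l + 1))‖ ^ 2 ≤
      ∑ i ∈ Finset.range (2 ^ (J - l)), ‖bs x l i‖ ^ 2 := by
  rcases rd_step N l with h1 | ⟨h1, h2⟩
  · rw [h1, sub_self]
    simp only [norm_zero]
    have : (0 : ℝ) ≤ ∑ i ∈ Finset.range (2 ^ (J - l)), ‖bs x l i‖ ^ 2 :=
      Finset.sum_nonneg fun i _ => by positivity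
    simpa using this
  · set i := 2 * (N / 2 ^ (l + 1)) with hi
    have h3 : (i + 1) * 2 ^ l ≤ 2 ^ J := by
      rw [← h2]
      exact (Nat.div_mul_le_self N (2 ^ l)).trans h
    have h4 : i < 2 ^ (J - l) := by
      have h5 : 2 ^ J = 2 ^ (J - l) * 2 ^ l := by
        rw [← pow_add]; congr 1; omega
      rw [h5] at h3
      have := Nat.le_of_mul_le_mul_right h3 (by positivity)
      omega
    have h6 : ps x (rd N l) - ps x (rd N (l + 1)) = bs x l i := by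
      rw [h1, h2, ps_diff x (Nat.mul_le_mul_right _ (Nat.le_succ i))]
      rfl
    rw [h6]
    exact Finset.single_le_sum (f := fun i => ‖bs x l i‖ ^ 2) (fun i _ => by positivity)
      (Finset.mem_range.2 h4)

theorem ps_sq_le (x : ℕ → ℂ) {N J : ℕ} (h : N ≤ 2 ^ J) :
    ‖ps x N‖ ^ 2 ≤ (J + 1) * zz x J := by
  have h1 := ps_rd x N (J + 1)
  rw [rd_top h] at h1
  have h0 : ps x 0 = 0 := by simp [ps]
  rw [h0, zero_add] at h1
  rw [h1]
  calc ‖∑ l ∈ Finset.range (J + 1), (ps x (rd N l) - ps x (rd N (l + 1)))‖ ^ 2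
      ≤ (∑ l ∈ Finset.range (J + 1), ‖ps x (rd N l) - ps x (rd N (l + 1))‖) ^ 2 := by
        gcongr
        exact norm_sum_le _ _
    _ ≤ (Finset.range (J + 1)).card *
        ∑ l ∈ Finset.range (J + 1), ‖ps x (rd N l) - ps x (rd N (l + 1))‖ ^ 2 :=
        sq_sum_le_card_mul_sum_sq
    _ ≤ (J + 1) * zz x J := by
        rw [Finset.card_range]
        push_cast
        gcongr
        unfold zz
        apply Finset.sum_le_sum
        intro l hl
        exact step_le x h (by have := Finset.mem_range.1 hl; omega)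

theorem zz_nonneg (x : ℕ → ℂ) (J : ℕ) : 0 ≤ zz x J :=
  Finset.sum_nonneg fun l _ => Finset.sum_nonneg fun i _ => by positivity

/-- the mean of `zz` -/
theorem int_zz {Ω : Type} [MeasurableSpace Ω] (P : Measure Ω) [IsProbabilityMeasure P]
    (ξ : ℕ → Ω → ℂ) (hL : ∀ n, MemLp (ξ n) 2 P) (κ C : ℝ) (hκ : 0 < κ) (hC : 0 ≤ C)
    (hb : ∀ a b : ℕ, a < b →
      ∫ ω, ‖∑ n ∈ Finset.Ioc a b, ξ n ω‖ ^ 2 ∂P ≤ C * ((b : ℝ) - a) * (b : ℝ) ^ κ) (J : ℕ) :
    Integrable (fun ω => zz (fun n => ξ n ω) J) P ∧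
    ∫ ω, zz (fun n => ξ n ω) J ∂P ≤ C * (J + 1) * (2 : ℝ) ^ ((J : ℝ) * (1 + κ)) := by
  have hi : ∀ l i : ℕ, Integrable (fun ω => ‖bs (fun n => ξ n ω) l i‖ ^ 2) P := by
    intro l i
    have h1 : MemLp (fun ω => ∑ n ∈ Finset.Ioc (i * 2 ^ l) ((i + 1) * 2 ^ l), ξ n ω) 2 P := by
      exact memLp_finsetSum _ fun n _ => hL n
    exact (memLp_two_iff_integrable_sq_norm h1.1).1 h1
  refine ⟨?_, ?_⟩
  · unfold zz
    exact integrable_finsetSum _ fun l _ => integrable_finsetSum _ fun i _ => hi l i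
  · unfold zz
    rw [integral_finsetSum _ fun l _ => integrable_finsetSum _ fun i _ => hi l i]
    calc ∑ l ∈ Finset.range (J + 1), ∫ ω, ∑ i ∈ Finset.range (2 ^ (J - l)),
          ‖bs (fun n => ξ n ω) l i‖ ^ 2 ∂P
        ≤ ∑ l ∈ Finset.range (J + 1), C * (2 : ℝ) ^ ((J : ℝ) * (1 + κ)) := by
          apply Finset.sum_le_sum
          intro l hl
          have hlJ : l ≤ J := by have := Finset.mem_range.1 hl; omega
          rw [integral_finsetSum _ fun i _ => hi l i]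
          calc ∑ i ∈ Finset.range (2 ^ (J - l)), ∫ ω, ‖bs (fun n => ξ n ω) l i‖ ^ 2 ∂P
              ≤ ∑ i ∈ Finset.range (2 ^ (J - l)), C * 2 ^ l * ((2 : ℝ) ^ J) ^ κ := by
                apply Finset.sum_le_sum
                intro i hii
                have hii' := Finset.mem_range.1 hii
                have h1 := hb (i * 2 ^ l) ((i + 1) * 2 ^ l)
                  (Nat.mul_lt_mul_of_pos_right (Nat.lt_succ_self i) (by positivity))
                have h2 : (((i + 1) * 2 ^ l : ℕ) : ℝ) - ((i * 2 ^ l : ℕ) : ℝ) = 2 ^ l := by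
                  push_cast; ring
                rw [h2] at h1
                refine h1.trans ?_
                have h3 : (((i + 1) * 2 ^ l : ℕ) : ℝ) ≤ (2 : ℝ) ^ J := by
                  have h4 : (i + 1) * 2 ^ l ≤ 2 ^ J := by
                    have h5 : 2 ^ J = 2 ^ (J - l) * 2 ^ l := by
                      rw [← pow_add]; congr 1; omega
                    rw [h5]
                    exact Nat.mul_le_mul_right _ hii'
                  exact_mod_cast h4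
                gcongr
            _ = C * (2 : ℝ) ^ ((J : ℝ) * (1 + κ)) := by
                rw [Finset.sum_const, Finset.card_range, nsmul_eq_mul]
                push_cast
                have h6 : (2 : ℝ) ^ ((J : ℝ) * (1 + κ)) = 2 ^ J * ((2 : ℝ) ^ J) ^ κ := by
                  rw [mul_add, mul_one, Real.rpow_add (by norm_num), Real.rpow_natCast,
                    Real.rpow_mul (by norm_num), Real.rpow_natCast]
                have h7 : (2 : ℝ) ^ (J - l) * 2 ^ l = 2 ^ J := by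
                  rw [← pow_add]; congr 1; omega
                rw [h6, ← h7]
                ring
      _ = C * (J + 1) * (2 : ℝ) ^ ((J : ℝ) * (1 + κ)) := by
          rw [Finset.sum_const, Finset.card_range, nsmul_eq_mul]
          push_cast
          ring

/-- summability of the weights -/
theorem summable_wt (κ : ℝ) (hκ : 0 < κ) :
    Summable fun J : ℕ => ((J : ℝ) + 1) * (2 : ℝ) ^ (-(J : ℝ) * κ) := by
  have h1 : ‖(2 : ℝ) ^ (-κ)‖ < 1 := by
    rw [Real.norm_of_nonneg (by positivity)]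
    exact Real.rpow_lt_one_of_one_lt_of_neg (by norm_num) (by linarith)
  have h2 := summable_pow_mul_geometric_of_norm_lt_one 1 h1
  have h3 := summable_geometric_of_norm_lt_one h1
  refine (h2.add h3).congr ?_
  intro J
  have h4 : (2 : ℝ) ^ (-(J : ℝ) * κ) = ((2 : ℝ) ^ (-κ)) ^ J := by
    rw [← Real.rpow_natCast, ← Real.rpow_mul (by norm_num)]
    congr 1; ring
  rw [h4]
  ring

/-- almost surely `zz` is small -/
theorem ae_zz {Ω : Type} [MeasurableSpace Ω] (P : Measure Ω) [IsProbabilityMeasure P]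
    (ξ : ℕ → Ω → ℂ) (hL : ∀ n, MemLp (ξ n) 2 P) (κ : ℝ) (hκ : 0 < κ)
    (hb : ∃ C : ℝ, ∀ a b : ℕ, a < b →
      ∫ ω, ‖∑ n ∈ Finset.Ioc a b, ξ n ω‖ ^ 2 ∂P ≤ C * ((b : ℝ) - a) * (b : ℝ) ^ κ) :
    ∀ᵐ ω ∂P, ∃ C : ℝ, ∀ J : ℕ,
      zz (fun n => ξ n ω) J ≤ C * (2 : ℝ) ^ ((J : ℝ) * (1 + 2 * κ)) := by
  obtain ⟨C₀, hb⟩ := hb
  set C := max C₀ 0 with hCd
  have hC : 0 ≤ C := le_max_right _ _
  have hb' : ∀ a b : ℕ, a < b →
      ∫ ω, ‖∑ n ∈ Finset.Ioc a b, ξ n ω‖ ^ 2 ∂P ≤ C * ((b : ℝ) - a) * (b : ℝ) ^ κ := by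
    intro a b hab
    refine (hb a b hab).trans ?_
    have h1 : (0 : ℝ) ≤ (b : ℝ) - a := by
      have : (a : ℝ) ≤ b := by exact_mod_cast hab.le
      linarith
    have h2 : C₀ ≤ C := le_max_left _ _
    gcongr
  have hz := fun J => int_zz P ξ hL κ C hκ hC hb' J
  set w : ℕ → ℝ := fun J => (2 : ℝ) ^ (-((J : ℝ) * (1 + 2 * κ))) with hw
  have hwpos : ∀ J, 0 < w J := fun J => by positivity
  have h1 : ∀ J : ℕ, ∫⁻ ω, ENNReal.ofReal (w J * zz (fun n => ξ n ω) J) ∂P ≤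
      ENNReal.ofReal (C * (((J : ℝ) + 1) * (2 : ℝ) ^ (-(J : ℝ) * κ))) := by
    intro J
    rw [← ofReal_integral_eq_lintegral_ofReal ((hz J).1.const_mul _)
      (ae_of_all _ fun ω => mul_nonneg (hwpos J).le (zz_nonneg _ _))]
    apply ENNReal.ofReal_le_ofReal
    rw [integral_const_mul]
    calc w J * ∫ ω, zz (fun n => ξ n ω) J ∂P
        ≤ w J * (C * (J + 1) * (2 : ℝ) ^ ((J : ℝ) * (1 + κ))) :=
          mul_le_mul_of_nonneg_left (hz J).2 (hwpos J).le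
      _ = C * (((J : ℝ) + 1) * (2 : ℝ) ^ (-(J : ℝ) * κ)) := by
          have h2 : (2 : ℝ) ^ (-(J : ℝ) * κ) =
              (2 : ℝ) ^ (-((J : ℝ) * (1 + 2 * κ))) * (2 : ℝ) ^ ((J : ℝ) * (1 + κ)) := by
            rw [← Real.rpow_add (by norm_num)]
            congr 1; ring
          rw [h2]
          simp only [hw]
          ring
  have h2 : ∫⁻ ω, ∑' J : ℕ, ENNReal.ofReal (w J * zz (fun n => ξ n ω) J) ∂P < ⊤ := by
    rw [lintegral_tsum fun J => (((hz J).1.const_mul (w J)).aemeasurable).ennreal_ofReal]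
    refine lt_of_le_of_lt (ENNReal.tsum_le_tsum h1) ?_
    have h3 := (summable_wt κ hκ).mul_left C
    rw [← ENNReal.ofReal_tsum_of_nonneg (fun J => by positivity) h3]
    exact ENNReal.ofReal_lt_top
  have h3 : AEMeasurable (fun ω => ∑' J : ℕ,
      ENNReal.ofReal (w J * zz (fun n => ξ n ω) J)) P :=
    AEMeasurable.tsum fun J => (((hz J).1.const_mul (w J)).aemeasurable).ennreal_ofReal
  filter_upwards [ae_lt_top' h3 h2.ne] with ω hω
  refine ⟨(∑' J : ℕ, ENNReal.ofReal (w J * zz (fun n => ξ n ω) J)).toReal, fun J => ?_⟩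
  have h4 : ENNReal.ofReal (w J * zz (fun n => ξ n ω) J) ≤
      ∑' J : ℕ, ENNReal.ofReal (w J * zz (fun n => ξ n ω) J) := ENNReal.le_tsum J
  have h5 : w J * zz (fun n => ξ n ω) J ≤
      (∑' J : ℕ, ENNReal.ofReal (w J * zz (fun n => ξ n ω) J)).toReal :=
    (ENNReal.ofReal_le_iff_le_toReal hω.ne).1 h4
  have h6 : w J * (2 : ℝ) ^ ((J : ℝ) * (1 + 2 * κ)) = 1 := by
    simp only [hw]
    rw [← Real.rpow_add (by norm_num), neg_add_cancel, Real.rpow_zero]
  calc zz (fun n => ξ n ω) J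
      = (w J * zz (fun n => ξ n ω) J) * (2 : ℝ) ^ ((J : ℝ) * (1 + 2 * κ)) := by
        rw [mul_right_comm, h6, one_mul]
    _ ≤ _ := mul_le_mul_of_nonneg_right h5 (by positivity)

theorem p_RM : P_RM := by
  intro Ω _ P _ ξ _ hL hb
  have h1 : ∀ᵐ ω ∂P, ∀ m : ℕ, ∃ C : ℝ, ∀ J : ℕ, zz (fun n => ξ n ω) J ≤
      C * (2 : ℝ) ^ ((J : ℝ) * (1 + 2 * (1 / ((m : ℝ) + 1)))) := by
    rw [ae_all_iff]
    intro m
    exact ae_zz P ξ hL _ (by positivity) (hb _ (by positivity))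
  filter_upwards [h1] with ω hω ε hε
  obtain ⟨m, hm⟩ := exists_nat_one_div_lt (show 0 < 2 * ε / 3 by positivity)
  set κ : ℝ := 1 / ((m : ℝ) + 1) with hκ
  have hκ0 : 0 < κ := by positivity
  obtain ⟨C, hC⟩ := hω m
  -- `J + 1 ≤ K 2 ^ (κ J)`
  obtain ⟨K, hK0, hK⟩ : ∃ K : ℝ, 0 ≤ K ∧ ∀ J : ℕ, ((J : ℝ) + 1) ≤ K * (2 : ℝ) ^ ((J : ℝ) * κ) := by
    have h2 := summable_wt κ hκ0
    obtain ⟨K, hK⟩ := h2.tendsto_atTop_zero.bddAbove_range
    have hK' : ∀ J : ℕ, ((J : ℝ) + 1) * (2 : ℝ) ^ (-(J : ℝ) * κ) ≤ K := fun J => hK ⟨J, rfl⟩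
    refine ⟨K, ?_, fun J => ?_⟩
    · exact le_trans (by positivity) (hK' 0)
    · have h3 : (2 : ℝ) ^ (-(J : ℝ) * κ) * (2 : ℝ) ^ ((J : ℝ) * κ) = 1 := by
        rw [← Real.rpow_add (by norm_num)]
        have : -(J : ℝ) * κ + J * κ = 0 := by ring
        rw [this, Real.rpow_zero]
      calc ((J : ℝ) + 1) = (((J : ℝ) + 1) * (2 : ℝ) ^ (-(J : ℝ) * κ)) *
            (2 : ℝ) ^ ((J : ℝ) * κ) := by rw [mul_assoc, h3, mul_one]
        _ ≤ K * (2 : ℝ) ^ ((J : ℝ) * κ) :=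
            mul_le_mul_of_nonneg_right (hK' J) (by positivity)
  set C' := max C 0 with hC'
  have hC'0 : 0 ≤ C' := le_max_right _ _
  refine ⟨Real.sqrt (K * C' * (2 : ℝ) ^ (1 + 3 * κ)), fun N hN => ?_⟩
  obtain ⟨J, hJ1, hJ2⟩ : ∃ J : ℕ, N ≤ 2 ^ J ∧ 2 ^ J ≤ 2 * N := by
    refine ⟨Nat.clog 2 N, Nat.le_pow_clog (by norm_num) N, ?_⟩
    rcases Nat.lt_or_ge 1 N with h | h
    · have h4 : 0 < Nat.clog 2 N := Nat.clog_pos (by norm_num) h
      have h5 := Nat.pow_pred_clog_lt_self (b := 2) (by norm_num) h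
      have h6 : 2 ^ Nat.clog 2 N = 2 * 2 ^ (Nat.clog 2 N - 1) := by
        conv_lhs => rw [← Nat.succ_pred_eq_of_pos h4, pow_succ]
        rw [mul_comm]; rfl
      have h7 : (Nat.clog 2 N).pred = Nat.clog 2 N - 1 := rfl
      rw [h7] at h5
      omega
    · have : N = 1 := le_antisymm h hN
      subst this
      simp
  have h8 : (∑ n ∈ Finset.Icc 1 N, ξ n ω) = ps (fun n => ξ n ω) N := by
    unfold ps
    congr 1
  rw [h8]
  have hNr : (1 : ℝ) ≤ N := by exact_mod_cast hN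
  have h9 := ps_sq_le (fun n => ξ n ω) hJ1
  have h10 : ‖ps (fun n => ξ n ω) N‖ ^ 2 ≤
      (K * C' * (2 : ℝ) ^ (1 + 3 * κ)) * (N : ℝ) ^ (1 + 3 * κ) := by
    calc ‖ps (fun n => ξ n ω) N‖ ^ 2 ≤ (J + 1) * zz (fun n => ξ n ω) J := h9
      _ ≤ (K * (2 : ℝ) ^ ((J : ℝ) * κ)) * (C' * (2 : ℝ) ^ ((J : ℝ) * (1 + 2 * κ))) := by
          apply mul_le_mul (hK J) _ (zz_nonneg _ _) (by positivity)
          exact (hC J).trans (mul_le_mul_of_nonneg_right (le_max_left _ _) (by positivity))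
      _ = K * C' * (2 : ℝ) ^ ((J : ℝ) * (1 + 3 * κ)) := by
          have : (2 : ℝ) ^ ((J : ℝ) * (1 + 3 * κ)) =
              (2 : ℝ) ^ ((J : ℝ) * κ) * (2 : ℝ) ^ ((J : ℝ) * (1 + 2 * κ)) := by
            rw [← Real.rpow_add (by norm_num)]
            congr 1; ring
          rw [this]; ring
      _ ≤ K * C' * (2 * (N : ℝ)) ^ (1 + 3 * κ) := by
          have h11 : (2 : ℝ) ^ ((J : ℝ) * (1 + 3 * κ)) = ((2 : ℝ) ^ J) ^ (1 + 3 * κ) := by
            rw [Real.rpow_mul (by norm_num), Real.rpow_natCast]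
          rw [h11]
          have h12 : (2 : ℝ) ^ J ≤ 2 * (N : ℝ) := by exact_mod_cast hJ2
          gcongr
      _ = (K * C' * (2 : ℝ) ^ (1 + 3 * κ)) * (N : ℝ) ^ (1 + 3 * κ) := by
          rw [Real.mul_rpow (by norm_num) (by positivity)]
          ring
  calc ‖ps (fun n => ξ n ω) N‖ = Real.sqrt (‖ps (fun n => ξ n ω) N‖ ^ 2) := by
        rw [Real.sqrt_sq (norm_nonneg _)]
    _ ≤ Real.sqrt ((K * C' * (2 : ℝ) ^ (1 + 3 * κ)) * (N : ℝ) ^ (1 + 3 * κ)) :=
        Real.sqrt_le_sqrt h10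
    _ = Real.sqrt (K * C' * (2 : ℝ) ^ (1 + 3 * κ)) * Real.sqrt ((N : ℝ) ^ (1 + 3 * κ)) :=
        Real.sqrt_mul (by positivity) _
    _ ≤ Real.sqrt (K * C' * (2 : ℝ) ^ (1 + 3 * κ)) * (N : ℝ) ^ (1 / 2 + ε) := by
        gcongr
        rw [Real.sqrt_eq_rpow, ← Real.rpow_mul (by positivity)]
        apply Real.rpow_le_rpow_of_exponent_le hNr
        linarith

end Pool.Agent.CW
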