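import Mathlib
import Pool.Agent.CW.Defs2
import Pool.Agent.CW.RM

/-!
# Rademacher-Menshov with an extra exponent `2l`
-/

namespace Pool.Agent.CW

open MeasureTheory ProbabilityTheory Set Filter Topology Complex

/-- almost surely `zz` is small -/
theorem ae_zzW {Ω : Type} [MeasurableSpace Ω] (P : Measure Ω) [IsProbabilityMeasure P]
    (ξ : ℕ → Ω → ℂ) (hL : ∀ n, MemLp (ξ n) 2 P) (l κ : ℝ) (hl : 0 ≤ l) (hκ : 0 < κ)
    (hb : ∃ C : ℝ, ∀ a b : ℕ, a < b →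
      ∫ ω, ‖∑ n ∈ Finset.Ioc a b, ξ n ω‖ ^ 2 ∂P ≤ C * ((b : ℝ) - a) * (b : ℝ) ^ (2 * l + κ)) :
    ∀ᵐ ω ∂P, ∃ C : ℝ, ∀ J : ℕ,
      zz (fun n => ξ n ω) J ≤ C * (2 : ℝ) ^ ((J : ℝ) * (1 + 2 * l + 2 * κ)) := by
  obtain ⟨C₀, hb⟩ := hb
  set C := max C₀ 0 with hCd
  have hC : 0 ≤ C := le_max_right _ _
  have hb' : ∀ a b : ℕ, a < b →
      ∫ ω, ‖∑ n ∈ Finset.Ioc a b, ξ n ω‖ ^ 2 ∂P ≤ C * ((b : ℝ) - a) * (b : ℝ) ^ (2 * l + κ) := by
    intro a b hab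
    refine (hb a b hab).trans ?_
    have h1 : (0 : ℝ) ≤ (b : ℝ) - a := by
      have : (a : ℝ) ≤ b := by exact_mod_cast hab.le
      linarith
    have h2 : C₀ ≤ C := le_max_left _ _
    gcongr
  have hz := fun J => int_zz P ξ hL (2 * l + κ) C (by positivity) hC hb' J
  set w : ℕ → ℝ := fun J => (2 : ℝ) ^ (-((J : ℝ) * (1 + 2 * l + 2 * κ))) with hw
  have hwpos : ∀ J, 0 < w J := fun J => by positivity
  have h1 : ∀ J : ℕ, ∫⁻ ω, ENNReal.ofReal (w J * zz (fun n => ξ n ω) J) ∂P ≤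
      ENNReal.ofReal (C * (((J : ℝ) + 1) * (2 : ℝ) ^ (-(J : ℝ) * κ))) := by
    intro J
    rw [← ofReal_integral_eq_lintegral_ofReal ((hz J).1.const_mul _)
      (ae_of_all _ fun ω => mul_nonneg (hwpos J).le (zz_nonneg _ _))]
    apply ENNReal.ofReal_le_ofReal
    rw [integral_const_mul]
    calc w J * ∫ ω, zz (fun n => ξ n ω) J ∂P
        ≤ w J * (C * (J + 1) * (2 : ℝ) ^ ((J : ℝ) * (1 + (2 * l + κ)))) :=
          mul_le_mul_of_nonneg_left (hz J).2 (hwpos J).le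
      _ = C * (((J : ℝ) + 1) * (2 : ℝ) ^ (-(J : ℝ) * κ)) := by
          have h2 : (2 : ℝ) ^ (-(J : ℝ) * κ) =
              (2 : ℝ) ^ (-((J : ℝ) * (1 + 2 * l + 2 * κ))) * (2 : ℝ) ^ ((J : ℝ) * (1 + (2 * l + κ))) := by
            rw [← Real.rpow_add (by norm_num)]
            congr 1; ring
          rw [h2]
          simp only [hw]
          ring
  have h2 : ∫⁻ ω, ∑' J : ℕ, ENNReal.ofReal (w J * zz (fun n => ξ n ω) J) ∂P < ⊤ := by
    rw [lintegral_tsum fun J => (((hz J).1.const_mul (w J)).aemeasurable).ennreal_ofReal]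
    refine lt_of_le_of_lt (ENNReal.tsum_le_tsum h1) ?_
    have h3 := (summable_wt κ hκ).mul_left C
    rw [← ENNReal.ofReal_tsum_of_nonneg (fun J => by positivity) h3]
    exact ENNReal.ofReal_lt_top
  have h3 : AEMeasurable (fun ω => ∑' J : ℕ,
      ENNReal.ofReal (w J * zz (fun n => ξ n ω) J)) P :=
    AEMeasurable.tsum fun J => (((hz J).1.const_mul (w J)).aemeasurable).ennreal_ofReal
  filter_upwards [ae_lt_top' h3 h2.ne] with ω hω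
  refine ⟨(∑' J : ℕ, ENNReal.ofReal (w J * zz (fun n => ξ n ω) J)).toReal, fun J => ?_⟩
  have h4 : ENNReal.ofReal (w J * zz (fun n => ξ n ω) J) ≤
      ∑' J : ℕ, ENNReal.ofReal (w J * zz (fun n => ξ n ω) J) := ENNReal.le_tsum J
  have h5 : w J * zz (fun n => ξ n ω) J ≤
      (∑' J : ℕ, ENNReal.ofReal (w J * zz (fun n => ξ n ω) J)).toReal :=
    (ENNReal.ofReal_le_iff_le_toReal hω.ne).1 h4
  have h6 : w J * (2 : ℝ) ^ ((J : ℝ) * (1 + 2 * l + 2 * κ)) = 1 := by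
    simp only [hw]
    rw [← Real.rpow_add (by norm_num), neg_add_cancel, Real.rpow_zero]
  calc zz (fun n => ξ n ω) J
      = (w J * zz (fun n => ξ n ω) J) * (2 : ℝ) ^ ((J : ℝ) * (1 + 2 * l + 2 * κ)) := by
        rw [mul_right_comm, h6, one_mul]
    _ ≤ _ := mul_le_mul_of_nonneg_right h5 (by positivity)

theorem p_RMW : P_RMW := by
  intro Ω _ P _ ξ l hl _ hL hb
  have h1 : ∀ᵐ ω ∂P, ∀ m : ℕ, ∃ C : ℝ, ∀ J : ℕ, zz (fun n => ξ n ω) J ≤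
      C * (2 : ℝ) ^ ((J : ℝ) * (1 + 2 * l + 2 * (1 / ((m : ℝ) + 1)))) := by
    rw [ae_all_iff]
    intro m
    exact ae_zzW P ξ hL l _ hl (by positivity) (hb _ (by positivity))
  filter_upwards [h1] with ω hω ε hε
  obtain ⟨m, hm⟩ := exists_nat_one_div_lt (show 0 < 2 * ε / 3 by positivity)
  set κ : ℝ := 1 / ((m : ℝ) + 1) with hκ
  have hκ0 : 0 < κ := by positivity
  obtain ⟨C, hC⟩ := hω m
  -- `J + 1 ≤ K 2 ^ (κ J)`
  obtain ⟨K, hK0, hK⟩ : ∃ K : ℝ, 0 ≤ K ∧ ∀ J : ℕ, ((J : ℝ) + 1) ≤ K * (2 : ℝ) ^ ((J : ℝ) * κ) := by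
    have h2 := summable_wt κ hκ0
    obtain ⟨K, hK⟩ := h2.tendsto_atTop_zero.bddAbove_range
    have hK' : ∀ J : ℕ, ((J : ℝ) + 1) * (2 : ℝ) ^ (-(J : ℝ) * κ) ≤ K := fun J => hK ⟨J, rfl⟩
    refine ⟨K, ?_, fun J => ?_⟩
    · exact le_trans (by positivity) (hK' 0)
    · have h3 : (2 : ℝ) ^ (-(J : ℝ) * κ) * (2 : ℝ) ^ ((J : ℝ) * κ) = 1 := by
        rw [← Real.rpow_add (by norm_num)]
        have : -(J : ℝ) * κ + J * κ = 0 := by ring
        rw [this, Real.rpow_zero]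
      calc ((J : ℝ) + 1) = (((J : ℝ) + 1) * (2 : ℝ) ^ (-(J : ℝ) * κ)) *
            (2 : ℝ) ^ ((J : ℝ) * κ) := by rw [mul_assoc, h3, mul_one]
        _ ≤ K * (2 : ℝ) ^ ((J : ℝ) * κ) :=
            mul_le_mul_of_nonneg_right (hK' J) (by positivity)
  set C' := max C 0 with hC'
  have hC'0 : 0 ≤ C' := le_max_right _ _
  refine ⟨Real.sqrt (K * C' * (2 : ℝ) ^ (1 + 2 * l + 3 * κ)), fun N hN => ?_⟩
  obtain ⟨J, hJ1, hJ2⟩ : ∃ J : ℕ, N ≤ 2 ^ J ∧ 2 ^ J ≤ 2 * N := by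
    refine ⟨Nat.clog 2 N, Nat.le_pow_clog (by norm_num) N, ?_⟩
    rcases Nat.lt_or_ge 1 N with h | h
    · have h4 : 0 < Nat.clog 2 N := Nat.clog_pos (by norm_num) h
      have h5 := Nat.pow_pred_clog_lt_self (b := 2) (by norm_num) h
      have h6 : 2 ^ Nat.clog 2 N = 2 * 2 ^ (Nat.clog 2 N - 1) := by
        conv_lhs => rw [← Nat.succ_pred_eq_of_pos h4, pow_succ]
        rw [mul_comm]; rfl
      have h7 : (Nat.clog 2 N).pred = Nat.clog 2 N - 1 := rfl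
      rw [h7] at h5
      omega
    · have : N = 1 := le_antisymm h hN
      subst this
      simp
  have h8 : (∑ n ∈ Finset.Icc 1 N, ξ n ω) = ps (fun n => ξ n ω) N := by
    unfold ps
    congr 1
  rw [h8]
  have hNr : (1 : ℝ) ≤ N := by exact_mod_cast hN
  have h9 := ps_sq_le (fun n => ξ n ω) hJ1
  have h10 : ‖ps (fun n => ξ n ω) N‖ ^ 2 ≤
      (K * C' * (2 : ℝ) ^ (1 + 2 * l + 3 * κ)) * (N : ℝ) ^ (1 + 2 * l + 3 * κ) := by
    calc ‖ps (fun n => ξ n ω) N‖ ^ 2 ≤ (J + 1) * zz (fun n => ξ n ω) J := h9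
      _ ≤ (K * (2 : ℝ) ^ ((J : ℝ) * κ)) * (C' * (2 : ℝ) ^ ((J : ℝ) * (1 + 2 * l + 2 * κ))) := by
          apply mul_le_mul (hK J) _ (zz_nonneg _ _) (by positivity)
          exact (hC J).trans (mul_le_mul_of_nonneg_right (le_max_left _ _) (by positivity))
      _ = K * C' * (2 : ℝ) ^ ((J : ℝ) * (1 + 2 * l + 3 * κ)) := by
          have : (2 : ℝ) ^ ((J : ℝ) * (1 + 2 * l + 3 * κ)) =
              (2 : ℝ) ^ ((J : ℝ) * κ) * (2 : ℝ) ^ ((J : ℝ) * (1 + 2 * l + 2 * κ)) := by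
            rw [← Real.rpow_add (by norm_num)]
            congr 1; ring
          rw [this]; ring
      _ ≤ K * C' * (2 * (N : ℝ)) ^ (1 + 2 * l + 3 * κ) := by
          have h11 : (2 : ℝ) ^ ((J : ℝ) * (1 + 2 * l + 3 * κ)) = ((2 : ℝ) ^ J) ^ (1 + 2 * l + 3 * κ) := by
            rw [Real.rpow_mul (by norm_num), Real.rpow_natCast]
          rw [h11]
          have h12 : (2 : ℝ) ^ J ≤ 2 * (N : ℝ) := by exact_mod_cast hJ2
          gcongr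
      _ = (K * C' * (2 : ℝ) ^ (1 + 2 * l + 3 * κ)) * (N : ℝ) ^ (1 + 2 * l + 3 * κ) := by
          rw [Real.mul_rpow (by norm_num) (by positivity)]
          ring
  calc ‖ps (fun n => ξ n ω) N‖ = Real.sqrt (‖ps (fun n => ξ n ω) N‖ ^ 2) := by
        rw [Real.sqrt_sq (norm_nonneg _)]
    _ ≤ Real.sqrt ((K * C' * (2 : ℝ) ^ (1 + 2 * l + 3 * κ)) * (N : ℝ) ^ (1 + 2 * l + 3 * κ)) :=
        Real.sqrt_le_sqrt h10
    _ = Real.sqrt (K * C' * (2 : ℝ) ^ (1 + 2 * l + 3 * κ)) * Real.sqrt ((N : ℝ) ^ (1 + 2 * l + 3 * κ)) :=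
        Real.sqrt_mul (by positivity) _
    _ ≤ Real.sqrt (K * C' * (2 : ℝ) ^ (1 + 2 * l + 3 * κ)) * (N : ℝ) ^ (1 / 2 + l + ε) := by
        gcongr
        rw [Real.sqrt_eq_rpow, ← Real.rpow_mul (by positivity)]
        apply Real.rpow_le_rpow_of_exponent_le hNr
        linarith

end Pool.Agent.CW
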