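import Pool.Agent.CW.Defs2
import Pool.Agent.CW.ZEROONE

/-!
# A zero-one lemma for weights
-/

set_option autoImplicit false

namespace Pool.Agent.CW

open MeasureTheory ProbabilityTheory Set Filter Topology

namespace ZOW_

open ZEROONE_

/-- tuples along which the weight is large -/
def big (L : ℕ) (w : ℝ → ℝ) (θ : ℝ) : Set (ℝ × (Fin L → ℝ)) :=
  {q | θ ≤ ∑ n ∈ Finset.Icc 1 L, w (q.1 + ps q.2 n)}

lemma measurableSet_big (L : ℕ) {w : ℝ → ℝ} (hw : Measurable w) (θ : ℝ) :
    MeasurableSet (big L w θ) := by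
  refine measurableSet_le measurable_const ?_
  apply Finset.measurable_sum
  intro n _
  exact hw.comp (measurable_fst.add ((measurable_ps L n).comp measurable_snd))

variable {Ω : Type} [MeasurableSpace Ω] (P : Measure Ω) [IsProbabilityMeasure P]
  (X : ℕ → Ω → ℝ)

/-- restarting the walk at the time `M` -/
lemma key (hX : IsCauchySeq P X) {p : ℝ} (hp : 0 < p) (M L : ℕ) (K : ℝ) {w : ℝ → ℝ}
    (hw : Measurable w) (θ : ℝ) (hh : ∀ x : ℝ, |x| ≤ K →
      p ≤ P.real {ω | θ ≤ ∑ n ∈ Finset.Icc 1 L, w (x + walk X n ω)})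
    {A : Set (Fin M → ℝ)} (hA : MeasurableSet A) :
    p * P.real {ω | (fun i : Fin M => X i ω) ∈ A ∧ |walk X M ω| ≤ K} ≤
      P.real {ω | (fun i : Fin M => X i ω) ∈ A ∧
        θ ≤ ∑ n ∈ Finset.Icc 1 L, w (walk X (M + n) ω)} := by
  set U : Ω → (Fin M → ℝ) := fun ω i => X i ω with hU
  set V : Ω → (Fin L → ℝ) := fun ω i => X (M + i) ω with hV
  set V0 : Ω → (Fin L → ℝ) := fun ω i => X i ω with hV0
  have hUm : Measurable U := measurable_pi_lambda _ fun i => hX.measurable _
  have hVm : Measurable V := measurable_pi_lambda _ fun i => hX.measurable _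
  have hV0m : Measurable V0 := measurable_pi_lambda _ fun i => hX.measurable _
  have hprod : P.map (fun ω => (U ω, V ω)) = (P.map U).prod (P.map V) :=
    (indepFun_iff_map_prod_eq_prod_map_map hUm.aemeasurable hVm.aemeasurable).mp
      (indep_split P X hX M L)
  set A2 : Set (Fin M → ℝ) := {u | u ∈ A ∧ |ps u M| ≤ K} with hA2
  have hA2m : MeasurableSet A2 := by
    have h1 : MeasurableSet {u : Fin M → ℝ | |ps u M| ≤ K} :=
      measurableSet_le ((measurable_ps M M).abs) measurable_const
    exact hA.inter h1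
  set S : Set ((Fin M → ℝ) × (Fin L → ℝ)) :=
    {q | q.1 ∈ A2 ∧ (ps q.1 M, q.2) ∈ big L w θ} with hS
  have hSm : MeasurableSet S := by
    have h1 : Measurable fun q : (Fin M → ℝ) × (Fin L → ℝ) => (ps q.1 M, q.2) :=
      ((measurable_ps M M).comp measurable_fst).prodMk measurable_snd
    exact (measurable_fst hA2m).inter (h1 (measurableSet_big L hw θ))
  have : IsProbabilityMeasure (P.map U) := Measure.isProbabilityMeasure_map hUm.aemeasurable
  have : IsProbabilityMeasure (P.map V) := Measure.isProbabilityMeasure_map hVm.aemeasurable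
  -- lower bound for the sections
  have hsec : ∀ u ∈ A2, ENNReal.ofReal p ≤ (P.map V) (Prod.mk u ⁻¹' S) := by
    intro u hu
    have hm : MeasurableSet (Prod.mk u ⁻¹' S) := measurable_prodMk_left hSm
    rw [show P.map V = P.map V0 from law_shift P X hX M L, Measure.map_apply hV0m hm]
    have e1 : V0 ⁻¹' (Prod.mk u ⁻¹' S) =
        {ω | θ ≤ ∑ n ∈ Finset.Icc 1 L, w (ps u M + walk X n ω)} := by
      ext ω
      simp only [mem_preimage, hS, mem_ofPred_eq, big, hu, true_and]
      have e2 : ∑ n ∈ Finset.Icc 1 L, w (ps u M + ps (V0 ω) n) =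
          ∑ n ∈ Finset.Icc 1 L, w (ps u M + walk X n ω) := by
        refine Finset.sum_congr rfl fun n hn => ?_
        rw [hV0, ps_walk X ω (Finset.mem_Icc.mp hn).2]
      rw [e2]
    rw [e1]
    have := hh (ps u M) hu.2
    rw [← ENNReal.ofReal_toReal (measure_ne_top P
      {ω | θ ≤ ∑ n ∈ Finset.Icc 1 L, w (ps u M + walk X n ω)})]
    exact ENNReal.ofReal_le_ofReal this
  have hmain : ENNReal.ofReal p * P.map U A2 ≤ (P.map fun ω => (U ω, V ω)) S := by
    rw [hprod, Measure.prod_apply hSm]
    calc ENNReal.ofReal p * P.map U A2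
        = ∫⁻ _u in A2, ENNReal.ofReal p ∂(P.map U) := by
          rw [lintegral_const, Measure.restrict_apply_univ]
      _ ≤ ∫⁻ u in A2, (P.map V) (Prod.mk u ⁻¹' S) ∂(P.map U) :=
          setLIntegral_mono' hA2m hsec
      _ ≤ _ := setLIntegral_le_lintegral _ _
  rw [Measure.map_apply hUm hA2m, Measure.map_apply (hUm.prodMk hVm) hSm] at hmain
  have e2 : U ⁻¹' A2 = {ω | (fun i : Fin M => X i ω) ∈ A ∧ |walk X M ω| ≤ K} := by
    ext ω
    simp only [mem_preimage, hA2, mem_ofPred_eq, hU, ps_walk X ω (le_refl M)]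
  have e3 : (fun ω => (U ω, V ω)) ⁻¹' S ⊆ {ω | (fun i : Fin M => X i ω) ∈ A ∧
      θ ≤ ∑ n ∈ Finset.Icc 1 L, w (walk X (M + n) ω)} := by
    rintro ω ⟨⟨h1, -⟩, h4⟩
    refine ⟨h1, ?_⟩
    have h5 : θ ≤ ∑ n ∈ Finset.Icc 1 L, w (ps (U ω) M + ps (V ω) n) := h4
    refine h5.trans_eq (Finset.sum_congr rfl fun n hn => ?_)
    rw [hU, hV, ps_walk X ω (le_refl M), ps_shift X ω M (Finset.mem_Icc.mp hn).2]
  rw [e2] at hmain
  have h5 := hmain.trans (measure_mono e3)
  have h6 := ENNReal.toReal_mono (measure_ne_top _ _) h5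
  rwa [ENNReal.toReal_mul, ENNReal.toReal_ofReal hp.le] at h6

/-- dropping the first `M` terms -/
lemma sum_shift {w : ℝ → ℝ} (hw : ∀ t, 0 ≤ w t) (s : ℕ → ℝ) (M N : ℕ) :
    ∑ n ∈ Finset.Icc 1 (N - M), w (s (M + n)) ≤ ∑ n ∈ Finset.Icc 1 N, w (s n) := by
  have h1 : ∑ n ∈ Finset.Icc 1 (N - M), w (s (M + n)) =
      ∑ n ∈ (Finset.Icc 1 (N - M)).image (fun n => M + n), w (s n) := by
    rw [Finset.sum_image]
    intro a _ b _ h
    simpa using h
  rw [h1]
  refine Finset.sum_le_sum_of_subset_of_nonneg ?_ fun n _ _ => hw _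
  intro n hn
  obtain ⟨m, hm, rfl⟩ := Finset.mem_image.mp hn
  rw [Finset.mem_Icc] at hm ⊢
  omega

end ZOW_

open ZEROONE_ ZOW_ in
theorem p_ZOW : P_ZOW := by
  intro Ω _ P _ X hX p hp w θ N hD hw0 hh
  set E : ℕ → Set Ω := fun j =>
    {ω | θ j ≤ ∑ n ∈ Finset.Icc 1 (N j), w j (walk X n ω)} with hE
  have hwm : ∀ n, Measurable (walk X n) := by
    intro n
    unfold walk
    exact Finset.measurable_sum _ fun i _ => hX.measurable i
  have hEm : ∀ j, MeasurableSet (E j) := by
    intro j
    refine measurableSet_le measurable_const ?_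
    exact Finset.measurable_sum _ fun n _ => (hD j).comp (hwm n)
  -- no hits from `J` on
  have hnull : ∀ J : ℕ, P.real (⋂ i ∈ Ici J, (E i)ᶜ) = 0 := by
    intro J
    set Y : Set Ω := ⋂ i ∈ Ici J, (E i)ᶜ with hY
    set B : ℕ → Set Ω := fun r => ⋂ i ∈ Finset.Icc J (J + r), (E i)ᶜ with hB
    have hYB : ∀ r, Y ⊆ B r := by
      intro r ω hω
      simp only [hY, hB, mem_iInter] at hω ⊢
      intro i hi
      exact hω i (Finset.mem_Icc.mp hi).1
    have hBm : ∀ r, MeasurableSet (B r) := fun r =>
      Finset.measurableSet_biInter _ fun i _ => (hEm i).compl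
    have hYm : MeasurableSet Y :=
      MeasurableSet.iInter fun i => MeasurableSet.iInter fun _ => (hEm i).compl
    -- one step
    have hstep : ∀ r : ℕ, P.real Y ≤ (1 - p) * P.real (B r) := by
      intro r
      obtain ⟨M, hM⟩ : ∃ M : ℕ, ∀ i ∈ Finset.Icc J (J + r), N i ≤ M := by
        refine ⟨(Finset.Icc J (J + r)).sup N, fun i hi => Finset.le_sup hi⟩
      set A : Set (Fin M → ℝ) := ⋂ i ∈ Finset.Icc J (J + r),
        ((fun u : Fin M → ℝ => ((0 : ℝ), fun k : Fin (N i) =>
          if h : (k : ℕ) < M then u ⟨k, h⟩ else 0)) ⁻¹' (big (N i) (w i) (θ i)))ᶜ with hAdef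
      have hA : MeasurableSet A := by
        refine Finset.measurableSet_biInter _ fun i _ => MeasurableSet.compl ?_
        apply Measurable.comp (g := id) measurable_id _ (measurableSet_big (N i) (hD i) (θ i))
        refine measurable_const.prodMk (measurable_pi_lambda _ fun k => ?_)
        by_cases h : (k : ℕ) < M
        · simp only [h, dif_pos]
          exact measurable_pi_apply _
        · simp only [h, dif_neg, not_false_iff]
          exact measurable_const
      have hAB : ∀ ω, (fun i : Fin M => X i ω) ∈ A ↔ ω ∈ B r := by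
        intro ω
        simp only [hAdef, hB, mem_iInter, mem_compl_iff, mem_preimage]
        refine forall_congr' fun i => forall_congr' fun hi => not_congr ?_
        simp only [big, hE, mem_ofPred_eq, zero_add]
        have e1 : (fun k : Fin (N i) => if h : (k : ℕ) < M then
            X ((⟨k, h⟩ : Fin M) : ℕ) ω else 0) = fun k : Fin (N i) => X k ω := by
          funext k
          have : (k : ℕ) < M := k.isLt.trans_le (hM i hi)
          simp only [this, dif_pos]
        rw [e1]
        have e2 : ∑ n ∈ Finset.Icc 1 (N i), w i (ps (fun k : Fin (N i) => X k ω) n) =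
            ∑ n ∈ Finset.Icc 1 (N i), w i (walk X n ω) := by
          refine Finset.sum_congr rfl fun n hn => ?_
          rw [ps_walk X ω (Finset.mem_Icc.mp hn).2]
        rw [e2]
      -- the truncation
      have hlim : Tendsto (fun k : ℕ => P.real {ω | (fun i : Fin M => X i ω) ∈ A ∧
          |walk X M ω| ≤ (k : ℝ)}) atTop (𝓝 (P.real (B r))) := by
        have hun : ⋃ k : ℕ, {ω | (fun i : Fin M => X i ω) ∈ A ∧ |walk X M ω| ≤ (k : ℝ)} =
            B r := by
          ext ω
          simp only [mem_iUnion, mem_ofPred_eq, hAB]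
          constructor
          · rintro ⟨k, h, -⟩
            exact h
          · intro h
            obtain ⟨k, hk⟩ := exists_nat_ge |walk X M ω|
            exact ⟨k, h, hk⟩
        rw [← hun]
        have hmono : Monotone fun k : ℕ => {ω | (fun i : Fin M => X i ω) ∈ A ∧
            |walk X M ω| ≤ (k : ℝ)} := by
          intro k k' hk ω hω
          exact ⟨hω.1, hω.2.trans (by exact_mod_cast hk)⟩
        have := tendsto_measure_iUnion_atTop (μ := P) hmono
        exact (ENNReal.tendsto_toReal (measure_ne_top _ _)).comp this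
      have hbound : ∀ k : ℕ, p * P.real {ω | (fun i : Fin M => X i ω) ∈ A ∧
          |walk X M ω| ≤ (k : ℝ)} ≤ P.real (B r) - P.real Y := by
        intro k
        obtain ⟨j, hj, hjJ⟩ := ((hh M k).and (eventually_ge_atTop J)).exists
        have h1 := ZOW_.key P X hX hp M (N j - M) k (hD j) (θ j) hj hA
        refine h1.trans ?_
        have hsub : {ω | (fun i : Fin M => X i ω) ∈ A ∧
            θ j ≤ ∑ n ∈ Finset.Icc 1 (N j - M), w j (walk X (M + n) ω)} ⊆ B r \ Y := by
          rintro ω ⟨h1, h4⟩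
          refine ⟨(hAB ω).mp h1, fun hω => ?_⟩
          simp only [hY, mem_iInter] at hω
          exact hω j hjJ (h4.trans (sum_shift (hw0 j) (fun n => walk X n ω) M (N j)))
        exact (measureReal_mono hsub).trans_eq (measureReal_sdiff (hYB r) hYm)
      have := le_of_tendsto' (hlim.const_mul p) hbound
      nlinarith
    -- the limit `r → ∞`
    have hlimB : Tendsto (fun r : ℕ => P.real (B r)) atTop (𝓝 (P.real Y)) := by
      have hin : ⋂ r : ℕ, B r = Y := by
        ext ω
        simp only [hY, hB, mem_iInter]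
        constructor
        · intro h i hi
          exact h i i (Finset.mem_Icc.mpr ⟨hi, by omega⟩)
        · intro h r i hi
          exact h i (Finset.mem_Icc.mp hi).1
      rw [← hin]
      have hanti : Antitone B := by
        intro r r' hr ω hω
        simp only [hB, mem_iInter] at hω ⊢
        intro i hi
        have := Finset.mem_Icc.mp hi
        exact hω i (Finset.mem_Icc.mpr ⟨this.1, by omega⟩)
      have := tendsto_measure_iInter_atTop (μ := P)
        (fun r => (hBm r).nullMeasurableSet) hanti ⟨0, measure_ne_top _ _⟩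
      exact (ENNReal.tendsto_toReal (measure_ne_top _ _)).comp this
    have h1 : P.real Y ≤ (1 - p) * P.real Y :=
      ge_of_tendsto' (hlimB.const_mul (1 - p)) hstep
    have h2 : 0 ≤ P.real Y := measureReal_nonneg
    nlinarith
  have hae : ∀ J : ℕ, ∀ᵐ ω ∂P, ω ∉ ⋂ i ∈ Ici J, (E i)ᶜ := by
    intro J
    rw [← measure_eq_zero_iff_ae_notMem]
    exact (measureReal_eq_zero_iff).mp (hnull J)
  rw [← ae_all_iff] at hae
  filter_upwards [hae] with ω hω
  rw [frequently_atTop]
  intro J
  have := hω J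
  simp only [mem_iInter, not_forall] at this
  obtain ⟨i, hi, h⟩ := this
  exact ⟨i, hi, by simpa [hE] using h⟩

end Pool.Agent.CW
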